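import Pool.Agent.MP_037c5a_pr.Fam

open MeasureTheory Finset ProbabilityTheory

namespace Pool.Agent.MP_037c5a_pr

theorem conc_finset (hc : StmtConc) {ι : Type} [Fintype ι] {Ω : Type} [MeasurableSpace Ω]
    (μ : Measure Ω) [IsProbabilityMeasure μ] (s : Finset ι) (S : ι → Ω → ℝ) (b : ℝ) (hb : 0 < b)
    (hm : ∀ i, Measurable (S i)) (hS : ∀ i ω, 0 ≤ S i ω ∧ S i ω ≤ b) :
    (∀ V y : ℝ, 0 < V → 0 ≤ y → ∑ i ∈ s, ∫ ω, S i ω ^ 2 ∂μ ≤ V →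
      (Measure.pi fun _ : ι => μ) {ω | ∑ i ∈ s, S i (ω i) ≤ ∑ i ∈ s, ∫ x, S i x ∂μ - y} ≤
        ENNReal.ofReal (Real.exp (-(y ^ 2 / (2 * V))))) ∧
    (∀ V y : ℝ, 0 < V → 0 ≤ y → y * b ≤ 2 * V → ∑ i ∈ s, ∫ ω, S i ω ^ 2 ∂μ ≤ V →
      (Measure.pi fun _ : ι => μ) {ω | ∑ i ∈ s, ∫ x, S i x ∂μ + y ≤ ∑ i ∈ s, S i (ω i)} ≤
        ENNReal.ofReal (Real.exp (-(y ^ 2 / (4 * V))))) ∧
    (∀ m W : ℝ, ∑ i ∈ s, ∫ ω, S i ω ∂μ ≤ m →
      (Measure.pi fun _ : ι => μ) {ω | W ≤ ∑ i ∈ s, S i (ω i)} ≤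
        ENNReal.ofReal (Real.exp (-((W - 2 * m) / b)))) ∧
    (∀ lam V₁ V₂ : ℝ, 0 < lam → lam * b ≤ 1 / 2 →
      V₁ ≤ ∑ i ∈ s, (∫ ω, S i ω ^ 2 ∂μ - (∫ ω, S i ω ∂μ) ^ 2) → ∑ i ∈ s, ∫ ω, S i ω ^ 2 ∂μ ≤ V₂ →
      (Measure.pi fun _ : ι => μ)
        {ω | ∑ i ∈ s, S i (ω i) < ∑ i ∈ s, ∫ x, S i x ∂μ + (lam * V₁ / 4 - 1 / lam)} ≤
        ENNReal.ofReal (1 - Real.exp (-(4 * lam ^ 2 * V₂)) / 4)) := by
  classical
  have H := hc ι Ω μ (fun i ω => if i ∈ s then S i ω else 0) b hb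
    (fun i => by by_cases h : i ∈ s <;> simp [h, hm i])
    (fun i ω => by by_cases h : i ∈ s <;> simp [h, hS i ω, hb.le])
  have e0 : ∀ F : ι → ℝ, ∑ i, (if i ∈ s then F i else 0) = ∑ i ∈ s, F i := fun F => by simp
  have e1 : ∀ i, ∫ ω, (if i ∈ s then S i ω else 0) ∂μ = if i ∈ s then ∫ ω, S i ω ∂μ else 0 :=
    fun i => by by_cases h : i ∈ s <;> simp [h]
  have e2 : ∀ i, ∫ ω, (if i ∈ s then S i ω else 0) ^ 2 ∂μ =
      if i ∈ s then ∫ ω, S i ω ^ 2 ∂μ else 0 :=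
    fun i => by by_cases h : i ∈ s <;> simp [h]
  have e3 : ∀ i, ((if i ∈ s then ∫ ω, S i ω ^ 2 ∂μ else 0) -
      (if i ∈ s then ∫ ω, S i ω ∂μ else 0) ^ 2) =
      if i ∈ s then (∫ ω, S i ω ^ 2 ∂μ - (∫ ω, S i ω ∂μ) ^ 2) else 0 :=
    fun i => by by_cases h : i ∈ s <;> simp [h]
  simp only [e1, e2, e3, e0] at H
  exact H

theorem energy_finset (he : StmtEnergy) {ι : Type} [Fintype ι] {Ω : Type} [MeasurableSpace Ω]
    (μ : Measure Ω) [IsProbabilityMeasure μ] (s : Finset ι) (K : ℕ) (hK : 1 ≤ K)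
    (ξ : ι → Ω → ℕ → ℕ → ℝ) (δ : ℝ) (hm : ∀ i a b, Measurable fun ω => ξ i ω a b) (h0 : 0 ≤ δ)
    (h1 : δ ≤ 1 / 10) (hb : ∀ i ω a b, |ξ i ω a b| ≤ δ) (hz : ∀ i a b, ∫ ω, ξ i ω a b ∂μ = 0)
    (hc : (s.card : ℝ) * δ ^ 3 ≤ 1 / 100000) :
    (Measure.pi fun _ : ι => μ)
      {ω | ¬ (EnGe K (fun a b => Real.exp (∑ i ∈ s, ξ i (ω i) a b)) (1 / 7) ∨
              EnGe K (fun a b => Real.exp (∑ i ∈ s, ξ i (ω i) b a)) (1 / 7))} ≤
      ENNReal.ofReal (2 / 3) := by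
  have H := he s Ω μ K hK (fun i => ξ i) δ (fun i => hm i) h0 h1 (fun i => hb i) (fun i => hz i)
    (by simpa using hc)
  have hr : MeasurePreserving (s.restrict : (ι → Ω) → (s → Ω)) (Measure.pi fun _ : ι => μ)
      (Measure.pi fun _ : s => μ) := by
    refine ⟨Finset.measurable_restrict s, ?_⟩
    have := Measure.infinitePi_map_restrict (fun _ : ι => μ) (I := s)
    rwa [Measure.infinitePi_eq_pi] at this
  refine le_trans (le_of_eq ?_) ((hr.measure_preimage_le _).trans H)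
  congr 1
  ext ω
  simp only [Set.mem_ofPred_eq, Set.mem_preimage, Finset.restrict]
  have e : ∀ a b, ∑ i : s, ξ i (ω i) a b = ∑ i ∈ s, ξ i (ω i) a b := fun a b =>
    sum_coe_sort s fun i => ξ i (ω i) a b
  simp only [e]

noncomputable def Glob.gm (g : Glob) : ℝ := 1 + Real.log g.q
noncomputable def Glob.zeta (g : Glob) : ℝ := g.η * (3 * (g.D + 1) ^ 2 * ((g.q : ℝ) / g.q0) ^ 2)
noncomputable def Glob.eps (g : Glob) : ℝ := 2 * g.q0 / g.q + 4 * Real.exp (-(g.D ^ 2 / 4))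
noncomputable def Glob.tl (g : Glob) (k : ℕ) : ℝ :=
  (1 + Real.exp (2 * g.D ^ 2) * g.q / g.q0) *
    Real.exp (-(g.bb / (8 * g.D ^ 2 * (1 + Real.log (k + 1)))))

theorem Glob.one_le_gm (g : Glob) : 1 ≤ g.gm := by
  have := Real.log_natCast_nonneg g.q
  unfold Glob.gm
  linarith

theorem Glob.tl_nonneg (g : Glob) (k : ℕ) : 0 ≤ g.tl k := by
  unfold Glob.tl
  positivity

/-- numerical hypotheses of one refinement stage -/
structure StOK (g : Glob) (Hm loss V πc : ℝ) (p k : ℕ) (M : ℝ) : Prop where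
  mom : MomHyp g.q g.q0 p k g.bb g.D M g.η
  bb1 : 1 ≤ g.bb
  hloss : (2 * g.zeta + g.eps) * (Hm + g.gm) + g.W * ((k + 1) * g.gm * g.tl k) ≤ loss
  V0 : 0 < V
  hV : 2 * (3 * g.gm + (1 + Real.log (k + 1))) * (Hm + g.gm) ≤ V
  hπ : Real.exp (-((g.W - 2 * (22 * g.D ^ 2 * (Hm + g.gm))) / g.bb)) ≤ πc

theorem Si_bd (hM : StmtMom) (g : Glob) (hq0 : 1 ≤ g.q0) (p k : ℕ) (M : ℝ) {ι : Type}
    (A B : ι → E) (z : E) (i : ι) (β : Fin k → E) :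
    0 ≤ Si g p k M A B z i β ∧ Si g p k M A B z i β ≤ g.bb * g.gm := by
  refine ⟨sum_nonneg fun l _ => (hM.gk_bd _ _ _ _ hq0).1, ?_⟩
  refine (sum_le_card_nsmul _ _ g.gm fun l _ => (hM.gk_bd _ _ _ _ hq0).2).trans ?_
  rw [nsmul_eq_mul]
  refine mul_le_mul_of_nonneg_right ?_ (by linarith [g.one_le_gm])
  exact_mod_cast keep_card _ _ _ _ _ _ _ _ _

theorem Ci_bd (g : Glob) (p k : ℕ) (M : ℝ) {ι : Type}
    (A B : ι → E) (z : E) (i : ι) (β : Fin k → E) :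
    0 ≤ Ci g p k M A B z i β ∧ Ci g p k M A B z i β ≤ g.bb :=
  ⟨Nat.cast_nonneg _, by unfold Ci Cv; exact_mod_cast keep_card _ _ _ _ _ _ _ _ _⟩

theorem meas_Sz (hM : StmtMom) (g : Glob) (p k : ℕ) (M : ℝ) {ι : Type} (s : Finset ι)
    (A B : ι → E) (z : E) : Measurable (Sz g p k M s A B z) :=
  Finset.measurable_sum _ fun i _ => (hM.meas_S _ _ _ _ _ _ _ _).comp (measurable_pi_apply i)

theorem meas_Cz (hM : StmtMom) (g : Glob) (p k : ℕ) (M : ℝ) {ι : Type} (s : Finset ι)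
    (A B : ι → E) (z : E) : Measurable (Cz g p k M s A B z) :=
  Finset.measurable_sum _ fun i _ => (hM.meas_C _ _ _ _ _ _ _ _).comp (measurable_pi_apply i)

/-- all tail bounds of one stage -/
theorem beta_facts (hC : StmtChain) (hM : StmtMom) (hc : StmtConc) {g : Glob}
    {Hm loss V πc : ℝ} {p k : ℕ} {M : ℝ} (H : StOK g Hm loss V πc p k M) {ι : Type} [Fintype ι]
    {s : Finset ι} {A B : ι → E} {h : ℝ} (hok : OK g s A B h)
    (hup : ∑ i ∈ s, gk g.q g.q0 (A i) (B i) ≤ Hm + g.gm) {z : E} (hz : ‖z‖ + g.D / M ≤ g.η) :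
    h - loss ≤ mz g p k M s A B z ∧
    (∀ y : ℝ, 0 ≤ y → (Measure.pi fun _ : ι => nu k)
      {β | Sz g p k M s A B z β ≤ mz g p k M s A B z - y} ≤
        ENNReal.ofReal (Real.exp (-(y ^ 2 / (2 * V))))) ∧
    (∀ y : ℝ, 0 ≤ y → y * (g.bb * g.gm) ≤ 2 * V → (Measure.pi fun _ : ι => nu k)
      {β | mz g p k M s A B z + y ≤ Sz g p k M s A B z β} ≤
        ENNReal.ofReal (Real.exp (-(y ^ 2 / (4 * V))))) ∧
    ((Measure.pi fun _ : ι => nu k) {β | g.W ≤ Cz g p k M s A B z β} ≤ ENNReal.ofReal πc) ∧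
    (∀ lam V₁ hl : ℝ, 0 < lam → lam * (g.bb * g.gm) ≤ 1 / 2 → 2 * g.D ^ 2 + 1 ≤ p → hl ≤ h →
      4 * g.gm ≤ Real.log (p / (2 * g.D ^ 2 + 1)) / 400 →
      V₁ ≤ (Real.log (p / (2 * g.D ^ 2 + 1)) / 400 - 4 * g.gm) * hl -
        g.W * (((k + 1) * g.gm) ^ 2 * g.tl k) →
      (Measure.pi fun _ : ι => nu k)
        {β | Sz g p k M s A B z β < mz g p k M s A B z + (lam * V₁ / 4 - 1 / lam)} ≤
        ENNReal.ofReal (1 - Real.exp (-(4 * lam ^ 2 * V)) / 4)) := by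
  have := hC.nu_prob k
  have hq0 := H.mom.hq0
  have hgm := g.one_le_gm
  have hbb : (1 : ℝ) ≤ g.bb := by exact_mod_cast H.bb1
  have htl := g.tl_nonneg k
  have mom := fun i (hi : i ∈ s) => hM.mom _ _ _ _ _ _ _ _ H.mom (A i) (B i) z (hok.cut i hi).1
    (hok.cut i hi).2 hz g.zeta (1 + Real.log (k + 1)) g.gm (g.tl k) rfl rfl rfl rfl
  have hg := fun i => hM.gk_bd g.q g.q0 (A i) (B i) hq0
  have hsum0 : 0 ≤ ∑ i ∈ s, gk g.q g.q0 (A i) (B i) := sum_nonneg fun i _ => (hg i).1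
  have hlog : 0 ≤ Real.log ((k : ℝ) + 1) := Real.log_nonneg (by linarith [Nat.cast_nonneg (α := ℝ) k])
  obtain ⟨c1, c2, -, c4⟩ := conc_finset hc (nu k) s (Si g p k M A B z) (g.bb * g.gm)
    (by positivity) (fun i => hM.meas_S _ _ _ _ _ _ _ _) (Si_bd hM g hq0 p k M A B z)
  obtain ⟨-, -, c3, -⟩ := conc_finset hc (nu k) s (Ci g p k M A B z) g.bb
    (by positivity) (fun i => hM.meas_C _ _ _ _ _ _ _ _) (Ci_bd g p k M A B z)
  have hV : ∑ i ∈ s, ∫ β, Si g p k M A B z i β ^ 2 ∂nu k ≤ V := by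
    refine le_trans (sum_le_sum fun i hi => (mom i hi).2.2.2.1) ?_
    rw [← mul_sum]
    exact (mul_le_mul_of_nonneg_left hup (by positivity)).trans H.hV
  refine ⟨?_, fun y hy => c1 V y H.V0 hy hV, fun y hy hy' => c2 V y H.V0 hy hy' hV, ?_, ?_⟩
  · have hζ : 0 ≤ g.zeta := by
      have h1 := H.mom.hη1
      have : 0 ≤ g.η := le_trans (by positivity) h1
      unfold Glob.zeta
      positivity
    have hε : 0 ≤ g.eps := by unfold Glob.eps; positivity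
    refine le_trans ?_ (sum_le_sum fun i hi => (mom i hi).1)
    rw [sum_sub_distrib, ← mul_sum, sum_const, nsmul_eq_mul]
    have e : 1 - 2 * (g.q0 : ℝ) / g.q - 4 * Real.exp (-(g.D ^ 2 / 4)) = 1 - g.eps := by
      unfold Glob.eps; ring
    rw [e]
    have h1 := H.hloss
    have h2 := mul_le_mul_of_nonneg_right hok.card
      (show 0 ≤ ((k : ℝ) + 1) * g.gm * g.tl k by positivity)
    have h3 := mul_le_mul_of_nonneg_left hup (show 0 ≤ 2 * g.zeta + g.eps by positivity)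
    have h4 := hok.ht
    have h5 : 0 ≤ g.zeta * g.eps * ∑ i ∈ s, gk g.q g.q0 (A i) (B i) := by positivity
    nlinarith
  · refine (c3 (22 * g.D ^ 2 * (Hm + g.gm)) g.W ?_).trans (ENNReal.ofReal_le_ofReal H.hπ)
    refine le_trans (sum_le_sum fun i hi => (mom i hi).2.2.1) ?_
    rw [← mul_sum]
    exact mul_le_mul_of_nonneg_left hup (by positivity)
  · intro lam V₁ hl h0 h1 h2 h3 h4 h5
    refine c4 lam V₁ V h0 h1 (h5.trans ?_) hV
    have hi : ∀ i ∈ s, (Real.log (p / (2 * g.D ^ 2 + 1)) / 400 - 4 * g.gm) *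
        gk g.q g.q0 (A i) (B i) - ((k + 1) * g.gm) ^ 2 * g.tl k ≤
        ∫ β, Si g p k M A B z i β ^ 2 ∂nu k - (∫ β, Si g p k M A B z i β ∂nu k) ^ 2 := by
      intro i hi
      have a1 := (mom i hi).2.2.2.2 h2
      have a2 := (mom i hi).2.1
      have a3 : 0 ≤ ∫ β, Si g p k M A B z i β ∂nu k :=
        integral_nonneg fun β => (Si_bd hM g hq0 p k M A B z i β).1
      have a4 : (∫ β, Si g p k M A B z i β ∂nu k) ^ 2 ≤ (2 * gk g.q g.q0 (A i) (B i)) ^ 2 :=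
        pow_le_pow_left₀ a3 a2 2
      have a5 := mul_le_mul_of_nonneg_left (hg i).2 (hg i).1
      unfold Si at a4 ⊢
      unfold Glob.gm at a1 ⊢
      nlinarith
    refine le_trans ?_ (sum_le_sum hi)
    rw [sum_sub_distrib, ← mul_sum, sum_const, nsmul_eq_mul]
    have h6 := mul_le_mul_of_nonneg_right hok.card
      (show 0 ≤ (((k : ℝ) + 1) * g.gm) ^ 2 * g.tl k by positivity)
    have h7 := mul_le_mul_of_nonneg_left (h3.trans hok.ht) (sub_nonneg.2 h4)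
    linarith

end Pool.Agent.MP_037c5a_pr
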