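import Pool.Agent.MP_037c5a_pr.Chain2

open MeasureTheory Finset

namespace Pool.Agent.MP_037c5a_pr

namespace Ch

/-- indicator of the closed disc -/
noncomputable def ib (D : ℝ) (x : E) : ENNReal := (Metric.closedBall (0 : E) D).indicator 1 x

theorem ib_meas (D : ℝ) : Measurable (ib D) :=
  measurable_const.indicator Metric.isClosed_closedBall.measurableSet

theorem ib_of_le {D : ℝ} {x : E} (h : ‖x‖ ≤ D) : ib D x = 1 := by
  unfold ib
  rw [Set.indicator_of_mem (by simpa using h)]
  rfl

theorem ib_of_not {D : ℝ} {x : E} (h : ¬ ‖x‖ ≤ D) : ib D x = 0 := by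
  unfold ib
  rw [Set.indicator_of_notMem (by simpa using h)]

/-- expected number of visits to the disc in `m` steps -/
noncomputable def GG (D : ℝ) : ℕ → E → ENNReal
  | 0, _ => 0
  | m + 1, x => ∫⁻ y, g 1 (y - x) * (ib D y + GG D m y)

theorem heat_meas (t : ℝ) (f : E → ENNReal) (hf : Measurable f) :
    Measurable fun x => ∫⁻ y, g t (y - x) * f y :=
  Measurable.lintegral_prod_right' (f := fun p : E × E => g t (p.2 - p.1) * f p.2)
    (mmul (g2_meas t) (hf.comp measurable_snd))

theorem GG_meas (D : ℝ) : ∀ m, Measurable (GG D m)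
  | 0 => measurable_const
  | m + 1 => heat_meas 1 _ ((ib_meas D).add (GG_meas D m))

theorem heat_ib {D s : ℝ} (hD : 0 < D) (hs : 0 < s) (x : E) :
    ∫⁻ y, g s (y - x) * ib D y ≤ ENNReal.ofReal (D ^ 2 / 2 * s⁻¹) := by
  have hpi := Real.pi_pos
  calc ∫⁻ y, g s (y - x) * ib D y ≤ ∫⁻ y, ENNReal.ofReal ((2 * Real.pi * s)⁻¹) * ib D y := by
        refine lintegral_mono fun y => ?_
        exact mul_le_mul_left (ENNReal.ofReal_le_ofReal (ph_le hs _)) _
    _ = ENNReal.ofReal ((2 * Real.pi * s)⁻¹) * volume (Metric.closedBall (0 : E) D) := by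
        rw [lintegral_const_mul _ (ib_meas D)]
        unfold ib
        rw [lintegral_indicator_one Metric.isClosed_closedBall.measurableSet]
    _ = _ := by
        rw [EuclideanSpace.volume_closedBall_fin_two, ← ENNReal.ofReal_pow hD.le,
          ← ENNReal.ofReal_mul (by positivity), ← ENNReal.ofReal_mul (by positivity)]
        congr 1
        field_simp

theorem heat_GG {D : ℝ} (hD : 0 < D) : ∀ (m s : ℕ) (x : E),
    ∫⁻ y, g (s + 1) (y - x) * (ib D y + GG D m y) ≤
      ENNReal.ofReal (D ^ 2 / 2 * ∑ i ∈ range (m + 1), ((s + i + 1 : ℕ) : ℝ)⁻¹)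
  | 0, s, x => by
    have h := heat_ib hD (s := s + 1) (by positivity) x
    simpa [GG] using h
  | m + 1, s, x => by
    have h := heat_ib hD (s := s + 1) (by positivity) x
    have ih := heat_GG hD m (s + 1) x
    simp_rw [mul_add]
    have hm : Measurable fun y : E => g (s + 1) (y - x) * ib D y :=
      mmul ((g_meas _).comp (measurable_sub_const _)) (ib_meas D)
    rw [lintegral_add_left hm]
    simp only [GG]
    rw [heat_heat (by positivity) one_pos (fun y => ib D y + GG D m y)
      ((ib_meas D).add (GG_meas D m)), sum_range_succ',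
      mul_add, add_comm (D ^ 2 / 2 * _),
      ENNReal.ofReal_add (by positivity) (by positivity)]
    refine add_le_add ?_ ?_
    · simpa using h
    · have e : ∀ i : ℕ, s + (i + 1) + 1 = s + 1 + i + 1 := fun i => by omega
      simp_rw [e]
      simpa using ih

theorem GG_le {D : ℝ} (hD : 0 < D) (m k : ℕ) (hmk : m ≤ k) (x : E) :
    GG D m x ≤ ENNReal.ofReal (2 * D ^ 2 * (1 + Real.log (k + 1))) := by
  rcases m with _ | m
  · simp [GG]
  have h := heat_GG hD m 0 x
  simp only [Nat.cast_zero, zero_add] at h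
  refine h.trans (ENNReal.ofReal_le_ofReal ?_)
  have h1 := harmonic_le_one_add_log (m + 1)
  have h2 : ((harmonic (m + 1) : ℚ) : ℝ) = ∑ i ∈ range (m + 1), ((i + 1 : ℕ) : ℝ)⁻¹ := by
    unfold harmonic
    push_cast
    rfl
  rw [h2] at h1
  have h3 : Real.log ((m + 1 : ℕ) : ℝ) ≤ Real.log (k + 1) := by
    apply Real.log_le_log (by positivity)
    have : ((m + 1 : ℕ) : ℝ) ≤ k := by exact_mod_cast hmk
    linarith
  have h4 : 0 ≤ Real.log ((k : ℝ) + 1) := Real.log_nonneg (by linarith [Nat.cast_nonneg (α := ℝ) k])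
  have h5 : 0 ≤ D ^ 2 := sq_nonneg D
  nlinarith

theorem prodib_meas (D : ℝ) (m : ℕ) (cc : ℕ → ENNReal) :
    Measurable fun ω : ℕ → E => ∏ l ∈ range m, (1 + cc l * ib D (ω (l + 1))) :=
  Finset.measurable_prod _ fun _ _ =>
    measurable_const.add (mmul measurable_const ((ib_meas D).comp (measurable_pi_apply _)))

theorem khas_aux {D : ℝ} (Q : E) (c Φ : ENNReal) (hc : c ≠ ⊤) (hΦ : Φ ≠ ⊤) (k : ℕ)
    (hG : ∀ m ≤ k, ∀ x, 2 * c * GG D m x ≤ 1) :
    ∀ m ≤ k, ∀ cc : ℕ → ENNReal, (∀ l, cc l ≤ c) →
      (∀ l < m, cc l ≠ 0 → ∀ u : E, ‖u‖ ≤ D → g ((m - l : ℕ) : ℝ) (Q - u) ≤ Φ) → ∀ x : E,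
      EX m x Q (fun ω => ∏ l ∈ range m, (1 + cc l * ib D (ω (l + 1)))) ≤
        g (m + 1) (Q - x) + Φ * (2 * c * GG D m x)
  | 0, _, cc, _, _, x => by
    simp only [range_zero, prod_empty]
    rw [EX_one]
    exact le_self_add
  | m + 1, hm, cc, h1, h2, x => by
    have ih := khas_aux Q c Φ hc hΦ k hG m (by omega) (fun l => cc (l + 1)) (fun l => h1 _)
      (fun l hl h0 u hu => by
        have := h2 (l + 1) (by omega) h0 u hu
        rwa [Nat.add_sub_add_right] at this)
    have hκ : Measurable (Function.uncurry fun (_ : E) (y : E) => 1 + cc 0 * ib D y) :=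
      measurable_const.add (mmul measurable_const ((ib_meas D).comp measurable_snd))
    have h := EX_peel m x Q (fun _ y => 1 + cc 0 * ib D y) hκ _
      (prodib_meas D m fun l => cc (l + 1))
    have e : (fun ω : ℕ → E => ∏ l ∈ range (m + 1), (1 + cc l * ib D (ω (l + 1)))) =
        fun ω => (1 + cc 0 * ib D (ω 1)) *
          ∏ l ∈ range m, (1 + cc (l + 1) * ib D (sh 1 ω (l + 1))) := by
      funext ω
      rw [prod_range_succ', mul_comm]
      rfl
    rw [e, h]
    have hb : ∀ y, g 1 (y - x) * (1 + cc 0 * ib D y) *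
        EX m y Q (fun ω => ∏ l ∈ range m, (1 + cc (l + 1) * ib D (ω (l + 1)))) ≤
        g 1 (y - x) * g (m + 1) (Q - y) + Φ * (2 * c) * (g 1 (y - x) * (ib D y + GG D m y)) := by
      intro y
      have i1 := ih y
      have i2 : cc 0 * ib D y *
          EX m y Q (fun ω => ∏ l ∈ range m, (1 + cc (l + 1) * ib D (ω (l + 1)))) ≤
          Φ * (2 * c) * ib D y := by
        by_cases h0 : cc 0 = 0
        · simp [h0]
        by_cases hy : ‖y‖ ≤ D
        · have i3 := h2 0 (by omega) h0 y hy
          rw [Nat.sub_zero] at i3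
          push_cast at i3
          have i4 := hG m (by omega) y
          rw [ib_of_le hy, mul_one, mul_one]
          calc _ ≤ c * (Φ + Φ * 1) := by
                refine mul_le_mul' (h1 0) (i1.trans (add_le_add i3 ?_))
                exact mul_le_mul_right i4 _
            _ = _ := by ring
        · simp [ib_of_not hy]
      calc _ = g 1 (y - x) * (EX m y Q (fun ω => ∏ l ∈ range m, (1 + cc (l + 1) * ib D (ω (l + 1)))) +
              cc 0 * ib D y *
                EX m y Q (fun ω => ∏ l ∈ range m, (1 + cc (l + 1) * ib D (ω (l + 1))))) := by ring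
        _ ≤ g 1 (y - x) * (g (m + 1) (Q - y) + Φ * (2 * c * GG D m y) + Φ * (2 * c) * ib D y) :=
            mul_le_mul_right (add_le_add i1 i2) _
        _ = _ := by ring
    refine (lintegral_mono hb).trans (le_of_eq ?_)
    have hm2 : Measurable fun y : E => g 1 (y - x) * g (m + 1) (Q - y) :=
      mmul ((g_meas _).comp (measurable_sub_const _))
        ((g_meas _).comp (measurable_const.sub measurable_id))
    rw [lintegral_add_left hm2, g_ck one_pos (by positivity),
      lintegral_const_mul' _ _ (ENNReal.mul_ne_top hΦ (ENNReal.mul_ne_top (by simp) hc))]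
    simp only [GG]
    push_cast
    rw [add_comm (1 : ℝ) ((m : ℝ) + 1), mul_assoc Φ]

theorem khas (k : ℕ) (P Q : E) (w : Finset ℕ) (D c Φ : ℝ) (hD : 0 < D) (hc : 0 ≤ c) (hΦ : 0 ≤ Φ)
    (hw : ∀ l ∈ w, 1 ≤ l ∧ l ≤ k)
    (hb : ∀ l ∈ w, ∀ u : E, ‖u‖ ≤ D → ph (k + 1 - l) (Q - u) ≤ Φ)
    (hs : c * (2 * D ^ 2 * (1 + Real.log (k + 1))) ≤ 1 / 2) :
    ∫⁻ β, ∏ l ∈ w, ENNReal.ofReal (1 + if ‖bp k P Q β l‖ ≤ D then c else 0) ∂nu k ≤
      ENNReal.ofReal (1 + Φ / ph (k + 1) (Q - P)) := by
  have hk : (0 : ℝ) < k + 1 := by positivity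
  have hG : ∀ m ≤ k, ∀ x, 2 * ENNReal.ofReal c * GG D m x ≤ 1 := by
    intro m hm x
    refine (mul_le_mul_right (GG_le hD m k hm x) _).trans ?_
    rw [mul_assoc, ← ENNReal.ofReal_mul hc, ← ENNReal.ofReal_ofNat 2,
      ← ENNReal.ofReal_mul (by norm_num), ← ENNReal.ofReal_one]
    exact ENNReal.ofReal_le_ofReal (by linarith)
  set cc : ℕ → ENNReal := fun l => if l + 1 ∈ w then ENNReal.ofReal c else 0 with hcc
  have h := khas_aux Q (ENNReal.ofReal c) (ENNReal.ofReal Φ) ENNReal.ofReal_ne_top
    ENNReal.ofReal_ne_top k hG k le_rfl cc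
    (fun l => by
      simp only [hcc]
      split_ifs
      · exact le_rfl
      · exact zero_le)
    (fun l hl h0 u hu => by
      have hl1 : l + 1 ∈ w := by
        by_contra hn
        exact h0 (by simp only [hcc, hn, if_false])
      have := hb _ hl1 u hu
      refine ENNReal.ofReal_le_ofReal (le_trans (le_of_eq ?_) this)
      congr 1
      rw [Nat.cast_sub hl.le]
      push_cast
      ring) P
  have h' := nu_EX k P Q _ (prodib_meas D k cc)
  have e : ∀ β, ∏ l ∈ w, ENNReal.ofReal (1 + if ‖bp k P Q β l‖ ≤ D then c else 0) =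
      ∏ l ∈ range k, (1 + cc l * ib D (pth P (β + lin k P Q) Q (l + 1))) := by
    intro β
    have e1 : ∏ l ∈ w, ENNReal.ofReal (1 + if ‖bp k P Q β l‖ ≤ D then c else 0) =
        ∏ l ∈ Ico 1 (k + 1),
          if l ∈ w then ENNReal.ofReal (1 + if ‖bp k P Q β l‖ ≤ D then c else 0) else 1 := by
      rw [prod_ite_mem]
      congr 1
      ext l
      simp only [mem_inter, mem_Ico]
      constructor
      · intro hl
        have := hw l hl
        exact ⟨⟨this.1, by omega⟩, hl⟩
      · exact fun hl => hl.2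
    rw [e1, prod_Ico_eq_prod_range, Nat.add_sub_cancel]
    refine prod_congr rfl fun l hl => ?_
    rw [pth_lin k P Q β (l + 1) (by have := mem_range.1 hl; omega), add_comm 1 l]
    simp only [hcc]
    by_cases h1 : l + 1 ∈ w
    · by_cases h2 : ‖bp k P Q β (l + 1)‖ ≤ D
      · simp only [h1, h2, if_true, ib_of_le h2, mul_one]
        rw [ENNReal.ofReal_add zero_le_one hc, ENNReal.ofReal_one]
      · simp [h1, h2, ib_of_not h2]
    · simp [h1]
  simp_rw [e]
  rw [h']
  calc _ ≤ (g (k + 1) (Q - P))⁻¹ * (g (k + 1) (Q - P) + ENNReal.ofReal Φ * 1) :=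
        mul_le_mul_right (h.trans (add_le_add le_rfl (mul_le_mul_right (hG k le_rfl P) _))) _
    _ = _ := by
        rw [mul_add, ENNReal.inv_mul_cancel (g_ne_zero hk _) (g_ne_top _ _), mul_one,
          ENNReal.ofReal_add zero_le_one (div_nonneg hΦ (ph_pos hk _).le), ENNReal.ofReal_one,
          ENNReal.ofReal_div_of_pos (ph_pos hk _), mul_comm]
        rfl

/-- running sums of the steps -/
noncomputable def ps (k : ℕ) (a : E) (c : Fin (k + 1) → E) (l : Fin k) : E :=
  a + ∑ i ∈ univ.filter (fun i : Fin (k + 1) => i.val ≤ l.val), c i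

theorem ps_meas {X : Type} [MeasurableSpace X] (k : ℕ) {a : X → E} {c : X → Fin (k + 1) → E}
    (ha : Measurable a) (hc : Measurable c) : Measurable fun x => ps k (a x) (c x) :=
  measurable_pi_lambda _ fun _ =>
    ha.add (Finset.measurable_sum _ fun i _ => (measurable_pi_apply i).comp hc)

theorem ps_cons (k : ℕ) (a c0 : E) (c : Fin (k + 1) → E) :
    ps (k + 1) a (Fin.cons c0 c) = Fin.cons (a + c0) (ps k (a + c0) c) := by
  funext l
  refine Fin.cases ?_ (fun l => ?_) l
  · simp [ps, sum_filter]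
  · simp [ps, sum_filter, Fin.sum_univ_succ, add_assoc]

theorem cons_meas {X : Type} [MeasurableSpace X] {k : ℕ} {a : X → E} {c : X → Fin k → E}
    (ha : Measurable a) (hc : Measurable c) :
    Measurable fun x => (Fin.cons (a x) (c x) : Fin (k + 1) → E) :=
  measurable_pi_lambda _ fun l => by
    refine Fin.cases ?_ (fun l => ?_) l
    · simpa using ha
    · simp only [Fin.cons_succ]
      exact (measurable_pi_apply l).comp hc

theorem walk_law : ∀ (k : ℕ) (a : E) (F : (Fin k → E) × E → ENNReal), Measurable F →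
    ∫⁻ c : Fin (k + 1) → E, F (ps k a c, a + ∑ i, c i) ∂(Measure.pi fun _ => gam) =
      ∫⁻ b, ∫⁻ y, W k a y b * F (y, b)
  | 0, a, F, hF => by
    have := gam_prob
    have hm : Measurable fun c : Fin (0 + 1) → E => F (ps 0 a c, a + ∑ i, c i) :=
      hF.comp ((ps_meas 0 measurable_const measurable_id).prodMk (by fun_prop))
    rw [lint_cons gam _ hm]
    have e : ∀ (c0 : E) (c : Fin 0 → E),
        F (ps 0 a (Fin.cons c0 c), a + ∑ i, (Fin.cons c0 c : Fin (0 + 1) → E) i) =
          F (default, a + c0) := by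
      intro c0 c
      congr 2
      · exact Subsingleton.elim _ _
      · simp
    have e2 : ∀ (b : E) (y : Fin 0 → E), W 0 a y b * F (y, b) = g 1 (b - a) * F (default, b) := by
      intro b y
      rw [Subsingleton.elim y default]
      rfl
    simp_rw [e, e2]
    simp only [lintegral_const, measure_univ, mul_one, volume_pi, Measure.pi_univ, univ_eq_empty,
      prod_empty]
    have hm3 : Measurable fun y0 : E => F (default, a + y0) :=
      hF.comp (measurable_const.prodMk (measurable_const_add a))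
    rw [gam_lint _ hm3,
      ← lintegral_add_left_eq_self (fun b => g 1 (b - a) * F (default, b)) a]
    simp
  | k + 1, a, F, hF => by
    have := gam_prob
    have hm : Measurable fun c : Fin (k + 1 + 1) → E => F (ps (k + 1) a c, a + ∑ i, c i) :=
      hF.comp ((ps_meas (k + 1) measurable_const measurable_id).prodMk (by fun_prop))
    rw [lint_cons gam _ hm]
    have e : ∀ c0 : E, ∫⁻ c : Fin (k + 1) → E, F (ps (k + 1) a (Fin.cons c0 c),
        a + ∑ i, (Fin.cons c0 c : Fin (k + 1 + 1) → E) i) ∂(Measure.pi fun _ => gam) =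
        ∫⁻ b, ∫⁻ y, W k (a + c0) y b * F (Fin.cons (a + c0) y, b) := by
      intro c0
      rw [← walk_law k (a + c0) (fun p => F (Fin.cons (a + c0) p.1, p.2))
        (hF.comp ((cons_meas measurable_const measurable_fst).prodMk measurable_snd))]
      refine lintegral_congr fun c => ?_
      rw [ps_cons, Fin.sum_univ_succ]
      simp [add_assoc]
    simp_rw [e]
    have hJ : Measurable fun p : (E × E) × (Fin k → E) =>
        W k p.1.1 p.2 p.1.2 * F (Fin.cons p.1.1 p.2, p.1.2) :=
      mmul (W_meas' k measurable_fst.fst measurable_snd measurable_fst.snd)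
        (hF.comp ((cons_meas measurable_fst.fst measurable_snd).prodMk measurable_fst.snd))
    have hI : Measurable fun p : E × E => ∫⁻ y, W k p.1 y p.2 * F (Fin.cons p.1 y, p.2) :=
      hJ.lintegral_prod_right'
    have hH : Measurable fun y0 : E => ∫⁻ b, ∫⁻ y, W k y0 y b * F (Fin.cons y0 y, b) :=
      hI.lintegral_prod_right'
    have hH' : Measurable fun y0 : E =>
        ∫⁻ b, ∫⁻ y, W k (a + y0) y b * F (Fin.cons (a + y0) y, b) :=
      hH.comp (measurable_const_add a)
    rw [gam_lint _ hH']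
    have e2 := lintegral_add_left_eq_self (μ := (volume : Measure E))
      (fun y0 => g 1 (y0 - a) * ∫⁻ b, ∫⁻ y, W k y0 y b * F (Fin.cons y0 y, b)) a
    simp only [add_sub_cancel_left] at e2
    rw [e2]
    simp_rw [← lintegral_const_mul' _ _ (g_ne_top _ _)]
    rw [lintegral_lintegral_swap]
    · refine lintegral_congr fun b => ?_
      have hm2 : Measurable fun y : Fin (k + 1) → E => W (k + 1) a y b * F (y, b) :=
        mmul (W_meas' _ measurable_const measurable_id measurable_const)
          (hF.comp (measurable_id.prodMk measurable_const))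
      rw [volume_pi (α := fun _ : Fin (k + 1) => E), lint_cons volume _ hm2]
      refine lintegral_congr fun y0 => lintegral_congr fun y => ?_
      rw [W_cons, mul_assoc]
    · refine Measurable.aemeasurable ?_
      exact (mmul ((g_meas 1).comp (measurable_fst.fst.sub measurable_const)) hJ).lintegral_prod_right'

theorem g_scale (k : ℕ) (M : ℝ) (hM : 0 < M) (hM2 : M ^ 2 = k + 1) (H : E → ENNReal)
    (hH : Measurable H) : ∫⁻ b, g (k + 1) b * H (M⁻¹ • b) = ∫⁻ x, g 1 x * H x := by
  have hk : (0 : ℝ) < k + 1 := by positivity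
  have hpi := Real.pi_pos
  have e : ∀ b : E, g (k + 1) b = ENNReal.ofReal ((M ^ 2)⁻¹) * g 1 (M⁻¹ • b) := by
    intro b
    unfold g ph
    rw [← ENNReal.ofReal_mul (by positivity), ← hM2, norm_smul, Real.norm_eq_abs,
      abs_of_pos (inv_pos.2 hM)]
    congr 1
    have : -‖b‖ ^ 2 / (2 * M ^ 2) = -(M⁻¹ * ‖b‖) ^ 2 / (2 * 1) := by
      field_simp
    rw [this]
    field_simp
  simp_rw [e, mul_assoc]
  rw [lintegral_const_mul' _ _ ENNReal.ofReal_ne_top]
  have hm : Measurable fun x : E => g 1 x * H x := mmul (g_meas 1) hH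
  have h := lintegral_map (μ := (volume : Measure E)) hm (measurable_const_smul M⁻¹)
  rw [Measure.map_addHaar_smul _ (inv_pos.2 hM).ne', lintegral_smul_measure] at h
  rw [← h, smul_eq_mul, ← mul_assoc, ← ENNReal.ofReal_mul (by positivity)]
  simp only [finrank_euclideanSpace, Fintype.card_fin, inv_pow, inv_inv]
  rw [abs_of_pos (by positivity), inv_mul_cancel₀ (by positivity), ENNReal.ofReal_one, one_mul]

end Ch

open Ch

theorem stmtChain : StmtChain where
  gam_prob := gam_prob
  nu_prob := nu_prob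
  ph_int := fun _ ht a => g_int ht a
  meas_bp := meas_bp
  one_edge := one_edge
  two_edge := two_edge
  khas := khas

theorem stmtSplit : StmtSplit := by
  intro k M hM hM2
  have := gam_prob
  have := nu_prob k
  have hT : Measurable fun p : (Fin k → E) × E => ((M⁻¹ • p.2, p.1 - lin k 0 p.2) : E × (Fin k → E)) := by
    refine Measurable.prodMk (by fun_prop) (measurable_fst.sub ?_)
    refine measurable_pi_lambda _ fun l => ?_
    unfold lin
    fun_prop
  have hS : Measurable fun c : Fin (k + 1) → E => ((ps k 0 c, 0 + ∑ i, c i) : (Fin k → E) × E) :=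
    (ps_meas k measurable_const measurable_id).prodMk (by fun_prop)
  have e : (fun c : Fin (k + 1) → E =>
        (M⁻¹ • ∑ i, c i,
          fun l : Fin k => (∑ i ∈ univ.filter (fun i : Fin (k + 1) => i.val ≤ l.val), c i) -
            (((l : ℝ) + 1) / (k + 1)) • ∑ i, c i)) =
      (fun p : (Fin k → E) × E => ((M⁻¹ • p.2, p.1 - lin k 0 p.2) : E × (Fin k → E))) ∘
        fun c : Fin (k + 1) → E => ((ps k 0 c, 0 + ∑ i, c i) : (Fin k → E) × E) := by
    funext c
    simp only [Function.comp_apply, zero_add]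
    congr 1
    funext l
    simp [ps, lin]
  rw [e]
  refine ⟨hT.comp hS, Measure.ext_of_lintegral _ fun G hG => ?_⟩
  rw [lintegral_map hG (hT.comp hS), lintegral_prod _ hG.aemeasurable,
    gam_lint _ hG.lintegral_prod_right', ← g_scale k M hM hM2 _ hG.lintegral_prod_right']
  have h := walk_law k 0 _ (hG.comp hT)
  simp only [Function.comp_apply] at h ⊢
  rw [h]
  refine lintegral_congr fun b => ?_
  have h2 := nu_drift k 0 b (fun y => G (M⁻¹ • b, y - lin k 0 b))
    (hG.comp (measurable_const.prodMk (measurable_sub_const _)))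
  rw [← h2]
  simp

end Pool.Agent.MP_037c5a_pr
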