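import Pool.Agent.MP_037c5a_pr.Stmts

open MeasureTheory Finset
open scoped RealInnerProductSpace

namespace Pool.Agent.MP_037c5a_pr.Ch

noncomputable def g (t : ℝ) (x : E) : ENNReal := ENNReal.ofReal (ph t x)

theorem g_ne_top (t : ℝ) (x : E) : g t x ≠ ⊤ := ENNReal.ofReal_ne_top

theorem ph_pos {t : ℝ} (ht : 0 < t) (x : E) : 0 < ph t x := by
  unfold ph
  have := Real.pi_pos
  positivity

theorem ph_cont (t : ℝ) : Continuous (ph t) := by
  unfold ph
  fun_prop

theorem g_meas (t : ℝ) : Measurable (g t) :=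
  ENNReal.measurable_ofReal.comp (ph_cont t).measurable

theorem ph_le {t : ℝ} (ht : 0 < t) (x : E) : ph t x ≤ (2 * Real.pi * t)⁻¹ := by
  unfold ph
  have := Real.pi_pos
  have h : Real.exp (-‖x‖ ^ 2 / (2 * t)) ≤ 1 := by
    rw [Real.exp_le_one_iff]
    apply div_nonpos_of_nonpos_of_nonneg
    · have := sq_nonneg ‖x‖
      linarith
    · positivity
  calc _ ≤ (2 * Real.pi * t)⁻¹ * 1 := by gcongr
    _ = _ := mul_one _

theorem ph_integrable {t : ℝ} (ht : 0 < t) : Integrable (ph t) := by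
  have hb : 0 < ((((2 * t)⁻¹ : ℝ) : ℂ)).re := by
    rw [Complex.ofReal_re]; positivity
  have h := (GaussianFourier.integrable_cexp_neg_mul_sq_norm_add (V := E) hb 0 0).norm
  have h2 : Integrable (fun v : E => Real.exp (-‖v‖ ^ 2 / (2 * t))) := by
    refine h.congr (Filter.Eventually.of_forall fun v => ?_)
    simp only [zero_mul, add_zero, Complex.norm_exp]
    congr 1
    have : (-(((2 * t)⁻¹ : ℝ) : ℂ) * (‖v‖ : ℂ) ^ 2) = ((-‖v‖ ^ 2 / (2 * t) : ℝ) : ℂ) := by
      push_cast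
      ring
    rw [this, Complex.ofReal_re]
  exact h2.const_mul _

theorem ph_integral {t : ℝ} (ht : 0 < t) : ∫ x, ph t x = 1 := by
  have h := GaussianFourier.integral_rexp_neg_mul_sq_norm (V := E) (b := (2 * t)⁻¹) (by positivity)
  have h1 : ∀ x : E, ph t x = (2 * Real.pi * t)⁻¹ * Real.exp (-(2 * t)⁻¹ * ‖x‖ ^ 2) := by
    intro x
    unfold ph
    congr 2
    ring
  simp_rw [h1]
  rw [integral_const_mul, h]
  have := Real.pi_pos
  simp only [finrank_euclideanSpace, Fintype.card_fin, Nat.cast_ofNat]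
  rw [div_self (by norm_num : (2 : ℝ) ≠ 0), Real.rpow_one]
  field_simp

theorem g_int0 {t : ℝ} (ht : 0 < t) : ∫⁻ y, g t y = 1 := by
  unfold g
  rw [← ofReal_integral_eq_lintegral_ofReal (ph_integrable ht)
    (Filter.Eventually.of_forall fun x => (ph_pos ht x).le), ph_integral ht, ENNReal.ofReal_one]

theorem g_int {t : ℝ} (ht : 0 < t) (a : E) : ∫⁻ y, g t (y - a) = 1 := by
  rw [lintegral_sub_right_eq_self (fun y => g t y) a, g_int0 ht]

theorem ph_ck {s t : ℝ} (hs : 0 < s) (ht : 0 < t) (a b y : E) :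
    ph s (y - a) * ph t (b - y) =
      ph (s + t) (b - a) * ph (s * t / (s + t)) (y - ((t / (s + t)) • a + (s / (s + t)) • b)) := by
  unfold ph
  have hpi := Real.pi_pos
  have e : -‖y - a‖ ^ 2 / (2 * s) + -‖b - y‖ ^ 2 / (2 * t) =
      -‖b - a‖ ^ 2 / (2 * (s + t)) +
        -‖y - ((t / (s + t)) • a + (s / (s + t)) • b)‖ ^ 2 / (2 * (s * t / (s + t))) := by
    simp only [EuclideanSpace.real_norm_sq_eq, Fin.sum_univ_two, PiLp.sub_apply, PiLp.add_apply,
      PiLp.smul_apply, smul_eq_mul]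
    field_simp
    ring
  rw [mul_mul_mul_comm, ← Real.exp_add, e, Real.exp_add, mul_mul_mul_comm (2 * Real.pi * (s + t))⁻¹]
  congr 1
  field_simp

theorem g_ck {s t : ℝ} (hs : 0 < s) (ht : 0 < t) (a b : E) :
    ∫⁻ y, g s (y - a) * g t (b - y) = g (s + t) (b - a) := by
  have h : ∀ y, g s (y - a) * g t (b - y) =
      g (s + t) (b - a) * g (s * t / (s + t)) (y - ((t / (s + t)) • a + (s / (s + t)) • b)) := by
    intro y
    unfold g
    rw [← ENNReal.ofReal_mul (ph_pos hs _).le, ph_ck hs ht,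
      ENNReal.ofReal_mul (ph_pos (by positivity) _).le]
  simp_rw [h]
  rw [lintegral_const_mul' _ _ (g_ne_top _ _), g_int (by positivity), mul_one]

theorem g2_meas (t : ℝ) : Measurable fun p : E × E => g t (p.2 - p.1) :=
  (g_meas t).comp (measurable_snd.sub measurable_fst)

/-- semigroup property -/
theorem heat_heat {s t : ℝ} (hs : 0 < s) (ht : 0 < t) (f : E → ENNReal) (hf : Measurable f) (a : E) :
    ∫⁻ y, g s (y - a) * ∫⁻ z, g t (z - y) * f z = ∫⁻ z, g (s + t) (z - a) * f z := by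
  have h1 : ∀ y, g s (y - a) * ∫⁻ z, g t (z - y) * f z =
      ∫⁻ z, g s (y - a) * (g t (z - y) * f z) := by
    intro y
    rw [lintegral_const_mul' _ _ (g_ne_top _ _)]
  simp_rw [h1]
  rw [lintegral_lintegral_swap]
  · refine lintegral_congr fun z => ?_
    simp_rw [← mul_assoc]
    rw [lintegral_mul_const, g_ck hs ht]
    exact ((g_meas _).comp (measurable_sub_const _)).mul
      ((g_meas _).comp (measurable_const.sub measurable_id))
  · exact ((((g_meas _).comp (measurable_fst.sub measurable_const))).mul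
      ((g2_meas t).mul (hf.comp measurable_snd))).aemeasurable

theorem g_ne_zero {t : ℝ} (ht : 0 < t) (x : E) : g t x ≠ 0 := by
  unfold g
  exact (ENNReal.ofReal_pos.2 (ph_pos ht x)).ne'

theorem lint_cons {n : ℕ} (μ : Measure E) [SigmaFinite μ] (F : (Fin (n + 1) → E) → ENNReal)
    (hF : Measurable F) :
    ∫⁻ y, F y ∂(Measure.pi fun _ => μ) =
      ∫⁻ y0, ∫⁻ y : Fin n → E, F (Fin.cons y0 y) ∂(Measure.pi fun _ => μ) ∂μ := by
  have h := (measurePreserving_piFinSuccAbove (fun _ : Fin (n + 1) => μ) 0).symm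
  rw [← h.lintegral_comp hF, lintegral_prod]
  · refine lintegral_congr fun y0 => lintegral_congr fun y => ?_
    congr 1
    simp [MeasurableEquiv.piFinSuccAbove_symm_apply, Fin.insertNthEquiv]
  · exact (hF.comp (MeasurableEquiv.measurable _)).aemeasurable

theorem cw_cont : ∀ k : ℕ, Continuous fun p : E × (Fin k → E) × E => cw k p.1 p.2.1 p.2.2
  | 0 => by
    simp only [cw]
    exact (ph_cont 1).comp (by fun_prop)
  | k + 1 => by
    simp only [cw]
    refine ((ph_cont 1).comp (by fun_prop)).mul ?_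
    have h : Continuous fun p : E × (Fin (k + 1) → E) × E =>
        ((p.2.1 0, Fin.tail p.2.1, p.2.2) : E × (Fin k → E) × E) := by
      refine Continuous.prodMk (by fun_prop) (Continuous.prodMk ?_ (by fun_prop))
      exact continuous_pi fun i => by unfold Fin.tail; fun_prop
    exact (cw_cont k).comp h

theorem cw_pos : ∀ (k : ℕ) (a : E) (y : Fin k → E) (b : E), 0 < cw k a y b
  | 0, _, _, _ => ph_pos one_pos _
  | k + 1, _, _, _ => mul_pos (ph_pos one_pos _) (cw_pos k _ _ _)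

noncomputable def W (k : ℕ) (a : E) (y : Fin k → E) (b : E) : ENNReal := ENNReal.ofReal (cw k a y b)

theorem W_meas (k : ℕ) : Measurable fun p : E × (Fin k → E) × E => W k p.1 p.2.1 p.2.2 :=
  ENNReal.measurable_ofReal.comp (cw_cont k).measurable

theorem W_meas' {X : Type} [MeasurableSpace X] (k : ℕ) {a b : X → E} {y : X → Fin k → E}
    (ha : Measurable a) (hy : Measurable y) (hb : Measurable b) :
    Measurable fun x => W k (a x) (y x) (b x) :=
  (W_meas k).comp (ha.prodMk (hy.prodMk hb))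

theorem W_cons (k : ℕ) (a y0 : E) (y : Fin k → E) (b : E) :
    W (k + 1) a (Fin.cons y0 y) b = g 1 (y0 - a) * W k y0 y b := by
  unfold W g
  rw [← ENNReal.ofReal_mul (ph_pos one_pos _).le]
  simp [cw]

theorem cw_drift (d : E) : ∀ (k : ℕ) (a v b : E) (β : Fin k → E),
    cw k (a + v) (fun l => β l + v + ((l : ℝ) + 1) • d) (b + v + ((k : ℝ) + 1) • d) =
      cw k a β b * Real.exp (-⟪d, b - a⟫ - ((k : ℝ) + 1) * ‖d‖ ^ 2 / 2)
  | 0, a, v, b, β => by
    simp only [cw, ph]
    rw [mul_assoc (2 * Real.pi * 1)⁻¹, ← Real.exp_add]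
    congr 2
    simp only [EuclideanSpace.real_norm_sq_eq, Fin.sum_univ_two, PiLp.sub_apply, PiLp.add_apply,
      PiLp.smul_apply, smul_eq_mul, PiLp.inner_apply, RCLike.inner_apply, conj_trivial]
    push_cast
    ring
  | k + 1, a, v, b, β => by
    have ih := cw_drift d k (β 0) (v + d) b (Fin.tail β)
    simp only [cw]
    have e1 : β 0 + v + ((((0 : Fin (k + 1)) : ℕ) : ℝ) + 1) • d = β 0 + (v + d) := by
      simp [add_assoc]
    have e2 : (Fin.tail fun l : Fin (k + 1) => β l + v + (((l : ℕ) : ℝ) + 1) • d) =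
        fun l : Fin k => Fin.tail β l + (v + d) + (((l : ℕ) : ℝ) + 1) • d := by
      funext l
      simp only [Fin.tail, Fin.val_succ]
      push_cast
      rw [add_smul ((l : ℝ) + 1) 1 d, one_smul]
      abel
    have e3 : b + v + (((k + 1 : ℕ) : ℝ) + 1) • d = b + (v + d) + ((k : ℝ) + 1) • d := by
      push_cast
      rw [add_smul ((k : ℝ) + 1) 1 d, one_smul]
      abel
    rw [e1, e2, e3, ih]
    simp only [ph]
    have e4 : Real.exp (-‖β 0 + (v + d) - (a + v)‖ ^ 2 / (2 * 1)) *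
        Real.exp (-⟪d, b - β 0⟫ - ((k : ℝ) + 1) * ‖d‖ ^ 2 / 2) =
        Real.exp (-‖β 0 - a‖ ^ 2 / (2 * 1)) *
          Real.exp (-⟪d, b - a⟫ - (((k + 1 : ℕ) : ℝ) + 1) * ‖d‖ ^ 2 / 2) := by
      rw [← Real.exp_add, ← Real.exp_add]
      congr 1
      simp only [EuclideanSpace.real_norm_sq_eq, Fin.sum_univ_two, PiLp.sub_apply, PiLp.add_apply,
        PiLp.inner_apply, RCLike.inner_apply, conj_trivial]
      push_cast
      ring
    linear_combination ((2 * Real.pi * 1)⁻¹ * cw k (β 0) (Fin.tail β) b) * e4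

/-- the linear part of a bridge -/
noncomputable def lin (k : ℕ) (P Q : E) (l : Fin k) : E := P + (((l : ℝ) + 1) / (k + 1)) • (Q - P)

theorem W_drift (k : ℕ) (P Q : E) (β : Fin k → E) :
    W k P (β + lin k P Q) Q * g (k + 1) 0 = W k 0 β 0 * g (k + 1) (Q - P) := by
  have hk : (0 : ℝ) < k + 1 := by positivity
  have h := cw_drift (((k : ℝ) + 1)⁻¹ • (Q - P)) k 0 P 0 β
  have e1 : (fun l : Fin k => β l + P + ((l : ℝ) + 1) • ((k : ℝ) + 1)⁻¹ • (Q - P)) =
      β + lin k P Q := by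
    funext l
    simp only [lin, Pi.add_apply, smul_smul, div_eq_mul_inv, add_assoc]
  have e2 : 0 + P + ((k : ℝ) + 1) • ((k : ℝ) + 1)⁻¹ • (Q - P) = Q := by
    rw [smul_smul, mul_inv_cancel₀ hk.ne', one_smul]
    abel
  rw [e1, e2, zero_add] at h
  unfold W g
  rw [← ENNReal.ofReal_mul (cw_pos _ _ _ _).le, ← ENNReal.ofReal_mul (cw_pos _ _ _ _).le, h]
  congr 1
  simp only [ph, sub_self, inner_zero_right, norm_zero, norm_smul, Real.norm_eq_abs]
  rw [abs_of_pos (inv_pos.2 hk)]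
  have e3 : -(0 : ℝ) - ((k : ℝ) + 1) * (((k : ℝ) + 1)⁻¹ * ‖Q - P‖) ^ 2 / 2 =
      -‖Q - P‖ ^ 2 / (2 * ((k : ℝ) + 1)) := by
    field_simp
    ring
  rw [e3]
  simp
  ring

theorem nu_drift (k : ℕ) (P Q : E) (F : (Fin k → E) → ENNReal) (hF : Measurable F) :
    g (k + 1) (Q - P) * ∫⁻ β, F (β + lin k P Q) ∂nu k = ∫⁻ y, W k P y Q * F y := by
  have hk : (0 : ℝ) < k + 1 := by positivity
  have hm : Measurable fun β : Fin k → E => F (β + lin k P Q) := hF.comp (measurable_add_const _)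
  have hW : Measurable fun y : Fin k → E => W k 0 y 0 :=
    W_meas' k measurable_const measurable_id measurable_const
  unfold nu
  rw [lintegral_smul_measure]
  change g (k + 1) (Q - P) * ((g (k + 1) 0)⁻¹ •
    ∫⁻ β, F (β + lin k P Q) ∂volume.withDensity fun y => W k 0 y 0) = _
  rw [lintegral_withDensity_eq_lintegral_mul _ hW hm, smul_eq_mul, ← mul_assoc,
    ← lintegral_const_mul _ (hW.mul hm),
    ← lintegral_add_right_eq_self (fun y => W k P y Q * F y) (lin k P Q)]
  refine lintegral_congr fun β => ?_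
  have h := W_drift k P Q β
  have h2 : W k P (β + lin k P Q) Q = W k 0 β 0 * g (k + 1) (Q - P) * (g (k + 1) 0)⁻¹ := by
    rw [← h, mul_assoc, ENNReal.mul_inv_cancel (g_ne_zero hk _) (g_ne_top _ _), mul_one]
  simp only [Pi.mul_apply]
  rw [h2]
  ring

end Pool.Agent.MP_037c5a_pr.Ch
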