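import Pool.Agent.MP_037c5a_pr.Chain1

open MeasureTheory Finset

namespace Pool.Agent.MP_037c5a_pr.Ch

theorem pth_meas {X : Type} [MeasurableSpace X] {k : ℕ} {a b : X → E} {y : X → Fin k → E}
    (ha : Measurable a) (hy : Measurable y) (hb : Measurable b) :
    Measurable fun x => pth (a x) (y x) (b x) := by
  refine measurable_pi_lambda _ fun l => ?_
  unfold pth
  split_ifs
  · exact ha
  · exact (measurable_pi_apply _).comp hy
  · exact hb

theorem pth_zero {k : ℕ} (a : E) (y : Fin k → E) (b : E) : pth a y b 0 = a := by simp [pth]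

theorem pth_cons {k : ℕ} (a y0 : E) (y : Fin k → E) (b : E) (l : ℕ) :
    pth a (Fin.cons y0 y : Fin (k + 1) → E) b (l + 1) = pth y0 y b l := by
  unfold pth
  rcases l with _ | l
  · simp
  · by_cases h : l < k
    · have h' : l + 1 < k + 1 := by omega
      simp only [Nat.add_eq_zero_iff, one_ne_zero, and_false, if_false, Nat.add_sub_cancel, h, h',
        dif_pos]
      exact Fin.cons_succ (α := fun _ => E) y0 y ⟨l, h⟩
    · have h' : ¬ l + 1 < k + 1 := by omega
      simp only [Nat.add_eq_zero_iff, one_ne_zero, and_false, if_false, Nat.add_sub_cancel, h, h',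
        dif_neg, not_false_eq_true]

theorem mmul {X : Type} [MeasurableSpace X] {f h : X → ENNReal} (hf : Measurable f)
    (hh : Measurable h) : Measurable fun x => f x * h x := hf.mul hh

theorem kap_meas (κ : E → E → ENNReal) (hκ : Measurable (Function.uncurry κ)) (i j : ℕ) :
    Measurable fun ω : ℕ → E => κ (ω i) (ω j) := by
  have h : Measurable fun ω : ℕ → E => (ω i, ω j) :=
    (measurable_pi_apply i).prodMk (measurable_pi_apply j)
  exact hκ.comp h

theorem WF_meas (k : ℕ) (a b : E) (F : (ℕ → E) → ENNReal) (hF : Measurable F) :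
    Measurable fun y : Fin k → E => W k a y b * F (pth a y b) :=
  mmul (W_meas' k measurable_const measurable_id measurable_const)
    (hF.comp (pth_meas measurable_const measurable_id measurable_const))

/-- unnormalised bridge expectation of a path functional -/
noncomputable def EX (k : ℕ) (a b : E) (F : (ℕ → E) → ENNReal) : ENNReal :=
  ∫⁻ y : Fin k → E, W k a y b * F (pth a y b)

theorem EX_meas (k : ℕ) (b : E) (F : (ℕ → E) → ENNReal) (hF : Measurable F) :
    Measurable fun a => EX k a b F := by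
  unfold EX
  refine Measurable.lintegral_prod_right' (f := fun p : E × (Fin k → E) =>
    W k p.1 p.2 b * F (pth p.1 p.2 b)) ?_
  exact (W_meas' k measurable_fst measurable_snd measurable_const).mul
    (hF.comp (pth_meas measurable_fst measurable_snd measurable_const))

/-- shift of a path -/
def sh (j : ℕ) (ω : ℕ → E) : ℕ → E := fun l => ω (l + j)

theorem sh_meas (j : ℕ) : Measurable (sh j) :=
  measurable_pi_lambda _ fun _ => measurable_pi_apply _

theorem EX_peel (k : ℕ) (a b : E) (κ : E → E → ENNReal) (hκ : Measurable (Function.uncurry κ))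
    (F : (ℕ → E) → ENNReal) (hF : Measurable F) :
    EX (k + 1) a b (fun ω => κ (ω 0) (ω 1) * F (sh 1 ω)) =
      ∫⁻ y0, g 1 (y0 - a) * κ a y0 * EX k y0 b F := by
  unfold EX
  have hm : Measurable fun ω : ℕ → E => κ (ω 0) (ω 1) * F (sh 1 ω) :=
    mmul (kap_meas κ hκ 0 1) (hF.comp (sh_meas 1))
  rw [volume_pi, lint_cons volume _ (WF_meas (k + 1) a b _ hm)]
  refine lintegral_congr fun y0 => ?_
  rw [← lintegral_const_mul _ (WF_meas k y0 b F hF), volume_pi]
  refine lintegral_congr fun y => ?_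
  have e : sh 1 (pth a (Fin.cons y0 y : Fin (k + 1) → E) b) = pth y0 y b := by
    funext l
    exact pth_cons a y0 y b l
  have e1 : pth a (Fin.cons y0 y : Fin (k + 1) → E) b 1 = y0 :=
    (pth_cons a y0 y b 0).trans (pth_zero _ _ _)
  rw [W_cons, e, e1, pth_zero]
  ring

theorem EX_peel1 (k : ℕ) (a b : E) (F : (ℕ → E) → ENNReal) (hF : Measurable F) :
    EX (k + 1) a b (fun ω => F (sh 1 ω)) = ∫⁻ y0, g 1 (y0 - a) * EX k y0 b F := by
  have h := EX_peel k a b (fun _ _ => 1) measurable_const F hF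
  simpa only [one_mul, mul_one] using h

theorem EX_one (b : E) : ∀ (k : ℕ) (a : E), EX k a b (fun _ => 1) = g (k + 1) (b - a)
  | 0, a => by
    unfold EX W g
    simp [cw, volume_pi]
  | k + 1, a => by
    have h := EX_peel1 k a b (fun _ => 1) measurable_const
    rw [h]
    simp_rw [EX_one b k]
    rw [g_ck one_pos (by positivity)]
    congr 1
    push_cast
    ring

theorem EX_skip (m : ℕ) (b : E) (F : (ℕ → E) → ENNReal) (hF : Measurable F) :
    ∀ (j : ℕ) (a : E), EX (m + (j + 1)) a b (fun ω => F (sh (j + 1) ω)) =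
      ∫⁻ y, g (j + 1) (y - a) * EX m y b F
  | 0, a => by
    simpa using EX_peel1 m a b F hF
  | j + 1, a => by
    have h := EX_peel1 (m + (j + 1)) a b (fun ω => F (sh (j + 1) ω)) (hF.comp (sh_meas _))
    have e : (fun ω => F (sh (j + 1) (sh 1 ω))) = fun ω => F (sh (j + 1 + 1) ω) := by
      funext ω
      congr 1
    rw [e] at h
    rw [← add_assoc m (j + 1) 1, h]
    simp_rw [EX_skip m b F hF j]
    rw [heat_heat one_pos (by positivity) _ (EX_meas m b F hF)]
    refine lintegral_congr fun z => ?_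
    congr 2
    push_cast
    ring

theorem pth_lin (k : ℕ) (P Q : E) (β : Fin k → E) (l : ℕ) (hl : l ≤ k + 1) :
    pth P (β + lin k P Q) Q l = bp k P Q β l := by
  unfold bp pth
  have hk : (k : ℝ) + 1 ≠ 0 := by positivity
  rcases l with _ | l
  · simp
  · by_cases h : l < k
    · simp only [Nat.add_eq_zero_iff, one_ne_zero, and_false, if_false, Nat.add_sub_cancel, h,
        dif_pos, Pi.add_apply, lin]
      push_cast
      abel
    · have : l = k := by omega
      subst this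
      simp only [Nat.add_eq_zero_iff, one_ne_zero, and_false, if_false, Nat.add_sub_cancel,
        lt_irrefl, dif_neg, not_false_eq_true]
      push_cast
      rw [div_self hk]
      simp

theorem nu_EX (k : ℕ) (P Q : E) (F : (ℕ → E) → ENNReal) (hF : Measurable F) :
    ∫⁻ β, F (pth P (β + lin k P Q) Q) ∂nu k = (g (k + 1) (Q - P))⁻¹ * EX k P Q F := by
  have hk : (0 : ℝ) < k + 1 := by positivity
  have h := nu_drift k P Q (fun y => F (pth P y Q))
    (hF.comp (pth_meas measurable_const measurable_id measurable_const))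
  unfold EX
  rw [← h, ← mul_assoc, ENNReal.inv_mul_cancel (g_ne_zero hk _) (g_ne_top _ _), one_mul]

theorem nu_prob (k : ℕ) : IsProbabilityMeasure (nu k) := by
  have hk : (0 : ℝ) < k + 1 := by positivity
  have h := nu_EX k 0 0 (fun _ => 1) measurable_const
  rw [EX_one, ENNReal.inv_mul_cancel (g_ne_zero hk _) (g_ne_top _ _)] at h
  constructor
  simpa using h

theorem gam_lint (f : E → ENNReal) (hf : Measurable f) : ∫⁻ x, f x ∂gam = ∫⁻ x, g 1 x * f x := by
  unfold gam
  exact lintegral_withDensity_eq_lintegral_mul _ (g_meas 1) hf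

theorem gam_prob : IsProbabilityMeasure gam := by
  constructor
  have h := gam_lint (fun _ => 1) measurable_const
  simp only [mul_one] at h
  rw [g_int0 one_pos] at h
  simpa using h

theorem meas_bp (k l : ℕ) :
    Measurable fun x : E × E × (Fin k → E) => bp k x.1 x.2.1 x.2.2 l := by
  unfold bp
  have h1 : Measurable fun x : E × E × (Fin k → E) =>
      x.1 + ((l : ℝ) / (k + 1)) • (x.2.1 - x.1) := by fun_prop
  have h2 : Measurable fun x : E × E × (Fin k → E) => pth 0 x.2.2 0 :=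
    pth_meas measurable_const measurable_snd.snd measurable_const
  exact h1.add ((measurable_pi_apply l).comp h2)

theorem edge_meas (κ : E → E → ENNReal) (hκ : Measurable (Function.uncurry κ))
    (F : (ℕ → E) → ENNReal) (hF : Measurable F) :
    Measurable fun ω : ℕ → E => κ (ω 0) (ω 1) * F (sh 1 ω) :=
  mmul (kap_meas κ hκ 0 1) (hF.comp (sh_meas 1))

theorem EX_edge (m j : ℕ) (a b : E) (κ : E → E → ENNReal) (hκ : Measurable (Function.uncurry κ))
    (F : (ℕ → E) → ENNReal) (hF : Measurable F) :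
    EX (m + 1 + (j + 1)) a b (fun ω => κ (ω (j + 1)) (ω (j + 1 + 1)) * F (sh (j + 1 + 1) ω)) =
      ∫⁻ u, ∫⁻ u', g (j + 1) (u - a) * g 1 (u' - u) * κ u u' * EX m u' b F := by
  have h := EX_skip (m + 1) b _ (edge_meas κ hκ F hF) j a
  have e : (fun ω : ℕ → E => κ (sh (j + 1) ω 0) (sh (j + 1) ω 1) * F (sh 1 (sh (j + 1) ω))) =
      fun ω => κ (ω (j + 1)) (ω (j + 1 + 1)) * F (sh (j + 1 + 1) ω) := by
    funext ω
    have e1 : sh 1 (sh (j + 1) ω) = sh (j + 1 + 1) ω := by
      funext l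
      simp only [sh]
      congr 1
      omega
    rw [e1]
    simp only [sh, zero_add, add_comm 1 (j + 1)]
  rw [e] at h
  rw [h]
  refine lintegral_congr fun u => ?_
  rw [EX_peel m u b κ hκ F hF, ← lintegral_const_mul' _ _ (g_ne_top _ _)]
  refine lintegral_congr fun u' => ?_
  ring

theorem one_edge (k l : ℕ) (P Q : E) (κ : E → E → ENNReal) (hκ : Measurable (Function.uncurry κ))
    (h1 : 1 ≤ l) (h2 : l + 1 ≤ k) :
    ∫⁻ β, κ (bp k P Q β l) (bp k P Q β (l + 1)) ∂nu k =
      (ENNReal.ofReal (ph (k + 1) (Q - P)))⁻¹ *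
        ∫⁻ u, ∫⁻ u', ENNReal.ofReal (ph l (u - P)) * ENNReal.ofReal (ph 1 (u' - u)) * κ u u' *
          ENNReal.ofReal (ph (k - l) (Q - u')) := by
  obtain ⟨j, rfl⟩ : ∃ j, l = j + 1 := ⟨l - 1, by omega⟩
  obtain ⟨m, rfl⟩ : ∃ m, k = m + 1 + (j + 1) := ⟨k - (j + 1) - 1, by omega⟩
  have h := EX_edge m j P Q κ hκ (fun _ => 1) measurable_const
  have h' := nu_EX (m + 1 + (j + 1)) P Q (fun ω => κ (ω (j + 1)) (ω (j + 1 + 1)) * 1)
    (mmul (kap_meas κ hκ _ _) measurable_const)
  rw [h] at h'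
  simp only [mul_one] at h'
  simp_rw [pth_lin (m + 1 + (j + 1)) P Q _ (j + 1) (by omega),
    pth_lin (m + 1 + (j + 1)) P Q _ (j + 1 + 1) (by omega), EX_one] at h'
  rw [h']
  have e1 : (((m + 1 + (j + 1) : ℕ) : ℝ) - ((j + 1 : ℕ) : ℝ)) = (m : ℝ) + 1 := by
    push_cast
    ring
  have e2 : ((j + 1 : ℕ) : ℝ) = (j : ℝ) + 1 := by push_cast; ring
  rw [e1, e2]
  rfl

theorem two_edge (k l l' : ℕ) (P Q : E) (κ κ' : E → E → ENNReal)
    (hκ : Measurable (Function.uncurry κ)) (hκ' : Measurable (Function.uncurry κ'))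
    (h1 : 1 ≤ l) (h2 : l + 2 ≤ l') (h3 : l' + 1 ≤ k) :
    ∫⁻ β, κ (bp k P Q β l) (bp k P Q β (l + 1)) * κ' (bp k P Q β l') (bp k P Q β (l' + 1)) ∂nu k =
      (ENNReal.ofReal (ph (k + 1) (Q - P)))⁻¹ *
        ∫⁻ u, ∫⁻ u', ENNReal.ofReal (ph l (u - P)) * ENNReal.ofReal (ph 1 (u' - u)) * κ u u' *
          ∫⁻ v, ∫⁻ v', ENNReal.ofReal (ph (l' - l - 1) (v - u')) * ENNReal.ofReal (ph 1 (v' - v)) *
            κ' v v' * ENNReal.ofReal (ph (k - l') (Q - v')) := by
  obtain ⟨j, rfl⟩ : ∃ j, l = j + 1 := ⟨l - 1, by omega⟩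
  obtain ⟨i, rfl⟩ : ∃ i, l' = i + 1 + (j + 1 + 1) := ⟨l' - (j + 1 + 1) - 1, by omega⟩
  obtain ⟨m, rfl⟩ : ∃ m, k = m + 1 + (i + 1) + 1 + (j + 1) :=
    ⟨k - (j + 1) - 1 - (i + 1) - 1, by omega⟩
  have hF : Measurable fun ω : ℕ → E => κ' (ω (i + 1)) (ω (i + 1 + 1)) * 1 :=
    mmul (kap_meas κ' hκ' _ _) measurable_const
  have h := EX_edge (m + 1 + (i + 1)) j P Q κ hκ _ hF
  have h0 := fun a => EX_edge m i a Q κ' hκ' (fun _ => 1) measurable_const
  simp_rw [h0, EX_one] at h
  have h' := nu_EX (m + 1 + (i + 1) + 1 + (j + 1)) P Q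
    (fun ω => κ (ω (j + 1)) (ω (j + 1 + 1)) *
      (κ' (sh (j + 1 + 1) ω (i + 1)) (sh (j + 1 + 1) ω (i + 1 + 1)) * 1))
    (mmul (kap_meas κ hκ _ _) (hF.comp (sh_meas _)))
  rw [h] at h'
  simp only [mul_one, sh] at h'
  have e0 : i + 1 + 1 + (j + 1 + 1) = i + 1 + (j + 1 + 1) + 1 := by omega
  simp_rw [e0, pth_lin (m + 1 + (i + 1) + 1 + (j + 1)) P Q _ (j + 1) (by omega),
    pth_lin (m + 1 + (i + 1) + 1 + (j + 1)) P Q _ (j + 1 + 1) (by omega),
    pth_lin (m + 1 + (i + 1) + 1 + (j + 1)) P Q _ (i + 1 + (j + 1 + 1)) (by omega),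
    pth_lin (m + 1 + (i + 1) + 1 + (j + 1)) P Q _ (i + 1 + (j + 1 + 1) + 1) (by omega)] at h'
  rw [h']
  have e1 : (((m + 1 + (i + 1) + 1 + (j + 1) : ℕ) : ℝ) - ((i + 1 + (j + 1 + 1) : ℕ) : ℝ)) =
      (m : ℝ) + 1 := by
    push_cast
    ring
  have e3 : ((i + 1 + (j + 1 + 1) : ℕ) : ℝ) - ((j + 1 : ℕ) : ℝ) - 1 = (i : ℝ) + 1 := by
    push_cast
    ring
  have e2 : ((j + 1 : ℕ) : ℝ) = (j : ℝ) + 1 := by push_cast; ring
  rw [e1, e3, e2]
  rfl

end Pool.Agent.MP_037c5a_pr.Ch
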