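import Pool.Agent.MP_037c5a_pr.Stmts

open MeasureTheory Finset

namespace Pool.Agent.MP_037c5a_pr

namespace Conc

theorem exp_neg_le {x : ℝ} (hx : 0 ≤ x) : Real.exp (-x) ≤ 1 - x + x ^ 2 / 2 := by
  have h1 := Real.quadratic_le_exp_of_nonneg hx
  have h2 : Real.exp (-x) * Real.exp x = 1 := by rw [← Real.exp_add]; simp
  have h3 : 0 < Real.exp (-x) := Real.exp_pos _
  have h4 : 0 < 1 - x + x ^ 2 / 2 := by nlinarith [sq_nonneg (x - 1)]
  have h5 : Real.exp (-x) * (1 + x + x ^ 2 / 2) ≤ 1 := by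
    calc Real.exp (-x) * (1 + x + x ^ 2 / 2) ≤ Real.exp (-x) * Real.exp x :=
          mul_le_mul_of_nonneg_left h1 h3.le
      _ = 1 := h2
  have h6 : 0 < 1 + x + x ^ 2 / 2 := by positivity
  have h7 : 1 ≤ (1 - x + x ^ 2 / 2) * (1 + x + x ^ 2 / 2) := by nlinarith [sq_nonneg (x ^ 2)]
  exact le_of_mul_le_mul_right (h5.trans h7) h6

theorem exp_le_quad {x : ℝ} (hx : |x| ≤ 1) : Real.exp x ≤ 1 + x + x ^ 2 := by
  have := abs_le.1 (Real.abs_exp_sub_one_sub_id_le hx)
  linarith [this.2]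

theorem quad_le_exp {x : ℝ} (hx : |x| ≤ 1 / 2) : 1 + x + x ^ 2 / 3 ≤ Real.exp x := by
  have h := Real.exp_bound (x := x) (by linarith) (n := 3) (by norm_num)
  simp only [sum_range_succ, range_zero, sum_empty, Nat.factorial] at h
  have h1 := (abs_le.1 h).1
  have h2 : |x| ^ 3 ≤ x ^ 2 / 2 := by
    have : |x| ^ 3 = |x| * x ^ 2 := by rw [← sq_abs x]; ring
    rw [this]; nlinarith [sq_nonneg x]
  norm_num at h1
  nlinarith [sq_nonneg x]

variable {ι : Type} [Fintype ι] {Ω : Type} [MeasurableSpace Ω] {μ : Measure Ω}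
  [IsProbabilityMeasure μ]

theorem integrable_bdd {α : Type} [MeasurableSpace α] {ν : Measure α} [IsProbabilityMeasure ν]
    {f : α → ℝ} (hf : Measurable f) (C : ℝ) (hC : ∀ x, |f x| ≤ C) : Integrable f ν :=
  Integrable.of_bound hf.aestronglyMeasurable C (Filter.Eventually.of_forall hC)

theorem int_exp_sum (X : ι → Ω → ℝ) :
    ∫ ω : ι → Ω, Real.exp (∑ i, X i (ω i)) ∂(Measure.pi fun _ : ι => μ) =
      ∏ i, ∫ x, Real.exp (X i x) ∂μ := by
  simp_rw [Real.exp_sum]
  exact integral_fintype_prod_eq_prod (fun i x => Real.exp (X i x))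

theorem meas_sum (X : ι → Ω → ℝ) (hX : ∀ i, Measurable (X i)) :
    Measurable fun ω : ι → Ω => ∑ i, X i (ω i) :=
  Finset.measurable_sum _ fun i _ => (hX i).comp (measurable_pi_apply i)

theorem integrable_exp_sum (X : ι → Ω → ℝ) (hX : ∀ i, Measurable (X i)) (C : ℝ)
    (hC : ∀ i x, X i x ≤ C) :
    Integrable (fun ω : ι → Ω => Real.exp (∑ i, X i (ω i))) (Measure.pi fun _ : ι => μ) := by
  refine integrable_bdd (Real.measurable_exp.comp (meas_sum X hX)) (Real.exp (∑ _i : ι, C)) ?_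
  intro ω
  rw [abs_of_pos (Real.exp_pos _)]
  exact Real.exp_le_exp.2 (sum_le_sum fun i _ => hC i _)

/-- Chernoff bound -/
theorem chernoff (X : ι → Ω → ℝ) (hX : ∀ i, Measurable (X i)) (C : ℝ)
    (hC : ∀ i x, X i x ≤ C) (g : ι → ℝ) (hg : ∀ i, ∫ x, Real.exp (X i x) ∂μ ≤ Real.exp (g i))
    (a : ℝ) (A : Set (ι → Ω)) (hA : ∀ ω ∈ A, a ≤ ∑ i, X i (ω i)) (B : ℝ)
    (hB : ∑ i, g i - a ≤ B) :
    (Measure.pi fun _ : ι => μ) A ≤ ENNReal.ofReal (Real.exp B) := by
  set P := Measure.pi fun _ : ι => μ with hP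
  have h1 := mul_meas_ge_le_integral_of_nonneg (μ := P)
    (f := fun ω : ι → Ω => Real.exp (∑ i, X i (ω i)))
    (Filter.Eventually.of_forall fun ω => (Real.exp_pos _).le) (integrable_exp_sum X hX C hC)
    (Real.exp a)
  rw [hP, int_exp_sum, ← hP] at h1
  have h2 : ∏ i, ∫ x, Real.exp (X i x) ∂μ ≤ Real.exp (∑ i, g i) := by
    rw [Real.exp_sum]
    exact prod_le_prod (fun i _ => integral_nonneg fun x => (Real.exp_pos _).le) fun i _ => hg i
  have h3 : P.real {ω | Real.exp a ≤ Real.exp (∑ i, X i (ω i))} ≤ Real.exp B := by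
    have h4 : Real.exp a * P.real {ω | Real.exp a ≤ Real.exp (∑ i, X i (ω i))} ≤
        Real.exp a * Real.exp B := by
      refine (h1.trans h2).trans ?_
      rw [← Real.exp_add]
      exact Real.exp_le_exp.2 (by linarith)
    exact le_of_mul_le_mul_left h4 (Real.exp_pos _)
  calc P A ≤ P {ω | Real.exp a ≤ Real.exp (∑ i, X i (ω i))} :=
        measure_mono fun ω hω => Real.exp_le_exp.2 (hA ω hω)
    _ = ENNReal.ofReal (P.real {ω | Real.exp a ≤ Real.exp (∑ i, X i (ω i))}) :=
        (ofReal_measureReal).symm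
    _ ≤ _ := ENNReal.ofReal_le_ofReal h3

/-- integral of a quadratic polynomial in a bounded variable -/
theorem int_quad {S : Ω → ℝ} (hS : Measurable S) (b : ℝ) (hb : ∀ x, |S x| ≤ b) (p q r : ℝ) :
    Integrable (fun x => p + q * S x + r * S x ^ 2) μ ∧
    ∫ x, (p + q * S x + r * S x ^ 2) ∂μ = p + q * ∫ x, S x ∂μ + r * ∫ x, S x ^ 2 ∂μ := by
  have i1 : Integrable S μ := integrable_bdd hS b hb
  have i2 : Integrable (fun x => S x ^ 2) μ := by
    refine integrable_bdd (hS.pow_const 2) (b ^ 2) fun x => ?_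
    rw [abs_pow]
    exact pow_le_pow_left₀ (abs_nonneg _) (hb x) 2
  have i3 : Integrable (fun x => p + q * S x) μ := (integrable_const p).add (i1.const_mul q)
  refine ⟨i3.add (i2.const_mul r), ?_⟩
  rw [integral_add i3 (i2.const_mul r), integral_add (integrable_const p) (i1.const_mul q),
    integral_const_mul, integral_const_mul]
  simp

theorem integrable_exp {X : Ω → ℝ} (hX : Measurable X) (C : ℝ) (hC : ∀ x, X x ≤ C) :
    Integrable (fun x => Real.exp (X x)) μ := by
  refine integrable_bdd (Real.measurable_exp.comp hX) (Real.exp C) fun x => ?_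
  rw [abs_of_pos (Real.exp_pos _)]
  exact Real.exp_le_exp.2 (hC x)

theorem mgf_le {S X : Ω → ℝ} (hS : Measurable S) (b : ℝ) (hb : ∀ x, |S x| ≤ b)
    (hX : Measurable X) (C : ℝ) (hC : ∀ x, X x ≤ C) (q r : ℝ)
    (h : ∀ x, Real.exp (X x) ≤ 1 + q * S x + r * S x ^ 2) :
    ∫ x, Real.exp (X x) ∂μ ≤ Real.exp (q * ∫ x, S x ∂μ + r * ∫ x, S x ^ 2 ∂μ) := by
  obtain ⟨i1, e1⟩ := int_quad (μ := μ) hS b hb 1 q r
  have := integral_mono (integrable_exp (μ := μ) hX C hC) i1 h
  rw [e1] at this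
  have h2 := Real.add_one_le_exp (q * ∫ x, S x ∂μ + r * ∫ x, S x ^ 2 ∂μ)
  linarith

/-- Paley-Zygmund in the form needed -/
theorem pz {α : Type} [MeasurableSpace α] {ν : Measure α} [IsProbabilityMeasure ν]
    {Z : α → ℝ} (i1 : Integrable Z ν) (i2 : Integrable (fun x => Z x ^ 2) ν) (M : ℝ) (hM : 0 < M)
    (h1 : 1 ≤ ∫ x, Z x ∂ν) (h2 : ∫ x, Z x ^ 2 ∂ν ≤ M) (A : Set α) (hA : MeasurableSet A)
    (hZ : ∀ x ∈ A, Z x ≤ (∫ x, Z x ∂ν) / 2) : ν A ≤ ENNReal.ofReal (1 - 1 / (4 * M)) := by
  set m := ∫ x, Z x ∂ν with hm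
  set s := 1 / (2 * M) with hs
  have hs0 : 0 < s := by positivity
  have hpt : ∀ x, A.indicator (fun _ => (1 : ℝ)) x ≤ (1 + s * m) - 2 * s * Z x + s ^ 2 * Z x ^ 2 := by
    intro x
    by_cases hx : x ∈ A
    · rw [Set.indicator_of_mem hx]
      have := hZ x hx
      nlinarith [mul_nonneg hs0.le (by linarith : 0 ≤ m - 2 * Z x), sq_nonneg (s * Z x)]
    · rw [Set.indicator_of_notMem hx]
      nlinarith [sq_nonneg (1 - s * Z x), mul_nonneg hs0.le (by linarith : 0 ≤ m)]
  have i3 : Integrable (fun x => (1 + s * m) - 2 * s * Z x) ν :=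
    (integrable_const _).sub (i1.const_mul _)
  have i4 : Integrable (fun x => (1 + s * m) - 2 * s * Z x + s ^ 2 * Z x ^ 2) ν :=
    i3.add (i2.const_mul _)
  have h3 := integral_mono ((integrable_const (1 : ℝ)).indicator hA) i4 hpt
  rw [integral_add i3 (i2.const_mul _), integral_sub (integrable_const _) (i1.const_mul _),
    integral_const_mul, integral_const_mul, integral_indicator hA] at h3
  simp only [integral_const, probReal_univ, smul_eq_mul, mul_one, one_mul,
    measureReal_restrict_apply_univ] at h3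
  have h4 : ν.real A ≤ 1 - 1 / (4 * M) := by
    have e1 : 1 - 1 / (4 * M) = 1 - s + s ^ 2 * M := by rw [hs]; field_simp; ring
    rw [e1]
    have := mul_le_mul_of_nonneg_left h2 (sq_nonneg s)
    have := mul_le_mul_of_nonneg_left h1 hs0.le
    rw [← hm] at h3
    linarith
  calc ν A = ENNReal.ofReal (ν.real A) := (ofReal_measureReal).symm
    _ ≤ _ := ENNReal.ofReal_le_ofReal h4

end Conc

open Conc in
theorem stmtConc : StmtConc := by
  intro ι _ Ω _ μ _ S b hb hS hSb
  have habs : ∀ i x, |S i x| ≤ b := fun i x => by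
    rw [abs_of_nonneg (hSb i x).1]; exact (hSb i x).2
  refine ⟨?_, ?_, ?_, ?_⟩
  · intro V y hV hy hV2
    set t := y / V with ht
    have ht0 : 0 ≤ t := div_nonneg hy hV.le
    refine chernoff (fun i x => -(t * S i x)) (fun i => ((hS i).const_mul t).neg) 0
      (fun i x => by have := mul_nonneg ht0 (hSb i x).1; linarith)
      (fun i => (-t) * ∫ x, S i x ∂μ + t ^ 2 / 2 * ∫ x, S i x ^ 2 ∂μ)
      (fun i => mgf_le (X := fun x => -(t * S i x)) (hS i) b (habs i) ((hS i).const_mul t).neg 0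
        (fun x => by have := mul_nonneg ht0 (hSb i x).1; linarith) _ _ fun x => ?_)
      (-(t * (∑ i, ∫ x, S i x ∂μ - y))) _ (fun ω hω => ?_) _ ?_
    · have := exp_neg_le (mul_nonneg ht0 (hSb i x).1)
      nlinarith
    · rw [sum_neg_distrib, ← mul_sum]
      have := mul_le_mul_of_nonneg_left (show ∑ i, S i (ω i) ≤ _ from hω) ht0
      linarith
    · rw [sum_add_distrib, ← mul_sum, ← mul_sum]
      have h1 := mul_le_mul_of_nonneg_left hV2 (by positivity : 0 ≤ t ^ 2 / 2)
      have e : -(y ^ 2 / (2 * V)) = t ^ 2 / 2 * V - t * y := by rw [ht]; field_simp; ring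
      rw [e]; linarith
  · intro V y hV hy hyb hV2
    set t := y / (2 * V) with ht
    have ht0 : 0 ≤ t := div_nonneg hy (by positivity)
    have htb : t * b ≤ 1 := by
      rw [ht, div_mul_eq_mul_div, div_le_one (by positivity)]; exact hyb
    have hle : ∀ i x, t * S i x ≤ 1 := fun i x =>
      (mul_le_mul_of_nonneg_left (hSb i x).2 ht0).trans htb
    refine chernoff (fun i x => t * S i x) (fun i => (hS i).const_mul t) 1 hle
      (fun i => t * ∫ x, S i x ∂μ + t ^ 2 * ∫ x, S i x ^ 2 ∂μ)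
      (fun i => mgf_le (hS i) b (habs i) ((hS i).const_mul t) 1 (hle i) _ _ fun x => ?_)
      (t * (∑ i, ∫ x, S i x ∂μ + y)) _ (fun ω hω => ?_) _ ?_
    · have := exp_le_quad (x := t * S i x)
        (by rw [abs_of_nonneg (mul_nonneg ht0 (hSb i x).1)]; exact hle i x)
      nlinarith
    · rw [← mul_sum]
      exact mul_le_mul_of_nonneg_left hω ht0
    · rw [sum_add_distrib, ← mul_sum, ← mul_sum]
      have h1 := mul_le_mul_of_nonneg_left hV2 (by positivity : 0 ≤ t ^ 2)
      have e : -(y ^ 2 / (4 * V)) = t ^ 2 * V - t * y := by rw [ht]; field_simp; ring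
      rw [e]; linarith
  · intro m W hm
    set t := 1 / b with ht
    have ht0 : 0 ≤ t := by positivity
    have htb : t * b = 1 := by rw [ht]; field_simp
    have hle : ∀ i x, t * S i x ≤ 1 := fun i x =>
      (mul_le_mul_of_nonneg_left (hSb i x).2 ht0).trans htb.le
    refine chernoff (fun i x => t * S i x) (fun i => (hS i).const_mul t) 1 hle
      (fun i => (2 * t) * ∫ x, S i x ∂μ + 0 * ∫ x, S i x ^ 2 ∂μ)
      (fun i => mgf_le (hS i) b (habs i) ((hS i).const_mul t) 1 (hle i) _ _ fun x => ?_)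
      (t * W) _ (fun ω hω => ?_) _ ?_
    · have h0 := mul_nonneg ht0 (hSb i x).1
      have := exp_le_quad (x := t * S i x) (by rw [abs_of_nonneg h0]; exact hle i x)
      nlinarith [hle i x]
    · rw [← mul_sum]
      exact mul_le_mul_of_nonneg_left hω ht0
    · simp only [zero_mul, add_zero]
      rw [← mul_sum]
      have h1 := mul_le_mul_of_nonneg_left hm (by positivity : 0 ≤ 2 * t)
      have e : -((W - 2 * m) / b) = 2 * t * m - t * W := by rw [ht]; field_simp; ring
      rw [e]; linarith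
  · intro lam V₁ V₂ hlam hlb hV1 hV2
    set e : ι → ℝ := fun i => ∫ x, S i x ∂μ with he
    have he0 : ∀ i, 0 ≤ e i := fun i => integral_nonneg fun x => (hSb i x).1
    have heb : ∀ i, e i ≤ b := fun i => by
      have := integral_mono (integrable_bdd (ν := μ) (hS i) b (habs i)) (integrable_const b)
        fun x => (hSb i x).2
      simpa using this
    set ξ : ι → Ω → ℝ := fun i x => S i x - e i with hξ
    have hξm : ∀ i, Measurable (ξ i) := fun i => (hS i).sub_const _
    have hξb : ∀ i x, |ξ i x| ≤ b := fun i x => by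
      rw [abs_le]; constructor <;> simp only [hξ] <;> linarith [hSb i x, he0 i, heb i]
    have hlξ : ∀ i x, |lam * ξ i x| ≤ 1 / 2 := fun i x => by
      rw [abs_mul, abs_of_pos hlam]
      exact (mul_le_mul_of_nonneg_left (hξb i x) hlam.le).trans hlb
    set v : ι → ℝ := fun i => ∫ ω, S i ω ^ 2 ∂μ - (∫ ω, S i ω ∂μ) ^ 2 with hv
    have hE1 : ∀ i, ∫ x, ξ i x ∂μ = 0 := fun i => by
      have := (int_quad (μ := μ) (hS i) b (habs i) (-e i) 1 0).2
      simp only [zero_mul, add_zero, one_mul] at this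
      have e2 : (fun x => ξ i x) = fun x => -e i + S i x := by funext x; simp only [hξ]; ring
      rw [e2, this]; simp [he]
    have hE2 : ∀ i, ∫ x, ξ i x ^ 2 ∂μ = v i := fun i => by
      have := (int_quad (μ := μ) (hS i) b (habs i) (e i ^ 2) (-2 * e i) 1).2
      have e2 : (fun x => ξ i x ^ 2) = fun x => e i ^ 2 + -2 * e i * S i x + 1 * S i x ^ 2 := by
        funext x; simp only [hξ]; ring
      rw [e2, this]; simp only [hv, he]; ring
    have hv0 : ∀ i, 0 ≤ v i := fun i => by
      rw [← hE2 i]; exact integral_nonneg fun x => sq_nonneg _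
    have hvb : ∀ i, lam ^ 2 * v i ≤ 1 / 4 := fun i => by
      obtain ⟨i1, e1⟩ := int_quad (μ := μ) (hξm i) b (hξb i) 0 0 (lam ^ 2)
      have := integral_mono i1 (integrable_const (1 / 4 : ℝ)) fun x => by
        have h := hlξ i x
        have h2 : (lam * ξ i x) ^ 2 ≤ (1 / 2) ^ 2 := by
          rw [← sq_abs]; exact pow_le_pow_left₀ (abs_nonneg _) h 2
        show 0 + 0 * ξ i x + lam ^ 2 * ξ i x ^ 2 ≤ 1 / 4
        nlinarith
      rw [e1, hE2] at this
      simpa using this
    have hlow : ∀ i, Real.exp (lam ^ 2 * v i / 4) ≤ ∫ x, Real.exp (lam * ξ i x) ∂μ := fun i => by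
      obtain ⟨i1, e1⟩ := int_quad (μ := μ) (hξm i) b (hξb i) 1 lam (lam ^ 2 / 3)
      have h1 := integral_mono i1 (integrable_exp (μ := μ) ((hξm i).const_mul lam) (1 / 2)
        fun x => (abs_le.1 (hlξ i x)).2) fun x => by
          have := quad_le_exp (hlξ i x)
          show 1 + lam * ξ i x + lam ^ 2 / 3 * ξ i x ^ 2 ≤ Real.exp (lam * ξ i x)
          nlinarith
      rw [e1, hE1, hE2] at h1
      have hu0 : 0 ≤ lam ^ 2 * v i := mul_nonneg (sq_nonneg _) (hv0 i)
      have hu := hvb i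
      have h2 := exp_le_quad (x := lam ^ 2 * v i / 4) (by rw [abs_of_nonneg (by positivity)]; linarith)
      nlinarith
    have hup : ∀ i, ∫ x, Real.exp (2 * lam * ξ i x) ∂μ ≤
        Real.exp (4 * lam ^ 2 * ∫ x, S i x ^ 2 ∂μ) := fun i => by
      have h1 := mgf_le (μ := μ) (hξm i) b (hξb i) ((hξm i).const_mul (2 * lam)) 1
        (fun x => by have := (abs_le.1 (hlξ i x)).2; linarith) (2 * lam) (4 * lam ^ 2) fun x => by
          have := exp_le_quad (x := 2 * lam * ξ i x) (by
            have := abs_le.1 (hlξ i x)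
            rw [abs_le]; constructor <;> linarith [this.1, this.2])
          nlinarith
      rw [hE1, hE2] at h1
      refine h1.trans (Real.exp_le_exp.2 ?_)
      have : v i ≤ ∫ x, S i x ^ 2 ∂μ := by simp only [hv]; linarith [sq_nonneg (∫ ω, S i ω ∂μ)]
      nlinarith [sq_nonneg lam]
    have hsq : (fun ω : ι → Ω => Real.exp (∑ i, lam * ξ i (ω i)) ^ 2) =
        fun ω => Real.exp (∑ i, 2 * lam * ξ i (ω i)) := by
      funext ω
      rw [← Real.exp_nat_mul, mul_sum]
      congr 1
      exact sum_congr rfl fun i _ => by push_cast; ring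
    have hZ1 : Real.exp (lam ^ 2 * (∑ i, v i) / 4) ≤
        ∫ ω : ι → Ω, Real.exp (∑ i, lam * ξ i (ω i)) ∂(Measure.pi fun _ : ι => μ) := by
      rw [int_exp_sum (fun i x => lam * ξ i x), mul_sum, sum_div, Real.exp_sum]
      exact prod_le_prod (fun i _ => (Real.exp_pos _).le) fun i _ => hlow i
    have hsv : 0 ≤ ∑ i, v i := sum_nonneg fun i _ => hv0 i
    have h := pz (ν := Measure.pi fun _ : ι => μ)
      (Z := fun ω : ι → Ω => Real.exp (∑ i, lam * ξ i (ω i)))
      (integrable_exp_sum (fun i x => lam * ξ i x) (fun i => (hξm i).const_mul lam) (1 / 2)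
        fun i x => (abs_le.1 (hlξ i x)).2)
      (by
        rw [hsq]
        exact integrable_exp_sum (fun i x => 2 * lam * ξ i x) (fun i => (hξm i).const_mul _) 1
          fun i x => by have := (abs_le.1 (hlξ i x)).2; linarith)
      (Real.exp (4 * lam ^ 2 * V₂)) (Real.exp_pos _)
      ((Real.one_le_exp (by positivity)).trans hZ1)
      (by
        rw [hsq, int_exp_sum (fun i x => 2 * lam * ξ i x)]
        refine (prod_le_prod (fun i _ => integral_nonneg fun x => (Real.exp_pos _).le)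
          fun i _ => hup i).trans ?_
        rw [← Real.exp_sum, ← mul_sum]
        exact Real.exp_le_exp.2 (mul_le_mul_of_nonneg_left hV2 (by positivity)))
      {ω | ∑ i, S i (ω i) < ∑ i, ∫ x, S i x ∂μ + (lam * V₁ / 4 - 1 / lam)}
      (measurableSet_lt (meas_sum S hS) measurable_const)
      (by
        intro ω hω
        have h1 : ∑ i, lam * ξ i (ω i) ≤ lam ^ 2 * (∑ i, v i) / 4 - 1 := by
          rw [← mul_sum]
          simp only [hξ]
          rw [sum_sub_distrib]
          have h2 : ∑ i, S i (ω i) - ∑ i, e i ≤ lam * V₁ / 4 - 1 / lam := by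
            have : ∑ i, S i (ω i) < ∑ i, e i + (lam * V₁ / 4 - 1 / lam) := hω
            linarith
          have h3 := mul_le_mul_of_nonneg_left h2 hlam.le
          have e3 : lam * (lam * V₁ / 4 - 1 / lam) = lam ^ 2 * V₁ / 4 - 1 := by field_simp
          have h4 := mul_le_mul_of_nonneg_left (show V₁ ≤ ∑ i, v i from hV1) (sq_nonneg lam)
          linarith
        have h2 : Real.exp (lam ^ 2 * (∑ i, v i) / 4 - 1) * 2 ≤
            Real.exp (lam ^ 2 * (∑ i, v i) / 4) := by
          have h3 : (2 : ℝ) ≤ Real.exp 1 := by linarith [Real.add_one_le_exp 1]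
          calc _ ≤ Real.exp (lam ^ 2 * (∑ i, v i) / 4 - 1) * Real.exp 1 :=
                mul_le_mul_of_nonneg_left h3 (Real.exp_pos _).le
            _ = _ := by rw [← Real.exp_add]; congr 1; ring
        have h3 := Real.exp_le_exp.2 h1
        show Real.exp (∑ i, lam * ξ i (ω i)) ≤ _
        linarith)
    refine h.trans (le_of_eq ?_)
    congr 2
    rw [Real.exp_neg]; field_simp

end Pool.Agent.MP_037c5a_pr
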