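import Pool.Agent.MP_037c5a_pr.Fam

open MeasureTheory Finset ProbabilityTheory

namespace Pool.Agent.MP_037c5a_pr

/-- the model is realised inside a free Gaussian walk with `m` steps -/
def Coupled (𝓜 : Model) (m : ℕ) : Prop :=
  0 < m ∧ ∃ Ψ : (Fin m → E) → 𝓜.X,
    MeasurePreserving (fun w : Fin m → E => ((Real.sqrt m)⁻¹ • ∑ i, w i, Ψ w))
      (Measure.pi fun _ => gam) (gam.prod 𝓜.μ) ∧
    ∀ (ξ : ℕ → E) (a : 𝓜.I), ∃ j ≤ m,
      ξ 0 + Real.sqrt m • 𝓜.pt a ((Real.sqrt m)⁻¹ • (ξ m - ξ 0))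
        (Ψ fun i => ξ (i + 1) - ξ i) = ξ j

theorem coupled_base (hC : StmtChain) : Coupled baseModel 1 := by
  have := hC.gam_prob
  refine ⟨one_pos, fun _ => (), ?_, fun ξ a => ⟨0, by norm_num, by simp [baseModel]⟩⟩
  have h1 := measurePreserving_funUnique gam (Fin 1)
  have h2 : MeasurePreserving (fun x : E => (x, ())) gam (gam.prod (Measure.dirac ())) :=
    ⟨by fun_prop, (Measure.prod_dirac ()).symm⟩
  have e : (fun w : Fin 1 → E => ((Real.sqrt (1 : ℕ))⁻¹ • ∑ i, w i, ())) =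
      (fun x : E => (x, ())) ∘ MeasurableEquiv.funUnique (Fin 1) E := by
    funext w
    simp
  have h3 := h2.comp h1
  rw [← e] at h3
  exact h3

def blk {n m : ℕ} (w : Fin (n * m) → E) (l : Fin n) (i : Fin m) : E := w (finProdFinEquiv (l, i))

theorem mp_blk (hC : StmtChain) (n m : ℕ) :
    MeasurePreserving (blk (n := n) (m := m)) (Measure.pi fun _ => gam)
      (Measure.pi fun _ => Measure.pi fun _ => gam) := by
  have := hC.gam_prob
  have h1 := measurePreserving_arrowCongr' (fun _ : Fin (n * m) => gam)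
    (fun _ : Fin n × Fin m => gam) finProdFinEquiv.symm (MeasurableEquiv.refl E)
    (fun _ => MeasurePreserving.id gam)
  exact (mp_curry (Fin n) (Fin m) E gam).comp h1

theorem mp_blocks (hC : StmtChain) (n m : ℕ) {X : Type} [MeasurableSpace X] (μ : Measure X)
    [IsProbabilityMeasure μ] (Ψ : (Fin m → E) → X)
    (h : MeasurePreserving (fun w : Fin m → E => ((Real.sqrt m)⁻¹ • ∑ i, w i, Ψ w))
      (Measure.pi fun _ => gam) (gam.prod μ)) :
    MeasurePreserving (fun w : Fin (n * m) → E =>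
        (fun l : Fin n => (Real.sqrt m)⁻¹ • ∑ i, blk w l i, fun l : Fin n => Ψ (blk w l)))
      (Measure.pi fun _ => gam) ((Measure.pi fun _ => gam).prod (Measure.pi fun _ => μ)) := by
  have := hC.gam_prob
  have h2 := measurePreserving_pi (fun _ : Fin n => Measure.pi fun _ : Fin m => gam)
    (fun _ => gam.prod μ) (fun _ => h)
  have h3 := measurePreserving_arrowProdEquivProdArrow E X (Fin n) (fun _ => gam) (fun _ => μ)
  exact h3.comp (h2.comp (mp_blk hC n m))

theorem blk_incr {n m : ℕ} (ξ : ℕ → E) (l : Fin n) :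
    blk (fun i : Fin (n * m) => ξ (i + 1) - ξ i) l =
      fun i : Fin m => ξ (i + 1 + m * l) - ξ (i + m * l) := by
  funext i
  simp only [blk, finProdFinEquiv_apply_val]
  rw [Nat.add_right_comm]

theorem sum_incr (m : ℕ) (ξ : ℕ → E) : ∑ i : Fin m, (ξ (i + 1) - ξ i) = ξ m - ξ 0 := by
  rw [Fin.sum_univ_eq_sum_range (fun i => ξ (i + 1) - ξ i) m, sum_range_sub]

theorem sum_blk_incr {n m : ℕ} (ξ : ℕ → E) (l : Fin n) :
    ∑ i, blk (fun i : Fin (n * m) => ξ (i + 1) - ξ i) l i = ξ (m * (l + 1)) - ξ (m * l) := by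
  rw [blk_incr, sum_incr m fun j => ξ (j + m * l), zero_add, mul_add, mul_one, add_comm m]

theorem sum_filter_lt {n : ℕ} (U : ℕ → E) (l : ℕ) (hl : l ≤ n) :
    ∑ i ∈ univ.filter (fun i : Fin n => i.val < l), (U (i + 1) - U i) = U l - U 0 := by
  rw [sum_filter, Fin.sum_univ_eq_sum_range (fun i => if i < l then U (i + 1) - U i else 0) n,
    ← sum_filter, ← sum_range_sub]
  refine sum_congr ?_ fun _ _ => rfl
  ext i
  simp only [mem_filter, mem_range]
  omega

theorem bp_split (k : ℕ) (U : ℕ → E) (l : ℕ) (hl : l ≤ k + 1) :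
    bp k 0 (∑ i : Fin (k + 1), (U (i + 1) - U i))
      (fun l : Fin k => (∑ i ∈ univ.filter (fun i : Fin (k + 1) => i.val ≤ l.val),
        (U (i + 1) - U i)) - (((l : ℝ) + 1) / (k + 1)) • ∑ i : Fin (k + 1), (U (i + 1) - U i)) l =
      U l - U 0 := by
  rw [sum_incr]
  unfold bp pth
  split_ifs with h0 h1
  · simp [h0]
  · have e : (univ.filter fun i : Fin (k + 1) => i.val ≤ l - 1) =
        univ.filter fun i : Fin (k + 1) => i.val < l := by
      ext i
      simp only [mem_filter, mem_univ, true_and]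
      omega
    have e2 : ((l - 1 : ℕ) : ℝ) + 1 = l := by
      rw [Nat.cast_sub (by omega)]; simp
    simp only [e, e2]
    rw [sum_filter_lt U l hl]
    simp
  · have : l = k + 1 := by omega
    subst this
    have : ((k + 1 : ℕ) : ℝ) / (k + 1) = 1 := by
      push_cast; exact div_self (by positivity)
    rw [this]
    simp

theorem coupled_refine (hC : StmtChain) (hS : StmtSplit) (k : ℕ) {M : ℝ} (hM : 0 < M)
    (hM2 : M ^ 2 = k + 1) {𝓜 : Model} {m : ℕ} (h : Coupled 𝓜 m) :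
    Coupled (refine hC k M 𝓜) ((k + 1) * m) := by
  have := hC.gam_prob
  have := hC.nu_prob k
  obtain ⟨hm, Ψ, hΨ, hpt⟩ := h
  have hm' : (0 : ℝ) < Real.sqrt m := Real.sqrt_pos.2 (by exact_mod_cast hm)
  have hsq : Real.sqrt (((k + 1) * m : ℕ) : ℝ) = M * Real.sqrt m := by
    push_cast
    rw [← hM2, Real.sqrt_mul (by positivity), Real.sqrt_sq hM.le]
  let spl : (Fin (k + 1) → E) → Fin k → E := fun c l =>
    (∑ i ∈ univ.filter (fun i : Fin (k + 1) => i.val ≤ l.val), c i) -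
      (((l : ℝ) + 1) / (k + 1)) • ∑ i, c i
  refine ⟨by positivity, fun w => (spl fun l => (Real.sqrt m)⁻¹ • ∑ i, blk w l i,
    fun l => Ψ (blk w l)), ?_, fun ξ a => ?_⟩
  · have h1 := mp_blocks hC (k + 1) m 𝓜.μ Ψ hΨ
    have h2 := (hS k M hM hM2).prod (MeasurePreserving.id (Measure.pi fun _ : Fin (k + 1) => 𝓜.μ))
    have h3 := measurePreserving_prodAssoc gam (nu k) (Measure.pi fun _ : Fin (k + 1) => 𝓜.μ)
    have h4 := h3.comp (h2.comp h1)
    refine (congrArg (fun f => MeasurePreserving f _ _) ?_).mpr h4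
    funext w
    simp only [Function.comp, Prod.map, id, MeasurableEquiv.prodAssoc, MeasurableEquiv.coe_mk,
      Equiv.prodAssoc_apply, spl]
    rw [hsq, ← smul_sum, smul_smul, mul_inv, ← Fintype.sum_prod_type',
      ← finProdFinEquiv.sum_comp]
    rfl
  · obtain ⟨l, a⟩ := a
    let U : ℕ → E := fun l => (Real.sqrt m)⁻¹ • ξ (m * l)
    have hc : (fun l : Fin (k + 1) => (Real.sqrt m)⁻¹ •
        ∑ i, blk (fun i : Fin ((k + 1) * m) => ξ (i + 1) - ξ i) l i) =
        fun l : Fin (k + 1) => U (l + 1) - U l := by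
      funext l
      rw [sum_blk_incr, smul_sub]
    have hQ : M • (Real.sqrt (((k + 1) * m : ℕ) : ℝ))⁻¹ • (ξ ((k + 1) * m) - ξ 0) =
        ∑ i : Fin (k + 1), (U (i + 1) - U i) := by
      rw [sum_incr, hsq, smul_smul, mul_inv, ← mul_assoc, mul_inv_cancel₀ hM.ne', one_mul,
        smul_sub]
      simp only [U, zero_mul, mul_comm m]
    obtain ⟨j, hj, hj'⟩ := hpt (fun j => ξ (j + m * l)) a
    refine ⟨j + m * l, ?_, ?_⟩
    · have := l.2
      nlinarith
    · simp only [refine]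
      rw [hQ, hc, bp_split k U l l.2.le, bp_split k U (l + 1) l.2, blk_incr, ← hj', hsq,
        smul_smul, mul_right_comm, mul_inv_cancel₀ hM.ne', one_mul, sub_sub_sub_cancel_right,
        smul_add]
      simp only [U, ← smul_sub, smul_smul, mul_inv_cancel₀ hm'.ne', one_smul, mul_zero, zero_add,
        mul_add, mul_one, add_comm m]
      abel

theorem gam_ball_pos {ε : ℝ} (hε : 0 < ε) : gam (Metric.closedBall 0 ε) ≠ 0 := by
  intro h
  have hac : (volume : Measure E) ≪ gam := by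
    refine withDensity_absolutelyContinuous' ?_ (Filter.Eventually.of_forall fun x => ?_)
    · unfold ph
      fun_prop
    · rw [Ne, ENNReal.ofReal_eq_zero, not_le]
      unfold ph
      positivity
  exact (Metric.measure_closedBall_pos volume (0 : E) hε).ne' (hac h)

theorem top_level (hC : StmtChain) (hM : StmtMom) (g : Glob) (hq0 : 1 ≤ g.q0)
    (hq : 4 * g.q0 ≤ g.q) (hD : 1 ≤ g.D) (n₀ : ℕ) (hn : 0 < n₀) (h : ℝ) (hh : h ≤ n₀ / 20)
    (hW : (n₀ : ℝ) ≤ g.W) :
    ∃ p : ℝ, 0 < p ∧ ∀ (𝓜 : Model) (m : ℕ), Coupled 𝓜 m → ∀ Φ : Set E → Prop, MeasPred Φ →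
      MonoPred Φ → Win g 𝓜 Φ h (1 / 2) →
      ∃ F : Set (Fin (n₀ * m) → E), MeasurableSet F ∧
        ENNReal.ofReal p ≤ (Measure.pi fun _ : Fin (n₀ * m) => gam) F ∧
        ∀ ξ : ℕ → E, (fun i : Fin (n₀ * m) => ξ (i + 1) - ξ i) ∈ F →
          Φ (zoom (ξ '' Set.Iic (n₀ * m)) (ξ 0) (Real.sqrt m)) := by
  have := hC.gam_prob
  have hq0' : (1 : ℝ) ≤ g.q0 := by exact_mod_cast hq0
  have hq' : (4 : ℝ) * g.q0 ≤ g.q := by exact_mod_cast hq
  have hn' : (0 : ℝ) < n₀ := by exact_mod_cast hn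
  set r : ℝ := Real.sqrt ((g.q0 : ℝ) / g.q) with hr
  have hr0 : 0 < r := Real.sqrt_pos.2 (div_pos (by linarith) (by linarith))
  have hr2 : r ^ 2 = (g.q0 : ℝ) / g.q := Real.sq_sqrt (by positivity)
  have hr1 : r ≤ 1 := Real.sqrt_le_one.2 (by rw [div_le_one (by linarith)]; linarith)
  let Gd : Set (Fin n₀ → E) := Set.univ.pi fun _ => Metric.closedBall 0 (r / n₀)
  have hGd : MeasurableSet Gd := MeasurableSet.univ_pi fun _ => Metric.isClosed_closedBall.measurableSet
  have hGp : (Measure.pi fun _ : Fin n₀ => gam) Gd ≠ 0 := by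
    rw [Measure.pi_pi]
    exact prod_ne_zero_iff.2 fun _ _ => gam_ball_pos (by positivity)
  let A : ℕ → (Fin n₀ → E) → E := fun l c => ∑ i ∈ univ.filter (fun i : Fin n₀ => i.val < l), c i
  have hAm : ∀ l, Measurable (A l) := fun l => Finset.measurable_sum _ fun i _ => measurable_pi_apply i
  have hA : ∀ c ∈ Gd, ∀ l, ‖A l c‖ ≤ r := by
    intro c hc l
    refine (norm_sum_le _ _).trans ?_
    refine (sum_le_sum_of_subset_of_nonneg (filter_subset _ _) fun _ _ _ => norm_nonneg _).trans ?_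
    refine (sum_le_card_nsmul _ _ (r / n₀) fun i _ => ?_).trans ?_
    · simpa using hc i (Set.mem_univ _)
    · simp only [card_univ, Fintype.card_fin, nsmul_eq_mul]
      rw [mul_div_cancel₀ _ hn'.ne']
  refine ⟨(2⁻¹ * (Measure.pi fun _ : Fin n₀ => gam) Gd).toReal,
    ENNReal.toReal_pos (mul_ne_zero (by simp) hGp)
      (ENNReal.mul_ne_top (by simp) (measure_ne_top _ _)), ?_⟩
  rintro 𝓜 m ⟨hm, Ψ, hΨ, hpt⟩ Φ hΦ hΦ' hw
  have hm' : (0 : ℝ) < Real.sqrt m := Real.sqrt_pos.2 (by exact_mod_cast hm)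
  have h1 := mp_blocks hC n₀ m 𝓜.μ Ψ hΨ
  let F : Set ((Fin n₀ → E) × (Fin n₀ → 𝓜.X)) := {x | x.1 ∈ Gd ∧
    Φ (famT 𝓜 univ (fun l : Fin n₀ => A l x.1) (fun l : Fin n₀ => A (l + 1) x.1) x.2)}
  have hF : MeasurableSet F := by
    refine (measurable_fst hGd).inter (hΦ _ _ _ ?_)
    exact meas_hit_famT 𝓜 univ _ _ _ (fun i _ => (hAm _).comp measurable_fst)
      (fun i _ => (hAm _).comp measurable_fst) (fun i _ => by fun_prop)
  refine ⟨_, h1.measurable hF, ?_, fun ξ hξ => ?_⟩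
  · rw [h1.measure_preimage hF.nullMeasurableSet, Measure.prod_apply hF,
      ENNReal.ofReal_toReal (ENNReal.mul_ne_top (by simp) (measure_ne_top _ _)),
      ← lintegral_indicator_const hGd]
    refine lintegral_mono fun c => ?_
    by_cases hc : c ∈ Gd
    · rw [Set.indicator_of_mem hc]
      have hok : OK g univ (fun l : Fin n₀ => A l c) (fun l : Fin n₀ => A (l + 1) c) h := by
        refine ⟨fun i _ => ⟨(hA c hc _).trans (hr1.trans hD), (hA c hc _).trans (hr1.trans hD)⟩,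
          by simpa using hW, hh.trans ?_⟩
        refine le_trans ?_ (card_nsmul_le_sum _ _ (1 / 20) fun i _ =>
          hM.gk_lb _ _ _ _ hq0 hq ?_ ?_)
        · simp [div_eq_mul_inv]
        · rw [← hr2]; exact pow_le_pow_left₀ (norm_nonneg _) (hA c hc _) 2
        · rw [← hr2]; exact pow_le_pow_left₀ (norm_nonneg _) (hA c hc _) 2
      have h2 := hw _ _ _ _ hok
      have h3 : Prod.mk c ⁻¹' F = {ω : Fin n₀ → 𝓜.X | ¬ Φ (famT 𝓜 univ (fun l : Fin n₀ => A l c)
          (fun l : Fin n₀ => A (l + 1) c) ω)}ᶜ := by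
        ext ω
        simp [F, hc]
      rw [h3, prob_compl_eq_one_sub (hΦ.fam 𝓜 _ _ _)]
      refine le_trans (le_of_eq ?_) (tsub_le_tsub_left h2 1)
      rw [one_div, ENNReal.one_sub_inv_two]
    · rw [Set.indicator_of_notMem hc]
      exact zero_le
  · refine hΦ' _ _ ?_ hξ.2
    rintro _ ⟨l, -, a, rfl⟩
    let U : ℕ → E := fun l => (Real.sqrt m)⁻¹ • ξ (m * l)
    have hc : (fun l : Fin n₀ => (Real.sqrt m)⁻¹ •
        ∑ i, blk (fun i : Fin (n₀ * m) => ξ (i + 1) - ξ i) l i) =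
        fun l : Fin n₀ => U (l + 1) - U l := by
      funext l
      rw [sum_blk_incr, smul_sub]
    obtain ⟨j, hj, hj'⟩ := hpt (fun j => ξ (j + m * l)) a
    refine ⟨j + m * l, ?_, ?_⟩
    · have := l.2
      show j + m * l ≤ n₀ * m
      nlinarith
    · simp only [A]
      rw [hc, sum_filter_lt U l l.2.le, sum_filter_lt U (l + 1) l.2, blk_incr, ← hj',
        sub_sub_sub_cancel_right, smul_add]
      simp only [U, ← smul_sub, smul_smul, mul_inv_cancel₀ hm'.ne', one_smul, mul_zero, zero_add,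
        mul_add, mul_one, add_comm m]
      abel

end Pool.Agent.MP_037c5a_pr
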