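import Mathlib

open MeasureTheory Finset

namespace Pool.Agent.MP_037c5a_pr

abbrev E := EuclideanSpace ℝ (Fin 2)

/-- planar heat kernel -/
noncomputable def ph (t : ℝ) (x : E) : ℝ :=
  (2 * Real.pi * t)⁻¹ * Real.exp (-‖x‖ ^ 2 / (2 * t))

/-- standard planar Gaussian -/
noncomputable def gam : Measure E := volume.withDensity fun x => ENNReal.ofReal (ph 1 x)

/-- the set `(T - x) / r` -/
def zoom (T : Set E) (x : E) (r : ℝ) : Set E := {p | x + r • p ∈ T}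

noncomputable def gridPt (i j : ℕ) : E := WithLp.toLp 2 ![(i : ℝ), (j : ℝ)]

/-- Dirichlet energy on the self-dual grid network -/
def En (K : ℕ) (c u : ℕ → ℕ → ℝ) : ℝ :=
  ∑ i ∈ range K, ∑ j ∈ range K,
    c i j * ((u (i + 1) j - u i j) ^ 2 + (u (i + 1) (j + 1) - u (i + 1) j) ^ 2)

def Adm (K : ℕ) (u : ℕ → ℕ → ℝ) : Prop := ∀ j ≤ K, u 0 j = 0 ∧ u K j = 1

/-- the left-right effective conductance is at least `τ` -/
def EnGe (K : ℕ) (c : ℕ → ℕ → ℝ) (τ : ℝ) : Prop := ∀ u, Adm K u → τ ≤ En K c u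

structure Par where
  D : ℝ
  R : ℝ
  K : ℕ
  tau : ℝ
  G : ℝ
  pot : ℕ → ℝ
  O : Finset E

/-- good trees of depth `L` in a planar set, root at the origin, scale 1, height `N` -/
def GT (P : Par) : ℕ → Set E → ℕ → Prop
  | 0, T, _ => ∃ p ∈ T, ‖p‖ ≤ P.D
  | L + 1, T, N => (∃ p ∈ T, ‖p‖ ≤ P.D) ∧ ∃ o ∈ P.O,
      ((∃ n : ℕ → ℕ → ℕ,
          (∀ i ≤ P.K, ∀ j ≤ P.K,
            GT P L (zoom T (o + (8 * P.D / P.R) • gridPt i j) P.R⁻¹) (n i j)) ∧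
          (EnGe P.K (fun i j => P.pot (n i j)) (P.tau * P.pot N) ∨
            EnGe P.K (fun i j => P.pot (n j i)) (P.tau * P.pot N))) ∨
        (∃ N' : ℕ, GT P L (zoom T o P.R⁻¹) N' ∧ P.G * P.pot N ≤ P.pot N'))

structure ParOK (k : ℕ) (P : Par) : Prop where
  hD : 1 ≤ P.D
  hR : (k : ℝ) ≤ P.R
  hK1 : 1 ≤ P.K
  hK : P.R ^ (k - 1) ≤ (P.K : ℝ) ^ k
  hKR : 24 * P.D * P.K ≤ P.R
  htau0 : 0 < P.tau
  htau : 1 ≤ P.tau ^ k * P.R
  hG : P.R ^ k ≤ P.G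
  hpot : ∀ N, 0 < P.pot N ∧ P.pot N ≤ 1
  hO : ∀ o ∈ P.O, ‖o‖ ≤ 1 / 2

theorem zoom_mono {T T' : Set E} (h : T ⊆ T') (x : E) (r : ℝ) : zoom T x r ⊆ zoom T' x r :=
  fun _ hp => h hp

theorem zoom_zoom (T : Set E) (x z : E) (r r' : ℝ) :
    zoom (zoom T x r) z r' = zoom T (x + r • z) (r * r') := by
  ext p
  simp only [zoom, Set.mem_ofPred_eq, smul_add, smul_smul, add_assoc]

theorem GT_mono (P : Par) : ∀ (L : ℕ) {T T' : Set E} (N : ℕ), T ⊆ T' → GT P L T N → GT P L T' N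
  | 0, _, _, _, h, ⟨p, hp, hn⟩ => ⟨p, h hp, hn⟩
  | L + 1, _, _, _, h, ⟨⟨p, hp, hn⟩, o, ho, hh⟩ => by
    refine ⟨⟨p, h hp, hn⟩, o, ho, ?_⟩
    rcases hh with ⟨n, h1, h2⟩ | ⟨N', h1, h2⟩
    · exact Or.inl ⟨n, fun i hi j hj => GT_mono P L _ (zoom_mono h _ _) (h1 i hi j hj), h2⟩
    · exact Or.inr ⟨N', GT_mono P L _ (zoom_mono h _ _) h1, h2⟩

/-- deterministic half -/
def StmtDet : Prop :=
  ∀ (S : Set E), IsCompact S → ∀ ρ₀ : ℝ, 0 < ρ₀ →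
    (∀ x ∈ S, ∀ ρ : ℝ, 0 < ρ → ρ ≤ ρ₀ → ∃ y ∈ S, dist y x = ρ) →
    ∀ (Y : Type) [MetricSpace Y] (f : S → Y) (η : ℝ → ℝ),
      Function.Injective f → StrictMonoOn η (Set.Ici 0) → ContinuousOn η (Set.Ici 0) → η 0 = 0 →
      (∀ x a b : S, a ≠ b → dist (f x) (f a) ≤ η (dist x a / dist b a) * dist (f b) (f a)) →
      ∀ s : ℝ, 0 < s → s < 2 →
        ∃ k : ℕ, 1 ≤ k ∧ ∀ P : Par, ParOK k P → ∀ r : ℝ, 0 < r → 16 * P.D * r ≤ ρ₀ → ∀ N : ℕ,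
          (∃ᶠ L in Filter.atTop, ∃ x : E, GT P L (zoom S x r) N) →
          ENNReal.ofReal s ≤ dimH (Set.range f)

/-- probabilistic half, on the canonical space of standard Gaussian steps -/
def StmtProb : Prop :=
  ∀ k : ℕ, 1 ≤ k → ∃ P : Par, ParOK k P ∧ ∃ (N n₀ : ℕ) (p : ℝ), 0 < n₀ ∧ 0 < p ∧
    ∀ L : ℕ, ∃ m : ℕ, 0 < m ∧ ∃ F : Set (Fin (n₀ * m) → E), MeasurableSet F ∧
      ENNReal.ofReal p ≤ (Measure.pi fun _ : Fin (n₀ * m) => gam) F ∧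
      ∀ ξ : ℕ → E, (fun i : Fin (n₀ * m) => ξ (i + 1) - ξ i) ∈ F →
        GT P L (zoom (ξ '' Set.Iic (n₀ * m)) (ξ 0) (Real.sqrt m)) N

/-- weight of a chain of `k+1` unit Gaussian steps from `a` to `b` through the points `y` -/
noncomputable def cw : (k : ℕ) → E → (Fin k → E) → E → ℝ
  | 0, a, _, b => ph 1 (b - a)
  | k + 1, a, y, b => ph 1 (y 0 - a) * cw k (y 0) (Fin.tail y) b

/-- the path `a, y 0, …, y (k-1), b, b, …` -/
def pth {k : ℕ} (a : E) (y : Fin k → E) (b : E) (l : ℕ) : E :=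
  if l = 0 then a else if h : l - 1 < k then y ⟨l - 1, h⟩ else b

/-- law of the interior points of the Gaussian bridge from 0 to 0 with `k+1` unit steps -/
noncomputable def nu (k : ℕ) : Measure (Fin k → E) :=
  (ENNReal.ofReal (ph (k + 1) 0))⁻¹ • volume.withDensity fun y => ENNReal.ofReal (cw k 0 y 0)

/-- bridge from `P` to `Q` with `k+1` unit steps driven by `β`; meaningful for `l ≤ k+1` -/
noncomputable def bp (k : ℕ) (P Q : E) (β : Fin k → E) (l : ℕ) : E :=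
  P + ((l : ℝ) / (k + 1)) • (Q - P) + pth 0 β 0 l

/-- discretised occupation density at the origin of the unit time bridge from `A` to `B` -/
noncomputable def gk (q q0 : ℕ) (A B : E) : ℝ :=
  (q : ℝ)⁻¹ * ∑ u ∈ Ico q0 (q - q0), ph (u / q) A * ph (1 - u / q) B / ph 1 (B - A)

open Classical in
noncomputable def cutSet (q q0 p k : ℕ) (D : ℝ) (P Q : E) (β : Fin k → E) : Finset ℕ :=
  (Ico (q0 * p) ((q - q0) * p)).filter fun l => ‖bp k P Q β l‖ ≤ D ∧ ‖bp k P Q β (l + 1)‖ ≤ D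

noncomputable def keep (q q0 p k bb : ℕ) (D : ℝ) (P Q : E) (β : Fin k → E) : Finset ℕ :=
  if (cutSet q q0 p k D P Q β).card ≤ bb then cutSet q q0 p k D P Q β else ∅

noncomputable def Sv (q q0 p k bb : ℕ) (D : ℝ) (P Q : E) (β : Fin k → E) : ℝ :=
  ∑ l ∈ keep q q0 p k bb D P Q β, gk q q0 (bp k P Q β l) (bp k P Q β (l + 1))

noncomputable def Cv (q q0 p k bb : ℕ) (D : ℝ) (P Q : E) (β : Fin k → E) : ℝ :=
  ((keep q q0 p k bb D P Q β).card : ℝ)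

end Pool.Agent.MP_037c5a_pr
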