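import Pool.Agent.MP_037c5a_pr.DetKey

open MeasureTheory Finset

namespace Pool.Agent.MP_037c5a_pr

section
variable {S : Set E} {ρ₀ : ℝ} {Y : Type} [MetricSpace Y] {f : S → Y} {η : ℝ → ℝ}

theorem cover_of_dimH_lt {A : Set Y} {s : ℝ} (hs0 : 0 < s) (hA : dimH A < ENNReal.ofReal s)
    {δ : ℝ} (hδ : 0 < δ) : ∃ t : ℕ → Set Y, A ⊆ ⋃ n, t n ∧ (∀ n, Bornology.IsBounded (t n)) ∧
      ∀ F : Finset ℕ, ∑ n ∈ F, Metric.diam (t n) ^ s ≤ δ := by
  borelize Y
  have h0 : Measure.hausdorffMeasure ((s.toNNReal : NNReal) : ℝ) A = 0 :=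
    hausdorffMeasure_of_dimH_lt hA
  rw [Real.coe_toNNReal _ hs0.le, Measure.hausdorffMeasure_apply] at h0
  have h1 := le_iSup₂_of_le (f := fun (r : ENNReal) (_ : 0 < r) =>
    ⨅ (t : ℕ → Set Y) (_ : A ⊆ ⋃ n, t n) (_ : ∀ n, Metric.ediam (t n) ≤ r),
      ∑' n, ⨆ _ : (t n).Nonempty, Metric.ediam (t n) ^ s) 1 one_pos le_rfl
  rw [h0] at h1
  have h2 := lt_of_le_of_lt h1 (ENNReal.ofReal_pos.mpr hδ)
  simp only [iInf_lt_iff] at h2
  obtain ⟨t, ht1, ht2, ht3⟩ := h2
  have hfin : ∀ n, Metric.ediam (t n) ≠ ⊤ := fun n => ne_top_of_le_ne_top ENNReal.one_ne_top (ht2 n)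
  refine ⟨t, ht1, fun n => Metric.isBounded_iff_ediam_ne_top.mpr (hfin n), fun F => ?_⟩
  rw [← ENNReal.ofReal_le_ofReal_iff hδ.le,
    ENNReal.ofReal_sum_of_nonneg (fun n _ => Real.rpow_nonneg Metric.diam_nonneg _)]
  refine le_trans (Finset.sum_le_sum fun n _ => ?_) ((ENNReal.sum_le_tsum F).trans ht3.le)
  rcases (t n).eq_empty_or_nonempty with he | he
  · rw [he, Metric.diam_empty, Real.zero_rpow hs0.ne']; simp
  · rw [iSup_pos he, ← ENNReal.ofReal_rpow_of_nonneg Metric.diam_nonneg hs0.le, Metric.diam,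
      ENNReal.ofReal_toReal (hfin n)]

theorem QS.exists_ball (h : QS S ρ₀ f η) (p0 : S) {s : ℝ} (hs0 : 0 < s) (U : Set Y)
    (hU : Bornology.IsBounded U) {ε : ℝ} (hε : 0 < ε) :
    ∃ (x : S) (ρ : ℝ), 0 < ρ ∧ (∀ q : S, f q ∈ U → dist (q : E) x < ρ) ∧
      dd f x ρ ^ s ≤ (2 * η 4) ^ s * Metric.diam U ^ s + ε := by
  have hη := h.eta_nonneg (a := 4) (by norm_num)
  have hnn : 0 ≤ (2 * η 4) ^ s * Metric.diam U ^ s :=
    mul_nonneg (Real.rpow_nonneg (by positivity) _) (Real.rpow_nonneg Metric.diam_nonneg _)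
  have small : ∀ x : S, (∀ q : S, f q ∈ U → q = x) → ∃ (x : S) (ρ : ℝ), 0 < ρ ∧
      (∀ q : S, f q ∈ U → dist (q : E) x < ρ) ∧
      dd f x ρ ^ s ≤ (2 * η 4) ^ s * Metric.diam U ^ s + ε := by
    intro x hx
    obtain ⟨ρ, hρ, hle⟩ := h.exists_small x (Real.rpow_pos_of_pos hε s⁻¹)
    refine ⟨x, ρ, hρ, fun q hq => by rw [hx q hq, dist_self]; exact hρ, ?_⟩
    have := Real.rpow_le_rpow (dd_nonneg _ _ _) hle hs0.le
    rw [Real.rpow_inv_rpow hε.le hs0.ne'] at this
    linarith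
  by_cases hex : ∃ x : S, f x ∈ U
  swap
  · exact small p0 fun q hq => absurd ⟨q, hq⟩ hex
  obtain ⟨x, hx⟩ := hex
  by_cases hone : ∀ q : S, f q ∈ U → q = x
  · exact small x hone
  push Not at hone
  obtain ⟨q0, hq0, hq0x⟩ := hone
  obtain ⟨C, -, hC⟩ := h.exists_diam
  set B : Set ℝ := (fun q : S => dist (q : E) x) '' {q | f q ∈ U} with hB
  have hBb : BddAbove B := ⟨C, by rintro _ ⟨q, -, rfl⟩; exact hC _ q.2 _ x.2⟩
  have hBn : B.Nonempty := ⟨_, x, hx, rfl⟩
  have hm : 0 < sSup B := by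
    refine lt_of_lt_of_le ?_ (le_csSup hBb ⟨q0, hq0, rfl⟩)
    exact dist_pos.mpr fun e => hq0x (Subtype.ext e)
  obtain ⟨_, ⟨y, hy, rfl⟩, hyl⟩ := exists_lt_of_lt_csSup hBn (half_lt_self hm)
  have hyl' : sSup B / 2 < dist (y : E) x := hyl
  have hne : x ≠ y := by
    intro e
    rw [e, dist_self] at hyl'
    linarith
  refine ⟨x, 2 * sSup B, by positivity, fun q hq => ?_, ?_⟩
  · have : dist (q : E) x ≤ sSup B := le_csSup hBb ⟨q, hq, rfl⟩
    linarith
  · have h1 := h.dd_le_of_ne hne (t := 4) (ρ := 2 * sSup B) (by norm_num) (by linarith)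
    have h2 : dist (f y) (f x) ≤ Metric.diam U := Metric.dist_le_diam_of_mem hU hy hx
    have h3 := h1.trans (mul_le_mul_of_nonneg_left h2 (by positivity))
    have h4 := Real.rpow_le_rpow (dd_nonneg _ _ _) h3 hs0.le
    rw [Real.mul_rpow (by positivity) Metric.diam_nonneg] at h4
    linarith

theorem QS.exists_cover (h : QS S ρ₀ f η) (p0 : S) {s : ℝ} (hs0 : 0 < s)
    (hA : dimH (Set.range f) < ENNReal.ofReal s) {κ : ℝ} (hκ : 0 < κ) :
    ∃ (F : Finset ℕ) (xc : ℕ → S) (ρ : ℕ → ℝ) (rmin : ℝ), 0 < rmin ∧ (∀ i ∈ F, rmin ≤ ρ i) ∧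
      (∀ q : S, ∃ i ∈ F, dist (q : E) (xc i) < ρ i) ∧ ∑ i ∈ F, dd f (xc i) (ρ i) ^ s < κ := by
  have hη := h.eta_nonneg (a := 4) (by norm_num)
  set C := (2 * η 4) ^ s with hC
  have hC0 : 0 ≤ C := Real.rpow_nonneg (by positivity) _
  set δ := κ / (C + 3) with hδ
  have hδ0 : 0 < δ := by positivity
  obtain ⟨t, ht1, ht2, ht3⟩ := cover_of_dimH_lt hs0 hA hδ0
  choose xc ρ hρ hcov hw using fun n : ℕ =>
    h.exists_ball p0 hs0 (t n) (ht2 n) (ε := δ * (1 / 2) ^ n) (by positivity)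
  have hsub : S ⊆ ⋃ n, Metric.ball (xc n : E) (ρ n) := by
    intro q hq
    obtain ⟨n, hn⟩ := Set.mem_iUnion.mp (ht1 ⟨⟨q, hq⟩, rfl⟩)
    exact Set.mem_iUnion.mpr ⟨n, hcov n ⟨q, hq⟩ hn⟩
  obtain ⟨F, hF⟩ := h.cpt.elim_finite_subcover _ (fun n => Metric.isOpen_ball) hsub
  have hq : ∀ q : S, ∃ i ∈ F, dist (q : E) (xc i) < ρ i := by
    intro q
    have := hF q.2
    simpa only [Set.mem_iUnion, Metric.mem_ball, exists_prop] using this
  have hFn : F.Nonempty := by
    obtain ⟨i, hi, -⟩ := hq p0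
    exact ⟨i, hi⟩
  obtain ⟨i0, -, hi0⟩ := F.exists_min_image ρ hFn
  refine ⟨F, xc, ρ, ρ i0, hρ i0, hi0, hq, ?_⟩
  have h1 : ∑ i ∈ F, dd f (xc i) (ρ i) ^ s ≤
      C * ∑ i ∈ F, Metric.diam (t i) ^ s + δ * ∑ i ∈ F, (1 / 2 : ℝ) ^ i := by
    rw [Finset.mul_sum, Finset.mul_sum, ← Finset.sum_add_distrib]
    exact Finset.sum_le_sum fun i _ => hw i
  have h2 : ∑ i ∈ F, (1 / 2 : ℝ) ^ i ≤ 2 := by
    have := summable_geometric_two.sum_le_tsum F (fun i _ => by positivity)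
    rwa [tsum_geometric_two] at this
  have h3 := mul_le_mul_of_nonneg_left (ht3 F) hC0
  have h4 := mul_le_mul_of_nonneg_left h2 hδ0.le
  have h5 : δ * (C + 3) = κ := by rw [hδ]; field_simp
  linarith

theorem sum_disj_le (F : Finset ℕ) (w : ℕ → ℝ) (hw : ∀ i, 0 ≤ w i) (I : Finset (ℕ × ℕ))
    (A : ℕ × ℕ → ℕ → Prop) [∀ a, DecidablePred (A a)] (B : ℕ → Prop) [DecidablePred B]
    (hAB : ∀ a ∈ I, ∀ i, A a i → B i)
    (hdisj : ∀ a ∈ I, ∀ a' ∈ I, ∀ i, A a i → A a' i → a = a') :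
    ∑ a ∈ I, ∑ i ∈ F.filter (A a), w i ≤ ∑ i ∈ F.filter B, w i := by
  rw [← Finset.sum_biUnion]
  · refine Finset.sum_le_sum_of_subset_of_nonneg ?_ fun i _ _ => hw i
    intro i hi
    obtain ⟨a, ha, hi⟩ := mem_biUnion.mp hi
    exact mem_filter.mpr ⟨(mem_filter.mp hi).1, hAB a ha i (mem_filter.mp hi).2⟩
  · intro a ha a' ha' hne
    refine Finset.disjoint_left.mpr fun i hi hi' => hne ?_
    exact hdisj a ha a' ha' i (mem_filter.mp hi).2 (mem_filter.mp hi').2

theorem GT_pt {P : Par} {L N : ℕ} {x : E} {r : ℝ} (hr : 0 < r) (hG : GT P L (zoom S x r) N) :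
    ∃ p : S, dist (p : E) x ≤ P.D * r := by
  have : ∃ p ∈ zoom S x r, ‖p‖ ≤ P.D := by
    cases L with
    | zero => exact hG
    | succ L => exact hG.1
  obtain ⟨p, hp, hn⟩ := this
  refine ⟨⟨x + r • p, hp⟩, ?_⟩
  rw [dist_eq_norm, add_sub_cancel_left, norm_smul, Real.norm_of_nonneg hr.le, mul_comm]
  exact mul_le_mul_of_nonneg_right hn hr.le

theorem QS.induct (h : QS S ρ₀ f η) {s : ℝ} (hs0 : 0 < s) {k : ℕ} {P : Par} (hP : ParOK k P)
    (hkey : Key S ρ₀ f s P) (F : Finset ℕ) (xc : ℕ → S) (ρ : ℕ → ℝ) (rmin : ℝ)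
    (hmin : ∀ i ∈ F, rmin ≤ ρ i) (hcov : ∀ q : S, ∃ i ∈ F, dist (q : E) (xc i) < ρ i) :
    ∀ (L : ℕ) (x : E) (r : ℝ) (N : ℕ), 0 < r → 16 * P.D * r ≤ ρ₀ → P.D * r * P.R⁻¹ ^ L < rmin →
      GT P L (zoom S x r) N →
      (∃ i ∈ F, P.D * r < ρ i ∧ dist (xc i : E) x ≤ ρ i + 2 * P.D * r) ∨
        P.pot N * dd f x (16 * P.D * r) ^ s ≤ (2 * η (19 * P.R)) ^ s *
          ∑ i ∈ F.filter (fun i => dist (xc i : E) x < 4 * P.D * r), dd f (xc i) (ρ i) ^ s := by
  have hD := hP.hD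
  have hK1 : (1 : ℝ) ≤ P.K := by exact_mod_cast hP.hK1
  have hKR := hP.hKR
  have hR24 : 24 * (P.K : ℝ) ≤ P.R := by nlinarith
  have hR0 : 0 < P.R := by linarith
  have hη := h.eta_nonneg (a := 19 * P.R) (by positivity)
  set c0 := (2 * η (19 * P.R)) ^ s with hc0
  have hc00 : 0 ≤ c0 := Real.rpow_nonneg (by positivity) _
  have hwn : ∀ i, 0 ≤ dd f (xc i) (ρ i) ^ s := fun i => Real.rpow_nonneg (dd_nonneg _ _ _) _
  intro L
  induction L with
  | zero =>
    intro x r N hr hrρ hL hG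
    obtain ⟨p, hp⟩ := GT_pt hr hG
    obtain ⟨i, hi, hpi⟩ := hcov p
    have h1 := hmin i hi
    have h2 := dist_triangle_left (xc i : E) x p
    have h3 : 0 < P.D * r := by positivity
    refine Or.inl ⟨i, hi, by simp at hL; linarith, by linarith⟩
  | succ L ih =>
    intro x r N hr hrρ hL hG
    by_cases hstop : ∃ i ∈ F, P.D * r < ρ i ∧ dist (xc i : E) x ≤ ρ i + 2 * P.D * r
    · exact Or.inl hstop
    right
    push Not at hstop
    set w := P.D * (r * P.R⁻¹) with hw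
    have hw0 : 0 < w := by positivity
    have hwR : w * P.R = P.D * r := by rw [hw]; field_simp
    have hrD : r ≤ P.D * r := le_mul_of_one_le_left hr.le hD
    have hwD : 24 * w ≤ P.D * r := by nlinarith
    have hwK : 24 * w * P.K ≤ r := by
      have : 24 * w * P.K = (24 * P.D * P.K) * (r * P.R⁻¹) := by rw [hw]; ring
      rw [this]
      refine (mul_le_mul_of_nonneg_right hKR (by positivity)).trans (le_of_eq ?_)
      field_simp
    have e16 : 16 * P.D * (r * P.R⁻¹) = 16 * w := by rw [hw]; ring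
    have e4 : 4 * P.D * (r * P.R⁻¹) = 4 * w := by rw [hw]; ring
    have e2 : 2 * P.D * (r * P.R⁻¹) = 2 * w := by rw [hw]; ring
    have hr' : 0 < r * P.R⁻¹ := by positivity
    have hrρ' : 16 * P.D * (r * P.R⁻¹) ≤ ρ₀ := by rw [e16]; linarith
    have hL' : P.D * (r * P.R⁻¹) * P.R⁻¹ ^ L < rmin := by
      refine lt_of_eq_of_lt ?_ hL
      rw [pow_succ]; ring
    -- a stopped child suffices
    have hchild : ∀ x' : E, dist x' x ≤ r →
        (∃ i ∈ F, P.D * (r * P.R⁻¹) < ρ i ∧ dist (xc i : E) x' ≤ ρ i + 2 * P.D * (r * P.R⁻¹)) →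
        P.pot N * dd f x (16 * P.D * r) ^ s ≤ c0 *
          ∑ i ∈ F.filter (fun i => dist (xc i : E) x < 4 * P.D * r), dd f (xc i) (ρ i) ^ s := by
      rintro x' hx' ⟨i, hi, h1, h2⟩
      rw [e2] at h2
      have h3 := dist_triangle (xc i : E) x' x
      have h4 : ρ i ≤ P.D * r := by
        by_contra hlt
        push Not at hlt
        have := hstop i hi hlt
        linarith
      have h5 : dist (xc i : E) x ≤ 3 * (P.D * r) := by linarith
      have h6 : dd f x (16 * P.D * r) ≤ dd f (xc i) (19 * (P.D * r)) :=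
        h.dd_mono (by rw [dist_comm]; linarith)
      have h7 := h.dd_scale (xc i) (t := 19 * P.R) (ρ := w) (ρ' := 19 * (P.D * r)) hw0
        (by linarith) (by positivity) (by rw [← hwR]; linarith)
      have h8 := mul_le_mul_of_nonneg_left (h.dd_mono' (xc i : E) h1.le)
        (show 0 ≤ 2 * η (19 * P.R) by positivity)
      have h9 := Real.rpow_le_rpow (dd_nonneg _ _ _) ((h6.trans h7).trans h8) hs0.le
      rw [Real.mul_rpow (by positivity) (dd_nonneg _ _ _)] at h9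
      have h10 : dd f (xc i) (ρ i) ^ s ≤
          ∑ i ∈ F.filter (fun i => dist (xc i : E) x < 4 * P.D * r), dd f (xc i) (ρ i) ^ s :=
        Finset.single_le_sum (f := fun i => dd f (xc i) (ρ i) ^ s) (fun i _ => hwn i)
          (mem_filter.mpr ⟨hi, by linarith⟩)
      have h11 := mul_le_mul_of_nonneg_left h10 hc00
      have h12 : P.pot N * dd f x (16 * P.D * r) ^ s ≤ dd f x (16 * P.D * r) ^ s :=
        mul_le_of_le_one_left (Real.rpow_nonneg (dd_nonneg _ _ _) _) (hP.hpot N).2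
      linarith
    obtain ⟨-, o, ho, hG⟩ := hG
    have hon := hP.hO o ho
    obtain ⟨hk1, hk2⟩ := hkey x r hr hrρ o hon
    have hxo : dist (x + r • o) x ≤ r / 2 := by
      rw [dist_eq_norm, add_sub_cancel_left, norm_smul, Real.norm_of_nonneg hr.le]; nlinarith
    rcases hG with ⟨n, hn, hE⟩ | ⟨N', hN', hpot⟩
    · -- conducting node
      have main : ∀ (g : ℕ → ℕ → E) (n : ℕ → ℕ → ℕ), Grid g →
          (∀ i ≤ P.K, ∀ j ≤ P.K,
            GT P L (zoom (zoom S x r) (o + (8 * P.D / P.R) • g i j) P.R⁻¹) (n i j)) →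
          EnGe P.K (fun i j => P.pot (n i j)) (P.tau * P.pot N) →
          P.pot N * dd f x (16 * P.D * r) ^ s ≤ c0 *
            ∑ i ∈ F.filter (fun i => dist (xc i : E) x < 4 * P.D * r), dd f (xc i) (ρ i) ^ s := by
        intro g n hg hn hE
        simp only [zoom_zoom] at hn
        set X : ℕ → ℕ → E := fun i j => x + r • (o + (8 * P.D / P.R) • g i j) with hX
        have hXd : ∀ i j i' j', dist (X i j) (X i' j') = 8 * w * dist (g i j) (g i' j') := by
          intro i j i' j'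
          simp only [hX]
          rw [dist_grid x o hr.le (by positivity), hw]
          ring
        have hXx : ∀ i ≤ P.K, ∀ j ≤ P.K, dist (X i j) x ≤ r := by
          intro i hi j hj
          have a1 := hXd i j 0 0
          have a2 := hg.le_K hi hj (Nat.zero_le _) (Nat.zero_le _)
          have a3 := mul_le_mul_of_nonneg_left a2 hw0.le
          have a4 : X 0 0 = x + r • o := by simp [hX, hg.zero]
          have a5 := dist_triangle (X i j) (X 0 0) x
          rw [a4] at a5 a1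
          linarith
        by_cases hs : ∃ i ≤ P.K, ∃ j ≤ P.K, ∃ l ∈ F, P.D * (r * P.R⁻¹) < ρ l ∧
            dist (xc l : E) (X i j) ≤ ρ l + 2 * P.D * (r * P.R⁻¹)
        · obtain ⟨i, hi, j, hj, hl⟩ := hs
          exact hchild _ (hXx i hi j hj) hl
        have hall : ∀ i ≤ P.K, ∀ j ≤ P.K,
            P.pot (n i j) * dd f (X i j) (16 * P.D * (r * P.R⁻¹)) ^ s ≤ c0 *
              ∑ l ∈ F.filter (fun l => dist (xc l : E) (X i j) < 4 * P.D * (r * P.R⁻¹)),
                dd f (xc l) (ρ l) ^ s := by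
          intro i hi j hj
          rcases ih (X i j) _ _ hr' hrρ' hL' (hn i hi j hj) with h1 | h1
          · exact absurd ⟨i, hi, j, hj, h1⟩ hs
          · exact h1
        have b1 := hk2 g hg (fun i j => P.pot (n i j)) (fun i j => (hP.hpot _).1.le) (P.pot N)
          (hP.hpot _).1.le (fun i hi j hj => GT_pt hr' (hn i hi j hj)) hE
        refine b1.trans ?_
        have b2 := sum_disj_le F (fun l => dd f (xc l) (ρ l) ^ s) hwn (range P.K ×ˢ range P.K)
          (fun a l => dist (xc l : E) (X a.1 a.2) < 4 * P.D * (r * P.R⁻¹))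
          (fun l => dist (xc l : E) x < 4 * P.D * r) (by
            intro a ha l hl
            obtain ⟨ha1, ha2⟩ := mem_product.mp ha
            have a1 := hXx a.1 (mem_range.mp ha1).le a.2 (mem_range.mp ha2).le
            have a2 := dist_triangle (xc l : E) (X a.1 a.2) x
            rw [e4] at hl
            linarith) (by
            intro a _ a' _ l hl hl'
            by_contra hne
            have a1 := hg.one_le (i := a.1) (j := a.2) (i' := a'.1) (j' := a'.2) hne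
            have a2 := hXd a.1 a.2 a'.1 a'.2
            have a3 := mul_le_mul_of_nonneg_left a1 hw0.le
            have a4 := dist_triangle_left (X a.1 a.2) (X a'.1 a'.2) (xc l : E)
            rw [e4] at hl hl'
            linarith)
        refine le_trans ?_ (mul_le_mul_of_nonneg_left b2 hc00)
        rw [Finset.sum_product, Finset.mul_sum]
        refine Finset.sum_le_sum fun i hi => ?_
        rw [Finset.mul_sum]
        exact Finset.sum_le_sum fun j hj => hall i (mem_range.mp hi).le j (mem_range.mp hj).le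
      rcases hE with hE | hE
      · exact main gridPt n grid_gridPt hn hE
      · exact main (fun i j => gridPt j i) (fun i j => n j i) grid_gridPt.swap
          (fun i hi j hj => hn j hj i hi) hE
    · -- teleport
      rw [zoom_zoom] at hN'
      rcases ih _ _ _ hr' hrρ' hL' hN' with h1 | h1
      · exact hchild _ (by linarith) h1
      obtain ⟨p, hp⟩ := GT_pt hr' hN'
      have b1 := mul_le_mul_of_nonneg_left (hk1 p hp) (hP.hpot N).1.le
      have b2 := mul_le_mul_of_nonneg_right hpot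
        (Real.rpow_nonneg (dd_nonneg f (x + r • o) (16 * P.D * (r * P.R⁻¹))) s)
      have b3 : ∑ i ∈ F.filter (fun i => dist (xc i : E) (x + r • o) < 4 * P.D * (r * P.R⁻¹)),
            dd f (xc i) (ρ i) ^ s ≤
          ∑ i ∈ F.filter (fun i => dist (xc i : E) x < 4 * P.D * r), dd f (xc i) (ρ i) ^ s := by
        refine Finset.sum_le_sum_of_subset_of_nonneg ?_ fun i _ _ => hwn i
        intro l hl
        obtain ⟨hl1, hl2⟩ := mem_filter.mp hl
        refine mem_filter.mpr ⟨hl1, ?_⟩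
        have a2 := dist_triangle (xc l : E) (x + r • o) x
        rw [e4] at hl2
        linarith
      have b4 := mul_le_mul_of_nonneg_left b3 hc00
      linarith

end

theorem stmtDet : StmtDet := by
  intro S hS ρ₀ hρ₀ hperf Y _ f η hinj hmono hcont hzero hqs s hs0 hs2
  have h : QS S ρ₀ f η := ⟨hS, hρ₀, hperf, hinj, hmono, hcont, hzero, hqs⟩
  obtain ⟨k, hk1, hk⟩ := h.exists_key hs0 hs2
  refine ⟨k, hk1, fun P hP r hr hrρ N hfr => ?_⟩
  by_contra hlt
  push Not at hlt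
  have hD := hP.hD
  have hK1 : (1 : ℝ) ≤ P.K := by exact_mod_cast hP.hK1
  have hKR := hP.hKR
  have hR24 : 24 * (P.K : ℝ) ≤ P.R := by nlinarith
  have hR0 : 0 < P.R := by linarith
  have hDr : 0 < P.D * r := by positivity
  obtain ⟨c, hc, hlb⟩ := h.exists_lb (ρ := P.D * r) hDr (by linarith)
  have hcs : 0 < c ^ s := Real.rpow_pos_of_pos hc _
  have hη := h.eta_nonneg (a := 19 * P.R) (by positivity)
  set c0 := (2 * η (19 * P.R)) ^ s with hc0
  have hc00 : 0 ≤ c0 := Real.rpow_nonneg (by positivity) _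
  have hpot := hP.hpot N
  obtain ⟨L0, x0, hG0⟩ := hfr.exists
  obtain ⟨p0, -⟩ := GT_pt hr hG0
  obtain ⟨F, xc, ρ, rmin, hrmin, hmin, hcov, hsum⟩ := h.exists_cover p0 hs0 hlt
    (κ := P.pot N * c ^ s / (c0 + 1)) (by have := hpot.1; positivity)
  have hev : ∀ᶠ L : ℕ in Filter.atTop, P.D * r * P.R⁻¹ ^ L < rmin := by
    have h1 : Filter.Tendsto (fun L : ℕ => P.D * r * P.R⁻¹ ^ L) Filter.atTop (nhds (P.D * r * 0)) :=
      (tendsto_pow_atTop_nhds_zero_of_lt_one (by positivity)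
        (inv_lt_one_of_one_lt₀ (by linarith))).const_mul _
    rw [mul_zero] at h1
    exact h1.eventually (gt_mem_nhds hrmin)
  obtain ⟨L, ⟨x, hG⟩, hL⟩ := (hfr.and_eventually hev).exists
  have hwn : ∀ i, 0 ≤ dd f (xc i) (ρ i) ^ s := fun i => Real.rpow_nonneg (dd_nonneg _ _ _) _
  have hT0 : 0 ≤ ∑ i ∈ F, dd f (xc i) (ρ i) ^ s := sum_nonneg fun i _ => hwn i
  rw [lt_div_iff₀ (by positivity)] at hsum
  rcases h.induct hs0 hP (hk P hP) F xc ρ rmin hmin hcov L x r N hr hrρ hL hG with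
    ⟨i, hi, h1, -⟩ | h1
  · have a1 := Real.rpow_le_rpow hc.le ((hlb (xc i)).trans (h.dd_mono' _ h1.le)) hs0.le
    have a2 := Finset.single_le_sum (f := fun i => dd f (xc i) (ρ i) ^ s) (fun i _ => hwn i) hi
    have a3 : P.pot N * c ^ s ≤ c ^ s := mul_le_of_le_one_left hcs.le hpot.2
    have a4 := mul_nonneg hT0 hc00
    linarith
  · obtain ⟨p, hp⟩ := GT_pt hr hG
    have a0 : dd f p (P.D * r) ≤ dd f x (16 * P.D * r) := h.dd_mono (by linarith)
    have a1 := Real.rpow_le_rpow hc.le ((hlb p).trans a0) hs0.le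
    have a2 := mul_le_mul_of_nonneg_left a1 hpot.1.le
    have a3 : ∑ i ∈ F.filter (fun i => dist (xc i : E) x < 4 * P.D * r), dd f (xc i) (ρ i) ^ s ≤
        ∑ i ∈ F, dd f (xc i) (ρ i) ^ s :=
      Finset.sum_le_sum_of_subset_of_nonneg (filter_subset _ _) fun i _ _ => hwn i
    have a4 := mul_le_mul_of_nonneg_left a3 hc00
    linarith

end Pool.Agent.MP_037c5a_pr
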