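import Pool.Agent.MP_037c5a_pr.Defs

open MeasureTheory Finset

namespace Pool.Agent.MP_037c5a_pr

structure QS (S : Set E) (ρ₀ : ℝ) {Y : Type} [MetricSpace Y] (f : S → Y) (η : ℝ → ℝ) : Prop where
  cpt : IsCompact S
  pos : 0 < ρ₀
  perf : ∀ x ∈ S, ∀ ρ : ℝ, 0 < ρ → ρ ≤ ρ₀ → ∃ y ∈ S, dist y x = ρ
  inj : Function.Injective f
  mono : StrictMonoOn η (Set.Ici 0)
  cont : ContinuousOn η (Set.Ici 0)
  zero : η 0 = 0
  qs : ∀ x a b : S, a ≠ b → dist (f x) (f a) ≤ η (dist x a / dist b a) * dist (f b) (f a)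

/-- diameter of the image of the part of `S` in a closed ball -/
noncomputable def dd {S : Set E} {Y : Type} [MetricSpace Y] (f : S → Y) (x : E) (ρ : ℝ) : ℝ :=
  Metric.diam (f '' {q : S | dist (q : E) x ≤ ρ})

section
variable {S : Set E} {ρ₀ : ℝ} {Y : Type} [MetricSpace Y] {f : S → Y} {η : ℝ → ℝ}

theorem dd_nonneg (f : S → Y) (x : E) (ρ : ℝ) : 0 ≤ dd f x ρ := Metric.diam_nonneg

theorem QS.eta_mono (h : QS S ρ₀ f η) {a b : ℝ} (ha : 0 ≤ a) (hab : a ≤ b) : η a ≤ η b :=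
  h.mono.monotoneOn ha (le_trans ha hab) hab

theorem QS.eta_nonneg (h : QS S ρ₀ f η) {a : ℝ} (ha : 0 ≤ a) : 0 ≤ η a := by
  have := h.eta_mono le_rfl ha
  rwa [h.zero] at this

theorem QS.exists_diam (h : QS S ρ₀ f η) : ∃ C : ℝ, 0 ≤ C ∧ ∀ x ∈ S, ∀ y ∈ S, dist x y ≤ C :=
  ⟨Metric.diam S, Metric.diam_nonneg, fun _ hx _ hy =>
    Metric.dist_le_diam_of_mem h.cpt.isBounded hx hy⟩

theorem QS.dist_le (h : QS S ρ₀ f η) {p p' q : S} (hne : p ≠ p') {t : ℝ}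
    (hq : dist (q : E) p ≤ t * dist (p' : E) p) :
    dist (f q) (f p) ≤ η t * dist (f p') (f p) := by
  have hd : 0 < dist p' p := dist_pos.mpr hne.symm
  refine (h.qs q p p' hne).trans (mul_le_mul_of_nonneg_right ?_ dist_nonneg)
  refine h.eta_mono (div_nonneg dist_nonneg dist_nonneg) ?_
  rw [div_le_iff₀ hd]
  exact hq

theorem QS.bdd (h : QS S ρ₀ f η) : Bornology.IsBounded (Set.range f) := by
  rcases S.eq_empty_or_nonempty with hS | ⟨a, ha⟩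
  · have : IsEmpty S := by rw [hS]; infer_instance
    rw [Set.range_eq_empty]
    exact Bornology.isBounded_empty
  · obtain ⟨b, hb, hab⟩ := h.perf a ha ρ₀ h.pos le_rfl
    obtain ⟨C, hC0, hC⟩ := h.exists_diam
    have hne : (⟨a, ha⟩ : S) ≠ ⟨b, hb⟩ := by
      intro e
      have : a = b := congrArg Subtype.val e
      rw [this, dist_self] at hab
      exact absurd hab h.pos.ne
    refine (Metric.isBounded_closedBall (x := f ⟨a, ha⟩)
      (r := η (C / ρ₀) * dist (f ⟨b, hb⟩) (f ⟨a, ha⟩))).subset ?_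
    rintro _ ⟨q, rfl⟩
    rw [Metric.mem_closedBall]
    refine h.dist_le hne ?_
    simp only
    rw [hab, div_mul_cancel₀ _ h.pos.ne']
    exact hC _ q.2 _ ha

theorem QS.bdd_im (h : QS S ρ₀ f η) (A : Set S) : Bornology.IsBounded (f '' A) :=
  h.bdd.subset (Set.image_subset_range _ _)

theorem QS.dist_le_dd (h : QS S ρ₀ f η) {x : E} {ρ : ℝ} {q q' : S} (hq : dist (q : E) x ≤ ρ)
    (hq' : dist (q' : E) x ≤ ρ) : dist (f q) (f q') ≤ dd f x ρ :=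
  Metric.dist_le_diam_of_mem (h.bdd_im _) ⟨q, hq, rfl⟩ ⟨q', hq', rfl⟩

theorem QS.dd_mono (h : QS S ρ₀ f η) {x x' : E} {ρ ρ' : ℝ} (hx : dist x' x + ρ' ≤ ρ) :
    dd f x' ρ' ≤ dd f x ρ := by
  refine Metric.diam_mono (Set.image_mono ?_) (h.bdd_im _)
  intro q hq
  have h1 : dist (q : E) x' ≤ ρ' := hq
  have h2 := dist_triangle (q : E) x' x
  show dist (q : E) x ≤ ρ
  linarith

theorem QS.dd_mono' (h : QS S ρ₀ f η) (x : E) {ρ ρ' : ℝ} (hx : ρ' ≤ ρ) :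
    dd f x ρ' ≤ dd f x ρ := h.dd_mono (by rw [dist_self]; linarith)

theorem QS.dd_le_of_ne (h : QS S ρ₀ f η) {p p' : S} (hne : p ≠ p') {t ρ : ℝ} (ht : 0 ≤ t)
    (hρ : ρ ≤ t * dist (p' : E) p) : dd f p ρ ≤ 2 * η t * dist (f p') (f p) := by
  have h0 := h.eta_nonneg ht
  refine Metric.diam_le_of_forall_dist_le (by positivity) ?_
  rintro _ ⟨q, hq, rfl⟩ _ ⟨q', hq', rfl⟩
  have h1 := h.dist_le hne (q := q) (le_trans hq hρ)
  have h2 := h.dist_le hne (q := q') (le_trans hq' hρ)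
  have h3 := dist_triangle_right (f q) (f q') (f p)
  linarith

theorem QS.dd_scale (h : QS S ρ₀ f η) (p : S) {t ρ ρ' : ℝ} (hρ : 0 < ρ) (hρ0 : ρ ≤ ρ₀) (ht : 0 ≤ t)
    (hρ' : ρ' ≤ t * ρ) : dd f p ρ' ≤ 2 * η t * dd f p ρ := by
  obtain ⟨y, hy, hd⟩ := h.perf p p.2 ρ hρ hρ0
  have hne : p ≠ ⟨y, hy⟩ := by
    intro e
    have : (p : E) = y := congrArg Subtype.val e
    rw [← this, dist_self] at hd
    exact absurd hd hρ.ne
  have h1 := h.dd_le_of_ne hne ht (ρ := ρ') (by simpa only [hd] using hρ')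
  have h2 : dist (f ⟨y, hy⟩) (f p) ≤ dd f p ρ :=
    h.dist_le_dd (le_of_eq hd) (by rw [dist_self]; exact hρ.le)
  have h0 := h.eta_nonneg ht
  exact h1.trans (mul_le_mul_of_nonneg_left h2 (by positivity))

theorem QS.exists_dbl (h : QS S ρ₀ f η) : ∃ b : ℕ, ∀ (p : S) (ρ u : ℝ), 0 < ρ → ρ ≤ ρ₀ → 1 ≤ u →
    dd f p (2 * ρ) ≤ (4 * u) ^ b * dd f p (ρ / u) := by
  obtain ⟨b, hb⟩ := pow_unbounded_of_one_lt (2 * η 2) (one_lt_two (α := ℝ))
  refine ⟨b, fun p ρ u hρ hρ0 hu => ?_⟩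
  have key : ∀ (j : ℕ) (σ : ℝ), 0 < σ → 2 ^ j * σ ≤ ρ₀ →
      dd f p (2 ^ (j + 1) * σ) ≤ (2 ^ (j + 1)) ^ b * dd f p σ := by
    intro j
    induction j with
    | zero =>
      intro σ hσ hσ0
      have := h.dd_scale p (t := 2) (ρ := σ) (ρ' := 2 ^ (0 + 1) * σ) hσ (by simpa using hσ0)
        (by norm_num) (by simp)
      refine this.trans (mul_le_mul_of_nonneg_right ?_ (dd_nonneg _ _ _))
      simpa using hb.le
    | succ j ih =>
      intro σ hσ hσ0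
      have hp : (0 : ℝ) < 2 ^ j * σ := by positivity
      have h1 := ih σ hσ (by rw [pow_succ] at hσ0; linarith)
      have h2 := h.dd_scale p (t := 2) (ρ := 2 ^ (j + 1) * σ) (ρ' := 2 ^ (j + 1 + 1) * σ)
        (by positivity) hσ0 (by norm_num) (by rw [pow_succ (2 : ℝ) (j + 1)]; linarith)
      have h3 : 2 * η 2 * dd f p (2 ^ (j + 1) * σ) ≤ 2 ^ b * dd f p (2 ^ (j + 1) * σ) :=
        mul_le_mul_of_nonneg_right hb.le (dd_nonneg _ _ _)
      have h4 : (2 : ℝ) ^ b * dd f p (2 ^ (j + 1) * σ) ≤ 2 ^ b * ((2 ^ (j + 1)) ^ b * dd f p σ) :=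
        mul_le_mul_of_nonneg_left h1 (by positivity)
      calc dd f p (2 ^ (j + 1 + 1) * σ) ≤ 2 ^ b * ((2 ^ (j + 1)) ^ b * dd f p σ) := by linarith
        _ = (2 ^ (j + 1 + 1)) ^ b * dd f p σ := by rw [pow_succ (2 : ℝ) (j + 1), mul_pow]; ring
  obtain ⟨j, hj1, hj2⟩ := exists_nat_pow_near hu (one_lt_two (α := ℝ))
  have hu0 : 0 < u := by linarith
  have hσ : 0 < ρ / u := div_pos hρ hu0
  have e1 : 2 ^ j * (ρ / u) ≤ ρ := by
    rw [← mul_div_assoc, div_le_iff₀ hu0]; nlinarith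
  have e2 : ρ ≤ 2 ^ (j + 1) * (ρ / u) := by
    rw [← mul_div_assoc, le_div_iff₀ hu0]; nlinarith
  have h1 := key j (ρ / u) hσ (e1.trans hρ0)
  have h2 := h.dd_scale p (t := 2) (ρ := ρ) (ρ' := 2 * ρ) hρ hρ0 (by norm_num) le_rfl
  have h3 : 2 * η 2 * dd f p ρ ≤ 2 ^ b * dd f p ρ :=
    mul_le_mul_of_nonneg_right hb.le (dd_nonneg _ _ _)
  have h4 : dd f p ρ ≤ (2 * u) ^ b * dd f p (ρ / u) := by
    refine ((h.dd_mono' _ e2).trans h1).trans (mul_le_mul_of_nonneg_right ?_ (dd_nonneg _ _ _))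
    refine pow_le_pow_left₀ (by positivity) ?_ _
    rw [pow_succ]; linarith
  calc dd f p (2 * ρ) ≤ 2 ^ b * dd f p ρ := by linarith
    _ ≤ 2 ^ b * ((2 * u) ^ b * dd f p (ρ / u)) := mul_le_mul_of_nonneg_left h4 (by positivity)
    _ = (4 * u) ^ b * dd f p (ρ / u) := by
      rw [← mul_assoc, ← mul_pow]; congr 2; ring

theorem QS.exists_eta_small (h : QS S ρ₀ f η) {ε : ℝ} (hε : 0 < ε) :
    ∃ t : ℝ, 0 < t ∧ t < 1 ∧ η t ≤ ε := by
  have hc := h.cont 0 (Set.mem_Ici.mpr le_rfl)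
  rw [Metric.continuousWithinAt_iff] at hc
  obtain ⟨δ, hδ, hh⟩ := hc ε hε
  refine ⟨min (δ / 2) (1 / 2), by positivity, lt_of_le_of_lt (min_le_right _ _) (by norm_num), ?_⟩
  have hpos : 0 < min (δ / 2) (1 / 2) := by positivity
  have := hh (x := min (δ / 2) (1 / 2)) hpos.le (by
    rw [Real.dist_eq, sub_zero, abs_of_pos hpos]
    exact lt_of_le_of_lt (min_le_left _ _) (by linarith))
  rw [h.zero, Real.dist_eq, sub_zero] at this
  exact (le_abs_self _).trans this.le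

theorem QS.exists_dec (h : QS S ρ₀ f η) : ∃ α : ℝ, 0 < α ∧ ∀ (p : S) (ρ u : ℝ), 0 < ρ → ρ ≤ ρ₀ →
    1 ≤ u → u ^ α * dd f p (ρ / u) ≤ 2 * dd f p ρ := by
  obtain ⟨t, ht0, ht1, ht⟩ := h.exists_eta_small (ε := 1 / 4) (by norm_num)
  set v := t⁻¹ with hv
  have hv1 : 1 < v := (one_lt_inv₀ ht0).mpr ht1
  have hlog : 0 < Real.log v := Real.log_pos hv1
  have hl2 : 0 < Real.log 2 := Real.log_pos one_lt_two
  refine ⟨Real.log 2 / Real.log v, div_pos hl2 hlog, fun p ρ u hρ hρ0 hu => ?_⟩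
  have key : ∀ j : ℕ, 2 ^ j * dd f p (t ^ j * ρ) ≤ dd f p ρ := by
    intro j
    induction j with
    | zero => simp
    | succ j ih =>
      have hle : t ^ j * ρ ≤ ρ₀ := by
        have : t ^ j ≤ 1 := pow_le_one₀ ht0.le ht1.le
        nlinarith
      have h2 := h.dd_scale p (t := t) (ρ := t ^ j * ρ) (ρ' := t ^ (j + 1) * ρ)
        (by positivity) hle ht0.le (by rw [pow_succ]; linarith)
      have h3 : 2 * η t * dd f p (t ^ j * ρ) ≤ 1 / 2 * dd f p (t ^ j * ρ) :=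
        mul_le_mul_of_nonneg_right (by linarith) (dd_nonneg _ _ _)
      have h4 : (0 : ℝ) < 2 ^ j := by positivity
      rw [pow_succ (2 : ℝ) j]
      nlinarith
  obtain ⟨j, hj1, hj2⟩ := exists_nat_pow_near hu hv1
  have hu0 : 0 < u := by linarith
  have e1 : ρ / u ≤ t ^ j * ρ := by
    rw [div_le_iff₀ hu0]
    have : t ^ j * v ^ j = 1 := by rw [← mul_pow, hv, mul_inv_cancel₀ ht0.ne', one_pow]
    have h5 : 0 < t ^ j := by positivity
    have h6 : t ^ j * v ^ j ≤ t ^ j * u := mul_le_mul_of_nonneg_left hj1 h5.le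
    nlinarith
  have e2 : u ^ (Real.log 2 / Real.log v) ≤ 2 ^ (j + 1) := by
    have h7 : u ^ (Real.log 2 / Real.log v) ≤ (v ^ (j + 1)) ^ (Real.log 2 / Real.log v) :=
      Real.rpow_le_rpow hu0.le hj2.le (div_pos hl2 hlog).le
    refine h7.trans (le_of_eq ?_)
    have hv0 : 0 < v := by linarith
    rw [← Real.rpow_natCast, ← Real.rpow_mul hv0.le, mul_comm, Real.rpow_mul hv0.le,
      Real.rpow_natCast]
    congr 1
    rw [Real.rpow_def_of_pos hv0, mul_div_cancel₀ _ hlog.ne', Real.exp_log two_pos]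
  have h1 := key j
  have h2 := h.dd_mono' (p : E) e1
  have h3 := dd_nonneg f (p : E) (ρ / u)
  calc u ^ (Real.log 2 / Real.log v) * dd f p (ρ / u) ≤ 2 ^ (j + 1) * dd f p (t ^ j * ρ) :=
        mul_le_mul e2 h2 h3 (by positivity)
    _ ≤ 2 * dd f p ρ := by rw [pow_succ]; nlinarith

theorem QS.exists_small (h : QS S ρ₀ f η) (p : S) {ε : ℝ} (hε : 0 < ε) :
    ∃ ρ : ℝ, 0 < ρ ∧ dd f p ρ ≤ ε := by
  have h0 := dd_nonneg f (p : E) ρ₀
  obtain ⟨t, ht0, -, ht⟩ := h.exists_eta_small (ε := ε / (2 * (dd f p ρ₀ + 1))) (by positivity)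
  refine ⟨t * ρ₀, mul_pos ht0 h.pos, ?_⟩
  have h1 := h.dd_scale p (t := t) (ρ := ρ₀) (ρ' := t * ρ₀) h.pos le_rfl ht0.le le_rfl
  rw [le_div_iff₀ (by positivity)] at ht
  have := h.eta_nonneg ht0.le
  nlinarith

theorem QS.exists_lb (h : QS S ρ₀ f η) {ρ : ℝ} (hρ : 0 < ρ) (hρ0 : ρ ≤ ρ₀) :
    ∃ c : ℝ, 0 < c ∧ ∀ p : S, c ≤ dd f p ρ := by
  rcases S.eq_empty_or_nonempty with hS | ⟨a, ha⟩
  · refine ⟨1, one_pos, fun p => ?_⟩
    have := p.2
    simp only [hS] at this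
    exact absurd this (Set.notMem_empty _)
  · obtain ⟨b, hb, hab⟩ := h.perf a ha ρ₀ h.pos le_rfl
    obtain ⟨C, hC0, hC⟩ := h.exists_diam
    have hne : (⟨a, ha⟩ : S) ≠ ⟨b, hb⟩ := by
      intro e
      have : a = b := congrArg Subtype.val e
      rw [this, dist_self] at hab
      exact absurd hab h.pos.ne
    have hΦ : 0 < dist (f ⟨a, ha⟩) (f ⟨b, hb⟩) := dist_pos.mpr (fun e => hne (h.inj e))
    have hη := h.eta_nonneg (div_nonneg hC0 hρ.le)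
    refine ⟨dist (f ⟨a, ha⟩) (f ⟨b, hb⟩) / (2 * η (C / ρ) + 1), by positivity, fun p => ?_⟩
    have h1 : dist (f ⟨a, ha⟩) (f ⟨b, hb⟩) ≤ dd f p C :=
      h.dist_le_dd (hC _ ha _ p.2) (hC _ hb _ p.2)
    have h2 := h.dd_scale p (t := C / ρ) (ρ := ρ) (ρ' := C) hρ hρ0 (div_nonneg hC0 hρ.le)
      (by rw [div_mul_cancel₀ _ hρ.ne'])
    have h3 := dd_nonneg f (p : E) ρ
    rw [div_le_iff₀ (by positivity)]
    nlinarith

end

end Pool.Agent.MP_037c5a_pr
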