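import Mathlib

open MeasureTheory Finset

namespace Pool.Agent.MP_037c5a_pr.Energy

section Abstract

variable {Ed : Type} [Fintype Ed]

/-- weighted energy of a gradient -/
def Qf (c g : Ed → ℝ) : ℝ := ∑ e, c e * g e ^ 2

/-- minimal energy over the affine space `g0 + W` -/
noncomputable def Ec (W : Submodule ℝ (Ed → ℝ)) (g0 c : Ed → ℝ) : ℝ :=
  ⨅ w : W, Qf c (g0 + (w : Ed → ℝ))

theorem Qf_nonneg {c : Ed → ℝ} (hc : ∀ e, 0 ≤ c e) (g : Ed → ℝ) : 0 ≤ Qf c g :=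
  sum_nonneg fun e _ => mul_nonneg (hc e) (sq_nonneg _)

theorem Ec_bdd (W : Submodule ℝ (Ed → ℝ)) (g0 : Ed → ℝ) {c : Ed → ℝ} (hc : ∀ e, 0 ≤ c e) :
    BddBelow (Set.range fun w : W => Qf c (g0 + (w : Ed → ℝ))) :=
  ⟨0, by rintro _ ⟨w, rfl⟩; exact Qf_nonneg hc _⟩

theorem Ec_le (W : Submodule ℝ (Ed → ℝ)) (g0 : Ed → ℝ) {c : Ed → ℝ} (hc : ∀ e, 0 ≤ c e)
    {g : Ed → ℝ} (hg : g - g0 ∈ W) : Ec W g0 c ≤ Qf c g := by
  have h := ciInf_le (Ec_bdd W g0 hc) (⟨g - g0, hg⟩ : W)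
  simpa [Ec] using h

theorem Ec_nonneg (W : Submodule ℝ (Ed → ℝ)) (g0 : Ed → ℝ) {c : Ed → ℝ} (hc : ∀ e, 0 ≤ c e) :
    0 ≤ Ec W g0 c :=
  le_ciInf fun _ => Qf_nonneg hc _

theorem le_Ec (W : Submodule ℝ (Ed → ℝ)) (g0 c : Ed → ℝ) {t : ℝ}
    (h : ∀ g, g - g0 ∈ W → t ≤ Qf c g) : t ≤ Ec W g0 c :=
  le_ciInf fun w => h _ (by simp)

theorem exists_orth (W : Submodule ℝ (Ed → ℝ)) (g0 : Ed → ℝ) {c : Ed → ℝ} (hc : ∀ e, 0 < c e) :
    ∃ g, g - g0 ∈ W ∧ ∀ w ∈ W, ∑ e, c e * g e * w e = 0 := by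
  let T : (Ed → ℝ) →ₗ[ℝ] EuclideanSpace ℝ Ed :=
    { toFun := fun g => WithLp.toLp 2 fun e => Real.sqrt (c e) * g e
      map_add' := by
        intro x y
        ext e
        simp [mul_add]
      map_smul' := by
        intro a x
        ext e
        simp
        ring }
  obtain ⟨z, hz, hzo⟩ :=
    Submodule.HasOrthogonalProjection.exists_orthogonal (K := W.map T) (T g0)
  obtain ⟨w0, hw0, rfl⟩ := hz
  refine ⟨g0 - w0, by simpa using hw0, fun w hw => ?_⟩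
  have h := (Submodule.mem_orthogonal _ _).1 hzo (T w) ⟨w, hw, rfl⟩
  rw [← map_sub] at h
  rw [← h, PiLp.inner_apply]
  refine sum_congr rfl fun e _ => ?_
  have h2 : Real.sqrt (c e) * Real.sqrt (c e) = c e := Real.mul_self_sqrt (hc e).le
  simp only [T, LinearMap.coe_mk, AddHom.coe_mk, RCLike.inner_apply, conj_trivial]
  calc c e * (g0 - w0) e * w e = (Real.sqrt (c e) * Real.sqrt (c e)) * (g0 - w0) e * w e := by
        rw [h2]
    _ = _ := by ring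

theorem Ec_eq_of_orth (W : Submodule ℝ (Ed → ℝ)) (g0 : Ed → ℝ) {c : Ed → ℝ} (hc : ∀ e, 0 < c e)
    {g : Ed → ℝ} (hg : g - g0 ∈ W) (ho : ∀ w ∈ W, ∑ e, c e * g e * w e = 0) :
    Ec W g0 c = Qf c g := by
  refine le_antisymm (Ec_le W g0 (fun e => (hc e).le) hg) (le_Ec W g0 c fun g' hg' => ?_)
  have hw : g' - g ∈ W := by
    have := W.sub_mem hg' hg
    simpa using this
  have h0 := ho _ hw
  have : Qf c g' = Qf c g + 2 * ∑ e, c e * g e * (g' - g) e + Qf c (g' - g) := by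
    simp only [Qf, mul_sum, ← sum_add_distrib, Pi.sub_apply]
    exact sum_congr rfl fun e _ => by ring
  rw [this, h0]
  have := Qf_nonneg (fun e => (hc e).le) (g' - g)
  linarith

theorem exists_min (W : Submodule ℝ (Ed → ℝ)) (g0 : Ed → ℝ) {c : Ed → ℝ} (hc : ∀ e, 0 < c e) :
    ∃ g, g - g0 ∈ W ∧ Ec W g0 c = Qf c g := by
  obtain ⟨g, hg, ho⟩ := exists_orth W g0 hc
  exact ⟨g, hg, Ec_eq_of_orth W g0 hc hg ho⟩

/-- Taylor facts -/
theorem exp_taylor {v δ : ℝ} (hv : |v| ≤ δ) (hδ : δ ≤ 1 / 10) :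
    |Real.exp v - 1 - v - v ^ 2 / 2| ≤ δ ^ 3 := by
  have h1 : |v| ≤ 1 := by linarith
  have h := Real.exp_bound h1 (n := 3) (by norm_num)
  simp only [sum_range_succ, range_zero, sum_empty, Nat.factorial] at h
  have h3 : |v| ^ 3 ≤ δ ^ 3 := pow_le_pow_left₀ (abs_nonneg _) hv 3
  have h4 : 0 ≤ |v| ^ 3 := by positivity
  norm_num at h
  have e : Real.exp v - 1 - v - v ^ 2 / 2 = Real.exp v - (1 + v + v ^ 2 / 2) := by ring
  rw [e]
  linarith

theorem pt_facts {v δ : ℝ} (hv : |v| ≤ δ) (hδ : δ ≤ 1 / 10) :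
    |Real.exp v - Real.exp (-v) - 2 * v| ≤ 2 * δ ^ 3 ∧
    |Real.exp v + Real.exp (-v) - 2| ≤ 2 * δ ^ 2 ∧
    |Real.exp v - Real.exp (-v)| ≤ 3 * δ ∧
    |Real.exp v - 1| ≤ 2 * δ ∧ 4 / 5 ≤ Real.exp v ∧ 1 + v ≤ Real.exp v ∧
    Real.exp v ≤ 1 + v + δ ^ 2 := by
  have hδ0 : 0 ≤ δ := (abs_nonneg _).trans hv
  have h1 := exp_taylor hv hδ
  have h2 := exp_taylor (v := -v) (by rwa [abs_neg]) hδ
  have hv2 : v ^ 2 ≤ δ ^ 2 := by
    rw [← sq_abs v]; exact pow_le_pow_left₀ (abs_nonneg _) hv 2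
  have h3 : δ ^ 3 ≤ δ ^ 2 / 10 := by nlinarith [sq_nonneg δ]
  have h4 : δ ^ 2 ≤ δ / 10 := by nlinarith
  have h5 := sq_nonneg v
  rw [abs_le] at h1 h2 hv
  have e : (-v) ^ 2 = v ^ 2 := by ring
  rw [e] at h2
  have h6 := Real.add_one_le_exp v
  refine ⟨?_, ?_, ?_, ?_, ?_, ?_, ?_⟩
  · rw [abs_le]; constructor <;> linarith [h1.1, h1.2, h2.1, h2.2]
  · rw [abs_le]; constructor <;> linarith [h1.1, h1.2, h2.1, h2.2]
  · rw [abs_le]; constructor <;> linarith [h1.1, h1.2, h2.1, h2.2, hv.1, hv.2]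
  · rw [abs_le]; constructor <;> linarith [h1.1, h1.2, h2.1, h2.2, hv.1, hv.2]
  · linarith [hv.1]
  · linarith
  · linarith [h1.2]

theorem pt_w {m δ g w : ℝ} (hm : |m - 1| ≤ 2 * δ) (hm' : 4 / 5 ≤ m) :
    2 / 5 * w ^ 2 - 10 * δ ^ 2 * g ^ 2 ≤ m * (g + w) ^ 2 - m * g ^ 2 - 2 * (g * w) := by
  have h1 : (m - 1) ^ 2 ≤ (2 * δ) ^ 2 := by
    rw [← sq_abs (m - 1)]; exact pow_le_pow_left₀ (abs_nonneg _) hm 2
  have h2 : (m - 1) ^ 2 * g ^ 2 ≤ (2 * δ) ^ 2 * g ^ 2 := mul_le_mul_of_nonneg_right h1 (sq_nonneg _)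
  have h3 : 4 / 5 * w ^ 2 ≤ m * w ^ 2 := mul_le_mul_of_nonneg_right hm' (sq_nonneg _)
  nlinarith [sq_nonneg (2 * w + 5 * ((m - 1) * g))]

theorem pt_low {p v δ g w : ℝ} (hp : |p - 1| ≤ 2 * δ) (hp' : 4 / 5 ≤ p) (hp2 : 1 + v ≤ p) :
    g ^ 2 + v * g ^ 2 - 5 * δ ^ 2 * g ^ 2 + 2 * (g * w) ≤ p * (g + w) ^ 2 := by
  have h1 : (p - 1) ^ 2 ≤ (2 * δ) ^ 2 := by
    rw [← sq_abs (p - 1)]; exact pow_le_pow_left₀ (abs_nonneg _) hp 2
  have h2 : (p - 1) ^ 2 * g ^ 2 ≤ (2 * δ) ^ 2 * g ^ 2 := mul_le_mul_of_nonneg_right h1 (sq_nonneg _)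
  have h3 : 4 / 5 * w ^ 2 ≤ p * w ^ 2 := mul_le_mul_of_nonneg_right hp' (sq_nonneg _)
  have h4 : (1 + v) * g ^ 2 ≤ p * g ^ 2 := mul_le_mul_of_nonneg_right hp2 (sq_nonneg _)
  nlinarith [sq_nonneg (4 * w + 5 * ((p - 1) * g))]

theorem pt_odd {p m v δ g w : ℝ} (hδ : 0 ≤ δ) (h1 : |p - m - 2 * v| ≤ 2 * δ ^ 3)
    (h2 : |p + m - 2| ≤ 2 * δ ^ 2) (h3 : |p - m| ≤ 3 * δ) :
    p * (g - w) ^ 2 ≤ m * (g + w) ^ 2 + 2 * (v * g ^ 2) + 4 * δ ^ 3 * g ^ 2 + 5 * δ * w ^ 2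
      - 4 * (g * w) := by
  have a1 : (p - m - 2 * v) * g ^ 2 ≤ 2 * δ ^ 3 * g ^ 2 :=
    mul_le_mul_of_nonneg_right (le_abs_self _ |>.trans h1) (sq_nonneg _)
  have a2 : (p - m) * w ^ 2 ≤ 3 * δ * w ^ 2 :=
    mul_le_mul_of_nonneg_right (le_abs_self _ |>.trans h3) (sq_nonneg _)
  have a3 : -((p + m - 2) * (g * w)) ≤ 2 * δ ^ 2 * (|g| * |w|) := by
    calc -((p + m - 2) * (g * w)) ≤ |(p + m - 2) * (g * w)| := neg_le_abs _
      _ = |p + m - 2| * (|g| * |w|) := by rw [abs_mul, abs_mul]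
      _ ≤ 2 * δ ^ 2 * (|g| * |w|) := mul_le_mul_of_nonneg_right h2 (by positivity)
  have a4 : 2 * δ ^ 2 * (|g| * |w|) ≤ δ ^ 3 * g ^ 2 + δ * w ^ 2 := by
    have := mul_nonneg hδ (sq_nonneg (δ * |g| - |w|))
    rw [← sq_abs g, ← sq_abs w]
    nlinarith
  nlinarith

/-- one-sided odd estimate -/
theorem odd_one (W : Submodule ℝ (Ed → ℝ)) (g0 : Ed → ℝ) {c : Ed → ℝ} (hc : ∀ e, 0 < c e)
    {g : Ed → ℝ} (hg : g - g0 ∈ W) (ho : ∀ w ∈ W, ∑ e, c e * g e * w e = 0)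
    {δ : ℝ} (hδ0 : 0 ≤ δ) (hδ : δ ≤ 1 / 10) {v : Ed → ℝ} (hv : ∀ e, |v e| ≤ δ) :
    Ec W g0 (fun e => c e * Real.exp (v e)) ≤ Ec W g0 (fun e => c e * Real.exp (-v e)) +
      2 * ∑ e, c e * (v e * g e ^ 2) + 129 * δ ^ 3 * Qf c g := by
  have hcm : ∀ e, 0 < c e * Real.exp (-v e) := fun e => mul_pos (hc e) (Real.exp_pos _)
  have hcp : ∀ e, 0 < c e * Real.exp (v e) := fun e => mul_pos (hc e) (Real.exp_pos _)
  obtain ⟨g', hg', hE'⟩ := exists_min W g0 hcm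
  set w := g' - g with hwdef
  have hw : w ∈ W := by
    have := W.sub_mem hg' hg
    simpa using this
  have hg'w : ∀ e, g' e = g e + w e := fun e => by simp [hwdef]
  have h0 : ∑ e, c e * (g e * w e) = 0 := by
    rw [← ho w hw]; exact sum_congr rfl fun e _ => by ring
  have hle : Qf (fun e => c e * Real.exp (-v e)) g' ≤ Qf (fun e => c e * Real.exp (-v e)) g := by
    rw [← hE']; exact Ec_le W g0 (fun e => (hcm e).le) hg
  have hw2 : Qf c w ≤ 25 * δ ^ 2 * Qf c g := by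
    have : ∑ e, c e * (2 / 5 * w e ^ 2 - 10 * δ ^ 2 * g e ^ 2) ≤
        ∑ e, c e * (Real.exp (-v e) * (g e + w e) ^ 2 - Real.exp (-v e) * g e ^ 2
          - 2 * (g e * w e)) := by
      refine sum_le_sum fun e _ => mul_le_mul_of_nonneg_left ?_ (hc e).le
      have hf := pt_facts (v := -v e) (by rw [abs_neg]; exact hv e) hδ
      exact pt_w hf.2.2.2.1 hf.2.2.2.2.1
    have e1 : ∑ e, c e * (2 / 5 * w e ^ 2 - 10 * δ ^ 2 * g e ^ 2) =
        2 / 5 * Qf c w - 10 * δ ^ 2 * Qf c g := by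
      simp only [Qf, mul_sum, ← sum_sub_distrib]
      exact sum_congr rfl fun e _ => by ring
    have e2 : ∑ e, c e * (Real.exp (-v e) * (g e + w e) ^ 2 - Real.exp (-v e) * g e ^ 2
          - 2 * (g e * w e)) = Qf (fun e => c e * Real.exp (-v e)) g' -
          Qf (fun e => c e * Real.exp (-v e)) g - 2 * ∑ e, c e * (g e * w e) := by
      simp only [Qf, mul_sum, ← sum_sub_distrib, hg'w]
      exact sum_congr rfl fun e _ => by ring
    rw [e1, e2, h0] at this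
    linarith
  have hgm : (g - w) - g0 ∈ W := by
    have := W.sub_mem hg hw
    convert this using 1
    abel
  have h1 := Ec_le W g0 (fun e => (hcp e).le) hgm
  have h2 : Qf (fun e => c e * Real.exp (v e)) (g - w) ≤
      ∑ e, c e * (Real.exp (-v e) * (g e + w e) ^ 2 + 2 * (v e * g e ^ 2) + 4 * δ ^ 3 * g e ^ 2
        + 5 * δ * w e ^ 2 - 4 * (g e * w e)) := by
    refine sum_le_sum fun e _ => ?_
    rw [mul_assoc]
    refine mul_le_mul_of_nonneg_left ?_ (hc e).le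
    have hf := pt_facts (hv e) hδ
    exact pt_odd hδ0 hf.1 hf.2.1 hf.2.2.1
  have e3 : ∑ e, c e * (Real.exp (-v e) * (g e + w e) ^ 2 + 2 * (v e * g e ^ 2)
        + 4 * δ ^ 3 * g e ^ 2 + 5 * δ * w e ^ 2 - 4 * (g e * w e)) =
      Qf (fun e => c e * Real.exp (-v e)) g' + 2 * ∑ e, c e * (v e * g e ^ 2)
        + 4 * δ ^ 3 * Qf c g + 5 * δ * Qf c w - 4 * ∑ e, c e * (g e * w e) := by
    simp only [Qf, mul_sum, ← sum_sub_distrib, ← sum_add_distrib, hg'w]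
    exact sum_congr rfl fun e _ => by ring
  rw [e3, h0, ← hE'] at h2
  have h3 : 5 * δ * Qf c w ≤ 5 * δ * (25 * δ ^ 2 * Qf c g) :=
    mul_le_mul_of_nonneg_left hw2 (by positivity)
  nlinarith

theorem first_order (W : Submodule ℝ (Ed → ℝ)) (g0 : Ed → ℝ) {c : Ed → ℝ} (hc : ∀ e, 0 < c e)
    {g : Ed → ℝ} (hg : g - g0 ∈ W) (ho : ∀ w ∈ W, ∑ e, c e * g e * w e = 0)
    {δ : ℝ} (hδ : δ ≤ 1 / 10) {v : Ed → ℝ} (hv : ∀ e, |v e| ≤ δ) :
    |Ec W g0 (fun e => c e * Real.exp (v e)) - Qf c g - ∑ e, c e * (v e * g e ^ 2)| ≤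
      5 * δ ^ 2 * Qf c g := by
  have hcp : ∀ e, 0 < c e * Real.exp (v e) := fun e => mul_pos (hc e) (Real.exp_pos _)
  have hE := Qf_nonneg (fun e => (hc e).le) g
  have hup : Ec W g0 (fun e => c e * Real.exp (v e)) ≤
      Qf c g + ∑ e, c e * (v e * g e ^ 2) + δ ^ 2 * Qf c g := by
    refine (Ec_le W g0 (fun e => (hcp e).le) hg).trans ?_
    simp only [Qf, mul_sum, ← sum_add_distrib]
    refine sum_le_sum fun e _ => ?_
    have hf := (pt_facts (hv e) hδ).2.2.2.2.2.2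
    have := mul_le_mul_of_nonneg_right hf (mul_nonneg (hc e).le (sq_nonneg (g e)))
    linarith
  have hlo : Qf c g + ∑ e, c e * (v e * g e ^ 2) - 5 * δ ^ 2 * Qf c g ≤
      Ec W g0 (fun e => c e * Real.exp (v e)) := by
    refine le_Ec W g0 _ fun g' hg' => ?_
    set w := g' - g with hwdef
    have hw : w ∈ W := by
      have := W.sub_mem hg' hg
      simpa using this
    have hg'w : ∀ e, g' e = g e + w e := fun e => by simp [hwdef]
    have h0 : ∑ e, c e * (g e * w e) = 0 := by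
      rw [← ho w hw]; exact sum_congr rfl fun e _ => by ring
    have e1 : Qf c g + ∑ e, c e * (v e * g e ^ 2) - 5 * δ ^ 2 * Qf c g
        + 2 * ∑ e, c e * (g e * w e) =
        ∑ e, c e * (g e ^ 2 + v e * g e ^ 2 - 5 * δ ^ 2 * g e ^ 2 + 2 * (g e * w e)) := by
      simp only [Qf, mul_sum, ← sum_sub_distrib, ← sum_add_distrib]
      exact sum_congr rfl fun e _ => by ring
    rw [h0, mul_zero, add_zero] at e1
    rw [e1]
    refine sum_le_sum fun e _ => ?_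
    show _ ≤ c e * Real.exp (v e) * g' e ^ 2
    rw [mul_assoc (c e), hg'w e]
    refine mul_le_mul_of_nonneg_left ?_ (hc e).le
    have hf := pt_facts (hv e) hδ
    exact pt_low hf.2.2.2.1 hf.2.2.2.2.1 hf.2.2.2.2.2.1
  have : 0 ≤ δ ^ 2 * Qf c g := by positivity
  rw [abs_le]
  constructor <;> linarith

theorem lin_bound {c : Ed → ℝ} (hc : ∀ e, 0 < c e) (g : Ed → ℝ) {δ : ℝ} {v : Ed → ℝ}
    (hv : ∀ e, |v e| ≤ δ) : |∑ e, c e * (v e * g e ^ 2)| ≤ δ * Qf c g := by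
  refine (abs_sum_le_sum_abs _ _).trans ?_
  simp only [Qf, mul_sum]
  refine sum_le_sum fun e _ => ?_
  rw [abs_mul, abs_mul, abs_of_pos (hc e), abs_of_nonneg (sq_nonneg (g e))]
  have := mul_le_mul_of_nonneg_right (hv e) (mul_nonneg (hc e).le (sq_nonneg (g e)))
  linarith

end Abstract

/-- the bounded transform -/
noncomputable def chi (x : ℝ) : ℝ := x / (x + 1)

theorem chi_odd {E L a b δ : ℝ} (hE : 0 ≤ E) (hδ0 : 0 ≤ δ) (hδ : δ ≤ 1 / 10) (hL : |L| ≤ δ * E)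
    (ha : |a - E - L| ≤ 5 * δ ^ 2 * E) (hb : |b - E + L| ≤ 5 * δ ^ 2 * E)
    (hab : |a - b - 2 * L| ≤ 129 * δ ^ 3 * E) :
    |chi a - chi b - 2 * L / (E + 1) ^ 2| ≤ 1000 * δ ^ 3 := by
  set S := E + 1 with hS
  have hS1 : 1 ≤ S := by linarith
  have hES : E ≤ S := by linarith
  have hd2 : δ ^ 2 ≤ δ / 10 := by nlinarith
  have hLS : |L| ≤ δ * S := hL.trans (mul_le_mul_of_nonneg_left hES hδ0)
  set α := a - E - L with hα
  set β := b - E + L with hβ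
  have hαS : |α| ≤ 5 * δ ^ 2 * S := ha.trans (mul_le_mul_of_nonneg_left hES (by positivity))
  have hβS : |β| ≤ 5 * δ ^ 2 * S := hb.trans (mul_le_mul_of_nonneg_left hES (by positivity))
  have hδS : δ * S ≤ S / 10 := by nlinarith
  have hδ2S : δ ^ 2 * S ≤ S / 100 := by nlinarith
  have ha1 : S / 2 ≤ a + 1 := by
    have h1 := (abs_le.1 hαS).1
    have h2 := (abs_le.1 hLS).1
    have : a + 1 = S + L + α := by rw [hα, hS]; ring
    linarith
  have hb1 : S / 2 ≤ b + 1 := by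
    have h1 := (abs_le.1 hβS).1
    have h2 := (abs_le.1 hLS).2
    have : b + 1 = S - L + β := by rw [hβ, hS]; ring
    linarith
  have hSpos : 0 < S := by linarith
  have ha0 : 0 < a + 1 := by linarith
  have hb0 : 0 < b + 1 := by linarith
  set P := (a + 1) * (b + 1) with hP
  have hP0 : 0 < P := mul_pos ha0 hb0
  have hPS : S ^ 2 / 4 ≤ P := by
    have := mul_le_mul ha1 hb1 (by linarith) ha0.le
    nlinarith
  have hdiff : |S ^ 2 - P| ≤ 13 * δ ^ 2 * S ^ 2 := by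
    have e : S ^ 2 - P = L * L - α * S - β * S + α * L - L * β - α * β := by
      have e1 : a + 1 = S + L + α := by rw [hα, hS]; ring
      have e2 : b + 1 = S - L + β := by rw [hβ, hS]; ring
      rw [hP, e1, e2]; ring
    have t1 : |L * L| ≤ δ * S * (δ * S) := by
      rw [abs_mul]; exact mul_le_mul hLS hLS (abs_nonneg _) (by positivity)
    have t2 : |α * S| ≤ 5 * δ ^ 2 * S * S := by
      rw [abs_mul, abs_of_pos hSpos]; exact mul_le_mul_of_nonneg_right hαS hSpos.le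
    have t3 : |β * S| ≤ 5 * δ ^ 2 * S * S := by
      rw [abs_mul, abs_of_pos hSpos]; exact mul_le_mul_of_nonneg_right hβS hSpos.le
    have t4 : |α * L| ≤ 5 * δ ^ 2 * S * (S / 10) := by
      rw [abs_mul]; exact mul_le_mul hαS (hLS.trans hδS) (abs_nonneg _) (by positivity)
    have t5 : |L * β| ≤ S / 10 * (5 * δ ^ 2 * S) := by
      rw [abs_mul]; exact mul_le_mul (hLS.trans hδS) hβS (abs_nonneg _) (by positivity)
    have t6 : |α * β| ≤ 5 * δ ^ 2 * S * (S / 10) := by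
      rw [abs_mul]
      exact mul_le_mul hαS (hβS.trans (by linarith)) (abs_nonneg _) (by positivity)
    rw [e]
    rw [abs_le] at t1 t2 t3 t4 t5 t6 ⊢
    have : 0 ≤ δ ^ 2 * S ^ 2 := by positivity
    constructor <;> nlinarith [t1.1, t1.2, t2.1, t2.2, t3.1, t3.2, t4.1, t4.2, t5.1, t5.2, t6.1, t6.2]
  have e : chi a - chi b - 2 * L / S ^ 2 =
      (a - b - 2 * L) / P + 2 * (L * (S ^ 2 - P)) / (P * S ^ 2) := by
    simp only [chi, hP]
    field_simp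
    ring
  rw [e]
  have u1 : |(a - b - 2 * L) / P| ≤ 516 * δ ^ 3 := by
    rw [abs_div, abs_of_pos hP0, div_le_iff₀ hP0]
    refine hab.trans ?_
    have h1 : E ≤ 4 * P := by nlinarith
    have h2 : 0 ≤ δ ^ 3 := by positivity
    nlinarith
  have u2 : |2 * (L * (S ^ 2 - P)) / (P * S ^ 2)| ≤ 104 * δ ^ 3 := by
    have hPS0 : 0 < P * S ^ 2 := by positivity
    rw [abs_div, abs_of_pos hPS0, div_le_iff₀ hPS0, abs_mul, abs_mul]
    have h1 : |L| * |S ^ 2 - P| ≤ δ * S * (13 * δ ^ 2 * S ^ 2) :=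
      mul_le_mul hLS hdiff (abs_nonneg _) (by positivity)
    have h2 : S ≤ 4 * P := by nlinarith
    have h3 : 0 ≤ δ ^ 3 * S ^ 2 := by positivity
    have h4 := mul_le_mul_of_nonneg_left h2 h3
    rw [abs_of_pos (by norm_num : (0 : ℝ) < 2)]
    nlinarith
  have h5 : 0 ≤ δ ^ 3 := by positivity
  calc _ ≤ _ := abs_add_le _ _
    _ ≤ 1000 * δ ^ 3 := by linarith

section Step

variable {Ed : Type} [Fintype Ed]

/-- the test function -/
noncomputable def Fh (W : Submodule ℝ (Ed → ℝ)) (g0 h : Ed → ℝ) : ℝ :=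
  chi (Ec W g0 fun e => Real.exp (h e))

theorem Fh_step (W : Submodule ℝ (Ed → ℝ)) (g0 U : Ed → ℝ) {δ : ℝ} (hδ0 : 0 ≤ δ)
    (hδ : δ ≤ 1 / 10) :
    ∃ l : Ed → ℝ, ∀ v : Ed → ℝ, (∀ e, |v e| ≤ δ) →
      |Fh W g0 (U + v) - Fh W g0 (U - v) - ∑ e, l e * v e| ≤ 1000 * δ ^ 3 := by
  have hc : ∀ e, 0 < Real.exp (U e) := fun e => Real.exp_pos _
  obtain ⟨g, hg, ho⟩ := exists_orth W g0 hc
  set c : Ed → ℝ := fun e => Real.exp (U e) with hcdef
  refine ⟨fun e => 2 * (c e * g e ^ 2) / (Qf c g + 1) ^ 2, fun v hv => ?_⟩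
  have hv' : ∀ e, |(-v) e| ≤ δ := fun e => by simpa using hv e
  have e1 : (fun e => Real.exp ((U + v) e)) = fun e => c e * Real.exp (v e) := by
    funext e; simp [hcdef, Real.exp_add]
  have e2 : (fun e => Real.exp ((U - v) e)) = fun e => c e * Real.exp (-v e) := by
    funext e; simp [hcdef, sub_eq_add_neg, Real.exp_add]
  have e3 : ∑ e, 2 * (c e * g e ^ 2) / (Qf c g + 1) ^ 2 * v e =
      2 * (∑ e, c e * (v e * g e ^ 2)) / (Qf c g + 1) ^ 2 := by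
    rw [mul_sum, sum_div]
    exact sum_congr rfl fun e _ => by ring
  have e4 : ∑ e, c e * ((-v) e * g e ^ 2) = -∑ e, c e * (v e * g e ^ 2) := by
    rw [← sum_neg_distrib]
    exact sum_congr rfl fun e _ => by simp
  simp only [Fh]
  rw [e1, e2, e3]
  have h1 := first_order W g0 hc hg ho hδ hv
  have h2 := first_order W g0 hc hg ho hδ hv'
  have h3 := odd_one W g0 hc hg ho hδ0 hδ hv
  have h4 := odd_one W g0 hc hg ho hδ0 hδ hv'
  rw [e4] at h2 h4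
  simp only [Pi.neg_apply, neg_neg, sub_neg_eq_add] at h2 h4
  refine chi_odd (Qf_nonneg (fun e => (hc e).le) g) hδ0 hδ (lin_bound hc g hv) h1 h2 ?_
  rw [abs_le]
  constructor <;> linarith

theorem chi_bounds {x : ℝ} (hx : 0 ≤ x) : 0 ≤ chi x ∧ chi x ≤ 1 := by
  unfold chi
  refine ⟨by positivity, ?_⟩
  rw [div_le_one (by linarith)]
  linarith

theorem Fh_bounds (W : Submodule ℝ (Ed → ℝ)) (g0 h : Ed → ℝ) :
    0 ≤ Fh W g0 h ∧ Fh W g0 h ≤ 1 :=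
  chi_bounds (Ec_nonneg W g0 fun _ => (Real.exp_pos _).le)

theorem Fh_meas (W : Submodule ℝ (Ed → ℝ)) (g0 : Ed → ℝ) : Measurable (Fh W g0) := by
  have h1 : Measurable fun h : Ed → ℝ => Ec W g0 fun e => Real.exp (h e) := by
    refine UpperSemicontinuous.measurable ?_
    refine upperSemicontinuous_ciInf (fun h => Ec_bdd W g0 fun _ => (Real.exp_pos _).le)
      fun w => Continuous.upperSemicontinuous ?_
    unfold Qf
    fun_prop
  unfold Fh chi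
  exact h1.div (h1.add_const 1)

end Step

end Pool.Agent.MP_037c5a_pr.Energy
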