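import Mathlib

open MeasureTheory Finset

namespace Pool.Agent.MP_037c5a_pr.Energy

variable {Ed : Type} [Fintype Ed] {Ω : Type} [MeasurableSpace Ω] (μ : Measure Ω)
  [IsProbabilityMeasure μ]

theorem int_bdd {α : Type*} [MeasurableSpace α] (ν : Measure α) [IsFiniteMeasure ν] {f : α → ℝ}
    (hf : Measurable f) (hb : ∀ x, 0 ≤ f x ∧ f x ≤ 1) : Integrable f ν :=
  Integrable.of_bound hf.aestronglyMeasurable 1 (Filter.Eventually.of_forall fun x => by
    rw [Real.norm_eq_abs, abs_of_nonneg (hb x).1]; exact (hb x).2)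

theorem lind_one {F : (Ed → ℝ) → ℝ} (hF : Measurable F) (hb : ∀ x, 0 ≤ F x ∧ F x ≤ 1)
    {δ ε : ℝ}
    (hs : ∀ U, ∃ l : Ed → ℝ, ∀ v : Ed → ℝ, (∀ e, |v e| ≤ δ) →
      |F (U + v) - F (U - v) - ∑ e, l e * v e| ≤ ε)
    {ξ : Ω → Ed → ℝ} (hm : ∀ e, Measurable fun ω => ξ ω e) (hδ : ∀ ω e, |ξ ω e| ≤ δ)
    (h0 : ∀ e, ∫ ω, ξ ω e ∂μ = 0) (U : Ed → ℝ) :
    ∫ ω, F (U - ξ ω) ∂μ - ε ≤ ∫ ω, F (U + ξ ω) ∂μ := by
  obtain ⟨l, hl⟩ := hs U
  have hξ : Measurable ξ := measurable_pi_lambda _ hm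
  have i1 : Integrable (fun ω => F (U + ξ ω)) μ :=
    int_bdd μ (hF.comp (hξ.const_add U)) fun _ => hb _
  have i2 : Integrable (fun ω => F (U - ξ ω)) μ :=
    int_bdd μ (hF.comp (hξ.const_sub U)) fun _ => hb _
  have i3 : ∀ e, Integrable (fun ω => l e * ξ ω e) μ := fun e =>
    (Integrable.of_bound (hm e).aestronglyMeasurable δ (Filter.Eventually.of_forall fun x => by
      rw [Real.norm_eq_abs]; exact hδ x e)).const_mul _
  have i4 : Integrable (fun ω => ∑ e, l e * ξ ω e) μ := integrable_finsetSum _ fun e _ => i3 e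
  have h1 : ∫ ω, ∑ e, l e * ξ ω e ∂μ = 0 := by
    rw [integral_finsetSum _ fun e _ => i3 e]
    refine sum_eq_zero fun e _ => ?_
    rw [integral_const_mul, h0, mul_zero]
  have h2 : ∫ ω, (F (U - ξ ω) + ∑ e, l e * ξ ω e - ε) ∂μ ≤ ∫ ω, F (U + ξ ω) ∂μ := by
    refine integral_mono ((i2.add i4).sub (integrable_const _)) i1 fun ω => ?_
    have := (abs_le.1 (hl (ξ ω) (hδ ω))).1
    simp only
    linarith
  have i5 : Integrable (fun ω => F (U - ξ ω) + ∑ e, l e * ξ ω e) μ := i2.add i4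
  rw [integral_sub i5 (integrable_const _), integral_add i2 i4, h1] at h2
  simpa using h2

theorem lind_fin {F : (Ed → ℝ) → ℝ} (hF : Measurable F) (hb : ∀ x, 0 ≤ F x ∧ F x ≤ 1)
    {δ ε : ℝ}
    (hs : ∀ U, ∃ l : Ed → ℝ, ∀ v : Ed → ℝ, (∀ e, |v e| ≤ δ) →
      |F (U + v) - F (U - v) - ∑ e, l e * v e| ≤ ε) :
    ∀ (n : ℕ) (ξ : Fin n → Ω → Ed → ℝ), (∀ i e, Measurable fun ω => ξ i ω e) →
      (∀ i ω e, |ξ i ω e| ≤ δ) → (∀ i e, ∫ ω, ξ i ω e ∂μ = 0) → ∀ U : Ed → ℝ,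
      ∫ ω, F (U - ∑ i, ξ i (ω i)) ∂(Measure.pi fun _ : Fin n => μ) - n * ε ≤
        ∫ ω, F (U + ∑ i, ξ i (ω i)) ∂(Measure.pi fun _ : Fin n => μ) := by
  intro n
  induction n with
  | zero => intro ξ _ _ _ U; simp
  | succ n ih =>
    intro ξ hm hδ h0 U
    have hξ : ∀ i, Measurable (ξ i) := fun i => measurable_pi_lambda _ (hm i)
    set ν := Measure.pi fun _ : Fin n => μ with hν
    have hS : Measurable fun y : Fin n → Ω => ∑ i : Fin n, ξ i.succ (y i) :=
      Finset.measurable_sum _ fun i _ => (hξ i.succ).comp (measurable_pi_apply i)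
    have key : ∀ G : (Ed → ℝ) → ℝ,
        ∫ ω, G (∑ i, ξ i (ω i)) ∂(Measure.pi fun _ : Fin (n + 1) => μ) =
          ∫ x : Ω × (Fin n → Ω), G (ξ 0 x.1 + ∑ i : Fin n, ξ i.succ (x.2 i)) ∂(μ.prod ν) := by
      intro G
      rw [← ((measurePreserving_piFinSuccAbove (fun _ : Fin (n + 1) => μ) 0).symm).integral_comp']
      refine integral_congr_ae (Filter.Eventually.of_forall fun x => ?_)
      simp [MeasurableEquiv.piFinSuccAbove_symm_apply, Fin.insertNthEquiv,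
        Fin.sum_univ_succ, Fin.insertNth_zero]
    rw [key fun z => F (U - z), key fun z => F (U + z)]
    have m1 : Measurable fun x : Ω × (Fin n → Ω) => ξ 0 x.1 := (hξ 0).comp measurable_fst
    have m2 : Measurable fun x : Ω × (Fin n → Ω) => ∑ i : Fin n, ξ i.succ (x.2 i) :=
      hS.comp measurable_snd
    have iA : Integrable (fun x : Ω × (Fin n → Ω) =>
        F (U - (ξ 0 x.1 + ∑ i : Fin n, ξ i.succ (x.2 i)))) (μ.prod ν) :=
      int_bdd _ (hF.comp ((m1.add m2).const_sub U)) fun _ => hb _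
    have iB : Integrable (fun x : Ω × (Fin n → Ω) =>
        F (U + ξ 0 x.1 - ∑ i : Fin n, ξ i.succ (x.2 i))) (μ.prod ν) :=
      int_bdd _ (hF.comp ((m1.const_add U).sub m2)) fun _ => hb _
    have iC : Integrable (fun x : Ω × (Fin n → Ω) =>
        F (U + (ξ 0 x.1 + ∑ i : Fin n, ξ i.succ (x.2 i)))) (μ.prod ν) :=
      int_bdd _ (hF.comp ((m1.add m2).const_add U)) fun _ => hb _
    have s1 : ∫ x : Ω × (Fin n → Ω), F (U - (ξ 0 x.1 + ∑ i : Fin n, ξ i.succ (x.2 i))) ∂(μ.prod ν)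
        - ε ≤ ∫ x : Ω × (Fin n → Ω),
          F (U + ξ 0 x.1 - ∑ i : Fin n, ξ i.succ (x.2 i)) ∂(μ.prod ν) := by
      rw [integral_prod_symm _ iA, integral_prod_symm _ iB]
      have h := integral_mono (μ := ν) (iA.integral_prod_right.sub (integrable_const ε))
        iB.integral_prod_right fun y => by
          have := lind_one μ hF hb hs (hm 0) (hδ 0) (h0 0) (U - ∑ i : Fin n, ξ i.succ (y i))
          simp only [Pi.sub_apply]
          have a1 : ∀ ω, U - (ξ 0 ω + ∑ i : Fin n, ξ i.succ (y i)) =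
              U - ∑ i : Fin n, ξ i.succ (y i) - ξ 0 ω := fun ω => by
            generalize ∑ i : Fin n, ξ i.succ (y i) = z; abel
          have a2 : ∀ ω, U + ξ 0 ω - ∑ i : Fin n, ξ i.succ (y i) =
              U - ∑ i : Fin n, ξ i.succ (y i) + ξ 0 ω := fun ω => by
            generalize ∑ i : Fin n, ξ i.succ (y i) = z; abel
          simp only [a1, a2]
          exact this
      simp only [Pi.sub_apply] at h
      rw [integral_sub iA.integral_prod_right (integrable_const ε)] at h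
      simpa using h
    have s2 : ∫ x : Ω × (Fin n → Ω),
          F (U + ξ 0 x.1 - ∑ i : Fin n, ξ i.succ (x.2 i)) ∂(μ.prod ν) - n * ε ≤
        ∫ x : Ω × (Fin n → Ω), F (U + (ξ 0 x.1 + ∑ i : Fin n, ξ i.succ (x.2 i))) ∂(μ.prod ν) := by
      rw [integral_prod _ iB, integral_prod _ iC]
      have h := integral_mono (μ := μ) (iB.integral_prod_left.sub (integrable_const (n * ε)))
        iC.integral_prod_left fun x => by
          have := ih (fun i => ξ i.succ) (fun i => hm _) (fun i => hδ _) (fun i => h0 _)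
            (U + ξ 0 x)
          simp only [Pi.sub_apply]
          simpa only [add_assoc] using this
      simp only [Pi.sub_apply] at h
      rw [integral_sub iB.integral_prod_left (integrable_const _)] at h
      simpa using h
    push_cast
    linarith

theorem lind_fintype {F : (Ed → ℝ) → ℝ} (hF : Measurable F) (hb : ∀ x, 0 ≤ F x ∧ F x ≤ 1)
    {δ ε : ℝ}
    (hs : ∀ U, ∃ l : Ed → ℝ, ∀ v : Ed → ℝ, (∀ e, |v e| ≤ δ) →
      |F (U + v) - F (U - v) - ∑ e, l e * v e| ≤ ε)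
    {ι : Type} [Fintype ι] (ξ : ι → Ω → Ed → ℝ) (hm : ∀ i e, Measurable fun ω => ξ i ω e)
    (hδ : ∀ i ω e, |ξ i ω e| ≤ δ) (h0 : ∀ i e, ∫ ω, ξ i ω e ∂μ = 0) :
    ∫ ω, F (-∑ i, ξ i (ω i)) ∂(Measure.pi fun _ : ι => μ) - Fintype.card ι * ε ≤
      ∫ ω, F (∑ i, ξ i (ω i)) ∂(Measure.pi fun _ : ι => μ) := by
  let e := (Fintype.equivFin ι).symm
  have key : ∀ G : (Ed → ℝ) → ℝ, ∫ ω, G (∑ i, ξ i (ω i)) ∂(Measure.pi fun _ : ι => μ) =
      ∫ ω, G (∑ i, ξ (e i) (ω i)) ∂(Measure.pi fun _ : Fin (Fintype.card ι) => μ) := by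
    intro G
    rw [← (measurePreserving_piCongrLeft (fun _ : ι => μ) e).integral_comp']
    simp_rw [← e.sum_comp, MeasurableEquiv.coe_piCongrLeft, Equiv.piCongrLeft_apply_apply]
  rw [key fun z => F (-z), key F]
  have := lind_fin μ hF hb hs _ (fun i => ξ (e i)) (fun i => hm _) (fun i => hδ _)
    (fun i => h0 _) 0
  simpa using this

end Pool.Agent.MP_037c5a_pr.Energy
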