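import Pool.Agent.MP_037c5a_pr.Stmts
import Pool.Agent.MP_037c5a_pr.EnergyAbs
import Pool.Agent.MP_037c5a_pr.EnergyLind

open MeasureTheory Finset

namespace Pool.Agent.MP_037c5a_pr

namespace Energy

/-- edges of the grid network -/
abbrev Edg (K : ℕ) := (Fin K × Fin K) × Bool

/-- discrete gradient -/
def grad (K : ℕ) : (ℕ → ℕ → ℝ) →ₗ[ℝ] (Edg K → ℝ) where
  toFun u := fun e => if e.2 then u (e.1.1 + 1) e.1.2 - u e.1.1 e.1.2
    else u (e.1.1 + 1) (e.1.2 + 1) - u (e.1.1 + 1) e.1.2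
  map_add' x y := by
    funext e
    by_cases h : e.2 <;> simp [h] <;> ring
  map_smul' a x := by
    funext e
    by_cases h : e.2 <;> simp [h] <;> ring

/-- functions vanishing on the left and right sides -/
def W0 (K : ℕ) : Submodule ℝ (ℕ → ℕ → ℝ) where
  carrier := {u | ∀ j ≤ K, u 0 j = 0 ∧ u K j = 0}
  add_mem' := by
    intro a b ha hb j hj
    simp [(ha j hj).1, (ha j hj).2, (hb j hj).1, (hb j hj).2]
  zero_mem' := by
    intro j _
    simp
  smul_mem' := by
    intro c a ha j hj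
    simp [(ha j hj).1, (ha j hj).2]

/-- a fixed admissible function -/
def u1 : ℕ → ℕ → ℝ := fun i _ => if i = 0 then 0 else 1

def lift (K : ℕ) (c : ℕ → ℕ → ℝ) : Edg K → ℝ := fun e => c e.1.1 e.1.2

theorem adm_u1 {K : ℕ} (hK : 1 ≤ K) : Adm K u1 := fun j _ =>
  ⟨by simp [u1], by simp [u1]; omega⟩

theorem En_eq (K : ℕ) (c u : ℕ → ℕ → ℝ) : En K c u = Qf (lift K c) (grad K u) := by
  unfold En Qf
  rw [Fintype.sum_prod_type, Fintype.sum_prod_type, sum_range]
  refine sum_congr rfl fun i _ => ?_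
  rw [sum_range]
  refine sum_congr rfl fun j _ => ?_
  simp [lift, grad]
  ring

theorem grad_mem {K : ℕ} (hK : 1 ≤ K) {u : ℕ → ℕ → ℝ} (hu : Adm K u) :
    grad K u - grad K u1 ∈ (W0 K).map (grad K) := by
  refine ⟨u - u1, fun j hj => ?_, map_sub _ _ _⟩
  have h1 := adm_u1 hK j hj
  simp [(hu j hj).1, (hu j hj).2, h1.1, h1.2]

theorem exists_adm {K : ℕ} (hK : 1 ≤ K) {g : Edg K → ℝ}
    (hg : g - grad K u1 ∈ (W0 K).map (grad K)) : ∃ u, Adm K u ∧ g = grad K u := by
  obtain ⟨w, hw, hwe⟩ := hg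
  refine ⟨u1 + w, fun j hj => ?_, ?_⟩
  · have h1 := adm_u1 hK j hj
    have h2 := hw j hj
    simp [h1.1, h1.2, h2.1, h2.2]
  · rw [map_add, hwe]; abel

theorem dual_id (K : ℕ) (u w : ℕ → ℕ → ℝ) (hu : Adm K u)
    (hw : ∀ i ≤ K, w i 0 = 0 ∧ w i K = 1) :
    ∑ i ∈ range K, ∑ j ∈ range K,
      ((u (i + 1) j - u i j) * (w i (j + 1) - w i j) -
        (u (i + 1) (j + 1) - u (i + 1) j) * (w (i + 1) (j + 1) - w i (j + 1))) = 1 := by
  -- potential along columns and rows
  have e : ∀ i j, (u (i + 1) j - u i j) * (w i (j + 1) - w i j) -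
        (u (i + 1) (j + 1) - u (i + 1) j) * (w (i + 1) (j + 1) - w i (j + 1)) =
      ((u (i + 1) (j + 1) * w i (j + 1) - u (i + 1) (j + 1) * w (i + 1) (j + 1) + u i (j + 1) * 0)
        - (u (i + 1) j * w i j - u (i + 1) j * w (i + 1) j + u i j * 0)) +
      ((u (i + 1) j * w (i + 1) (j + 1) - u (i + 1) j * w (i + 1) j)
        - (u i j * w i (j + 1) - u i j * w i j)) := fun i j => by ring
  simp only [e, sum_add_distrib]
  have h1 : ∑ i ∈ range K, ∑ j ∈ range K,
      ((u (i + 1) (j + 1) * w i (j + 1) - u (i + 1) (j + 1) * w (i + 1) (j + 1) + u i (j + 1) * 0)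
        - (u (i + 1) j * w i j - u (i + 1) j * w (i + 1) j + u i j * 0)) = 0 := by
    refine sum_eq_zero fun i hi => ?_
    have hi' := mem_range.1 hi
    rw [sum_range_sub (fun j => u (i + 1) j * w i j - u (i + 1) j * w (i + 1) j + u i j * 0)]
    simp [(hw i hi'.le).1, (hw i hi'.le).2, (hw (i + 1) hi').1, (hw (i + 1) hi').2]
  have h2 : ∑ i ∈ range K, ∑ j ∈ range K,
      ((u (i + 1) j * w (i + 1) (j + 1) - u (i + 1) j * w (i + 1) j)
        - (u i j * w i (j + 1) - u i j * w i j)) = 1 := by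
    rw [sum_comm]
    have : ∀ j ∈ range K, ∑ i ∈ range K,
        ((u (i + 1) j * w (i + 1) (j + 1) - u (i + 1) j * w (i + 1) j)
          - (u i j * w i (j + 1) - u i j * w i j)) = w K (j + 1) - w K j := fun j hj => by
      have hj' := (mem_range.1 hj).le
      rw [sum_range_sub (fun i => u i j * w i (j + 1) - u i j * w i j)]
      simp [(hu j hj').1, (hu j hj').2]
    rw [sum_congr rfl this, sum_range_sub (fun j => w K j), (hw K le_rfl).1, (hw K le_rfl).2]
    simp
  rw [h1, h2, zero_add]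

theorem dual_ineq (K : ℕ) (h u v : ℕ → ℕ → ℝ) (hu : Adm K u) (hv : Adm K v) :
    1 ≤ En K (fun a b => Real.exp (h a b)) u * En K (fun a b => Real.exp (-h b a)) v := by
  have hid := dual_id K u (fun i j => v j i) hu fun i hi => hv i hi
  let r : Edg K → ℝ := fun e => if e.2 then
      (u (e.1.1 + 1) e.1.2 - u e.1.1 e.1.2) * (v (e.1.2 + 1) e.1.1 - v e.1.2 e.1.1)
    else -((u (e.1.1 + 1) (e.1.2 + 1) - u (e.1.1 + 1) e.1.2) *
      (v (e.1.2 + 1) (e.1.1 + 1) - v (e.1.2 + 1) e.1.1))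
  let f : Edg K → ℝ := fun e => Real.exp (h e.1.1 e.1.2) * grad K u e ^ 2
  let g : Edg K → ℝ := fun e => Real.exp (-h e.1.1 e.1.2) * grad K v ((e.1.2, e.1.1), e.2) ^ 2
  have hr : ∑ e, r e = 1 := by
    rw [← hid, Fintype.sum_prod_type, Fintype.sum_prod_type, sum_range]
    refine sum_congr rfl fun i _ => ?_
    rw [sum_range]
    refine sum_congr rfl fun j _ => ?_
    simp [r]
    ring
  have hf : ∑ e, f e = En K (fun a b => Real.exp (h a b)) u := by
    rw [En_eq]; rfl
  have hg : ∑ e, g e = En K (fun a b => Real.exp (-h b a)) v := by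
    rw [En_eq]
    exact Fintype.sum_equiv ((Equiv.prodComm (Fin K) (Fin K)).prodCongr (Equiv.refl Bool)) _ _
      fun e => rfl
  have hcs := sum_sq_le_sum_mul_sum_of_sq_eq_mul (univ : Finset (Edg K)) (r := r) (f := f) (g := g)
    (fun e _ => by positivity) (fun e _ => by positivity) fun e _ => by
      have hx : Real.exp (h e.1.1 e.1.2) * Real.exp (-h e.1.1 e.1.2) = 1 := by
        rw [← Real.exp_add]; simp
      have : f e * g e = (Real.exp (h e.1.1 e.1.2) * Real.exp (-h e.1.1 e.1.2)) *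
          (grad K u e * grad K v ((e.1.2, e.1.1), e.2)) ^ 2 := by
        simp only [f, g]; ring
      rw [this, hx, one_mul]
      by_cases hb : e.2 <;> simp [r, grad, hb]
  rw [hr, hf, hg] at hcs
  simpa using hcs

theorem chi_dual {x y : ℝ} (hx : 0 ≤ x) (hy : 0 ≤ y) (h : 1 ≤ x * y) : 1 ≤ chi x + chi y := by
  unfold chi
  rw [div_add_div _ _ (by linarith) (by linarith), le_div_iff₀ (by positivity)]
  nlinarith

theorem Fh_dual {K : ℕ} (hK : 1 ≤ K) (h : ℕ → ℕ → ℝ) :
    1 ≤ Fh ((W0 K).map (grad K)) (grad K u1) (lift K h) +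
      Fh ((W0 K).map (grad K)) (grad K u1) (-lift K fun a b => h b a) := by
  unfold Fh
  refine chi_dual (Ec_nonneg _ _ fun _ => (Real.exp_pos _).le)
    (Ec_nonneg _ _ fun _ => (Real.exp_pos _).le) ?_
  obtain ⟨g, hg, hE⟩ := exists_min ((W0 K).map (grad K)) (grad K u1)
    (c := fun e => Real.exp (lift K h e)) fun _ => Real.exp_pos _
  obtain ⟨g', hg', hE'⟩ := exists_min ((W0 K).map (grad K)) (grad K u1)
    (c := fun e => Real.exp ((-lift K fun a b => h b a) e)) fun _ => Real.exp_pos _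
  obtain ⟨u, hu, rfl⟩ := exists_adm hK hg
  obtain ⟨v, hv, rfl⟩ := exists_adm hK hg'
  rw [hE, hE']
  have := dual_ineq K h u v hu hv
  rw [En_eq, En_eq] at this
  exact this

theorem Fh_small {K : ℕ} (hK : 1 ≤ K) (h : ℕ → ℕ → ℝ)
    (hn : ¬ EnGe K (fun a b => Real.exp (h a b)) (1 / 7)) :
    Fh ((W0 K).map (grad K)) (grad K u1) (lift K h) ≤ 1 / 8 := by
  unfold EnGe at hn
  push Not at hn
  obtain ⟨u, hu, hlt⟩ := hn
  have h1 : Ec ((W0 K).map (grad K)) (grad K u1) (fun e => Real.exp (lift K h e)) ≤ 1 / 7 := by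
    refine (Ec_le _ _ (fun _ => (Real.exp_pos _).le) (grad_mem hK hu)).trans ?_
    rw [En_eq] at hlt
    exact hlt.le
  have h0 : 0 ≤ Ec ((W0 K).map (grad K)) (grad K u1) (fun e => Real.exp (lift K h e)) :=
    Ec_nonneg _ _ fun _ => (Real.exp_pos _).le
  unfold Fh chi
  rw [div_le_iff₀ (by linarith)]
  linarith

end Energy

open Energy in
theorem stmtEnergy : StmtEnergy := by
  intro ι _ Ω _ μ _ K hK ξ δ hm hδ0 hδ hb h0 hn
  set F := Fh ((W0 K).map (grad K)) (grad K u1) with hF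
  set P := Measure.pi fun _ : ι => μ with hP
  have hFm : Measurable F := Fh_meas _ _
  have hFb : ∀ x, 0 ≤ F x ∧ F x ≤ 1 := Fh_bounds _ _
  let X : (ι → Ω) → Edg K → ℝ := fun ω => ∑ i, lift K (ξ i (ω i))
  let Y : (ι → Ω) → Edg K → ℝ := fun ω => ∑ i, lift K fun a b => ξ i (ω i) b a
  have hX : ∀ ω, X ω = lift K fun a b => ∑ i, ξ i (ω i) a b := fun ω => by
    funext e; simp [X, lift]
  have hY : ∀ ω, Y ω = lift K fun a b => ∑ i, ξ i (ω i) b a := fun ω => by
    funext e; simp [Y, lift]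
  have mX : Measurable X := Finset.measurable_sum _ fun i _ =>
    measurable_pi_lambda _ fun e => (hm i _ _).comp (measurable_pi_apply i)
  have mY : Measurable Y := Finset.measurable_sum _ fun i _ =>
    measurable_pi_lambda _ fun e => (hm i _ _).comp (measurable_pi_apply i)
  have hl : ∫ ω, F (-Y ω) ∂P - Fintype.card ι * (1000 * δ ^ 3) ≤ ∫ ω, F (Y ω) ∂P :=
    lind_fintype μ hFm hFb (fun U => Fh_step _ _ U hδ0 hδ)
      (fun i ω => lift K fun a b => ξ i ω b a) (fun i e => hm i _ _) (fun i ω e => hb i ω _ _)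
      fun i e => h0 i _ _
  have iX : Integrable (fun ω => F (X ω)) P := int_bdd P (hFm.comp mX) fun _ => hFb _
  have iY : Integrable (fun ω => F (Y ω)) P := int_bdd P (hFm.comp mY) fun _ => hFb _
  have iY' : Integrable (fun ω => F (-Y ω)) P := int_bdd P (hFm.comp mY.neg) fun _ => hFb _
  have hd : 1 ≤ ∫ ω, F (X ω) ∂P + ∫ ω, F (-Y ω) ∂P := by
    rw [← integral_add iX iY']
    have := integral_mono (integrable_const (1 : ℝ)) (iX.add iY') fun ω => by
      simp only [Pi.add_apply]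
      rw [hX, hY]
      exact Fh_dual hK _
    simpa using this
  set B : Set (ι → Ω) := {ω | F (X ω) + F (Y ω) ≤ 1 / 4} with hB
  have mB : MeasurableSet B :=
    measurableSet_le ((hFm.comp mX).add (hFm.comp mY)) measurable_const
  have hup : ∫ ω, F (X ω) ∂P + ∫ ω, F (Y ω) ∂P ≤ 2 - 7 / 4 * P.real B := by
    rw [← integral_add iX iY]
    have iI : Integrable (fun ω => 7 / 4 * B.indicator (1 : (ι → Ω) → ℝ) ω) P :=
      ((integrable_const (1 : ℝ)).indicator mB).const_mul _
    have := integral_mono (iX.add iY) ((integrable_const (2 : ℝ)).sub iI) fun ω => by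
      simp only [Pi.add_apply, Pi.sub_apply]
      by_cases hω : ω ∈ B
      · rw [Set.indicator_of_mem hω]
        have : F (X ω) + F (Y ω) ≤ 1 / 4 := hω
        simp only [Pi.one_apply]
        linarith
      · rw [Set.indicator_of_notMem hω]
        linarith [(hFb (X ω)).2, (hFb (Y ω)).2]
    simp only [Pi.add_apply, Pi.sub_apply] at this
    rw [integral_sub (integrable_const _) iI, integral_const_mul, integral_indicator_one mB] at this
    simpa using this
  have hPB : P.real B ≤ 2 / 3 := by nlinarith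
  refine (measure_mono (t := B) fun ω hω => ?_).trans ?_
  · have h1 := not_or.1 hω
    have h2 := Fh_small hK (fun a b => ∑ i, ξ i (ω i) a b) h1.1
    have h3 := Fh_small hK (fun a b => ∑ i, ξ i (ω i) b a) h1.2
    show F (X ω) + F (Y ω) ≤ 1 / 4
    rw [hX, hY]
    linarith
  · rw [← ofReal_measureReal (measure_ne_top P B)]
    exact ENNReal.ofReal_le_ofReal hPB

end Pool.Agent.MP_037c5a_pr
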