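import Pool.Agent.MP_037c5a_pr.Model

open MeasureTheory Finset ProbabilityTheory

namespace Pool.Agent.MP_037c5a_pr

theorem mp_curry (ι κ X : Type) [Fintype ι] [Fintype κ] [MeasurableSpace X] (μ : Measure X)
    [IsProbabilityMeasure μ] :
    MeasurePreserving (MeasurableEquiv.curry ι κ X) (Measure.pi fun _ : ι × κ => μ)
      (Measure.pi fun _ : ι => Measure.pi fun _ : κ => μ) := by
  refine ⟨(MeasurableEquiv.curry ι κ X).measurable, ?_⟩
  have := Measure.infinitePi_map_curry (ι := ι) (κ := κ) (X := X) (fun _ _ => μ)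
  simpa only [Measure.infinitePi_eq_pi] using this

theorem mp_refine (ι κ Y X : Type) [Fintype ι] [Fintype κ] [MeasurableSpace X] [MeasurableSpace Y]
    (ν : Measure Y) (μ : Measure X) [IsProbabilityMeasure μ] [IsProbabilityMeasure ν] :
    MeasurePreserving
      (fun x : (ι → Y) × (ι × κ → X) => fun i => (x.1 i, fun l => x.2 (i, l)))
      ((Measure.pi fun _ : ι => ν).prod (Measure.pi fun _ : ι × κ => μ))
      (Measure.pi fun _ : ι => ν.prod (Measure.pi fun _ : κ => μ)) := by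
  have h1 := (measurePreserving_arrowProdEquivProdArrow Y (κ → X) ι (fun _ => ν)
    (fun _ => Measure.pi fun _ : κ => μ)).symm
  have h2 := (MeasurePreserving.id (Measure.pi fun _ : ι => ν)).prod (mp_curry ι κ X μ)
  exact h1.comp h2

theorem pi_refine_eq {ι κ Y X : Type} [Fintype ι] [Fintype κ] [MeasurableSpace X]
    [MeasurableSpace Y] (ν : Measure Y) (μ : Measure X) [IsProbabilityMeasure μ]
    [IsProbabilityMeasure ν] {S : Set (ι → Y × (κ → X))} (hS : MeasurableSet S) :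
    (Measure.pi fun _ : ι => ν.prod (Measure.pi fun _ : κ => μ)) S =
      ∫⁻ β, (Measure.pi fun _ : ι × κ => μ) {ω | (fun i => (β i, fun l => ω (i, l))) ∈ S}
        ∂(Measure.pi fun _ : ι => ν) := by
  have h := mp_refine ι κ Y X ν μ
  rw [← h.measure_preimage hS.nullMeasurableSet, Measure.prod_apply (h.measurable hS)]
  rfl

theorem pi_inter_le (𝓜 : Model) {ι J : Type} [Fintype ι] (s : J → Finset ι) (A B : J → ι → E)
    {Φ : Set E → Prop} (hΦ : MeasPred Φ) (f : ENNReal) (G : Finset J)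
    (hd : ∀ j ∈ G, ∀ j' ∈ G, j ≠ j' → Disjoint (s j) (s j'))
    (hf : ∀ j ∈ G, (Measure.pi fun _ : ι => 𝓜.μ) {ω | ¬ Φ (famT 𝓜 (s j) (A j) (B j) ω)} ≤ f) :
    (Measure.pi fun _ : ι => 𝓜.μ) (⋂ j ∈ G, {ω | ¬ Φ (famT 𝓜 (s j) (A j) (B j) ω)}) ≤
      f ^ G.card := by
  classical
  let m : ι → MeasurableSpace (ι → 𝓜.X) := fun i =>
    MeasurableSpace.comap (fun ω => ω i) inferInstance
  have hle : ∀ i, m i ≤ MeasurableSpace.pi := fun i => (measurable_pi_apply i).comap_le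
  have hind : iIndep m (Measure.pi fun _ : ι => 𝓜.μ) :=
    (iIndepFun_iff_iIndep _ _ _).1
      (iIndepFun_pi (μ := fun _ : ι => 𝓜.μ) (X := fun _ => id) fun _ => aemeasurable_id)
  have hm : ∀ (S : Set ι) (j : J), (∀ i ∈ s j, i ∈ S) →
      MeasurableSet[⨆ i ∈ S, m i] {ω | ¬ Φ (famT 𝓜 (s j) (A j) (B j) ω)} := by
    intro S j hj
    refine (hΦ _ (⨆ i ∈ S, m i) _ (@meas_hit_famT 𝓜 ι _ (⨆ i ∈ S, m i) (s j) (fun _ => A j)
      (fun _ => B j) id (fun _ _ => measurable_const) (fun _ _ => measurable_const)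
      (fun i hi => ?_))).compl
    refine Measurable.of_comap_le ?_
    exact le_iSup₂_of_le (f := fun i (_ : i ∈ S) => m i) i (hj i hi) le_rfl
  induction G using Finset.induction_on with
  | empty => simp
  | insert j G hj ih =>
    rw [Finset.set_biInter_insert, card_insert_of_notMem hj, pow_succ']
    have hdis : Disjoint (s j : Set ι) (⋃ j' ∈ G, (s j' : Set ι)) := by
      rw [Set.disjoint_iUnion₂_right]
      intro j' hj'
      exact Finset.disjoint_coe.2 (hd j (mem_insert_self _ _) j' (mem_insert_of_mem hj')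
        (fun h => hj (h ▸ hj')))
    have hI := indep_iSup_of_disjoint hle hind hdis
    rw [(Indep_iff _ _ _).1 hI _ _ (hm _ j fun i hi => hi)
      (@Finset.measurableSet_biInter _ _ (⨆ i ∈ (⋃ j' ∈ G, (s j' : Set ι)), m i) _ _
        fun j' hj' => hm _ j' fun i hi => Set.mem_biUnion hj' hi)]
    exact mul_le_mul' (hf j (mem_insert_self _ _))
      (ih (fun a ha b hb => hd a (mem_insert_of_mem ha) b (mem_insert_of_mem hb))
        fun a ha => hf a (mem_insert_of_mem ha))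

structure Glob where
  q : ℕ
  q0 : ℕ
  bb : ℕ
  D : ℝ
  η : ℝ
  W : ℝ

structure OK (g : Glob) {ι : Type} (s : Finset ι) (A B : ι → E) (h : ℝ) : Prop where
  cut : ∀ i ∈ s, ‖A i‖ ≤ g.D ∧ ‖B i‖ ≤ g.D
  card : (s.card : ℝ) ≤ g.W
  ht : h ≤ ∑ i ∈ s, gk g.q g.q0 (A i) (B i)

/-- every admissible family of height `h` has the property `Φ` up to probability `δ` -/
def Win (g : Glob) (𝓜 : Model) (Φ : Set E → Prop) (h : ℝ) (δ : ENNReal) : Prop :=
  ∀ (ι : Type) [Fintype ι] (s : Finset ι) (A B : ι → E), OK g s A B h →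
    (Measure.pi fun _ : ι => 𝓜.μ) {ω | ¬ Φ (famT 𝓜 s A B ω)} ≤ δ

theorem exists_thin {ι : Type} (s : Finset ι) (f : ι → ℝ) (h b : ℝ) (h0 : 0 ≤ h) (hb : 0 ≤ b)
    (hf : ∀ i ∈ s, f i ≤ b) (hs : h ≤ ∑ i ∈ s, f i) :
    ∃ t ⊆ s, h ≤ ∑ i ∈ t, f i ∧ ∑ i ∈ t, f i ≤ h + b := by
  classical
  induction s using Finset.induction_on with
  | empty => exact ⟨∅, le_rfl, hs, by simp; linarith⟩
  | insert a s ha ih =>
    by_cases hh : h ≤ ∑ i ∈ s, f i
    · obtain ⟨t, ht, h1⟩ := ih (fun i hi => hf i (mem_insert_of_mem hi)) hh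
      exact ⟨t, ht.trans (subset_insert _ _), h1⟩
    · refine ⟨insert a s, le_rfl, hs, ?_⟩
      rw [sum_insert ha]
      have := hf a (mem_insert_self _ _)
      linarith

theorem win_of_thin (hM : StmtMom) {g : Glob} (hq0 : 1 ≤ g.q0) {𝓜 : Model} {Φ : Set E → Prop}
    (hΦ : MonoPred Φ) {h : ℝ} (h0 : 0 ≤ h) {δ : ENNReal}
    (H : ∀ (ι : Type) [Fintype ι] (s : Finset ι) (A B : ι → E), OK g s A B h →
      ∑ i ∈ s, gk g.q g.q0 (A i) (B i) ≤ h + (1 + Real.log g.q) →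
      (Measure.pi fun _ : ι => 𝓜.μ) {ω | ¬ Φ (famT 𝓜 s A B ω)} ≤ δ) : Win g 𝓜 Φ h δ := by
  intro ι _ s A B hok
  obtain ⟨t, hts, h1, h2⟩ := exists_thin s (fun i => gk g.q g.q0 (A i) (B i)) h
    (1 + Real.log g.q) h0 (by have := Real.log_natCast_nonneg g.q; linarith)
    (fun i _ => (hM.gk_bd _ _ _ _ hq0).2) hok.ht
  have hc : (t.card : ℝ) ≤ s.card := by exact_mod_cast card_le_card hts
  refine le_trans (measure_mono ?_)
    (H ι t A B ⟨fun i hi => hok.cut i (hts hi), hc.trans hok.card, h1⟩ h2)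
  exact fun ω hω hω' => hω (hΦ _ _ (famT_mono _ hts _ _ _) hω')

theorem Win.mono {g : Glob} {𝓜 : Model} {Φ Φ' : Set E → Prop} {h : ℝ} {δ δ' : ENNReal}
    (H : Win g 𝓜 Φ h δ) (hΦ : ∀ T, Φ T → Φ' T) (hδ : δ ≤ δ') : Win g 𝓜 Φ' h δ' :=
  fun ι _ s A B hok => le_trans (measure_mono fun _ hω hω' => hω (hΦ _ hω'))
    ((H ι s A B hok).trans hδ)

theorem OK.mono {g : Glob} {ι : Type} {s : Finset ι} {A B : ι → E} {h h' : ℝ}
    (H : OK g s A B h) (hh : h' ≤ h) : OK g s A B h' :=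
  ⟨H.cut, H.card, hh.trans H.ht⟩

theorem Win.ball {g : Glob} {𝓜 : Model} {Φ : Set E → Prop} {h : ℝ} {δ : ENNReal}
    (H : Win g 𝓜 Φ h δ) (h0 : 0 < h) :
    Win g 𝓜 (fun T => (∃ p ∈ T, ‖p‖ ≤ g.D) ∧ Φ T) h δ := by
  intro ι _ s A B hok
  refine le_trans (measure_mono fun ω hω hω' => hω ⟨?_, hω'⟩) (H ι s A B hok)
  obtain ⟨i, hi⟩ : s.Nonempty := by
    rw [nonempty_iff_ne_empty]
    rintro rfl
    have := hok.ht
    simp at this
    linarith
  exact ⟨A i, mem_famT _ _ _ _ hi, (hok.cut i hi).1⟩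

section child

variable (g : Glob) (p k : ℕ) (M : ℝ) {ι : Type} (s : Finset ι) (A B : ι → E) (z : E)

open Classical in
noncomputable def chS (β : ι → Fin k → E) : Finset (ι × Fin (k + 1)) :=
  (s ×ˢ univ).filter fun x =>
    x.2.val ∈ keep g.q g.q0 p k g.bb g.D (M • (A x.1 - z)) (M • (B x.1 - z)) (β x.1)

noncomputable def chA (β : ι → Fin k → E) (x : ι × Fin (k + 1)) : E :=
  bp k (M • (A x.1 - z)) (M • (B x.1 - z)) (β x.1) x.2

noncomputable def chB (β : ι → Fin k → E) (x : ι × Fin (k + 1)) : E :=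
  bp k (M • (A x.1 - z)) (M • (B x.1 - z)) (β x.1) (x.2 + 1)

noncomputable def Si (i : ι) (β : Fin k → E) : ℝ :=
  Sv g.q g.q0 p k g.bb g.D (M • (A i - z)) (M • (B i - z)) β

noncomputable def Ci (i : ι) (β : Fin k → E) : ℝ :=
  Cv g.q g.q0 p k g.bb g.D (M • (A i - z)) (M • (B i - z)) β

noncomputable def Sz (β : ι → Fin k → E) : ℝ := ∑ i ∈ s, Si g p k M A B z i (β i)

noncomputable def Cz (β : ι → Fin k → E) : ℝ := ∑ i ∈ s, Ci g p k M A B z i (β i)

noncomputable def mz : ℝ := ∑ i ∈ s, ∫ β, Si g p k M A B z i β ∂nu k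

end child

theorem keep_subset (q q0 p k bb : ℕ) (D : ℝ) (P Q : E) (β : Fin k → E) :
    keep q q0 p k bb D P Q β ⊆ cutSet q q0 p k D P Q β := by
  unfold keep
  split_ifs
  · exact le_rfl
  · exact empty_subset _

theorem keep_card (q q0 p k bb : ℕ) (D : ℝ) (P Q : E) (β : Fin k → E) :
    (keep q q0 p k bb D P Q β).card ≤ bb := by
  unfold keep
  split_ifs with h
  · exact h
  · simp

theorem mem_keep {q q0 p k bb : ℕ} {D : ℝ} {P Q : E} {β : Fin k → E} {l : ℕ}
    (hk : k + 1 = q * p) (hl : l ∈ keep q q0 p k bb D P Q β) :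
    l < k + 1 ∧ ‖bp k P Q β l‖ ≤ D ∧ ‖bp k P Q β (l + 1)‖ ≤ D := by
  have := keep_subset _ _ _ _ _ _ _ _ _ hl
  simp only [cutSet, mem_filter, mem_Ico] at this
  refine ⟨lt_of_lt_of_le this.1.2 ?_, this.2⟩
  rw [hk]
  exact Nat.mul_le_mul_right _ (Nat.sub_le _ _)

theorem sum_chS (g : Glob) {p k : ℕ} (hk : k + 1 = g.q * p) (M : ℝ) {ι : Type} (s : Finset ι)
    (A B : ι → E) (z : E) (β : ι → Fin k → E) (F : ι → ℕ → ℝ) :
    ∑ x ∈ chS g p k M s A B z β, F x.1 x.2 =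
      ∑ i ∈ s, ∑ l ∈ keep g.q g.q0 p k g.bb g.D (M • (A i - z)) (M • (B i - z)) (β i), F i l := by
  classical
  unfold chS
  rw [sum_filter, sum_product]
  refine sum_congr rfl fun i _ => ?_
  rw [Fin.sum_univ_eq_sum_range (fun l => if l ∈ keep g.q g.q0 p k g.bb g.D (M • (A i - z))
    (M • (B i - z)) (β i) then F i l else 0) (k + 1), ← sum_filter]
  refine sum_congr ?_ fun _ _ => rfl
  ext l
  simp only [mem_filter, mem_range, and_iff_right_iff_imp]
  exact fun hl => (mem_keep hk hl).1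

theorem ok_child (g : Glob) {p k : ℕ} (hk : k + 1 = g.q * p) (M : ℝ) {ι : Type} (s : Finset ι)
    (A B : ι → E) (z : E) (β : ι → Fin k → E) {h : ℝ} (hS : h ≤ Sz g p k M s A B z β)
    (hC : Cz g p k M s A B z β ≤ g.W) :
    OK g (chS g p k M s A B z β) (chA k M A B z β) (chB k M A B z β) h := by
  classical
  refine ⟨fun x hx => ?_, ?_, ?_⟩
  · simp only [chS, mem_filter] at hx
    exact (mem_keep hk hx.2).2
  · have := sum_chS g hk M s A B z β fun _ _ => 1
    simp only [sum_const, nsmul_eq_mul, mul_one] at this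
    rw [this]
    exact hC
  · have := sum_chS g hk M s A B z β fun i l =>
      gk g.q g.q0 (bp k (M • (A i - z)) (M • (B i - z)) (β i) l)
        (bp k (M • (A i - z)) (M • (B i - z)) (β i) (l + 1))
    exact hS.trans (le_of_eq this.symm)

theorem child_subset (hC : StmtChain) (g : Glob) (p k : ℕ) {M : ℝ} (hM : 0 < M) (𝓜 : Model)
    {ι : Type} (s : Finset ι) (A B : ι → E) (z : E) (β : ι → Fin k → E)
    (ω : ι × Fin (k + 1) → 𝓜.X) :
    famT 𝓜 (chS g p k M s A B z β) (chA k M A B z β) (chB k M A B z β) ω ⊆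
      zoom (famT (refine hC k M 𝓜) s A B fun i => (β i, fun l => ω (i, l))) z M⁻¹ := by
  classical
  rintro _ ⟨x, hx, a, rfl⟩
  simp only [chS, mem_filter, mem_product] at hx
  refine ⟨x.1, hx.1.1, (x.2, a), ?_⟩
  have e1 : M • (B x.1 - z) - M • (A x.1 - z) = M • (B x.1 - A x.1) := by
    rw [← smul_sub]; congr 1; abel
  simp only [refine, chA, chB]
  rw [bp_shift k (M • (A x.1 - z)) _ _ x.2, bp_shift k (M • (A x.1 - z)) _ _ (x.2 + 1), e1,
    add_sub_add_left_eq_sub, add_assoc, smul_add, smul_smul, inv_mul_cancel₀ hM.ne', one_smul]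
  abel

theorem chS_disjoint (g : Glob) {p k : ℕ} (hk : k + 1 = g.q * p) {M : ℝ} (hM : 0 < M) {ι : Type}
    (s : Finset ι) (A B : ι → E) {z z' : E} (hz : 2 * g.D < M * ‖z - z'‖) (β : ι → Fin k → E) :
    Disjoint (chS g p k M s A B z β) (chS g p k M s A B z' β) := by
  classical
  rw [Finset.disjoint_left]
  intro x hx hx'
  simp only [chS, mem_filter] at hx hx'
  have h1 := (mem_keep hk hx.2).2.1
  have h2 := (mem_keep hk hx'.2).2.1
  have e1 : ∀ z : E, M • (B x.1 - z) - M • (A x.1 - z) = M • (B x.1 - A x.1) := fun z => by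
    rw [← smul_sub]; congr 1; abel
  rw [bp_shift, e1] at h1 h2
  have h3 := norm_sub_le (M • (A x.1 - z') + bp k 0 (M • (B x.1 - A x.1)) (β x.1) x.2)
    (M • (A x.1 - z) + bp k 0 (M • (B x.1 - A x.1)) (β x.1) x.2)
  rw [add_sub_add_right_eq_sub, ← smul_sub, norm_smul, Real.norm_of_nonneg hM.le,
    sub_sub_sub_cancel_left] at h3
  linarith

/-- section-wise bound for the refined model -/
theorem refine_le (hC : StmtChain) (k : ℕ) (M : ℝ) (𝓜 : Model) {Φ : Set E → Prop}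
    (hΦ : MeasPred Φ) {ι : Type} [Fintype ι] (s : Finset ι) (A B : ι → E)
    (Bad : Set (ι → Fin k → E)) (f : ENNReal)
    (h : ∀ β, β ∉ Bad → (Measure.pi fun _ : ι × Fin (k + 1) => 𝓜.μ)
      {ω | ¬ Φ (famT (refine hC k M 𝓜) s A B fun i => (β i, fun l => ω (i, l)))} ≤ f) :
    (Measure.pi fun _ : ι => (refine hC k M 𝓜).μ) {ω | ¬ Φ (famT (refine hC k M 𝓜) s A B ω)} ≤
      (Measure.pi fun _ : ι => nu k) Bad + f := by
  have := hC.nu_prob k
  have h1 := pi_refine_eq (ι := ι) (κ := Fin (k + 1)) (nu k) 𝓜.μ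
    (hΦ.fam (refine hC k M 𝓜) s A B)
  refine (le_of_eq h1).trans ?_
  calc _ ≤ ∫⁻ β, (Bad.indicator 1 β + f) ∂(Measure.pi fun _ : ι => nu k) := by
        refine lintegral_mono fun β => ?_
        by_cases hβ : β ∈ Bad
        · simp only [Set.indicator_of_mem hβ, Pi.one_apply]
          exact le_add_right prob_le_one
        · simp only [Set.indicator_of_notMem hβ, zero_add]
          exact h β hβ
    _ ≤ _ := by
        rw [lintegral_add_right _ measurable_const, lintegral_const, measure_univ, mul_one]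
        exact add_le_add_left (lintegral_indicator_one_le _) _

end Pool.Agent.MP_037c5a_pr
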