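import Pool.Agent.MP_037c5a_pr.Defs

open MeasureTheory ProbabilityTheory Set Filter Topology
open scoped ENNReal NNReal

namespace Pool.Agent.MP_037c5a_pr

namespace Fi

noncomputable def pr (z : ℝ × ℝ) : E := WithLp.toLp 2 ![z.1, z.2]

theorem pr_vol : MeasurePreserving pr (volume : Measure (ℝ × ℝ)) volume := by
  have h1 := (volume_preserving_finTwoArrow ℝ).symm
  have h2 := (PiLp.volume_preserving_toLp (Fin 2)).comp h1
  exact h2

theorem measurable_pr : Measurable pr := pr_vol.measurable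

theorem measurable_ph1 : Measurable fun x : E => ENNReal.ofReal (ph 1 x) := by
  unfold ph; fun_prop

theorem ph_pr (z : ℝ × ℝ) :
    ENNReal.ofReal (ph 1 (pr z)) = gaussianPDF 0 1 z.1 * gaussianPDF 0 1 z.2 := by
  unfold gaussianPDF
  rw [← ENNReal.ofReal_mul (gaussianPDFReal_nonneg _ _ _)]
  congr 1
  have hn : ‖pr z‖ ^ 2 = z.1 ^ 2 + z.2 ^ 2 := by
    rw [EuclideanSpace.norm_sq_eq]; simp [pr, Fin.sum_univ_two]
  unfold ph gaussianPDFReal
  rw [hn]
  have hp : (0 : ℝ) ≤ 2 * Real.pi := by positivity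
  have hs : (√(2 * Real.pi))⁻¹ * (√(2 * Real.pi))⁻¹ = (2 * Real.pi)⁻¹ := by
    rw [← mul_inv, Real.mul_self_sqrt hp]
  simp only [NNReal.coe_one, mul_one, sub_zero]
  rw [mul_mul_mul_comm, hs, ← Real.exp_add]
  congr 2; ring

theorem pr_gam : MeasurePreserving pr ((gaussianReal 0 1).prod (gaussianReal 0 1)) gam := by
  refine ⟨measurable_pr, ?_⟩
  rw [gaussianReal_of_var_ne_zero 0 one_ne_zero,
    prod_withDensity (measurable_gaussianPDF _ _) (measurable_gaussianPDF _ _)]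
  refine Measure.ext_of_lintegral _ fun φ hφ => ?_
  rw [lintegral_map hφ measurable_pr, gam,
    lintegral_withDensity_eq_lintegral_mul _ measurable_ph1 hφ,
    lintegral_withDensity_eq_lintegral_mul _ (g := fun a => φ (pr a)) (by fun_prop)
      (hφ.comp measurable_pr),
    ← pr_vol.lintegral_comp (measurable_ph1.mul hφ)]
  refine lintegral_congr fun z => ?_
  simp only [Pi.mul_apply, ph_pr]

instance gam_prob : IsProbabilityMeasure gam := by
  rw [← pr_gam.map_eq]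
  exact Measure.isProbabilityMeasure_map measurable_pr.aemeasurable

theorem pi_pr (n : ℕ) :
    MeasurePreserving (fun z : (Fin n → ℝ) × (Fin n → ℝ) => fun i => pr (z.1 i, z.2 i))
      ((Measure.pi fun _ : Fin n => gaussianReal 0 1).prod
        (Measure.pi fun _ : Fin n => gaussianReal 0 1))
      (Measure.pi fun _ : Fin n => gam) := by
  have h1 := (measurePreserving_arrowProdEquivProdArrow ℝ ℝ (Fin n)
    (fun _ => gaussianReal 0 1) (fun _ => gaussianReal 0 1)).symm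
  have h2 := measurePreserving_pi (fun _ : Fin n => (gaussianReal 0 1).prod (gaussianReal 0 1))
    (fun _ : Fin n => gam) (f := fun _ => pr) (fun _ => pr_gam)
  exact h2.comp h1

theorem blocks (a b : ℕ) :
    MeasurePreserving (fun ζ : Fin (a * b) → E => fun (i : Fin a) (j : Fin b) =>
      ζ (finProdFinEquiv (i, j))) (Measure.pi fun _ => gam)
      (Measure.pi fun _ : Fin a => Measure.pi fun _ : Fin b => gam) := by
  have h1 : (Measure.infinitePi fun _ : Fin (a * b) => gam).map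
      (fun ω (p : Fin a × Fin b) => ω (finProdFinEquiv p)) =
      Measure.infinitePi fun _ : Fin a × Fin b => gam :=
    Measure.map_infinitePi_infinitePi_of_inj (P := fun _ : Fin (a * b) => gam)
      finProdFinEquiv.injective
  have h2 := Measure.infinitePi_map_curry (ι := Fin a) (κ := Fin b) (fun _ _ => gam)
  refine ⟨by fun_prop, ?_⟩
  simp only [← Measure.infinitePi_eq_pi]
  rw [← h2, ← h1, Measure.map_map (MeasurableEquiv.measurable _) (by fun_prop)]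
  rfl

theorem blocks_miss (a b : ℕ) {F : Set (Fin b → E)} (hF : MeasurableSet F) {p : ℝ≥0∞}
    (hp : p ≤ (Measure.pi fun _ : Fin b => gam) F) :
    MeasurableSet {ζ : Fin (a * b) → E | ∀ i : Fin a, (fun j => ζ (finProdFinEquiv (i, j))) ∉ F} ∧
    (Measure.pi fun _ : Fin (a * b) => gam)
      {ζ | ∀ i : Fin a, (fun j => ζ (finProdFinEquiv (i, j))) ∉ F} ≤ (1 - p) ^ a := by
  have hm : MeasurableSet (Set.pi univ fun _ : Fin a => Fᶜ) :=
    MeasurableSet.univ_pi fun _ => hF.compl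
  have he : {ζ : Fin (a * b) → E | ∀ i : Fin a, (fun j => ζ (finProdFinEquiv (i, j))) ∉ F} =
      (fun ζ : Fin (a * b) → E => fun (i : Fin a) (j : Fin b) =>
        ζ (finProdFinEquiv (i, j))) ⁻¹' (Set.pi univ fun _ : Fin a => Fᶜ) := by
    ext ζ; simp [Set.mem_pi]
  rw [he]
  refine ⟨(blocks a b).measurable hm, ?_⟩
  rw [(blocks a b).measure_preimage hm.nullMeasurableSet, Measure.pi_pi, Finset.prod_const,
    Finset.card_univ, Fintype.card_fin, prob_compl_eq_one_sub hF]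
  gcongr

section BM

variable {Ω : Type} [MeasurableSpace Ω] {P : Measure Ω} [IsProbabilityMeasure P]
  {B : Fin 2 → ℝ≥0 → Ω → ℝ}

noncomputable def Bv (B : Fin 2 → ℝ≥0 → Ω → ℝ) (ω : Ω) (t : ℝ≥0) : E :=
  WithLp.toLp 2 (fun i => B i t ω)

noncomputable def tm (n j : ℕ) : ℝ≥0 := (j : ℝ≥0) / (n : ℝ≥0)

theorem tm_mono (n : ℕ) : Monotone (tm n) := fun i j h => by
  unfold tm; gcongr

noncomputable def stp (n : ℕ) (w : ℝ≥0 → ℝ) (i : Fin n) : ℝ :=
  √n * (w (tm n (i + 1)) - w (tm n i))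

theorem measurable_stp (n : ℕ) : Measurable (stp n) := by
  unfold stp; fun_prop

omit [IsProbabilityMeasure P] in
theorem aem_incr
    (hlaw : ∀ i, ∀ s t : ℝ≥0, s ≤ t → P.map (fun ω => B i t ω - B i s ω) = gaussianReal 0 (t - s))
    (i : Fin 2) {s t : ℝ≥0} (h : s ≤ t) : AEMeasurable (fun ω => B i t ω - B i s ω) P := by
  by_contra hn
  have h1 := hlaw i s t h
  rw [Measure.map_of_not_aemeasurable hn] at h1
  exact IsProbabilityMeasure.ne_zero (gaussianReal 0 (t - s)) h1.symm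

omit [IsProbabilityMeasure P] in
theorem stp_law
    (hlaw : ∀ i, ∀ s t : ℝ≥0, s ≤ t → P.map (fun ω => B i t ω - B i s ω) = gaussianReal 0 (t - s))
    (hind : ∀ i (n : ℕ) (τ : Fin (n + 1) → ℝ≥0), Monotone τ →
      iIndepFun (fun (k : Fin n) (ω : Ω) => B i (τ k.succ) ω - B i (τ k.castSucc) ω) P)
    (c : Fin 2) {n : ℕ} (hn : 0 < n) :
    AEMeasurable (fun ω => stp n (fun t => B c t ω)) P ∧
    P.map (fun ω => stp n (fun t => B c t ω)) = Measure.pi fun _ : Fin n => gaussianReal 0 1 := by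
  have hae : ∀ i : Fin n, AEMeasurable (fun ω => stp n (fun t => B c t ω) i) P := fun i =>
    (aem_incr hlaw c (tm_mono n (Nat.le_succ i))).const_mul _
  refine ⟨aemeasurable_pi_lambda _ hae, ?_⟩
  have h1 := (hind c n (fun k => tm n k) (fun i j h => tm_mono n h)).comp
    (fun _ x => √n * x) (fun _ => by fun_prop)
  have h2 : iIndepFun (fun (i : Fin n) ω => stp n (fun t => B c t ω) i) P := h1
  rw [h2.map_fun_eq_pi_map hae]
  congr 1
  funext i
  have h3 := hlaw c _ _ (tm_mono n (Nat.le_succ i))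
  have h4 : (fun ω => stp n (fun t => B c t ω) i) =
      (fun x => √n * x) ∘ fun ω => B c (tm n (Nat.succ i)) ω - B c (tm n i) ω := rfl
  rw [h4, ← AEMeasurable.map_map_of_aemeasurable (by fun_prop)
    (aem_incr hlaw c (tm_mono n (Nat.le_succ i))), h3, gaussianReal_map_const_mul, mul_zero]
  congr 1
  apply NNReal.eq
  have hn' : (0 : ℝ) < n := by exact_mod_cast hn
  rw [NNReal.coe_mul, NNReal.coe_sub (tm_mono n (Nat.le_succ i))]
  simp only [tm, NNReal.coe_mk, NNReal.coe_div, NNReal.coe_natCast, NNReal.coe_one]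
  rw [Real.sq_sqrt hn'.le]
  push_cast
  field_simp
  ring

noncomputable def Z (B : Fin 2 → ℝ≥0 → Ω → ℝ) (n : ℕ) (ω : Ω) (i : Fin n) : E :=
  pr (stp n (fun t => B 0 t ω) i, stp n (fun t => B 1 t ω) i)

omit [MeasurableSpace Ω] in
theorem Z_eq (n : ℕ) (ω : Ω) (i : Fin n) :
    Z B n ω i = (√n : ℝ) • Bv B ω (tm n (i + 1)) - (√n : ℝ) • Bv B ω (tm n i) := by
  ext c
  fin_cases c <;> simp [Z, pr, stp, Bv, mul_sub]

theorem Z_law
    (hlaw : ∀ i, ∀ s t : ℝ≥0, s ≤ t → P.map (fun ω => B i t ω - B i s ω) = gaussianReal 0 (t - s))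
    (hind : ∀ i (n : ℕ) (τ : Fin (n + 1) → ℝ≥0), Monotone τ →
      iIndepFun (fun (k : Fin n) (ω : Ω) => B i (τ k.succ) ω - B i (τ k.castSucc) ω) P)
    (hI : IndepFun (fun ω t => B 0 t ω) (fun ω t => B 1 t ω) P) {n : ℕ} (hn : 0 < n) :
    AEMeasurable (Z B n) P ∧ P.map (Z B n) = Measure.pi fun _ : Fin n => gam := by
  obtain ⟨a0, l0⟩ := stp_law hlaw hind 0 hn
  obtain ⟨a1, l1⟩ := stp_law hlaw hind 1 hn
  have h1 : IndepFun (fun ω => stp n (fun t => B 0 t ω)) (fun ω => stp n (fun t => B 1 t ω)) P :=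
    hI.comp (measurable_stp n) (measurable_stp n)
  have h2 := h1.map_prod_eq_prod_map_map a0 a1
  rw [l0, l1] at h2
  have h3 : Z B n = (fun z : (Fin n → ℝ) × (Fin n → ℝ) => fun i => pr (z.1 i, z.2 i)) ∘
      fun ω => (stp n (fun t => B 0 t ω), stp n (fun t => B 1 t ω)) := rfl
  rw [h3]
  refine ⟨(pi_pr n).measurable.comp_aemeasurable (a0.prodMk a1), ?_⟩
  rw [← AEMeasurable.map_map_of_aemeasurable (pi_pr n).measurable.aemeasurable (a0.prodMk a1), h2,
    (pi_pr n).map_eq]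

omit [MeasurableSpace Ω] in
theorem block_GT {Q : Par} {N n₀ L m K : ℕ} (hn₀ : 0 < n₀) (hm : 0 < m) (hK : 0 < K)
    {F : Set (Fin (n₀ * m) → E)}
    (hF : ∀ ξ : ℕ → E, (fun i : Fin (n₀ * m) => ξ (i + 1) - ξ i) ∈ F →
        GT Q L (zoom (ξ '' Set.Iic (n₀ * m)) (ξ 0) (Real.sqrt m)) N) (ω : Ω) (b : Fin K)
    (hb : (fun j => Z B (K * (n₀ * m)) ω (finProdFinEquiv (b, j))) ∈ F) :
    ∃ x : E, GT Q L (zoom (Bv B ω '' Set.Icc 0 1) x (√(K * n₀ : ℕ))⁻¹) N := by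
  set n := K * (n₀ * m) with hn
  have hnpos : 0 < n := by positivity
  have hn' : (0 : ℝ) < n := by exact_mod_cast hnpos
  let ξ : ℕ → E := fun j => (√n : ℝ) • Bv B ω (tm n (j + n₀ * m * b))
  have h1 : (fun i : Fin (n₀ * m) => ξ (i + 1) - ξ i) ∈ F := by
    convert hb using 2 with j
    rw [Z_eq]
    simp only [ξ, finProdFinEquiv_apply_val]
    congr 4
    ring
  refine ⟨Bv B ω (tm n (0 + n₀ * m * b)), GT_mono Q L N ?_ (hF ξ h1)⟩
  rintro y ⟨j, hj, hy⟩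
  refine ⟨tm n (j + n₀ * m * b), ⟨zero_le, ?_⟩, ?_⟩
  · unfold tm
    rw [div_le_one (by exact_mod_cast hnpos)]
    have h2 : j + n₀ * m * b ≤ n := by
      have := b.isLt
      have hj' : j ≤ n₀ * m := hj
      calc j + n₀ * m * b ≤ n₀ * m * (b + 1) := by nlinarith
        _ ≤ n₀ * m * K := Nat.mul_le_mul_left _ this
        _ = n := by rw [hn]; ring
    exact_mod_cast h2
  · have hs : (0 : ℝ) < √n := Real.sqrt_pos.2 hn'
    have hm' : (0 : ℝ) < √m := Real.sqrt_pos.2 (by exact_mod_cast hm)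
    have hk' : (0 : ℝ) < √(K * n₀ : ℕ) := Real.sqrt_pos.2 (by exact_mod_cast Nat.mul_pos hK hn₀)
    have h3 : (√n : ℝ) = √(K * n₀ : ℕ) * √m := by
      rw [← Real.sqrt_mul (by positivity)]
      congr 1; rw [hn]; push_cast; ring
    have h4 : (√(K * n₀ : ℕ) : ℝ)⁻¹ = (√n : ℝ)⁻¹ * √m := by
      rw [h3]; field_simp
    have h5 := congrArg (fun v : E => (√n : ℝ)⁻¹ • v) hy
    simp only [ξ, smul_add, smul_smul, inv_mul_cancel₀ hs.ne', one_smul] at h5
    rw [h4]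
    exact h5

theorem ae_good
    (hlaw : ∀ i, ∀ s t : ℝ≥0, s ≤ t → P.map (fun ω => B i t ω - B i s ω) = gaussianReal 0 (t - s))
    (hind : ∀ i (n : ℕ) (τ : Fin (n + 1) → ℝ≥0), Monotone τ →
      iIndepFun (fun (k : Fin n) (ω : Ω) => B i (τ k.succ) ω - B i (τ k.castSucc) ω) P)
    (hI : IndepFun (fun ω t => B 0 t ω) (fun ω t => B 1 t ω) P)
    {Q : Par} {N n₀ : ℕ} {p : ℝ} (hn₀ : 0 < n₀) (hp : 0 < p)
    (H : ∀ L : ℕ, ∃ m : ℕ, 0 < m ∧ ∃ F : Set (Fin (n₀ * m) → E), MeasurableSet F ∧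
      ENNReal.ofReal p ≤ (Measure.pi fun _ : Fin (n₀ * m) => gam) F ∧
      ∀ ξ : ℕ → E, (fun i : Fin (n₀ * m) => ξ (i + 1) - ξ i) ∈ F →
        GT Q L (zoom (ξ '' Set.Iic (n₀ * m)) (ξ 0) (Real.sqrt m)) N) (K₀ : ℕ) :
    ∀ᵐ ω ∂P, ∃ K : ℕ, K₀ < K ∧
      ∃ᶠ L in atTop, ∃ x : E, GT Q L (zoom (Bv B ω '' Set.Icc 0 1) x (√(K * n₀ : ℕ))⁻¹) N := by
  let A : ℕ → ℕ → Set Ω := fun K L =>
    {ω | ¬ ∃ x : E, GT Q L (zoom (Bv B ω '' Set.Icc 0 1) x (√(K * n₀ : ℕ))⁻¹) N}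
  have hA : ∀ K L, 0 < K → P (A K L) ≤ (1 - ENNReal.ofReal p) ^ K := by
    intro K L hK
    obtain ⟨m, hm, F, hFm, hFp, hF⟩ := H L
    obtain ⟨hZ, hZl⟩ := Z_law hlaw hind hI (n := K * (n₀ * m)) (by positivity)
    obtain ⟨h1, h2⟩ := blocks_miss K (n₀ * m) hFm hFp
    rw [← hZl, Measure.map_apply_of_aemeasurable hZ h1] at h2
    refine le_trans (measure_mono ?_) h2
    intro ω hω b hb
    exact hω (block_GT hn₀ hm hK hF ω b hb)
  have hB : ∀ K, 0 < K → P (⋃ L₀, ⋂ L ≥ L₀, A K L) ≤ (1 - ENNReal.ofReal p) ^ K := by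
    intro K hK
    have hmono : Monotone fun L₀ => ⋂ L ≥ L₀, A K L := fun a b hab =>
      biInter_subset_biInter_left fun L hL => le_trans hab hL
    rw [hmono.measure_iUnion]
    refine iSup_le fun L₀ => le_trans (measure_mono ?_) (hA K L₀ hK)
    exact biInter_subset_of_mem (s := {L | L ≥ L₀}) (le_refl L₀)
  rw [ae_iff]
  have hlt : 1 - ENNReal.ofReal p < 1 :=
    ENNReal.sub_lt_self ENNReal.one_ne_top one_ne_zero (by simpa using hp)
  have ht := ENNReal.tendsto_pow_atTop_nhds_zero_of_lt_one hlt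
  refine le_antisymm (ge_of_tendsto ht ?_) zero_le
  filter_upwards [eventually_gt_atTop K₀] with K hK
  refine le_trans (measure_mono ?_) (hB K (lt_of_le_of_lt (Nat.zero_le _) hK))
  intro ω hω
  have h1 : ¬ ∃ᶠ L in atTop,
      ∃ x : E, GT Q L (zoom (Bv B ω '' Set.Icc 0 1) x (√(K * n₀ : ℕ))⁻¹) N :=
    fun h => hω ⟨K, hK, h⟩
  rw [not_frequently, eventually_atTop] at h1
  obtain ⟨L₀, hL₀⟩ := h1
  exact mem_iUnion.2 ⟨L₀, mem_iInter₂.2 fun L hL => hL₀ L hL⟩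

end BM

theorem unif_perfect {g : ℝ≥0 → E} (hg : Continuous g) {x : E} (hx : x ∈ g '' Set.Icc 0 1)
    {ρ : ℝ} (hρ : 0 < ρ) (hρ' : ρ ≤ dist (g 0) (g 1) / 2) :
    ∃ y ∈ g '' Set.Icc 0 1, dist y x = ρ := by
  have hc : IsPreconnected (g '' Set.Icc 0 1) := isPreconnected_Icc.image _ hg.continuousOn
  have h1 : ∃ z ∈ g '' Set.Icc 0 1, ρ ≤ dist z x := by
    by_cases h : ρ ≤ dist (g 0) x
    · exact ⟨g 0, mem_image_of_mem _ ⟨le_rfl, zero_le⟩, h⟩
    · refine ⟨g 1, mem_image_of_mem _ ⟨zero_le, le_rfl⟩, ?_⟩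
      have := dist_triangle_right (g 0) (g 1) x
      linarith
  obtain ⟨z, hz, hzρ⟩ := h1
  have h2 := hc.intermediate_value hx hz (f := fun y => dist y x) (by fun_prop)
  exact h2 ⟨by simpa using hρ.le, hzρ⟩

end Fi

open Fi in
theorem final_of (hD : StmtDet) (hP : StmtProb) :
  ∀ (Ω : Type) [MeasurableSpace Ω] (P : MeasureTheory.Measure Ω)
    [MeasureTheory.IsProbabilityMeasure P] (B : Fin 2 → NNReal → Ω → ℝ),
    (∀ i ω, B i 0 ω = 0) →
    (∀ i ω, Continuous (fun t => B i t ω)) →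
    (∀ i, ∀ s t : NNReal, s ≤ t →
      P.map (fun ω => B i t ω - B i s ω) = ProbabilityTheory.gaussianReal 0 (t - s)) →
    (∀ i (n : ℕ) (τ : Fin (n + 1) → NNReal), Monotone τ →
      ProbabilityTheory.iIndepFun
        (fun (k : Fin n) (ω : Ω) => B i (τ k.succ) ω - B i (τ k.castSucc) ω) P) →
    ProbabilityTheory.IndepFun (fun ω t => B 0 t ω) (fun ω t => B 1 t ω) P →
    ∀ᵐ ω ∂P, ∀ S : Set (EuclideanSpace ℝ (Fin 2)),
      S = (fun t : NNReal => (WithLp.toLp 2 (fun i => B i t ω) : EuclideanSpace ℝ (Fin 2)))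
            '' Set.Icc 0 1 →
      ∀ (Y : Type) [MetricSpace Y] (f : S → Y) (η : ℝ → ℝ),
        Function.Injective f →
        StrictMonoOn η (Set.Ici 0) →
        ContinuousOn η (Set.Ici 0) →
        η 0 = 0 →
        Filter.Tendsto η Filter.atTop Filter.atTop →
        (∀ x a b : S, a ≠ b →
          dist (f x) (f a) ≤ η (dist x a / dist b a) * dist (f b) (f a)) →
        (2 : ENNReal) ≤ dimH (Set.range f) := by
  intro Ω _ P _ B _ hc hlaw hind hI
  choose Q hQ N n₀ p hn₀ hp H using hP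
  have h1 : ∀ᵐ ω ∂P, ∀ (k : ℕ) (hk : 1 ≤ k) (K₀ : ℕ), ∃ K : ℕ, K₀ < K ∧ ∃ᶠ L in atTop,
      ∃ x : E, GT (Q k hk) L
        (zoom (Bv B ω '' Set.Icc 0 1) x (√(K * n₀ k hk : ℕ))⁻¹) (N k hk) := by
    rw [ae_all_iff]; intro k
    rw [ae_all_iff]; intro hk
    rw [ae_all_iff]; intro K₀
    exact ae_good hlaw hind hI (hn₀ k hk) (hp k hk) (H k hk) K₀
  have h2 : ∀ᵐ ω ∂P, B 0 1 ω - B 0 0 ω ≠ 0 := by
    have h3 := hlaw 0 0 1 zero_le
    have h4 : ∀ᵐ x ∂(P.map fun ω => B 0 1 ω - B 0 0 ω), x ≠ 0 := by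
      rw [h3]
      have := nullSingletonClass_gaussianReal (μ := 0) (v := 1 - 0) (by simp)
      exact Measure.ae_ne _ 0
    exact ae_of_ae_map (aem_incr hlaw 0 zero_le) h4
  filter_upwards [h1, h2] with ω hω hω'
  intro S hS Y _ f η hf hη hηc hη0 _ hq
  have hg : Continuous (Bv B ω) :=
    (PiLp.continuous_toLp 2 _).comp (continuous_pi fun i => hc i ω)
  have hS' : S = Bv B ω '' Set.Icc 0 1 := hS
  have hd : 0 < dist (Bv B ω 0) (Bv B ω 1) / 2 := by
    refine half_pos (dist_pos.2 fun h => hω' ?_)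
    have : B 0 0 ω = B 0 1 ω := congrArg (fun v : E => v 0) h
    rw [this, sub_self]
  have hSc : IsCompact S := hS' ▸ isCompact_Icc.image hg
  have key : ∀ s : ℝ, 0 < s → s < 2 → ENNReal.ofReal s ≤ dimH (Set.range f) := by
    intro s hs hs2
    obtain ⟨k, hk, hk'⟩ := hD S hSc _ hd
      (fun x hx ρ h h' => hS' ▸ unif_perfect hg (hS' ▸ hx) h h') Y f η hf hη hηc hη0 hq s hs hs2
    set ρ₀ := dist (Bv B ω 0) (Bv B ω 1) / 2
    have hDp : 0 < (Q k hk).D := lt_of_lt_of_le one_pos (hQ k hk).hD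
    obtain ⟨K₀, hK₀⟩ := exists_nat_ge ((16 * (Q k hk).D / ρ₀) ^ 2)
    obtain ⟨K, hK, hfr⟩ := hω k hk K₀
    have hKp : 0 < K := lt_of_le_of_lt (Nat.zero_le _) hK
    have hsq : (0 : ℝ) < √(K * n₀ k hk : ℕ) :=
      Real.sqrt_pos.2 (by exact_mod_cast Nat.mul_pos hKp (hn₀ k hk))
    refine hk' (Q k hk) (hQ k hk) _ (inv_pos.2 hsq) ?_ (N k hk) (hS' ▸ hfr)
    have h5 : 16 * (Q k hk).D / ρ₀ ≤ √(K * n₀ k hk : ℕ) := by
      refine Real.le_sqrt_of_sq_le (hK₀.trans ?_)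
      have : K₀ ≤ K * n₀ k hk := hK.le.trans (Nat.le_mul_of_pos_right _ (hn₀ k hk))
      exact_mod_cast this
    rw [div_le_iff₀ hd] at h5
    rw [← div_eq_mul_inv, div_le_iff₀ hsq]
    linarith
  refine le_of_forall_lt fun c hc2 => ?_
  obtain ⟨s, hs0, hs1, hs2⟩ := ENNReal.lt_iff_exists_real_btwn.1 hc2
  have hs : 0 < s := by
    by_contra h
    rw [ENNReal.ofReal_of_nonpos (not_lt.1 h)] at hs1
    exact not_lt_zero hs1
  have hs2' : s < 2 := by
    have : ENNReal.ofReal s < ENNReal.ofReal 2 := by simpa using hs2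
    exact (ENNReal.ofReal_lt_ofReal_iff two_pos).1 this
  exact lt_of_lt_of_le hs1 (key s hs hs2')

end Pool.Agent.MP_037c5a_pr
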