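import Pool.Agent.MP_037c5a_pr.Stage3
import Pool.Agent.MP_037c5a_pr.Couple

open MeasureTheory Finset ProbabilityTheory

namespace Pool.Agent.MP_037c5a_pr

theorem norm_gridPt_le (i j : ℕ) : ‖gridPt i j‖ ≤ i + j := by
  rw [EuclideanSpace.norm_eq, Real.sqrt_le_left (by positivity)]
  simp only [gridPt, Fin.sum_univ_two, Real.norm_eq_abs, sq_abs]
  simp only [Matrix.cons_val_zero, Matrix.cons_val_one]
  nlinarith [mul_nonneg (Nat.cast_nonneg (α := ℝ) i) (Nat.cast_nonneg (α := ℝ) j)]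

theorem one_le_norm_gridPt {i j : ℕ} (h : i ≠ j) : 1 ≤ ‖gridPt i 0 - gridPt j 0‖ := by
  refine le_trans ?_ (PiLp.norm_apply_le (gridPt i 0 - gridPt j 0) 0)
  simp only [gridPt, PiLp.sub_apply, Matrix.cons_val_zero, Real.norm_eq_abs]
  have : (1 : ℤ) ≤ |(i : ℤ) - j| := Int.one_le_abs (by omega)
  exact_mod_cast this

noncomputable def row (D M : ℝ) (j : ℕ) : E := (3 * D / M) • gridPt j 0

theorem row_bd {D M η : ℝ} (hD : 0 < D) (hM : 0 < M) {J : ℕ} (h : 6 * D * J ≤ η * M)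
    (j : Fin (2 * J)) : ‖row D M j‖ + D / M ≤ η := by
  have h1 := norm_gridPt_le j 0
  have h2 : ((j : ℕ) : ℝ) + 1 ≤ 2 * J := by exact_mod_cast j.2
  rw [row, norm_smul, Real.norm_of_nonneg (by positivity)]
  have h3 : 3 * D / M * ‖gridPt j 0‖ ≤ 3 * D / M * (2 * J - 1) :=
    mul_le_mul_of_nonneg_left (by simp at h1; linarith) (by positivity)
  refine (add_le_add_left h3 _).trans ?_
  rw [div_mul_eq_mul_div, ← add_div, div_le_iff₀ hM]
  linarith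

theorem row_sep {D M : ℝ} (hD : 0 < D) (hM : 0 < M) {i j : ℕ} (h : i ≠ j) :
    2 * D < M * ‖row D M i - row D M j‖ := by
  rw [row, row, ← smul_sub, norm_smul, Real.norm_of_nonneg (by positivity), ← mul_assoc,
    mul_div_cancel₀ _ hM.ne']
  nlinarith [one_le_norm_gridPt h]

/-- all numerical data of the construction -/
structure PP where
  g : Glob
  N1 : ℕ
  N00 : ℕ
  loss : ℝ
  y : ℝ
  hmax : ℝ
  V1 : ℝ
  V : ℝ
  Vl : ℝ
  πc : ℝ
  κ : ℝ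
  θ : ℝ
  e : ℝ
  Δ : ℝ
  G : ℝ
  lam : ℝ
  δ : ℝ
  p1 : ℕ
  k1 : ℕ
  M1 : ℝ
  p2 : ℕ
  k2 : ℕ
  M2 : ℝ
  p3 : ℕ
  k3 : ℕ
  M3 : ℝ
  J1 : ℕ
  J2 : ℕ
  K : ℕ

structure PPOK (c : PP) : Prop where
  s1 : StOK c.g c.N1 c.loss c.V1 c.πc c.p1 c.k1 c.M1
  s2 : StOK c.g c.N1 c.loss c.V c.πc c.p2 c.k2 c.M2
  s3 : StOK c.g c.N1 c.loss c.V c.πc c.p3 c.k3 c.M3
  J1 : 0 < c.J1
  J2 : 0 < c.J2
  K1 : 1 ≤ c.K
  r1 : 6 * c.g.D * c.J1 ≤ c.g.η * c.M1
  r2 : 6 * c.g.D * c.J2 ≤ c.g.η * c.M2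
  r3 : (16 * c.K + 1) * c.g.D ≤ c.g.η * c.M3
  η4 : c.g.η ≤ 1 / 4
  y0 : 0 ≤ c.y
  loss0 : 0 ≤ c.loss
  N0 : 0 < c.N00
  N01 : c.N00 ≤ c.N1
  hl0 : 2 * (c.loss + c.y) ≤ c.N00
  he : 2 * c.y + 3 * c.loss + 1 ≤ c.e
  κ0 : 0 < c.κ
  hθ : c.θ ≤ c.κ * ((c.N1 : ℝ) - c.N00 - c.hmax - c.e)
  hm0 : 0 ≤ c.hmax
  hmb : c.hmax * (c.g.bb * c.g.gm) ≤ 2 * c.V
  hθb : c.θ * (c.g.bb * c.g.gm) ≤ 1 / 10
  hL : c.g.W * (c.θ * (c.g.bb * c.g.gm)) ^ 3 ≤ 1 / 100000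
  Δ0 : 0 ≤ c.Δ
  hκΔ : c.κ * c.Δ ≤ c.θ
  hG : c.G ≤ Real.exp (c.θ * c.Δ / 2)
  lam0 : 0 < c.lam
  hlb : c.lam * (c.g.bb * c.g.gm) ≤ 1 / 2
  hp : 2 * c.g.D ^ 2 + 1 ≤ c.p3
  hc3 : 4 * c.g.gm ≤ Real.log (c.p3 / (2 * c.g.D ^ 2 + 1)) / 400
  hVl : c.Vl ≤ (Real.log (c.p3 / (2 * c.g.D ^ 2 + 1)) / 400 - 4 * c.g.gm) *
    (c.N00 - 2 * (c.loss + c.y)) - c.g.W * (((c.k3 + 1) * c.g.gm) ^ 2 * c.g.tl c.k3)
  hgain : c.Δ + c.e ≤ c.lam * c.Vl / 4 - 1 / c.lam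
  δ0 : 0 ≤ c.δ
  δ2 : c.δ ≤ 1 / 2
  f3a : c.πc + c.δ ≤ Real.exp (-(4 * c.lam ^ 2 * c.V)) / 8
  f3b : ((c.K + 1) ^ 2 : ℕ) * (2 * Real.exp (-(c.hmax ^ 2 / (4 * c.V))) + c.πc) +
    ((c.K + 1) ^ 2 : ℕ) * c.δ ≤ 5 / 24
  f2 : 2 * (Real.exp (-(c.y ^ 2 / (2 * c.V))) + c.πc) +
    (1 - Real.exp (-(4 * c.lam ^ 2 * c.V)) / 8) ^ c.J2 ≤ 1 / 2
  f1 : 2 * (Real.exp (-(c.y ^ 2 / (2 * c.V1))) + c.πc) + (1 / 2) ^ c.J1 ≤ c.δ
  hW : 20 * (c.N1 : ℝ) ≤ c.g.W

open Classical in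
noncomputable def PP.par (c : PP) : Par where
  D := c.g.D
  R := c.M1 * c.M2 * c.M3
  K := c.K
  tau := Real.exp (-(c.θ * c.e + c.κ * (c.hmax + c.e) ^ 2 / 2)) / 7
  G := c.G
  pot := potF c.N1 c.κ
  O := (univ : Finset (Fin (2 * c.J1) × Fin (2 * c.J2))).image fun j =>
    row c.g.D c.M1 j.1 + c.M1⁻¹ • row c.g.D c.M2 j.2

noncomputable def PP.model (c : PP) (hC : StmtChain) : ℕ → Model
  | 0 => baseModel
  | L + 1 => refine hC c.k1 c.M1 (refine hC c.k2 c.M2 (refine hC c.k3 c.M3 (c.model hC L)))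

theorem PP.coupled (c : PP) (H : PPOK c) (hC : StmtChain) (hS : StmtSplit) :
    ∀ L, ∃ m, Coupled (c.model hC L) m
  | 0 => ⟨1, coupled_base hC⟩
  | L + 1 => by
    obtain ⟨m, hm⟩ := c.coupled H hC hS L
    exact ⟨_, coupled_refine hC hS _ H.s1.mom.hM H.s1.mom.hM2 (coupled_refine hC hS _ H.s2.mom.hM
      H.s2.mom.hM2 (coupled_refine hC hS _ H.s3.mom.hM H.s3.mom.hM2 hm))⟩

theorem PP.win (c : PP) (H : PPOK c) (hC : StmtChain) (hM : StmtMom) (hc : StmtConc)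
    (hE : StmtEnergy) : ∀ (L N : ℕ), c.N00 ≤ N → N ≤ c.N1 →
      Win c.g (c.model hC L) (fun T => GT c.par L T N) N (ENNReal.ofReal c.δ)
  | 0, N, h0, _ => by
    have h1 : Win c.g (c.model hC 0) (fun _ => True) N (ENNReal.ofReal c.δ) := by
      intro ι _ s A B _
      simp
    have h2 : (0 : ℝ) < N := by exact_mod_cast H.N0.trans_le h0
    exact (h1.ball h2).mono (fun T hT => hT.1) le_rfl
  | L + 1, N, h0, h1 => by
    have ih := c.win H hC hM hc hE L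
    have hM1 := H.s1.mom.hM
    have hM2 := H.s2.mom.hM
    have hM3 := H.s3.mom.hM
    have hD : 0 < c.g.D := by linarith [H.s1.mom.hD]
    have hR : 0 < c.par.R := by simp only [PP.par]; positivity
    have h0' : (c.N00 : ℝ) ≤ N := by exact_mod_cast h0
    have h1' : (N : ℝ) ≤ c.N1 := by exact_mod_cast h1
    have hy := H.y0
    have hl := H.loss0
    have hl0 := H.hl0
    have he := H.he
    have hπ : 0 ≤ c.πc := (Real.exp_pos _).le.trans H.s1.hπ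
    have hδ := H.δ0
    have hp0 : Real.exp (-(4 * c.lam ^ 2 * c.V)) ≤ 1 := by
      rw [Real.exp_le_one_iff, neg_nonpos]
      have := H.s3.V0
      positivity
    have hp1 := Real.exp_pos (-(4 * c.lam ^ 2 * c.V))
    let Φ : ℕ → Set E → Prop := fun n T => GT c.par L T n
    have hΦ : ∀ n, MeasPred (Φ n) := fun n => measPred_GT _ hR L n
    have hΦ' : ∀ n, MonoPred (Φ n) := fun n => monoPred_GT _ L n
    let Φ3 : Set E → Prop := fun T =>
      GridP c.K Φ (potF c.N1 c.κ) (c.par.tau * potF c.N1 c.κ N) 0 (8 * c.g.D / c.M3) c.M3⁻¹ T ∨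
        ∃ N', Φ N' (zoom T 0 c.M3⁻¹) ∧ c.G * potF c.N1 c.κ N ≤ potF c.N1 c.κ N'
    have hΦ3 : MeasPred Φ3 := (measPred_grid _ hΦ _ _ _ _ (inv_pos.2 hM3)).or
      (MeasPred.ex fun n => ((hΦ n).zoom 0 (inv_pos.2 hM3)).and (MeasPred.const _))
    have hΦ3' : MonoPred Φ3 := fun T T' hT h => h.imp (monoPred_grid _ hΦ' _ _ _ _ _ T T' hT)
      fun ⟨n, hn, hn'⟩ => ⟨n, (hΦ' n).zoom _ _ T T' hT hn, hn'⟩
    have w3 : Win c.g (refine hC c.k3 c.M3 (c.model hC L)) Φ3 (N - 2 * (c.loss + c.y))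
        (ENNReal.ofReal (1 - Real.exp (-(4 * c.lam ^ 2 * c.V)) / 8)) := by
      rcases le_total (c.κ * ((c.N1 : ℝ) - N)) c.θ with hm | hm
      · refine (stage_cond hC hM hc hE H.s3 _ hΦ hΦ' ih (e := c.e) (hmax := c.hmax)
          (d := 8 * c.g.D / c.M3) H.K1 (by linarith)
          (by linarith) H.κ0.le h1 hm (by linarith) (by linarith) ?_ H.hm0 H.hmb H.hθb H.hL
          fun i hi j hj => ?_).mono (fun T hT => Or.inl hT) ?_
        · have := le_of_mul_le_mul_left (hm.trans H.hθ) H.κ0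
          linarith
        · have a1 := norm_gridPt_le i j
          have a2 : (i : ℝ) ≤ c.K := by exact_mod_cast hi
          have a3 : (j : ℝ) ≤ c.K := by exact_mod_cast hj
          rw [norm_smul, Real.norm_of_nonneg (by positivity)]
          have h3 : 8 * c.g.D / c.M3 * ‖gridPt i j‖ ≤ 8 * c.g.D / c.M3 * (2 * c.K) :=
            mul_le_mul_of_nonneg_left (by linarith) (by positivity)
          refine (add_le_add_left h3 _).trans ?_
          rw [div_mul_eq_mul_div, ← add_div, div_le_iff₀ hM3]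
          linarith [H.r3]
        · rw [← ENNReal.ofReal_natCast, ← ENNReal.ofReal_mul (by positivity),
            ← ENNReal.ofReal_mul (by positivity), ← ENNReal.ofReal_add (by positivity)
            (by positivity), ← ENNReal.ofReal_add (by positivity) (by positivity)]
          exact ENNReal.ofReal_le_ofReal (by linarith [H.f3b])
      · refine (stage_tele hC hM hc H.s3 _ hΦ hΦ' ih (e := c.e) (by linarith) (by linarith)
          H.κ0.le h0 h1 hm (by linarith) H.Δ0 H.hκΔ H.hG ?_ H.lam0 H.hlb H.hp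
          (show (c.N00 : ℝ) - 2 * (c.loss + c.y) ≤ _ by linarith) H.hc3 H.hVl H.hgain).mono
          (fun T hT => Or.inr hT) ?_
        · rw [div_le_iff₀ hM3]
          have : 0 ≤ 16 * (c.K : ℝ) * c.g.D := by positivity
          linarith [H.r3]
        · rw [← ENNReal.ofReal_add (by linarith) hπ, ← ENNReal.ofReal_add (by linarith) hδ]
          exact ENNReal.ofReal_le_ofReal (by linarith [H.f3a])
    have w2 := (spread hC hM hc H.s2 _ hΦ3 hΦ3' (h := N - (c.loss + c.y)) (by linarith)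
      (by linarith) hy (by linarith) (ENNReal.ofReal_le_one.2 (by linarith)) w3 c.J2 H.J2
      (fun j => row c.g.D c.M2 j) (row_bd hD hM2 H.r2)
      (fun j j' h => row_sep hD hM2 (Fin.val_ne_of_ne h))).mono (fun _ h => h)
      (δ' := ENNReal.ofReal (1 / 2)) (by
        rw [← ENNReal.ofReal_pow (by linarith), ← ENNReal.ofReal_ofNat 2,
          ← ENNReal.ofReal_mul (by positivity), ← ENNReal.ofReal_add (by positivity)
          (pow_nonneg (by linarith) _)]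
        exact ENNReal.ofReal_le_ofReal H.f2)
    have w1 := (spread hC hM hc H.s1 _
      (MeasPred.ex fun j : Fin (2 * c.J2) => hΦ3.zoom (row c.g.D c.M2 j) (inv_pos.2 hM2))
      (fun T T' hT ⟨j, hj⟩ => ⟨j, hΦ3'.zoom _ _ T T' hT hj⟩) (h := N) (by linarith)
      h1' hy (by linarith) (ENNReal.ofReal_le_one.2 (by norm_num)) w2 c.J1 H.J1
      (fun j => row c.g.D c.M1 j) (row_bd hD hM1 H.r1)
      (fun j j' h => row_sep hD hM1 (Fin.val_ne_of_ne h))).mono (fun _ h => h)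
      (δ' := ENNReal.ofReal c.δ) (by
        rw [← ENNReal.ofReal_pow (by linarith), ← ENNReal.ofReal_ofNat 2,
          ← ENNReal.ofReal_mul (by positivity), ← ENNReal.ofReal_add (by positivity)
          (by positivity)]
        exact ENNReal.ofReal_le_ofReal H.f1)
    have h2 : (0 : ℝ) < N := by exact_mod_cast H.N0.trans_le h0
    refine (w1.ball h2).mono ?_ le_rfl
    rintro T ⟨hb, j1, j2, hT⟩
    refine ⟨hb, row c.g.D c.M1 j1 + c.M1⁻¹ • row c.g.D c.M2 j2,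
      mem_image.2 ⟨(j1, j2), mem_univ _, rfl⟩, ?_⟩
    have eR : c.M1⁻¹ * c.M2⁻¹ * c.M3⁻¹ = c.par.R⁻¹ := by simp only [PP.par, mul_inv]
    rcases hT with ⟨n, a1, a2⟩ | ⟨N', a1, a2⟩
    · refine Or.inl ⟨n, fun i hi j hj => ?_, a2⟩
      have := a1 i hi j hj
      rw [zoom_zoom, zoom_zoom, ← mul_assoc, eR, zero_add, smul_add, smul_smul, smul_smul,
        ← add_assoc] at this
      convert this using 4
      simp only [PP.par]
      field_simp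
    · refine Or.inr ⟨N', ?_, a2⟩
      rw [zoom_zoom, zoom_zoom, ← mul_assoc, eR, smul_zero, add_zero] at a1
      exact a1

theorem prob_of_params (hE : StmtEnergy) (hc : StmtConc) (hC : StmtChain) (hS : StmtSplit)
    (hM : StmtMom) (c : PP) (H : PPOK c) :
    ∃ (N n₀ : ℕ) (p : ℝ), 0 < n₀ ∧ 0 < p ∧
    ∀ L : ℕ, ∃ m : ℕ, 0 < m ∧ ∃ F : Set (Fin (n₀ * m) → E), MeasurableSet F ∧
      ENNReal.ofReal p ≤ (Measure.pi fun _ : Fin (n₀ * m) => gam) F ∧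
      ∀ ξ : ℕ → E, (fun i : Fin (n₀ * m) => ξ (i + 1) - ξ i) ∈ F →
        GT c.par L (zoom (ξ '' Set.Iic (n₀ * m)) (ξ 0) (Real.sqrt m)) N := by
  have hN : 0 < c.N1 := H.N0.trans_le H.N01
  have hR : 0 < c.par.R := by
    have hM1 := H.s1.mom.hM
    have hM2 := H.s2.mom.hM
    have hM3 := H.s3.mom.hM
    simp only [PP.par]; positivity
  obtain ⟨p, hp, hF⟩ := top_level hC hM c.g H.s1.mom.hq0 H.s1.mom.hq (by linarith [H.s1.mom.hD])
    (20 * c.N1) (by omega) c.N1 (by push_cast; linarith) (by push_cast; exact H.hW)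
  refine ⟨c.N1, 20 * c.N1, p, by omega, hp, fun L => ?_⟩
  obtain ⟨m, hm⟩ := c.coupled H hC hS L
  refine ⟨m, hm.1, hF _ m hm _ (measPred_GT _ hR L _) (monoPred_GT _ L _)
    ((c.win H hC hM hc hE L _ H.N01 le_rfl).mono (fun _ h => h) ?_)⟩
  refine (ENNReal.ofReal_le_ofReal H.δ2).trans (le_of_eq ?_)
  rw [ENNReal.ofReal_div_of_pos (by norm_num)]
  simp

theorem parOK_of (c : PP) (H : PPOK c) (k : ℕ) (hR : (k : ℝ) ≤ c.par.R)
    (hK : c.par.R ^ (k - 1) ≤ (c.K : ℝ) ^ k) (hKR : 24 * c.g.D * c.K ≤ c.par.R)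
    (htau : 1 ≤ c.par.tau ^ k * c.par.R) (hG : c.par.R ^ k ≤ c.G) (hM1 : 1 ≤ c.M1) :
    ParOK k c.par where
  hD := by simp only [PP.par]; linarith [H.s1.mom.hD]
  hR := hR
  hK1 := H.K1
  hK := hK
  hKR := hKR
  htau0 := by simp only [PP.par]; positivity
  htau := htau
  hG := hG
  hpot := fun N => by
    refine ⟨Real.exp_pos _, Real.exp_le_one_iff.2 ?_⟩
    have := H.κ0
    rw [neg_nonpos]
    positivity
  hO := by
    intro o ho
    obtain ⟨j, -, rfl⟩ := mem_image.1 ho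
    have hD : 0 < c.g.D := by linarith [H.s1.mom.hD]
    have hM2 := H.s2.mom.hM
    have a1 := row_bd hD H.s1.mom.hM H.r1 j.1
    have a2 := row_bd hD hM2 H.r2 j.2
    have a3 : 0 ≤ c.g.D / c.M1 := by positivity
    have a4 : 0 ≤ c.g.D / c.M2 := by positivity
    refine (norm_add_le _ _).trans ?_
    rw [norm_smul, Real.norm_of_nonneg (by positivity)]
    have a5 : c.M1⁻¹ * ‖row c.g.D c.M2 j.2‖ ≤ 1 * ‖row c.g.D c.M2 j.2‖ :=
      mul_le_mul_of_nonneg_right (inv_le_one_of_one_le₀ hM1) (norm_nonneg _)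
    linarith [H.η4]

end Pool.Agent.MP_037c5a_pr
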