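import Pool.Agent.MP_037c5a_pr.Stmts

open MeasureTheory Finset ProbabilityTheory

namespace Pool.Agent.MP_037c5a_pr

/-- a random countable set of points attached to a unit time segment with displacement `c` -/
structure Model where
  X : Type
  ms : MeasurableSpace X
  μ : @Measure X ms
  prob : @IsProbabilityMeasure X ms μ
  I : Type
  cI : Countable I
  pt : I → E → X → E
  meas : ∀ a, Measurable fun x : E × X => pt a x.1 x.2
  zero : ∃ a, ∀ c ω, pt a c ω = 0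

instance (𝓜 : Model) : MeasurableSpace 𝓜.X := 𝓜.ms
instance (𝓜 : Model) : IsProbabilityMeasure 𝓜.μ := 𝓜.prob
instance (𝓜 : Model) : Countable 𝓜.I := 𝓜.cI

noncomputable def baseModel : Model where
  X := Unit
  ms := inferInstance
  μ := Measure.dirac ()
  prob := inferInstance
  I := Unit
  cI := inferInstance
  pt := fun _ _ _ => 0
  meas := fun _ => measurable_const
  zero := ⟨(), fun _ _ => rfl⟩

theorem bp_zero (k : ℕ) (P Q : E) (β : Fin k → E) : bp k P Q β 0 = P := by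
  simp [bp, pth]

theorem bp_shift (k : ℕ) (P Q : E) (β : Fin k → E) (l : ℕ) :
    bp k P Q β l = P + bp k 0 (Q - P) β l := by
  simp [bp, add_assoc]

noncomputable def refine (hC : StmtChain) (k : ℕ) (M : ℝ) (𝓜 : Model) : Model where
  X := (Fin k → E) × (Fin (k + 1) → 𝓜.X)
  ms := inferInstance
  μ := (nu k).prod (Measure.pi fun _ => 𝓜.μ)
  prob := by have := hC.nu_prob k; infer_instance
  I := Fin (k + 1) × 𝓜.I
  cI := inferInstance
  pt := fun a c x => M⁻¹ • (bp k 0 (M • c) x.1 a.1 +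
    𝓜.pt a.2 (bp k 0 (M • c) x.1 (a.1 + 1) - bp k 0 (M • c) x.1 a.1) (x.2 a.1))
  meas := fun a => by
    have hb : ∀ l, Measurable fun x : E × (Fin k → E) × (Fin (k + 1) → 𝓜.X) =>
        bp k 0 (M • x.1) x.2.1 l := fun l =>
      (hC.meas_bp k l).comp (f := fun x : E × (Fin k → E) × (Fin (k + 1) → 𝓜.X) =>
        ((0 : E), M • x.1, x.2.1)) (by fun_prop)
    refine Measurable.const_smul (Measurable.add (hb _) ?_) M⁻¹
    exact (𝓜.meas a.2).comp (f := fun x : E × (Fin k → E) × (Fin (k + 1) → 𝓜.X) =>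
      (bp k 0 (M • x.1) x.2.1 (a.1 + 1) - bp k 0 (M • x.1) x.2.1 a.1, x.2.2 a.1))
      (Measurable.prodMk ((hb _).sub (hb _)) (by fun_prop))
  zero := by
    obtain ⟨a, ha⟩ := 𝓜.zero
    exact ⟨(0, a), fun c x => by simp [ha, bp_zero]⟩

/-- the set of all points of a family of segments -/
def famT (𝓜 : Model) {ι : Type} (s : Finset ι) (A B : ι → E) (ω : ι → 𝓜.X) : Set E :=
  {p | ∃ i ∈ s, ∃ a, p = A i + 𝓜.pt a (B i - A i) (ω i)}

theorem famT_mono (𝓜 : Model) {ι : Type} {s s' : Finset ι} (h : s ⊆ s') (A B : ι → E)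
    (ω : ι → 𝓜.X) : famT 𝓜 s A B ω ⊆ famT 𝓜 s' A B ω :=
  fun _ ⟨i, hi, a, ha⟩ => ⟨i, h hi, a, ha⟩

theorem mem_famT (𝓜 : Model) {ι : Type} {s : Finset ι} (A B : ι → E)
    (ω : ι → 𝓜.X) {i : ι} (hi : i ∈ s) : A i ∈ famT 𝓜 s A B ω := by
  obtain ⟨a, ha⟩ := 𝓜.zero
  exact ⟨i, hi, a, by simp [ha]⟩

def Hit (T : Set E) (x : E) (ρ : ℝ) : Prop := ∃ p ∈ T, dist p x ≤ ρ

def MeasPred (Φ : Set E → Prop) : Prop :=
  ∀ (Ω : Type) (_ : MeasurableSpace Ω) (T : Ω → Set E),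
    (∀ x ρ, MeasurableSet {ω | Hit (T ω) x ρ}) → MeasurableSet {ω | Φ (T ω)}

def MonoPred (Φ : Set E → Prop) : Prop := ∀ T T', T ⊆ T' → Φ T → Φ T'

theorem hit_zoom (T : Set E) (z : E) {r : ℝ} (hr : 0 < r) (x : E) (ρ : ℝ) :
    Hit (zoom T z r) x ρ ↔ Hit T (z + r • x) (r * ρ) := by
  constructor
  · rintro ⟨p, hp, hd⟩
    refine ⟨z + r • p, hp, ?_⟩
    rw [dist_add_left, dist_smul₀, Real.norm_of_nonneg hr.le]
    exact mul_le_mul_of_nonneg_left hd hr.le
  · rintro ⟨p, hp, hd⟩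
    refine ⟨r⁻¹ • (p - z), ?_, ?_⟩
    · show z + r • r⁻¹ • (p - z) ∈ T
      rw [smul_smul, mul_inv_cancel₀ hr.ne', one_smul]; simpa using hp
    · have : p = z + r • (r⁻¹ • (p - z)) := by
        rw [smul_smul, mul_inv_cancel₀ hr.ne', one_smul]; simp
      rw [this, dist_add_left, dist_smul₀, Real.norm_of_nonneg hr.le] at hd
      exact le_of_mul_le_mul_left hd hr

theorem MeasPred.zoom {Φ : Set E → Prop} (h : MeasPred Φ) (z : E) {r : ℝ} (hr : 0 < r) :
    MeasPred fun T => Φ (zoom T z r) := by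
  intro Ω m T hT
  refine h Ω m (fun ω => MP_037c5a_pr.zoom (T ω) z r) fun x ρ => ?_
  simp only [hit_zoom _ _ hr]
  exact hT _ _

theorem MonoPred.zoom {Φ : Set E → Prop} (h : MonoPred Φ) (z : E) (r : ℝ) :
    MonoPred fun T => Φ (zoom T z r) :=
  fun _ _ hT hΦ => h _ _ (zoom_mono hT z r) hΦ

theorem MeasPred.ex {α : Type} [Countable α] {Φ : α → Set E → Prop} (h : ∀ a, MeasPred (Φ a)) :
    MeasPred fun T => ∃ a, Φ a T := by
  intro Ω m T hT
  rw [Set.ofPred_exists]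
  exact MeasurableSet.iUnion fun a => h a Ω m T hT

theorem MeasPred.all {α : Type} [Countable α] {Φ : α → Set E → Prop} (h : ∀ a, MeasPred (Φ a)) :
    MeasPred fun T => ∀ a, Φ a T := by
  intro Ω m T hT
  rw [Set.ofPred_forall]
  exact MeasurableSet.iInter fun a => h a Ω m T hT

theorem MeasPred.const (p : Prop) : MeasPred fun _ => p := by
  intro Ω m T _
  exact MeasurableSet.const p

theorem MeasPred.and {Φ Ψ : Set E → Prop} (h : MeasPred Φ) (h' : MeasPred Ψ) :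
    MeasPred fun T => Φ T ∧ Ψ T :=
  fun Ω m T hT => (h Ω m T hT).inter (h' Ω m T hT)

theorem MeasPred.or {Φ Ψ : Set E → Prop} (h : MeasPred Φ) (h' : MeasPred Ψ) :
    MeasPred fun T => Φ T ∨ Ψ T :=
  fun Ω m T hT => (h Ω m T hT).union (h' Ω m T hT)

theorem MeasPred.imp {Ψ : Set E → Prop} (p : Prop) (h' : MeasPred Ψ) :
    MeasPred fun T => p → Ψ T := by
  by_cases hp : p
  · simpa [hp] using h'
  · simpa [hp] using MeasPred.const True

theorem measPred_ball (D : ℝ) : MeasPred fun T => ∃ p ∈ T, ‖p‖ ≤ D := by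
  intro Ω m T hT
  simpa [Hit] using hT 0 D

theorem En_congr {K : ℕ} {c c' : ℕ → ℕ → ℝ} (h : ∀ i < K, ∀ j < K, c i j = c' i j)
    (u : ℕ → ℕ → ℝ) : En K c u = En K c' u := by
  unfold En
  exact sum_congr rfl fun i hi => sum_congr rfl fun j hj => by
    rw [h i (mem_range.1 hi) j (mem_range.1 hj)]

theorem EnGe_congr {K : ℕ} {c c' : ℕ → ℕ → ℝ} (h : ∀ i < K, ∀ j < K, c i j = c' i j) {τ : ℝ}
    (hc : EnGe K c τ) : EnGe K c' τ :=
  fun u hu => En_congr h u ▸ hc u hu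

theorem EnGe_scale {K : ℕ} {c c' : ℕ → ℕ → ℝ} {τ lam : ℝ} (hl : 0 ≤ lam)
    (h : ∀ i < K, ∀ j < K, lam * c i j ≤ c' i j) (hc : EnGe K c τ) : EnGe K c' (lam * τ) := by
  intro u hu
  refine (mul_le_mul_of_nonneg_left (hc u hu) hl).trans ?_
  unfold En
  rw [mul_sum]
  refine sum_le_sum fun i hi => ?_
  rw [mul_sum]
  refine sum_le_sum fun j hj => ?_
  rw [← mul_assoc]
  exact mul_le_mul_of_nonneg_right (h i (mem_range.1 hi) j (mem_range.1 hj)) (by positivity)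

/-- grid alternative for a family of predicates -/
def GridP (K : ℕ) (Φ : ℕ → Set E → Prop) (pot : ℕ → ℝ) (τ : ℝ) (o : E) (d r : ℝ) (T : Set E) :
    Prop :=
  ∃ n : ℕ → ℕ → ℕ, (∀ i ≤ K, ∀ j ≤ K, Φ (n i j) (zoom T (o + d • gridPt i j) r)) ∧
    (EnGe K (fun i j => pot (n i j)) τ ∨ EnGe K (fun i j => pot (n j i)) τ)

theorem measPred_grid (K : ℕ) {Φ : ℕ → Set E → Prop} (h : ∀ n, MeasPred (Φ n)) (pot : ℕ → ℝ)
    (τ : ℝ) (o : E) (d : ℝ) {r : ℝ} (hr : 0 < r) : MeasPred (GridP K Φ pot τ o d r) := by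
  let ext : (Fin (K + 1) → Fin (K + 1) → ℕ) → ℕ → ℕ → ℕ := fun n i j =>
    if h : i < K + 1 ∧ j < K + 1 then n ⟨i, h.1⟩ ⟨j, h.2⟩ else 0
  have : GridP K Φ pot τ o d r = fun T => ∃ n : Fin (K + 1) → Fin (K + 1) → ℕ,
      (∀ i, i ≤ K → ∀ j, j ≤ K → Φ (ext n i j) (zoom T (o + d • gridPt i j) r)) ∧
      (EnGe K (fun i j => pot (ext n i j)) τ ∨ EnGe K (fun i j => pot (ext n j i)) τ) := by
    funext T
    apply propext
    constructor
    · rintro ⟨n, h1, h2⟩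
      have he : ∀ i ≤ K, ∀ j ≤ K, ext (fun a b => n a b) i j = n i j := fun i hi j hj => by
        simp only [ext]
        rw [dif_pos ⟨by omega, by omega⟩]
      refine ⟨fun a b => n a b, fun i hi j hj => ?_, ?_⟩
      · rw [he i hi j hj]; exact h1 i hi j hj
      · rcases h2 with h2 | h2
        · exact Or.inl (EnGe_congr (fun i hi j hj => by rw [he i hi.le j hj.le]) h2)
        · exact Or.inr (EnGe_congr (fun i hi j hj => by rw [he j hj.le i hi.le]) h2)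
    · rintro ⟨n, h1, h2⟩
      exact ⟨ext n, h1, h2⟩
  rw [this]
  exact MeasPred.ex fun n => MeasPred.and (MeasPred.all fun i => MeasPred.imp _
    (MeasPred.all fun j => MeasPred.imp _ ((h _).zoom _ hr))) (MeasPred.const _)

theorem monoPred_grid (K : ℕ) {Φ : ℕ → Set E → Prop} (h : ∀ n, MonoPred (Φ n)) (pot : ℕ → ℝ)
    (τ : ℝ) (o : E) (d r : ℝ) : MonoPred (GridP K Φ pot τ o d r) :=
  fun _ _ hT ⟨n, h1, h2⟩ => ⟨n, fun i hi j hj => h _ _ _ (zoom_mono hT _ _) (h1 i hi j hj), h2⟩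

theorem measPred_GT (P : Par) (hR : 0 < P.R) : ∀ L N, MeasPred fun T => GT P L T N
  | 0, _ => measPred_ball P.D
  | L + 1, N => by
    have : (fun T => GT P (L + 1) T N) = fun T => (∃ p ∈ T, ‖p‖ ≤ P.D) ∧ ∃ o : P.O,
        (GridP P.K (fun n T => GT P L T n) P.pot (P.tau * P.pot N) o (8 * P.D / P.R) P.R⁻¹ T ∨
          ∃ N' : ℕ, GT P L (zoom T o P.R⁻¹) N' ∧ P.G * P.pot N ≤ P.pot N') := by
      funext T
      simp only [GT, GridP, Subtype.exists, exists_prop]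
    rw [this]
    exact (measPred_ball _).and (MeasPred.ex fun o => MeasPred.or
      (measPred_grid _ (fun n => measPred_GT P hR L n) _ _ _ _ (inv_pos.2 hR))
      (MeasPred.ex fun N' => ((measPred_GT P hR L N').zoom _ (inv_pos.2 hR)).and
        (MeasPred.const _)))

theorem monoPred_GT (P : Par) (L N : ℕ) : MonoPred fun T => GT P L T N :=
  fun _ _ h => GT_mono P L N h

/-- hit events of a family with measurable data -/
theorem meas_hit_famT (𝓜 : Model) {ι Ω : Type} [MeasurableSpace Ω] (s : Finset ι)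
    (A B : Ω → ι → E) (w : Ω → ι → 𝓜.X) (hA : ∀ i ∈ s, Measurable fun ω => A ω i)
    (hB : ∀ i ∈ s, Measurable fun ω => B ω i) (hw : ∀ i ∈ s, Measurable fun ω => w ω i)
    (x : E) (ρ : ℝ) : MeasurableSet {ω | Hit (famT 𝓜 s (A ω) (B ω) (w ω)) x ρ} := by
  have : {ω | Hit (famT 𝓜 s (A ω) (B ω) (w ω)) x ρ} =
      ⋃ i ∈ s, ⋃ a : 𝓜.I, {ω | dist (A ω i + 𝓜.pt a (B ω i - A ω i) (w ω i)) x ≤ ρ} := by
    ext ω
    simp only [Hit, famT, Set.mem_ofPred_eq, Set.mem_iUnion, exists_prop]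
    constructor
    · rintro ⟨p, ⟨i, hi, a, rfl⟩, hd⟩
      exact ⟨i, hi, a, hd⟩
    · rintro ⟨i, hi, a, hd⟩
      exact ⟨_, ⟨i, hi, a, rfl⟩, hd⟩
  rw [this]
  refine Finset.measurableSet_biUnion _ fun i hi => MeasurableSet.iUnion fun a => ?_
  refine measurableSet_le (Measurable.dist ((hA i hi).add ?_) measurable_const) measurable_const
  exact (𝓜.meas a).comp (f := fun ω => (B ω i - A ω i, w ω i))
    (((hB i hi).sub (hA i hi)).prodMk (hw i hi))

theorem MeasPred.fam {Φ : Set E → Prop} (h : MeasPred Φ) (𝓜 : Model) {ι : Type} (s : Finset ι)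
    (A B : ι → E) : MeasurableSet {ω : ι → 𝓜.X | ¬ Φ (famT 𝓜 s A B ω)} :=
  (h _ _ _ (meas_hit_famT 𝓜 s (fun _ => A) (fun _ => B) id (fun _ _ => measurable_const)
    (fun _ _ => measurable_const) (fun i _ => measurable_pi_apply i))).compl

end Pool.Agent.MP_037c5a_pr
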