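import Pool.Agent.MP_037c5a_pr.Mom5

open MeasureTheory Finset

namespace Pool.Agent.MP_037c5a_pr

namespace Mo

theorem tr_sub {q q0 p k bb : ℕ} {D : ℝ} {P Q : E} {f : (Fin k → E) → ℝ} {C : ℝ}
    (h1 : ∀ β, f β ≤ C) (β : Fin k → E) :
    f β - C * tr q q0 p k bb D P Q 0 1 β ≤ tr q q0 p k bb D P Q f 0 β := by
  unfold tr
  split_ifs
  · simp
  · simpa using h1 β

theorem tr_le {q q0 p k bb : ℕ} {D : ℝ} {P Q : E} {f : (Fin k → E) → ℝ}
    (h0 : ∀ β, 0 ≤ f β) (β : Fin k → E) : tr q q0 p k bb D P Q f 0 β ≤ f β := by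
  unfold tr
  split_ifs
  · exact le_rfl
  · exact h0 β

theorem tr_nonneg {q q0 p k bb : ℕ} {D : ℝ} {P Q : E} {f : (Fin k → E) → ℝ}
    (h0 : ∀ β, 0 ≤ f β) (β : Fin k → E) : 0 ≤ tr q q0 p k bb D P Q f 0 β := by
  unfold tr
  split_ifs
  · exact h0 β
  · exact le_rfl

theorem tr_sq {q q0 p k bb : ℕ} {D : ℝ} {P Q : E} (f : (Fin k → E) → ℝ) (β : Fin k → E) :
    tr q q0 p k bb D P Q f 0 β ^ 2 = tr q q0 p k bb D P Q (fun β => f β ^ 2) 0 β := by
  unfold tr
  split_ifs <;> simp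

/-- integrals of truncated variables -/
theorem int_tr (h : StmtChain) {q q0 p k bb : ℕ} {D : ℝ} {P Q : E} {f : (Fin k → E) → ℝ} {C tl : ℝ}
    (hf : Measurable f) (h0 : ∀ β, 0 ≤ f β) (h1 : ∀ β, f β ≤ C) (hC : 0 ≤ C)
    (ht : ∫ β, tr q q0 p k bb D P Q 0 1 β ∂nu k ≤ tl) :
    ∫ β, f β ∂nu k - C * tl ≤ ∫ β, tr q q0 p k bb D P Q f 0 β ∂nu k ∧
      ∫ β, tr q q0 p k bb D P Q f 0 β ∂nu k ≤ ∫ β, f β ∂nu k := by
  have := h.nu_prob k
  have i1 : Integrable f (nu k) := integrable_bdd hf h0 h1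
  have i2 : Integrable (tr q q0 p k bb D P Q f 0) (nu k) :=
    integrable_bdd (measurable_tr h _ _ _ _ _ _ _ _ hf measurable_const) (tr_nonneg h0)
      fun β => (tr_le h0 β).trans (h1 β)
  have i3 : Integrable (tr q q0 p k bb D P Q 0 1) (nu k) :=
    integrable_bdd (C := 1) (measurable_tr h _ _ _ _ _ _ _ _ measurable_const measurable_const)
      (fun β => by unfold tr; split_ifs <;> simp) fun β => by unfold tr; split_ifs <;> simp
  refine ⟨?_, integral_mono i2 i1 (tr_le h0)⟩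
  calc _ ≤ ∫ β, f β ∂nu k - C * ∫ β, tr q q0 p k bb D P Q 0 1 β ∂nu k := by
        have := mul_le_mul_of_nonneg_left ht hC
        linarith
    _ = ∫ β, (f β - C * tr q q0 p k bb D P Q 0 1 β) ∂nu k := by
        rw [integral_sub i1 (i3.const_mul _), integral_const_mul]
    _ ≤ _ := integral_mono (i1.sub (i3.const_mul _)) i2 (tr_sub h1)

end Mo

open Mo in
theorem stmtMom_of (h : StmtChain) : StmtMom where
  gk_bd := fun _ _ A B hq0 => ⟨gk_nonneg hq0 A B, gk_le hq0 A B⟩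
  gk_lb := fun _ _ _ _ hq0 hq hA hB => Mo.gk_lb hq0 hq hA hB
  meas_S := fun q q0 p k bb D P Q => by
    rw [Sv_eq]
    exact measurable_tr h _ _ _ _ _ _ _ _ (measurable_S0 h _ _ _ _ _ _ _ (measurable_gk q q0))
      measurable_const
  meas_C := fun q q0 p k bb D P Q => by
    rw [Cv_eq]
    exact measurable_tr h _ _ _ _ _ _ _ _ (measurable_S0 h _ _ _ _ _ _ _ measurable_one')
      measurable_const
  mom := by
    intro q q0 p k bb D M η H A B z hA hB hz ζ Hh gm tl hζ hH hgm htl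
    obtain ⟨a1, a2, a3, a4⟩ := hyp_q H
    have hq1 : (0 : ℝ) < q := by linarith
    have hD := H.hD
    have hg := measurable_gk q q0
    have hg0 : ∀ u u', 0 ≤ gk q q0 u u' := gk_nonneg H.hq0
    have hg1 : ∀ u u', gk q q0 u u' ≤ gm := by
      rw [hgm]
      exact gk_le H.hq0
    have hc : 0 ≤ gm := (hg0 0 0).trans (hg1 0 0)
    have hG := hg0 A B
    have ht : ∫ β, tr q q0 p k bb D (M • (A - z)) (M • (B - z)) 0 1 β ∂nu k ≤ tl := by
      rw [htl, hH]
      exact trunc_le h H hA hB z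
    have m1 : mass (kp D (gk q q0)) ≤ ENNReal.ofReal 1 := by
      rw [ENNReal.ofReal_one]
      exact mass_gk_le h H.hq0 H.hq D
    have m2 := mass_gk_ge h H.hq0 H.hq hD
    have het := exp_tail hD
    have hs : 2 * (q0 : ℝ) / q ≤ 1 / 2 := by
      rw [div_le_iff₀ hq1]
      linarith
    have m3 : (2 / 5 : ℝ) ≤ 1 - 2 * q0 / q - 4 * Real.exp (-(D ^ 2 / 4)) := by linarith
    have m4 := (ENNReal.ofReal_le_ofReal m3).trans m2
    have s1 := int_tr h (measurable_S0 h q q0 p k D (M • (A - z)) (M • (B - z)) hg) (S0_nonneg hg0)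
      (S0_le H hc hg1)
      (by positivity) ht
    have s2 := int_tr h (measurable_S0 h q q0 p k D (M • (A - z)) (M • (B - z)) measurable_one')
      (S0_nonneg fun _ _ => zero_le_one) (S0_le H zero_le_one fun _ _ => le_rfl) (by positivity) ht
    have s3 := int_tr h ((measurable_S0 h q q0 p k D (M • (A - z)) (M • (B - z)) hg).pow_const 2)
      (fun β => sq_nonneg _)
      (fun β => pow_le_pow_left₀ (S0_nonneg hg0 β) (S0_le H hc hg1 β) 2) (by positivity) ht
    rw [Sv_eq, Cv_eq]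
    simp only [tr_sq]
    refine ⟨le_trans ?_ s1.1, s1.2.trans ?_, s2.2.trans ?_, s3.2.trans ?_, fun hp => le_trans ?_ s3.1⟩
    · have e1 := int_S0_ge h H hA hB hz hg hc hg0 hg1 (by linarith) m2
      have e2 : 1 - 2 * ζ ≤ 1 - 2 * ww q q0 D η := by
        have := ww_eq H
        have := (ww_bd H).1
        linarith
      have e3 := mul_le_mul_of_nonneg_right e2 (mul_nonneg (by linarith :
        (0 : ℝ) ≤ 1 - 2 * q0 / q - 4 * Real.exp (-(D ^ 2 / 4))) hG)
      linarith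
    · have e1 := int_S0_le h H hA hB hz hg hc hg0 hg1 zero_le_one m1
      linarith
    · have e1 := int_S0_le h H hA hB hz measurable_one' zero_le_one (fun _ _ => zero_le_one)
        (fun _ _ => le_rfl) (by positivity) (mass_one_le h (by linarith))
      nlinarith [mul_nonneg (sq_nonneg D) hG]
    · rw [hH]
      exact int_sq_le h H hA hB hz hg hc hg0 hg1 m1
    · have e1 := int_sq_ge h H hA hB hz hg hc hg0 hg1 m4 hp
      linarith

end Pool.Agent.MP_037c5a_pr
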