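import Pool.Agent.MP_037c5a_pr.Stmts

open MeasureTheory Finset

namespace Pool.Agent.MP_037c5a_pr.Mo

theorem ph_pos {t : ℝ} (ht : 0 < t) (x : E) : 0 < ph t x := by
  unfold ph
  have := Real.pi_pos
  positivity

theorem ph_nonneg {t : ℝ} (ht : 0 ≤ t) (x : E) : 0 ≤ ph t x := by
  unfold ph
  have := Real.pi_pos
  positivity

theorem ph_neg (t : ℝ) (x : E) : ph t (-x) = ph t x := by
  unfold ph
  rw [norm_neg]

theorem ph_le {t : ℝ} (ht : 0 < t) (x : E) : ph t x ≤ (2 * Real.pi * t)⁻¹ := by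
  unfold ph
  have := Real.pi_pos
  have h1 : Real.exp (-‖x‖ ^ 2 / (2 * t)) ≤ 1 := by
    apply Real.exp_le_one_iff.mpr
    apply div_nonpos_of_nonpos_of_nonneg
    · have := sq_nonneg ‖x‖
      linarith
    · linarith
  have h2 : 0 ≤ (2 * Real.pi * t)⁻¹ := by positivity
  calc _ ≤ (2 * Real.pi * t)⁻¹ * 1 := mul_le_mul_of_nonneg_left h1 h2
    _ = _ := mul_one _

theorem continuous_ph (t : ℝ) : Continuous (ph t) := by
  unfold ph
  fun_prop

theorem measurable_ph (t : ℝ) : Measurable (ph t) := (continuous_ph t).measurable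

theorem ph_scale {M n l : ℝ} (hM2 : M ^ 2 = n) (hn : 0 < n) (hl : 0 < l) (x : E) :
    ph l (M • x) = n⁻¹ * ph (l / n) x := by
  unfold ph
  have := Real.pi_pos
  have h1 : ‖M • x‖ ^ 2 = n * ‖x‖ ^ 2 := by
    rw [norm_smul, mul_pow, Real.norm_eq_abs, sq_abs, hM2]
  rw [h1]
  have h2 : -(n * ‖x‖ ^ 2) / (2 * l) = -‖x‖ ^ 2 / (2 * (l / n)) := by
    field_simp
  rw [h2, ← mul_assoc]
  congr 1
  field_simp

theorem ph_cmp {s0 η D t t' : ℝ} {x x' : E} (hs0 : 0 < s0) (hs1 : s0 ≤ 1 / 4) (hD : 4 ≤ D)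
    (ht : s0 ≤ t) (ht' : s0 ≤ t') (htt : |t - t'| ≤ η)
    (hx : ‖x‖ ≤ D + 1) (hx' : ‖x'‖ ≤ D + 1) (hxx : ‖x - x'‖ ≤ η) :
    ph t' x' ≤ Real.exp (η * ((D + 1) ^ 2 / s0 ^ 2)) * ph t x := by
  have hpi := Real.pi_pos
  have ht0 : 0 < t := lt_of_lt_of_le hs0 ht
  have ht0' : 0 < t' := lt_of_lt_of_le hs0 ht'
  have hη : 0 ≤ η := le_trans (abs_nonneg _) htt
  have hab := abs_le.mp htt
  -- prefactor
  have h1 : (2 * Real.pi * t')⁻¹ ≤ Real.exp (η / s0) * (2 * Real.pi * t)⁻¹ := by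
    have e1 : t / t' ≤ Real.exp (η / s0) := by
      have : t / t' ≤ η / s0 + 1 := by
        have a1 : t / t' = (t - t') / t' + 1 := by field_simp; ring
        rw [a1]
        have a2 : (t - t') / t' ≤ η / t' := div_le_div_of_nonneg_right hab.2 ht0'.le
        have a3 : η / t' ≤ η / s0 := div_le_div_of_nonneg_left hη hs0 ht'
        linarith
      exact this.trans (Real.add_one_le_exp _)
    have e2 : (2 * Real.pi * t')⁻¹ = t / t' * (2 * Real.pi * t)⁻¹ := by field_simp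
    rw [e2]
    exact mul_le_mul_of_nonneg_right e1 (by positivity)
  have h2 : -‖x'‖ ^ 2 / (2 * t') ≤
      (η * (D + 1) / s0 + (D + 1) ^ 2 * η / (2 * s0 ^ 2)) + -‖x‖ ^ 2 / (2 * t) := by
    have n0 := norm_nonneg x
    have n1 := norm_nonneg x'
    have d1 : ‖x‖ - ‖x'‖ ≤ η := (norm_sub_norm_le x x').trans hxx
    have a1 : (‖x‖ ^ 2 - ‖x'‖ ^ 2) / (2 * t) ≤ η * (D + 1) / s0 := by
      have b1 : ‖x‖ ^ 2 - ‖x'‖ ^ 2 ≤ η * (2 * (D + 1)) := by
        have : ‖x‖ ^ 2 - ‖x'‖ ^ 2 = (‖x‖ - ‖x'‖) * (‖x‖ + ‖x'‖) := by ring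
        rw [this]
        calc _ ≤ η * (‖x‖ + ‖x'‖) := mul_le_mul_of_nonneg_right d1 (by linarith)
          _ ≤ _ := mul_le_mul_of_nonneg_left (by linarith) hη
      calc _ ≤ η * (2 * (D + 1)) / (2 * t) := div_le_div_of_nonneg_right b1 (by linarith)
        _ = η * (D + 1) / t := by field_simp
        _ ≤ _ := div_le_div_of_nonneg_left (by positivity) hs0 ht
    have a2 : ‖x'‖ ^ 2 * ((t' - t) / (2 * (t * t'))) ≤ (D + 1) ^ 2 * η / (2 * s0 ^ 2) := by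
      have b1 : (t' - t) / (2 * (t * t')) ≤ η / (2 * s0 ^ 2) := by
        calc _ ≤ η / (2 * (t * t')) := div_le_div_of_nonneg_right (by linarith) (by positivity)
          _ ≤ _ := by
            apply div_le_div_of_nonneg_left hη (by positivity)
            have : s0 * s0 ≤ t * t' := mul_le_mul ht ht' hs0.le ht0.le
            nlinarith
      have b2 : ‖x'‖ ^ 2 ≤ (D + 1) ^ 2 := pow_le_pow_left₀ n1 hx' 2
      calc _ ≤ ‖x'‖ ^ 2 * (η / (2 * s0 ^ 2)) := mul_le_mul_of_nonneg_left b1 (by positivity)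
        _ ≤ (D + 1) ^ 2 * (η / (2 * s0 ^ 2)) := mul_le_mul_of_nonneg_right b2 (by positivity)
        _ = _ := by ring
    have a3 : -‖x'‖ ^ 2 / (2 * t') = (‖x‖ ^ 2 - ‖x'‖ ^ 2) / (2 * t) +
        ‖x'‖ ^ 2 * ((t' - t) / (2 * (t * t'))) + -‖x‖ ^ 2 / (2 * t) := by
      field_simp
      ring
    rw [a3]
    linarith
  have h3 : η / s0 + (η * (D + 1) / s0 + (D + 1) ^ 2 * η / (2 * s0 ^ 2)) ≤
      η * ((D + 1) ^ 2 / s0 ^ 2) := by
    have a1 : η / s0 + (η * (D + 1) / s0 + (D + 1) ^ 2 * η / (2 * s0 ^ 2)) =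
        η / s0 ^ 2 * (s0 * (D + 2) + (D + 1) ^ 2 / 2) := by
      field_simp
      ring
    have a2 : η * ((D + 1) ^ 2 / s0 ^ 2) = η / s0 ^ 2 * (D + 1) ^ 2 := by ring
    rw [a1, a2]
    apply mul_le_mul_of_nonneg_left _ (by positivity)
    nlinarith
  unfold ph
  calc (2 * Real.pi * t')⁻¹ * Real.exp (-‖x'‖ ^ 2 / (2 * t'))
      ≤ (Real.exp (η / s0) * (2 * Real.pi * t)⁻¹) *
        Real.exp ((η * (D + 1) / s0 + (D + 1) ^ 2 * η / (2 * s0 ^ 2)) + -‖x‖ ^ 2 / (2 * t)) :=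
        mul_le_mul h1 (Real.exp_le_exp.mpr h2) (by positivity) (by positivity)
    _ = Real.exp (η / s0 + (η * (D + 1) / s0 + (D + 1) ^ 2 * η / (2 * s0 ^ 2))) *
        ((2 * Real.pi * t)⁻¹ * Real.exp (-‖x‖ ^ 2 / (2 * t))) := by
        rw [Real.exp_add, Real.exp_add (η / s0)]; ring
    _ ≤ _ := mul_le_mul_of_nonneg_right (Real.exp_le_exp.mpr h3) (by positivity)

theorem ph_lam {t t' : ℝ} (ht' : 0 < t') (h : t' ≤ t) (x : E) : ph t' x ≤ t / t' * ph t x := by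
  have hpi := Real.pi_pos
  have ht : 0 < t := lt_of_lt_of_le ht' h
  unfold ph
  have e2 : (2 * Real.pi * t')⁻¹ = t / t' * (2 * Real.pi * t)⁻¹ := by field_simp
  rw [e2, mul_assoc]
  apply mul_le_mul_of_nonneg_left _ (by positivity)
  apply mul_le_mul_of_nonneg_left _ (by positivity)
  apply Real.exp_le_exp.mpr
  rw [neg_div, neg_div, neg_le_neg_iff]
  exact div_le_div_of_nonneg_left (by positivity) (by positivity) (by linarith)

theorem ph_lower {t c : ℝ} (ht : 0 < t) {x : E} (hx : ‖x‖ ^ 2 ≤ 2 * t * c) :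
    Real.exp (-c) * (2 * Real.pi * t)⁻¹ ≤ ph t x := by
  have hpi := Real.pi_pos
  unfold ph
  rw [mul_comm]
  apply mul_le_mul_of_nonneg_left _ (by positivity)
  apply Real.exp_le_exp.mpr
  rw [neg_div, neg_le_neg_iff, div_le_iff₀ (by positivity)]
  linarith

theorem ph_tail {s D : ℝ} (hs : 0 < s) (hs1 : s ≤ 1) (hD : 0 ≤ D) {x : E} (hx : D ≤ ‖x‖) :
    ph s x ≤ 2 * Real.exp (-(D ^ 2 / 4)) * ph (2 * s) x := by
  have hpi := Real.pi_pos
  unfold ph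
  have e2 : (2 * Real.pi * s)⁻¹ = 2 * (2 * Real.pi * (2 * s))⁻¹ := by field_simp
  have e3 : -‖x‖ ^ 2 / (2 * s) ≤ -(D ^ 2 / 4) + -‖x‖ ^ 2 / (2 * (2 * s)) := by
    have a1 : -‖x‖ ^ 2 / (2 * s) = -(‖x‖ ^ 2 / (4 * s)) + -‖x‖ ^ 2 / (2 * (2 * s)) := by
      field_simp
      ring
    have a2 : D ^ 2 / 4 ≤ ‖x‖ ^ 2 / (4 * s) := by
      have b1 : D ^ 2 ≤ ‖x‖ ^ 2 := pow_le_pow_left₀ hD hx 2
      calc D ^ 2 / 4 ≤ ‖x‖ ^ 2 / 4 := by linarith
        _ ≤ _ := div_le_div_of_nonneg_left (by positivity) (by positivity) (by linarith)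
    rw [a1]
    linarith
  rw [e2]
  calc 2 * (2 * Real.pi * (2 * s))⁻¹ * Real.exp (-‖x‖ ^ 2 / (2 * s))
      ≤ 2 * (2 * Real.pi * (2 * s))⁻¹ * Real.exp (-(D ^ 2 / 4) + -‖x‖ ^ 2 / (2 * (2 * s))) :=
        mul_le_mul_of_nonneg_left (Real.exp_le_exp.mpr e3) (by positivity)
    _ = _ := by rw [Real.exp_add]; ring

theorem term_le {s : ℝ} (hs : 0 < s) (hs1 : s < 1) (A B : E) :
    ph s A * ph (1 - s) B / ph 1 (B - A) ≤ (2 * Real.pi * (s * (1 - s)))⁻¹ := by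
  have hpi := Real.pi_pos
  have h1s : 0 < 1 - s := by linarith
  rw [div_le_iff₀ (ph_pos one_pos _)]
  unfold ph
  have e1 : -‖A‖ ^ 2 / (2 * s) + -‖B‖ ^ 2 / (2 * (1 - s)) ≤ -‖B - A‖ ^ 2 / (2 * 1) := by
    have n0 := norm_nonneg A
    have n1 := norm_nonneg B
    have a1 : ‖B - A‖ ^ 2 ≤ (‖B‖ + ‖A‖) ^ 2 := pow_le_pow_left₀ (norm_nonneg _) (norm_sub_le B A) 2
    have a2 : (‖B‖ + ‖A‖) ^ 2 ≤ ‖A‖ ^ 2 / s + ‖B‖ ^ 2 / (1 - s) := by
      have b1 : ‖A‖ ^ 2 / s + ‖B‖ ^ 2 / (1 - s) - (‖B‖ + ‖A‖) ^ 2 =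
          ((1 - s) * ‖A‖ - s * ‖B‖) ^ 2 / (s * (1 - s)) := by
        field_simp
        ring
      have b2 : 0 ≤ ((1 - s) * ‖A‖ - s * ‖B‖) ^ 2 / (s * (1 - s)) := by positivity
      linarith
    have a3 : -‖A‖ ^ 2 / (2 * s) + -‖B‖ ^ 2 / (2 * (1 - s)) =
        -(‖A‖ ^ 2 / s + ‖B‖ ^ 2 / (1 - s)) / 2 := by
      field_simp
      ring
    rw [a3]
    linarith
  calc (2 * Real.pi * s)⁻¹ * Real.exp (-‖A‖ ^ 2 / (2 * s)) *
        ((2 * Real.pi * (1 - s))⁻¹ * Real.exp (-‖B‖ ^ 2 / (2 * (1 - s))))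
      = (2 * Real.pi * (s * (1 - s)))⁻¹ * ((2 * Real.pi * 1)⁻¹ *
          Real.exp (-‖A‖ ^ 2 / (2 * s) + -‖B‖ ^ 2 / (2 * (1 - s)))) := by
        rw [Real.exp_add]
        field_simp
    _ ≤ _ := by
        apply mul_le_mul_of_nonneg_left _ (by positivity)
        exact mul_le_mul_of_nonneg_left (Real.exp_le_exp.mpr e1) (by positivity)

theorem harm_le (n : ℕ) : ∑ u ∈ Icc 1 n, (u : ℝ)⁻¹ ≤ 1 + Real.log n := by
  have h := harmonic_le_one_add_log n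
  simpa only [harmonic_eq_sum_Icc, Rat.cast_sum, Rat.cast_inv, Rat.cast_natCast] using h

/-- an injective family of integers in `[1,n]` has reciprocal sum at most `1 + log n` -/
theorem harm_inj {ι : Type} (S : Finset ι) (f : ι → ℕ) (n : ℕ) (hf : Set.InjOn f S)
    (h : ∀ i ∈ S, 1 ≤ f i ∧ f i ≤ n) : ∑ i ∈ S, (f i : ℝ)⁻¹ ≤ 1 + Real.log n := by
  classical
  have e : ∑ i ∈ S, (f i : ℝ)⁻¹ = ∑ u ∈ S.image f, (u : ℝ)⁻¹ :=
    (Finset.sum_image (f := fun u : ℕ => (u : ℝ)⁻¹) hf).symm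
  rw [e]
  refine le_trans (Finset.sum_le_sum_of_subset_of_nonneg ?_ ?_) (harm_le n)
  · intro u hu
    obtain ⟨i, hi, rfl⟩ := Finset.mem_image.mp hu
    exact Finset.mem_Icc.mpr (h i hi)
  · intro u _ _
    positivity

theorem log_le_harm {a : ℕ} (ha : 1 ≤ a) : ∀ b : ℕ, a ≤ b →
    Real.log b - Real.log a ≤ ∑ j ∈ Ico a b, (j : ℝ)⁻¹ := by
  intro b hb
  induction b, hb using Nat.le_induction with
  | base => simp
  | succ b hb ih =>
    rw [Finset.sum_Ico_succ_top hb]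
    have hb0 : (0 : ℝ) < b := by exact_mod_cast lt_of_lt_of_le Nat.one_pos (ha.trans hb)
    have h1 : Real.log ((b + 1 : ℕ) : ℝ) - Real.log b ≤ (b : ℝ)⁻¹ := by
      rw [← Real.log_div (by positivity) hb0.ne']
      have h2 := Real.log_le_sub_one_of_pos (show 0 < ((b + 1 : ℕ) : ℝ) / b by positivity)
      have h3 : ((b + 1 : ℕ) : ℝ) / b - 1 = (b : ℝ)⁻¹ := by
        push_cast
        field_simp
        ring
      linarith
    linarith

/-- the `u`-th term of `gk` -/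
noncomputable def tm (q u : ℕ) (A B : E) : ℝ :=
  ph (u / q) A * ph (1 - u / q) B / ph 1 (B - A)

theorem gk_eq (q q0 : ℕ) (A B : E) :
    gk q q0 A B = (q : ℝ)⁻¹ * ∑ u ∈ Ico q0 (q - q0), tm q u A B := rfl

theorem win_facts {q q0 u : ℕ} (hq0 : 1 ≤ q0) (hu : u ∈ Ico q0 (q - q0)) :
    (0 : ℝ) < q ∧ (q0 : ℝ) ≤ u ∧ (u : ℝ) + 1 ≤ q - q0 ∧ (1 : ℝ) ≤ q0 := by
  rw [Finset.mem_Ico] at hu
  have h1 : u + 1 + q0 ≤ q := by omega
  have h2 : ((u + 1 + q0 : ℕ) : ℝ) ≤ q := by exact_mod_cast h1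
  push_cast at h2
  have h3 : (1 : ℝ) ≤ q0 := by exact_mod_cast hq0
  have h4 : (q0 : ℝ) ≤ u := by exact_mod_cast hu.1
  refine ⟨by linarith, h4, by linarith, h3⟩

theorem tm_pos {q q0 u : ℕ} (hq0 : 1 ≤ q0) (hu : u ∈ Ico q0 (q - q0)) (A B : E) :
    0 < tm q u A B := by
  obtain ⟨h1, h2, h3, h4⟩ := win_facts hq0 hu
  have a1 : (0 : ℝ) < u / q := div_pos (by linarith) h1
  have a2 : (0 : ℝ) < 1 - u / q := by
    rw [sub_pos, div_lt_one h1]
    linarith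
  exact div_pos (mul_pos (ph_pos a1 _) (ph_pos a2 _)) (ph_pos one_pos _)

theorem gk_nonneg {q q0 : ℕ} (hq0 : 1 ≤ q0) (A B : E) : 0 ≤ gk q q0 A B := by
  rw [gk_eq]
  exact mul_nonneg (by positivity) (Finset.sum_nonneg fun u hu => (tm_pos hq0 hu A B).le)

theorem gk_le {q q0 : ℕ} (hq0 : 1 ≤ q0) (A B : E) : gk q q0 A B ≤ 1 + Real.log q := by
  have hpi := Real.pi_gt_three
  rw [gk_eq, Finset.mul_sum]
  have h1 : ∀ u ∈ Ico q0 (q - q0), (q : ℝ)⁻¹ * tm q u A B ≤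
      (1 / 2) * ((u : ℝ)⁻¹ + ((q - u : ℕ) : ℝ)⁻¹) := by
    intro u hu
    obtain ⟨h1, h2, h3, h4⟩ := win_facts hq0 hu
    have a1 : (0 : ℝ) < u / q := div_pos (by linarith) h1
    have a2 : (u : ℝ) / q < 1 := by
      rw [div_lt_one h1]
      linarith
    have a3 := term_le a1 a2 A B
    have a4 : ((q - u : ℕ) : ℝ) = q - u := by
      rw [Finset.mem_Ico] at hu
      rw [Nat.cast_sub (by omega)]
    have a5 : (0 : ℝ) < q - u := by linarith
    have a6 : (0 : ℝ) < u := by linarith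
    rw [a4]
    calc (q : ℝ)⁻¹ * tm q u A B ≤ (q : ℝ)⁻¹ * (2 * Real.pi * (u / q * (1 - u / q)))⁻¹ :=
          mul_le_mul_of_nonneg_left a3 (by positivity)
      _ = (2 * Real.pi)⁻¹ * ((u : ℝ)⁻¹ + ((q : ℝ) - u)⁻¹) := by
          field_simp
          ring
      _ ≤ _ := by
          apply mul_le_mul_of_nonneg_right _ (by positivity)
          rw [one_div]
          exact inv_anti₀ (by norm_num) (by linarith)
  refine (Finset.sum_le_sum h1).trans ?_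
  rw [← Finset.mul_sum, Finset.sum_add_distrib]
  have h2 := harm_inj (Ico q0 (q - q0)) (fun u => u) q (fun _ _ _ _ h => h) (by
    intro i hi
    rw [Finset.mem_Ico] at hi
    omega)
  have h3 := harm_inj (Ico q0 (q - q0)) (fun u => q - u) q (by
    intro a ha b hb h
    simp only [Finset.coe_Ico, Set.mem_Ico] at ha hb h
    omega) (by
    intro i hi
    rw [Finset.mem_Ico] at hi
    omega)
  linarith

theorem gk_lb {q q0 : ℕ} {A B : E} (hq0 : 1 ≤ q0) (hq : 4 * q0 ≤ q) (hA : ‖A‖ ^ 2 ≤ (q0 : ℝ) / q)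
    (hB : ‖B‖ ^ 2 ≤ (q0 : ℝ) / q) : 1 / 20 ≤ gk q q0 A B := by
  have hpi := Real.pi_pos
  have hpi4 := Real.pi_le_four
  have hqr : (4 : ℝ) * q0 ≤ q := by exact_mod_cast hq
  have h4 : (1 : ℝ) ≤ q0 := by exact_mod_cast hq0
  have hq1 : (0 : ℝ) < q := by linarith
  have h1 : ∀ u ∈ Ico q0 (q - q0), (1 / 10 : ℝ) ≤ tm q u A B := by
    intro u hu
    obtain ⟨h1, h2, h3, -⟩ := win_facts hq0 hu
    have a1 : (0 : ℝ) < u / q := div_pos (by linarith) h1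
    have a2 : (0 : ℝ) < 1 - u / q := by
      rw [sub_pos, div_lt_one h1]
      linarith
    have b1 : (q0 : ℝ) / q ≤ u / q := div_le_div_of_nonneg_right h2 h1.le
    have b2 : (q0 : ℝ) / q ≤ 1 - u / q := by
      rw [le_sub_iff_add_le, ← add_div, div_le_one h1]
      linarith
    have c1 := ph_lower (c := 1 / 2) a1 (x := A) (by linarith)
    have c2 := ph_lower (c := 1 / 2) a2 (x := B) (by linarith)
    have c3 := ph_le one_pos (B - A)
    unfold tm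
    rw [le_div_iff₀ (ph_pos one_pos _)]
    have c4 : (1 / 2 : ℝ) ≤ Real.exp (-(1 / 2)) := by
      have := Real.add_one_le_exp (-(1 / 2) : ℝ)
      linarith
    set s : ℝ := u / q
    have c5 : s * (1 - s) ≤ 1 / 4 := by nlinarith [sq_nonneg (s - 1 / 2)]
    calc 1 / 10 * ph 1 (B - A) ≤ 1 / 10 * (2 * Real.pi * 1)⁻¹ := by linarith
      _ ≤ (1 / 2 * (2 * Real.pi * s)⁻¹) * (1 / 2 * (2 * Real.pi * (1 - s))⁻¹) := by
          have d1 : (1 / 2 * (2 * Real.pi * s)⁻¹) * (1 / 2 * (2 * Real.pi * (1 - s))⁻¹) =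
              (8 * Real.pi * (s * (1 - s)))⁻¹ * (2 * Real.pi * 1)⁻¹ := by
            field_simp
            ring
          rw [d1]
          apply mul_le_mul_of_nonneg_right _ (by positivity)
          rw [one_div]
          apply inv_anti₀ (by positivity)
          have : Real.pi * (s * (1 - s)) ≤ 4 * (1 / 4) :=
            mul_le_mul hpi4 c5 (by positivity) (by norm_num)
          linarith
      _ ≤ (Real.exp (-(1 / 2)) * (2 * Real.pi * s)⁻¹) *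
            (Real.exp (-(1 / 2)) * (2 * Real.pi * (1 - s))⁻¹) := by
          apply mul_le_mul _ _ (by positivity) (by positivity)
          · exact mul_le_mul_of_nonneg_right c4 (by positivity)
          · exact mul_le_mul_of_nonneg_right c4 (by positivity)
      _ ≤ _ := mul_le_mul c1 c2 (by positivity) (ph_pos a1 _).le
  have h2 := Finset.card_nsmul_le_sum _ _ _ h1
  rw [Nat.card_Ico, nsmul_eq_mul] at h2
  have h3 : ((q - q0 - q0 : ℕ) : ℝ) = q - q0 - q0 := by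
    rw [Nat.cast_sub (by omega), Nat.cast_sub (by omega)]
  rw [h3] at h2
  rw [gk_eq]
  calc (1 / 20 : ℝ) = (q : ℝ)⁻¹ * (q / 2 * (1 / 10)) := by field_simp; norm_num
    _ ≤ (q : ℝ)⁻¹ * ((q - q0 - q0) * (1 / 10)) := by
        apply mul_le_mul_of_nonneg_left _ (by positivity)
        linarith
    _ ≤ _ := mul_le_mul_of_nonneg_left h2 (by positivity)

end Pool.Agent.MP_037c5a_pr.Mo
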