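import Pool.Agent.MP_037c5a_pr.Mom1

open MeasureTheory Finset

namespace Pool.Agent.MP_037c5a_pr.Mo

open Classical in
noncomputable def kap (D : ℝ) (g : E → E → ℝ) (u u' : E) : ℝ :=
  if ‖u‖ ≤ D ∧ ‖u'‖ ≤ D then g u u' else 0

noncomputable def kp (D : ℝ) (g : E → E → ℝ) (u u' : E) : ENNReal := ENNReal.ofReal (kap D g u u')

noncomputable def mass (κ : E → E → ENNReal) : ENNReal :=
  ∫⁻ u, ∫⁻ u', ENNReal.ofReal (ph 1 (u' - u)) * κ u u'

noncomputable def dbl (F1 F2 : E → ENNReal) (κ : E → E → ENNReal) : ENNReal :=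
  ∫⁻ u, ∫⁻ u', F1 u * ENNReal.ofReal (ph 1 (u' - u)) * κ u u' * F2 u'

theorem kap_nonneg {D : ℝ} {g : E → E → ℝ} (hg : ∀ u u', 0 ≤ g u u') (u u' : E) :
    0 ≤ kap D g u u' := by
  unfold kap
  split_ifs
  · exact hg u u'
  · exact le_rfl

theorem kap_le {D c : ℝ} {g : E → E → ℝ} (hc : 0 ≤ c) (hg : ∀ u u', g u u' ≤ c) (u u' : E) :
    kap D g u u' ≤ c := by
  unfold kap
  split_ifs
  · exact hg u u'
  · exact hc

theorem measurable_kap (D : ℝ) {g : E → E → ℝ} (hg : Measurable (Function.uncurry g)) :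
    Measurable (Function.uncurry (kap D g)) := by
  have h1 : MeasurableSet {x : E × E | ‖x.1‖ ≤ D ∧ ‖x.2‖ ≤ D} :=
    (measurableSet_le measurable_fst.norm measurable_const).inter
      (measurableSet_le measurable_snd.norm measurable_const)
  exact Measurable.ite h1 hg measurable_const

theorem measurable_kp (D : ℝ) {g : E → E → ℝ} (hg : Measurable (Function.uncurry g)) :
    Measurable (Function.uncurry (kp D g)) :=
  ENNReal.measurable_ofReal.comp (measurable_kap D hg)

theorem measurable_gk (q q0 : ℕ) : Measurable (Function.uncurry (gk q q0)) := by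
  have h : Function.uncurry (gk q q0) = fun x : E × E =>
      (q : ℝ)⁻¹ * ∑ u ∈ Ico q0 (q - q0), ph (u / q) x.1 * ph (1 - u / q) x.2 / ph 1 (x.2 - x.1) := rfl
  rw [h]
  refine Measurable.const_mul (Finset.measurable_sum _ fun u _ => ?_) _
  exact (((measurable_ph _).comp measurable_fst).mul ((measurable_ph _).comp measurable_snd)).div
    ((measurable_ph _).comp (measurable_snd.sub measurable_fst))

theorem dbl_le {D : ℝ} {g : E → E → ℝ} {F1 F2 : E → ENNReal} {a b : ENNReal} (ha : a ≠ ⊤)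
    (hb : b ≠ ⊤) (h1 : ∀ u, ‖u‖ ≤ D → F1 u ≤ a) (h2 : ∀ u, ‖u‖ ≤ D → F2 u ≤ b) :
    dbl F1 F2 (kp D g) ≤ a * b * mass (kp D g) := by
  have hab : a * b ≠ ⊤ := ENNReal.mul_ne_top ha hb
  unfold dbl mass
  rw [← lintegral_const_mul' _ _ hab]
  refine lintegral_mono fun u => ?_
  rw [← lintegral_const_mul' _ _ hab]
  refine lintegral_mono fun u' => ?_
  by_cases hc : ‖u‖ ≤ D ∧ ‖u'‖ ≤ D
  · calc F1 u * ENNReal.ofReal (ph 1 (u' - u)) * kp D g u u' * F2 u'
        ≤ a * ENNReal.ofReal (ph 1 (u' - u)) * kp D g u u' * b := by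
          gcongr
          · exact h1 u hc.1
          · exact h2 u' hc.2
      _ = _ := by ring
  · simp [kp, kap, hc]

theorem dbl_ge {D : ℝ} {g : E → E → ℝ} {F1 F2 : E → ENNReal} {a b : ENNReal} (ha : a ≠ ⊤)
    (hb : b ≠ ⊤) (h1 : ∀ u, ‖u‖ ≤ D → a ≤ F1 u) (h2 : ∀ u, ‖u‖ ≤ D → b ≤ F2 u) :
    a * b * mass (kp D g) ≤ dbl F1 F2 (kp D g) := by
  have hab : a * b ≠ ⊤ := ENNReal.mul_ne_top ha hb
  unfold dbl mass
  rw [← lintegral_const_mul' _ _ hab]
  refine lintegral_mono fun u => ?_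
  rw [← lintegral_const_mul' _ _ hab]
  refine lintegral_mono fun u' => ?_
  by_cases hc : ‖u‖ ≤ D ∧ ‖u'‖ ≤ D
  · calc a * b * (ENNReal.ofReal (ph 1 (u' - u)) * kp D g u u')
        = a * ENNReal.ofReal (ph 1 (u' - u)) * kp D g u u' * b := by ring
      _ ≤ _ := by
          gcongr
          · exact h1 u hc.1
          · exact h2 u' hc.2
  · simp [kp, kap, hc]

open Classical in
noncomputable def bl (D t : ℝ) (u : E) : ENNReal := if ‖u‖ ≤ D then ENNReal.ofReal (ph t u) else 0

theorem measurable_bl (D t : ℝ) : Measurable (bl D t) :=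
  Measurable.ite (measurableSet_le measurable_norm measurable_const)
    (ENNReal.measurable_ofReal.comp (measurable_ph t)) measurable_const

theorem ph_int0 (h : StmtChain) {t : ℝ} (ht : 0 < t) : ∫⁻ y, ENNReal.ofReal (ph t y) = 1 := by
  simpa using h.ph_int t ht 0

theorem bl_le (h : StmtChain) (D : ℝ) {t : ℝ} (ht : 0 < t) : ∫⁻ u, bl D t u ≤ 1 := by
  rw [← ph_int0 h ht]
  refine lintegral_mono fun u => ?_
  unfold bl
  split_ifs
  · exact le_rfl
  · exact zero_le

theorem bl_ge (h : StmtChain) {D t : ℝ} (hD : 0 ≤ D) (ht : 0 < t) (ht1 : t ≤ 1) :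
    ENNReal.ofReal (1 - 2 * Real.exp (-(D ^ 2 / 4))) ≤ ∫⁻ u, bl D t u := by
  set e : ℝ := 2 * Real.exp (-(D ^ 2 / 4)) with he
  have he0 : 0 ≤ e := by positivity
  have h1 : (1 : ENNReal) ≤ (∫⁻ u, bl D t u) + ENNReal.ofReal e := by
    calc (1 : ENNReal) = ∫⁻ y, ENNReal.ofReal (ph t y) := (ph_int0 h ht).symm
      _ ≤ ∫⁻ y, (bl D t y + ENNReal.ofReal e * ENNReal.ofReal (ph (2 * t) y)) := by
          refine lintegral_mono fun u => ?_
          unfold bl
          split_ifs with hu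
          · exact le_self_add
          · rw [zero_add, ← ENNReal.ofReal_mul he0]
            exact ENNReal.ofReal_le_ofReal (ph_tail ht ht1 hD (le_of_not_ge hu))
      _ = _ := by
          rw [lintegral_add_left (measurable_bl D t),
            lintegral_const_mul' _ _ ENNReal.ofReal_ne_top, ph_int0 h (by linarith), mul_one]
  rw [ENNReal.ofReal_sub _ he0, ENNReal.ofReal_one]
  exact tsub_le_iff_right.mpr h1

theorem mass_gk_eq {q q0 : ℕ} (hq0 : 1 ≤ q0) (D : ℝ) :
    mass (kp D (gk q q0)) = ∑ v ∈ Ico q0 (q - q0),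
      ENNReal.ofReal (q : ℝ)⁻¹ * ((∫⁻ u, bl D (v / q) u) * ∫⁻ u, bl D (1 - v / q) u) := by
  have h1 : ∀ u u' : E, ENNReal.ofReal (ph 1 (u' - u)) * kp D (gk q q0) u u' =
      ∑ v ∈ Ico q0 (q - q0),
        ENNReal.ofReal (q : ℝ)⁻¹ * bl D (v / q) u * bl D (1 - v / q) u' := by
    intro u u'
    by_cases hc : ‖u‖ ≤ D ∧ ‖u'‖ ≤ D
    · have hp := ph_pos one_pos (u' - u)
      simp only [kp, kap, bl, hc, and_self, if_true]
      rw [← ENNReal.ofReal_mul hp.le, gk_eq, Finset.mul_sum, Finset.mul_sum,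
        ENNReal.ofReal_sum_of_nonneg]
      · refine Finset.sum_congr rfl fun v hv => ?_
        obtain ⟨a1, a2, a3, a4⟩ := win_facts hq0 hv
        have b1 : (0 : ℝ) < v / q := div_pos (by linarith) a1
        rw [← ENNReal.ofReal_mul (by positivity),
          ← ENNReal.ofReal_mul (mul_nonneg (by positivity) (ph_pos b1 _).le)]
        congr 1
        unfold tm
        field_simp
      · intro v hv
        exact mul_nonneg hp.le (mul_nonneg (by positivity) (tm_pos hq0 hv _ _).le)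
    · have : kp D (gk q q0) u u' = 0 := by simp [kp, kap, hc]
      rw [this, mul_zero]
      symm
      refine Finset.sum_eq_zero fun v _ => ?_
      rcases not_and_or.mp hc with h | h <;> simp [bl, h]
  unfold mass
  simp_rw [h1]
  have h2 : ∀ u : E, ∫⁻ u', ∑ v ∈ Ico q0 (q - q0),
      ENNReal.ofReal (q : ℝ)⁻¹ * bl D (v / q) u * bl D (1 - v / q) u' =
      ∑ v ∈ Ico q0 (q - q0),
        ENNReal.ofReal (q : ℝ)⁻¹ * (bl D (v / q) u * ∫⁻ u', bl D (1 - v / q) u') := by
    intro u
    rw [lintegral_finsetSum _ fun v _ => (measurable_bl _ _).const_mul _]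
    refine Finset.sum_congr rfl fun v _ => ?_
    rw [lintegral_const_mul _ (measurable_bl _ _), mul_assoc]
  simp_rw [h2]
  rw [lintegral_finsetSum _ fun v _ => ((measurable_bl _ _).mul_const _).const_mul _]
  refine Finset.sum_congr rfl fun v _ => ?_
  rw [lintegral_const_mul _ ((measurable_bl _ _).mul_const _),
    lintegral_mul_const _ (measurable_bl _ _)]

theorem mass_gk_le (h : StmtChain) {q q0 : ℕ} (hq0 : 1 ≤ q0) (hq : 4 * q0 ≤ q) (D : ℝ) :
    mass (kp D (gk q q0)) ≤ 1 := by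
  rw [mass_gk_eq hq0]
  have hq1 : (0 : ℝ) < q := by exact_mod_cast (by omega : 0 < q)
  calc _ ≤ ∑ _v ∈ Ico q0 (q - q0), ENNReal.ofReal (q : ℝ)⁻¹ := by
        refine Finset.sum_le_sum fun v hv => ?_
        obtain ⟨a1, a2, a3, a4⟩ := win_facts hq0 hv
        have b1 : (0 : ℝ) < v / q := div_pos (by linarith) a1
        have b2 : (0 : ℝ) < 1 - v / q := by
          rw [sub_pos, div_lt_one a1]
          linarith
        calc _ ≤ ENNReal.ofReal (q : ℝ)⁻¹ * (1 * 1) := by
              gcongr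
              · exact bl_le h D b1
              · exact bl_le h D b2
          _ = _ := by simp
    _ ≤ 1 := by
        rw [← ENNReal.ofReal_sum_of_nonneg (fun _ _ => by positivity), Finset.sum_const,
          Nat.card_Ico, nsmul_eq_mul, ← ENNReal.ofReal_one]
        apply ENNReal.ofReal_le_ofReal
        rw [← div_eq_mul_inv, div_le_one hq1]
        exact_mod_cast (by omega : q - q0 - q0 ≤ q)

theorem exp_tail {D : ℝ} (hD : 4 ≤ D) : Real.exp (-(D ^ 2 / 4)) ≤ 1 / 40 := by
  have h1 : Real.exp (-(D ^ 2 / 4)) ≤ Real.exp (-4) := by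
    apply Real.exp_le_exp.mpr
    nlinarith
  refine h1.trans ?_
  rw [Real.exp_neg, one_div]
  apply inv_anti₀ (by norm_num)
  have h2 : (2.7 : ℝ) ≤ Real.exp 1 := by
    have := Real.exp_one_gt_d9
    linarith
  have h3 : Real.exp 4 = Real.exp 1 ^ 4 := by
    rw [← Real.exp_nat_mul]
    norm_num
  rw [h3]
  calc (40 : ℝ) ≤ 2.7 ^ 4 := by norm_num
    _ ≤ _ := pow_le_pow_left₀ (by norm_num) h2 4

theorem mass_gk_ge (h : StmtChain) {q q0 : ℕ} (hq0 : 1 ≤ q0) (hq : 4 * q0 ≤ q) {D : ℝ}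
    (hD : 4 ≤ D) :
    ENNReal.ofReal (1 - 2 * q0 / q - 4 * Real.exp (-(D ^ 2 / 4))) ≤ mass (kp D (gk q q0)) := by
  rw [mass_gk_eq hq0]
  have hq1 : (0 : ℝ) < q := by exact_mod_cast (by omega : 0 < q)
  have het := exp_tail hD
  set e : ℝ := Real.exp (-(D ^ 2 / 4)) with he
  have he0 : 0 < e := Real.exp_pos _
  calc _ ≤ ∑ _v ∈ Ico q0 (q - q0), ENNReal.ofReal ((q : ℝ)⁻¹ * ((1 - 2 * e) * (1 - 2 * e))) := by
        rw [← ENNReal.ofReal_sum_of_nonneg (fun _ _ => mul_nonneg (by positivity)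
          (mul_self_nonneg _)), Finset.sum_const, Nat.card_Ico, nsmul_eq_mul]
        apply ENNReal.ofReal_le_ofReal
        have h3 : ((q - q0 - q0 : ℕ) : ℝ) = q - q0 - q0 := by
          rw [Nat.cast_sub (by omega), Nat.cast_sub (by omega)]
        have h4 : ((q : ℝ) - q0 - q0) * ((q : ℝ)⁻¹ * ((1 - 2 * e) * (1 - 2 * e))) =
            (1 - 2 * q0 / q) * ((1 - 2 * e) * (1 - 2 * e)) := by
          field_simp
          ring
        rw [h3, h4]
        have h5 : (0 : ℝ) ≤ 2 * q0 / q := by positivity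
        have h6 : 2 * (q0 : ℝ) / q ≤ 1 := by
          rw [div_le_one hq1]
          exact_mod_cast (by omega : 2 * q0 ≤ q)
        have h7 : (1 - 2 * q0 / q) * (1 - 4 * e) ≤ (1 - 2 * q0 / q) * ((1 - 2 * e) * (1 - 2 * e)) :=
          mul_le_mul_of_nonneg_left (by nlinarith) (by linarith)
        nlinarith [mul_nonneg h5 he0.le]
    _ ≤ _ := by
        refine Finset.sum_le_sum fun v hv => ?_
        obtain ⟨a1, a2, a3, a4⟩ := win_facts hq0 hv
        have b1 : (0 : ℝ) < v / q := div_pos (by linarith) a1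
        have b2 : (0 : ℝ) < 1 - v / q := by
          rw [sub_pos, div_lt_one a1]
          linarith
        rw [ENNReal.ofReal_mul (by positivity), ENNReal.ofReal_mul (by linarith)]
        gcongr
        · exact bl_ge h (by linarith) b1 (by linarith)
        · exact bl_ge h (by linarith) b2 (by linarith)

theorem mass_one_le (h : StmtChain) {D : ℝ} (hD : 0 ≤ D) :
    mass (kp D fun _ _ => 1) ≤ ENNReal.ofReal (4 * D ^ 2) := by
  unfold mass
  calc _ ≤ ∫⁻ u, (Metric.closedBall (0 : E) D).indicator 1 u := by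
        refine lintegral_mono fun u => ?_
        by_cases hu : ‖u‖ ≤ D
        · rw [Set.indicator_of_mem (by simpa using hu), Pi.one_apply, ← h.ph_int 1 one_pos u]
          refine lintegral_mono fun u' => ?_
          have : kp D (fun _ _ => 1) u u' ≤ 1 := by
            unfold kp
            rw [← ENNReal.ofReal_one]
            exact ENNReal.ofReal_le_ofReal (kap_le zero_le_one (fun _ _ => le_rfl) u u')
          calc _ ≤ ENNReal.ofReal (ph 1 (u' - u)) * 1 := by gcongr
            _ = _ := mul_one _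
        · simp [kp, kap, hu]
    _ = volume (Metric.closedBall (0 : E) D) := lintegral_indicator_one measurableSet_closedBall
    _ ≤ _ := by
        rw [EuclideanSpace.volume_closedBall_fin_two, ← ENNReal.ofReal_pow hD,
          ← ENNReal.ofReal_mul (by positivity)]
        apply ENNReal.ofReal_le_ofReal
        have := Real.pi_le_four
        nlinarith [sq_nonneg D]

end Pool.Agent.MP_037c5a_pr.Mo
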