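import Pool.Agent.MP_037c5a_pr.Mom2

open MeasureTheory Finset

namespace Pool.Agent.MP_037c5a_pr.Mo

theorem integrable_bdd {α : Type} [MeasurableSpace α] {μ : Measure α} [IsProbabilityMeasure μ]
    {f : α → ℝ} {C : ℝ} (hf : Measurable f) (h0 : ∀ x, 0 ≤ f x) (h1 : ∀ x, f x ≤ C) :
    Integrable f μ :=
  Integrable.of_bound hf.aestronglyMeasurable C
    (Filter.Eventually.of_forall fun x => by rw [Real.norm_eq_abs, abs_of_nonneg (h0 x)]; exact h1 x)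

theorem int_le {α : Type} [MeasurableSpace α] {μ : Measure α} {f : α → ℝ} {c : ℝ}
    (hf : Integrable f μ) (h0 : ∀ x, 0 ≤ f x) (hc : 0 ≤ c)
    (h : ∫⁻ x, ENNReal.ofReal (f x) ∂μ ≤ ENNReal.ofReal c) : ∫ x, f x ∂μ ≤ c := by
  rw [← ofReal_integral_eq_lintegral_ofReal hf (Filter.Eventually.of_forall h0)] at h
  exact (ENNReal.ofReal_le_ofReal_iff hc).mp h

theorem int_ge {α : Type} [MeasurableSpace α] {μ : Measure α} {f : α → ℝ} {c : ℝ}
    (hf : Integrable f μ) (h0 : ∀ x, 0 ≤ f x)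
    (h : ENNReal.ofReal c ≤ ∫⁻ x, ENNReal.ofReal (f x) ∂μ) : c ≤ ∫ x, f x ∂μ := by
  rw [← ofReal_integral_eq_lintegral_ofReal hf (Filter.Eventually.of_forall h0)] at h
  exact (ENNReal.ofReal_le_ofReal_iff (integral_nonneg h0)).mp h

theorem dbl_le' {D : ℝ} {g : E → E → ℝ} {F1 F2 : E → ENNReal} {a b m : ℝ} (ha : 0 ≤ a)
    (hb : 0 ≤ b) (h1 : ∀ u, ‖u‖ ≤ D → F1 u ≤ ENNReal.ofReal a)
    (h2 : ∀ u, ‖u‖ ≤ D → F2 u ≤ ENNReal.ofReal b) (hm : mass (kp D g) ≤ ENNReal.ofReal m) :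
    dbl F1 F2 (kp D g) ≤ ENNReal.ofReal (a * b * m) := by
  refine (dbl_le ENNReal.ofReal_ne_top ENNReal.ofReal_ne_top h1 h2).trans ?_
  rw [ENNReal.ofReal_mul (mul_nonneg ha hb), ENNReal.ofReal_mul ha]
  gcongr

theorem dbl_ge' {D : ℝ} {g : E → E → ℝ} {F1 F2 : E → ENNReal} {a b m : ℝ} (ha : 0 ≤ a)
    (hb : 0 ≤ b) (h1 : ∀ u, ‖u‖ ≤ D → ENNReal.ofReal a ≤ F1 u)
    (h2 : ∀ u, ‖u‖ ≤ D → ENNReal.ofReal b ≤ F2 u) (hm : ENNReal.ofReal m ≤ mass (kp D g)) :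
    ENNReal.ofReal (a * b * m) ≤ dbl F1 F2 (kp D g) := by
  refine le_trans ?_ (dbl_ge ENNReal.ofReal_ne_top ENNReal.ofReal_ne_top h1 h2)
  rw [ENNReal.ofReal_mul (mul_nonneg ha hb), ENNReal.ofReal_mul ha]
  gcongr

theorem inv_mul_le' {c x : ℝ} (hc : 0 < c) {X : ENNReal} (h : X ≤ ENNReal.ofReal x) :
    (ENNReal.ofReal c)⁻¹ * X ≤ ENNReal.ofReal (c⁻¹ * x) := by
  rw [ENNReal.ofReal_mul (by positivity), ENNReal.ofReal_inv_of_pos hc]
  gcongr

theorem inv_mul_ge' {c x : ℝ} (hc : 0 < c) {X : ENNReal} (h : ENNReal.ofReal x ≤ X) :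
    ENNReal.ofReal (c⁻¹ * x) ≤ (ENNReal.ofReal c)⁻¹ * X := by
  rw [ENNReal.ofReal_mul (by positivity), ENNReal.ofReal_inv_of_pos hc]
  gcongr

/-- one edge variable -/
noncomputable def X (k : ℕ) (D : ℝ) (P Q : E) (g : E → E → ℝ) (l : ℕ) (β : Fin k → E) : ℝ :=
  kap D g (bp k P Q β l) (bp k P Q β (l + 1))

theorem measurable_bp (h : StmtChain) (k : ℕ) (P Q : E) (l : ℕ) :
    Measurable fun β : Fin k → E => bp k P Q β l :=
  (h.meas_bp k l).comp (measurable_const.prodMk (measurable_const.prodMk measurable_id))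

theorem measurable_X (h : StmtChain) (k : ℕ) (D : ℝ) (P Q : E) {g : E → E → ℝ}
    (hg : Measurable (Function.uncurry g)) (l : ℕ) : Measurable (X k D P Q g l) := by
  have h1 := (measurable_kap D hg).comp
    ((measurable_bp h k P Q l).prodMk (measurable_bp h k P Q (l + 1)))
  have h2 : X k D P Q g l = Function.uncurry (kap D g) ∘
      fun β => (bp k P Q β l, bp k P Q β (l + 1)) := by
    funext β
    simp only [X, Function.comp_apply, Function.uncurry_apply_pair]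
  rw [h2]
  exact h1

theorem X_nonneg {k : ℕ} {D : ℝ} {P Q : E} {g : E → E → ℝ} (hg : ∀ u u', 0 ≤ g u u') (l : ℕ)
    (β : Fin k → E) : 0 ≤ X k D P Q g l β := kap_nonneg hg _ _

theorem X_le {k : ℕ} {D c : ℝ} {P Q : E} {g : E → E → ℝ} (hc : 0 ≤ c) (hg : ∀ u u', g u u' ≤ c)
    (l : ℕ) (β : Fin k → E) : X k D P Q g l β ≤ c := kap_le hc hg _ _

/-- the comparison exponent -/
noncomputable def ww (q q0 : ℕ) (D η : ℝ) : ℝ := η * ((D + 1) ^ 2 / ((q0 : ℝ) / q) ^ 2)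

section
variable {q q0 p k bb : ℕ} {D M η : ℝ} {A B z : E}

theorem hyp_q (H : MomHyp q q0 p k bb D M η) :
    (1 : ℝ) ≤ q0 ∧ (4 : ℝ) * q0 ≤ q ∧ (1 : ℝ) ≤ p ∧ (k : ℝ) + 1 = q * p := by
  refine ⟨by exact_mod_cast H.hq0, by exact_mod_cast H.hq, by exact_mod_cast H.hp, ?_⟩
  exact_mod_cast H.hk

theorem ww_eq (H : MomHyp q q0 p k bb D M η) :
    3 * ww q q0 D η = η * (3 * (D + 1) ^ 2 * ((q : ℝ) / q0) ^ 2) := by
  obtain ⟨a1, a2, -, -⟩ := hyp_q H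
  have : (0 : ℝ) < q := by linarith
  unfold ww
  field_simp

theorem eta_pos (H : MomHyp q q0 p k bb D M η) : 0 < η := by
  obtain ⟨a1, a2, -, -⟩ := hyp_q H
  have : (0 : ℝ) < q := by linarith
  exact lt_of_lt_of_le (by positivity) H.hη1

theorem ww_bd (H : MomHyp q q0 p k bb D M η) : 0 ≤ ww q q0 D η ∧ ww q q0 D η ≤ 1 / 12 := by
  have h1 := ww_eq H
  have h2 := H.hζ
  have h3 := eta_pos H
  refine ⟨?_, by linarith⟩
  unfold ww
  positivity

theorem ex2_le (H : MomHyp q q0 p k bb D M η) :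
    Real.exp (ww q q0 D η) * Real.exp (ww q q0 D η) ≤ 6 / 5 := by
  obtain ⟨h0, h1⟩ := ww_bd H
  rw [← Real.exp_add]
  have h2 := Real.add_one_le_exp (-(ww q q0 D η + ww q q0 D η))
  have h3 : Real.exp (ww q q0 D η + ww q q0 D η) * Real.exp (-(ww q q0 D η + ww q q0 D η)) = 1 := by
    rw [← Real.exp_add]
    simp
  have h4 := Real.exp_pos (ww q q0 D η + ww q q0 D η)
  nlinarith

theorem cmp_gen (H : MomHyp q q0 p k bb D M η) (hz : ‖z‖ + D / M ≤ η) {C u : E} (hC : ‖C‖ ≤ D)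
    (hu : ‖u‖ ≤ D) {τ t : ℝ} (h1 : (q0 : ℝ) / q ≤ τ / (k + 1)) (h2 : (q0 : ℝ) / q ≤ t)
    (h3 : |t - τ / (k + 1)| ≤ η) :
    ph τ (M • (C - z) - u) ≤ ((k : ℝ) + 1)⁻¹ * (Real.exp (ww q q0 D η) * ph t C) ∧
      ((k : ℝ) + 1)⁻¹ * (Real.exp (-ww q q0 D η) * ph t C) ≤ ph τ (M • (C - z) - u) := by
  obtain ⟨a1, a2, -, -⟩ := hyp_q H
  have hq : (0 : ℝ) < q := by linarith
  have hs0 : (0 : ℝ) < q0 / q := by positivity
  have hs1 : (q0 : ℝ) / q ≤ 1 / 4 := by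
    rw [div_le_iff₀ hq]
    linarith
  have hn : (0 : ℝ) < k + 1 := by positivity
  have hτ : 0 < τ := by
    have : 0 < τ / (k + 1) := lt_of_lt_of_le hs0 h1
    exact (div_pos_iff_of_pos_right hn).mp this
  have hM := H.hM
  have e1 : M • (C - z) - u = M • (C - z - M⁻¹ • u) := by
    rw [smul_sub M (C - z), smul_smul, mul_inv_cancel₀ hM.ne', one_smul]
  have e2 : ‖C - (C - z - M⁻¹ • u)‖ ≤ η := by
    have : C - (C - z - M⁻¹ • u) = z + M⁻¹ • u := by abel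
    rw [this]
    refine (norm_add_le _ _).trans (le_trans ?_ hz)
    rw [norm_smul, Real.norm_eq_abs, abs_of_pos (inv_pos.mpr hM), div_eq_inv_mul]
    gcongr
  have e3 : ‖C - z - M⁻¹ • u‖ ≤ D + 1 := by
    have := norm_sub_norm_le (C - z - M⁻¹ • u) C
    rw [norm_sub_rev (C - z - M⁻¹ • u) C] at this
    have := H.hη2
    linarith
  rw [e1, ph_scale H.hM2 hn hτ]
  constructor
  · apply mul_le_mul_of_nonneg_left _ (by positivity)
    exact ph_cmp hs0 hs1 H.hD h2 h1 h3 (by linarith) e3 e2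
  · apply mul_le_mul_of_nonneg_left _ (by positivity)
    have := ph_cmp (η := η) hs0 hs1 H.hD h1 h2 (by rwa [abs_sub_comm]) e3 (x' := C) (by linarith)
      (by rwa [norm_sub_rev])
    rw [Real.exp_neg, inv_mul_le_iff₀ (Real.exp_pos _)]
    exact this

theorem den_eq (H : MomHyp q q0 p k bb D M η) (A B z : E) :
    ph (k + 1) (M • (B - z) - M • (A - z)) = ((k : ℝ) + 1)⁻¹ * ph 1 (B - A) := by
  have hn : (0 : ℝ) < k + 1 := by positivity
  have : M • (B - z) - M • (A - z) = M • (B - A) := by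
    rw [← smul_sub]
    congr 1
    abel
  rw [this, ph_scale H.hM2 hn hn, div_self hn.ne']

theorem win_nat (H : MomHyp q q0 p k bb D M η) {l : ℕ} (hl : l ∈ Ico (q0 * p) ((q - q0) * p)) :
    1 ≤ l ∧ l + 1 ≤ k ∧ l / p ∈ Ico q0 (q - q0) ∧ l / p * p ≤ l ∧ l + 1 ≤ l / p * p + p ∧
      q0 * p ≤ l ∧ l + 1 + q0 * p ≤ k + 1 := by
  rw [Finset.mem_Ico] at hl
  have hp : 0 < p := H.hp
  have h1 : 1 ≤ q0 * p := Nat.mul_pos H.hq0 hp
  have hq := H.hq
  have h2 : (q - q0) * p + q0 * p = k + 1 := by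
    rw [← add_mul, H.hk]
    congr 1
    omega
  have h3 := Nat.div_mul_le_self l p
  have h4 : l < l / p * p + p := Nat.lt_div_mul_add hp
  refine ⟨by omega, by omega, ?_, h3, by omega, hl.1, by omega⟩
  rw [Finset.mem_Ico, Nat.le_div_iff_mul_le hp, Nat.div_lt_iff_lt_mul hp]
  exact hl

/-- bounds for the first and last factor -/
theorem fac1 (H : MomHyp q q0 p k bb D M η) (hA : ‖A‖ ≤ D) (hz : ‖z‖ + D / M ≤ η) {l : ℕ}
    (hl : l ∈ Ico (q0 * p) ((q - q0) * p)) {u : E} (hu : ‖u‖ ≤ D) :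
    ph l (u - M • (A - z)) ≤
        ((k : ℝ) + 1)⁻¹ * (Real.exp (ww q q0 D η) * ph ((l / p : ℕ) / q) A) ∧
      ((k : ℝ) + 1)⁻¹ * (Real.exp (-ww q q0 D η) * ph ((l / p : ℕ) / q) A) ≤
        ph l (u - M • (A - z)) := by
  obtain ⟨a1, a2, a3, a4⟩ := hyp_q H
  obtain ⟨-, -, b3, b4, b5, b6, -⟩ := win_nat H hl
  obtain ⟨c1, c2, -, -⟩ := win_facts H.hq0 b3
  have d4 : ((l / p : ℕ) : ℝ) * p ≤ l := by exact_mod_cast b4
  have d5 : (l : ℝ) + 1 ≤ (l / p : ℕ) * p + p := by exact_mod_cast b5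
  have d6 : (q0 : ℝ) * p ≤ l := by exact_mod_cast b6
  have hp : (0 : ℝ) < p := by linarith
  rw [← ph_neg, neg_sub]
  apply cmp_gen H hz hA hu
  · rw [a4, div_le_div_iff₀ c1 (by positivity)]
    nlinarith
  · exact div_le_div_of_nonneg_right c2 c1.le
  · have e : ((l / p : ℕ) : ℝ) / q - l / (k + 1) = ((l / p : ℕ) * p - l) / (q * p) := by
      rw [a4]
      field_simp
    rw [e, abs_div, abs_of_pos (show (0 : ℝ) < q * p by positivity)]
    refine le_trans ?_ H.hη1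
    rw [div_le_div_iff₀ (by positivity) c1]
    have : |((l / p : ℕ) : ℝ) * p - l| ≤ 2 * p := abs_le.mpr ⟨by linarith, by linarith⟩
    nlinarith

theorem fac2 (H : MomHyp q q0 p k bb D M η) (hB : ‖B‖ ≤ D) (hz : ‖z‖ + D / M ≤ η) {l l' : ℕ}
    (hl : l ∈ Ico (q0 * p) ((q - q0) * p)) (hl' : l' ∈ Ico (q0 * p) ((q - q0) * p))
    (h1 : l ≤ l') (h2 : l' ≤ l + p) {u : E} (hu : ‖u‖ ≤ D) :
    ph (k - l') (M • (B - z) - u) ≤
        ((k : ℝ) + 1)⁻¹ * (Real.exp (ww q q0 D η) * ph (1 - (l / p : ℕ) / q) B) ∧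
      ((k : ℝ) + 1)⁻¹ * (Real.exp (-ww q q0 D η) * ph (1 - (l / p : ℕ) / q) B) ≤
        ph (k - l') (M • (B - z) - u) := by
  obtain ⟨a1, a2, a3, a4⟩ := hyp_q H
  obtain ⟨-, -, b3, b4, b5, b6, -⟩ := win_nat H hl
  obtain ⟨-, -, -, -, -, -, b7⟩ := win_nat H hl'
  obtain ⟨c1, c2, c3, -⟩ := win_facts H.hq0 b3
  have d4 : ((l / p : ℕ) : ℝ) * p ≤ l := by exact_mod_cast b4
  have d5 : (l : ℝ) + 1 ≤ (l / p : ℕ) * p + p := by exact_mod_cast b5
  have d7 : (l' : ℝ) + 1 + q0 * p ≤ k + 1 := by exact_mod_cast b7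
  have d8 : (l : ℝ) ≤ l' := by exact_mod_cast h1
  have d9 : (l' : ℝ) ≤ l + p := by exact_mod_cast h2
  have hp : (0 : ℝ) < p := by linarith
  apply cmp_gen H hz hB hu
  · rw [a4, div_le_div_iff₀ c1 (by positivity)]
    nlinarith
  · rw [le_sub_iff_add_le, ← add_div, div_le_one c1]
    linarith
  · have e : 1 - ((l / p : ℕ) : ℝ) / q - (k - l') / (k + 1) =
        (l' + 1 - (l / p : ℕ) * p) / (q * p) := by
      have : (k : ℝ) - l' = q * p - (l' + 1) := by linarith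
      rw [this, a4]
      field_simp
      ring
    rw [e, abs_div, abs_of_pos (show (0 : ℝ) < q * p by positivity)]
    refine le_trans ?_ H.hη1
    rw [div_le_div_iff₀ (by positivity) c1]
    have : |(l' : ℝ) + 1 - (l / p : ℕ) * p| ≤ 2 * p := abs_le.mpr ⟨by linarith, by linarith⟩
    nlinarith

theorem ph_win (H : MomHyp q q0 p k bb D M η) {l : ℕ} (hl : l ∈ Ico (q0 * p) ((q - q0) * p))
    (A B : E) : 0 < ph ((l / p : ℕ) / q) A ∧ 0 < ph (1 - (l / p : ℕ) / q) B := by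
  obtain ⟨-, -, b3, -⟩ := win_nat H hl
  obtain ⟨h1, h2, h3, h4⟩ := win_facts H.hq0 b3
  refine ⟨ph_pos (div_pos (by linarith) h1) _, ph_pos ?_ _⟩
  rw [sub_pos, div_lt_one h1]
  linarith

theorem one_le (h : StmtChain) (H : MomHyp q q0 p k bb D M η) (hA : ‖A‖ ≤ D) (hB : ‖B‖ ≤ D)
    (hz : ‖z‖ + D / M ≤ η) {g : E → E → ℝ} (hg : Measurable (Function.uncurry g)) {c m : ℝ}
    (hc : 0 ≤ c) (hg0 : ∀ u u', 0 ≤ g u u') (hg1 : ∀ u u', g u u' ≤ c) (hm0 : 0 ≤ m)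
    (hm : mass (kp D g) ≤ ENNReal.ofReal m) {l : ℕ} (hl : l ∈ Ico (q0 * p) ((q - q0) * p)) :
    ∫ β, X k D (M • (A - z)) (M • (B - z)) g l β ∂nu k ≤
      6 / 5 * m * (((k : ℝ) + 1)⁻¹ * tm q (l / p) A B) := by
  have := h.nu_prob k
  obtain ⟨b1, b2, b3, -⟩ := win_nat H hl
  obtain ⟨p1, p2⟩ := ph_win H hl A B
  have p3 := ph_pos one_pos (B - A)
  have ht := tm_pos H.hq0 b3 A B
  have hn : (0 : ℝ) < k + 1 := by positivity
  refine int_le (integrable_bdd (measurable_X h _ _ _ _ hg l) (X_nonneg hg0 l) (X_le hc hg1 l))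
    (X_nonneg hg0 l) (by positivity) ?_
  have e := h.one_edge k l (M • (A - z)) (M • (B - z)) (kp D g) (measurable_kp D hg) b1 b2
  refine (le_of_eq e).trans ?_
  have e2 := dbl_le' (D := D) (g := g)
    (F1 := fun u => ENNReal.ofReal (ph l (u - M • (A - z))))
    (F2 := fun u => ENNReal.ofReal (ph (k - l) (M • (B - z) - u))) (by positivity) (by positivity)
    (fun u hu => ENNReal.ofReal_le_ofReal (fac1 H hA hz hl hu).1)
    (fun u hu => ENNReal.ofReal_le_ofReal (fac2 H hB hz hl hl le_rfl (by omega) hu).1) hm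
  rw [den_eq H]
  refine (inv_mul_le' (by positivity) e2).trans (ENNReal.ofReal_le_ofReal ?_)
  have e3 := ex2_le H
  calc _ = (Real.exp (ww q q0 D η) * Real.exp (ww q q0 D η)) * m *
        (((k : ℝ) + 1)⁻¹ * tm q (l / p) A B) := by
        unfold tm
        field_simp
    _ ≤ _ := by gcongr

theorem one_ge (h : StmtChain) (H : MomHyp q q0 p k bb D M η) (hA : ‖A‖ ≤ D) (hB : ‖B‖ ≤ D)
    (hz : ‖z‖ + D / M ≤ η) {g : E → E → ℝ} (hg : Measurable (Function.uncurry g)) {c m : ℝ}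
    (hc : 0 ≤ c) (hg0 : ∀ u u', 0 ≤ g u u') (hg1 : ∀ u u', g u u' ≤ c) (hm0 : 0 ≤ m)
    (hm : ENNReal.ofReal m ≤ mass (kp D g)) {l : ℕ} (hl : l ∈ Ico (q0 * p) ((q - q0) * p)) :
    (1 - 2 * ww q q0 D η) * m * (((k : ℝ) + 1)⁻¹ * tm q (l / p) A B) ≤
      ∫ β, X k D (M • (A - z)) (M • (B - z)) g l β ∂nu k := by
  have := h.nu_prob k
  obtain ⟨b1, b2, b3, -⟩ := win_nat H hl
  obtain ⟨p1, p2⟩ := ph_win H hl A B
  have p3 := ph_pos one_pos (B - A)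
  have ht := tm_pos H.hq0 b3 A B
  have hn : (0 : ℝ) < k + 1 := by positivity
  refine int_ge (integrable_bdd (measurable_X h _ _ _ _ hg l) (X_nonneg hg0 l) (X_le hc hg1 l))
    (X_nonneg hg0 l) ?_
  have e := h.one_edge k l (M • (A - z)) (M • (B - z)) (kp D g) (measurable_kp D hg) b1 b2
  refine le_trans ?_ (le_of_eq e.symm)
  have e2 := dbl_ge' (D := D) (g := g)
    (F1 := fun u => ENNReal.ofReal (ph l (u - M • (A - z))))
    (F2 := fun u => ENNReal.ofReal (ph (k - l) (M • (B - z) - u))) (by positivity) (by positivity)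
    (fun u hu => ENNReal.ofReal_le_ofReal (fac1 H hA hz hl hu).2)
    (fun u hu => ENNReal.ofReal_le_ofReal (fac2 H hB hz hl hl le_rfl (by omega) hu).2) hm
  rw [den_eq H]
  refine le_trans (ENNReal.ofReal_le_ofReal ?_) (inv_mul_ge' (by positivity) e2)
  have e3 : 1 - 2 * ww q q0 D η ≤ Real.exp (-ww q q0 D η) * Real.exp (-ww q q0 D η) := by
    rw [← Real.exp_add]
    have := Real.add_one_le_exp (-ww q q0 D η + -ww q q0 D η)
    linarith
  calc _ ≤ (Real.exp (-ww q q0 D η) * Real.exp (-ww q q0 D η)) * m *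
        (((k : ℝ) + 1)⁻¹ * tm q (l / p) A B) := by gcongr
    _ = _ := by
        unfold tm
        field_simp

end

end Pool.Agent.MP_037c5a_pr.Mo
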