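import Pool.Agent.MP_037c5a_pr.Mom3

open MeasureTheory Finset

namespace Pool.Agent.MP_037c5a_pr.Mo

theorem sum_div (f : ℕ → ℝ) (p a : ℕ) : ∀ b : ℕ, a ≤ b →
    ∑ l ∈ Ico (a * p) (b * p), f (l / p) = p * ∑ v ∈ Ico a b, f v := by
  intro b hb
  induction b, hb using Nat.le_induction with
  | base => simp
  | succ b hb ih =>
    rw [Finset.sum_Ico_succ_top hb, mul_add, ← ih,
      ← Finset.sum_Ico_consecutive _ (Nat.mul_le_mul_right p hb)
        (Nat.mul_le_mul_right p (Nat.le_succ b))]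
    congr 1
    have h1 : ∀ l ∈ Ico (b * p) (b.succ * p), f (l / p) = f b := by
      intro l hl
      rw [Finset.mem_Ico] at hl
      congr 1
      exact Nat.div_eq_of_lt_le hl.1 hl.2
    rw [Finset.sum_congr rfl h1, Finset.sum_const, Nat.card_Ico, nsmul_eq_mul]
    congr 1
    rw [Nat.succ_mul]
    simp

theorem sq_sum_le (W : Finset ℕ) (x : ℕ → ℝ) {c : ℝ} (hc : 0 ≤ c) (h0 : ∀ l, 0 ≤ x l)
    (h1 : ∀ l, x l ≤ c) :
    (∑ l ∈ W, x l) ^ 2 ≤ 3 * c * ∑ l ∈ W, x l +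
      2 * ∑ l ∈ W, ∑ l' ∈ W.filter (fun l' => l + 2 ≤ l'), x l * x l' := by
  have e1 : ∀ l ∈ W, ∀ l' ∈ W, x l * x l' ≤
      (if l' ∈ ({l - 1, l, l + 1} : Finset ℕ) then c * x l else 0) +
        ((if l + 2 ≤ l' then x l * x l' else 0) + (if l' + 2 ≤ l then x l' * x l else 0)) := by
    intro l _ l' _
    have a0 := mul_nonneg (h0 l) (h0 l')
    have a0' := mul_nonneg (h0 l') (h0 l)
    have a1 := mul_nonneg hc (h0 l)
    have a2 : x l * x l' ≤ c * x l := by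
      rw [mul_comm c]
      exact mul_le_mul_of_nonneg_left (h1 l') (h0 l)
    have a3 : x l' * x l = x l * x l' := mul_comm _ _
    by_cases b1 : l + 2 ≤ l'
    · rw [if_pos b1]
      split_ifs <;> linarith
    · by_cases b2 : l' + 2 ≤ l
      · rw [if_neg b1, if_pos b2]
        split_ifs <;> linarith
      · rw [if_neg b1, if_neg b2, if_pos (by simp only [mem_insert, mem_singleton]; omega)]
        linarith
  have e2 : ∀ l ∈ W, ∑ l' ∈ W, (if l' ∈ ({l - 1, l, l + 1} : Finset ℕ) then c * x l else 0) ≤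
      3 * c * x l := by
    intro l _
    rw [← Finset.sum_filter, Finset.sum_const, nsmul_eq_mul]
    have : (W.filter fun l' => l' ∈ ({l - 1, l, l + 1} : Finset ℕ)).card ≤ 3 :=
      (Finset.card_le_card fun y hy => (Finset.mem_filter.mp hy).2).trans Finset.card_le_three
    have : ((W.filter fun l' => l' ∈ ({l - 1, l, l + 1} : Finset ℕ)).card : ℝ) ≤ 3 := by
      exact_mod_cast this
    have a1 := mul_nonneg hc (h0 l)
    nlinarith
  calc (∑ l ∈ W, x l) ^ 2 = ∑ l ∈ W, ∑ l' ∈ W, x l * x l' := by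
        rw [sq, Finset.sum_mul_sum]
    _ ≤ ∑ l ∈ W, ∑ l' ∈ W, ((if l' ∈ ({l - 1, l, l + 1} : Finset ℕ) then c * x l else 0) +
        ((if l + 2 ≤ l' then x l * x l' else 0) + (if l' + 2 ≤ l then x l' * x l else 0))) :=
        Finset.sum_le_sum fun l hl => Finset.sum_le_sum fun l' hl' => e1 l hl l' hl'
    _ = ∑ l ∈ W, ∑ l' ∈ W, (if l' ∈ ({l - 1, l, l + 1} : Finset ℕ) then c * x l else 0) +
        2 * ∑ l ∈ W, ∑ l' ∈ W.filter (fun l' => l + 2 ≤ l'), x l * x l' := by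
        simp only [Finset.sum_add_distrib, Finset.sum_filter]
        rw [Finset.sum_comm (f := fun l l' => if l' + 2 ≤ l then x l' * x l else 0)]
        ring
    _ ≤ _ := by
        rw [Finset.mul_sum (f := x)]
        exact add_le_add (Finset.sum_le_sum e2) le_rfl

theorem sq_sum_ge (W W' J : Finset ℕ) (x : ℕ → ℝ) (h0 : ∀ l, 0 ≤ x l) (hW : W' ⊆ W)
    (hJ : ∀ l ∈ W', ∀ j ∈ J, l + j + 1 ∈ W) :
    ∑ l ∈ W', ∑ j ∈ J, x l * x (l + j + 1) ≤ (∑ l ∈ W, x l) ^ 2 := by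
  rw [sq, Finset.sum_mul]
  refine le_trans (Finset.sum_le_sum fun l hl => ?_)
    (Finset.sum_le_sum_of_subset_of_nonneg hW fun l _ _ =>
      mul_nonneg (h0 l) (Finset.sum_nonneg fun l _ => h0 l))
  rw [← Finset.mul_sum]
  apply mul_le_mul_of_nonneg_left _ (h0 l)
  rw [← Finset.sum_image (s := J) (g := fun j => l + j + 1) (f := x)
    (fun a _ b _ h => by simpa using h)]
  refine Finset.sum_le_sum_of_subset_of_nonneg ?_ fun l _ _ => h0 l
  intro y hy
  obtain ⟨j, hj, rfl⟩ := Finset.mem_image.mp hy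
  exact hJ l hl j hj

section
variable {q q0 p k bb : ℕ} {D M η : ℝ} {A B z : E}

theorem two_eq (h : StmtChain) (P Q : E) {g : E → E → ℝ} (hg : Measurable (Function.uncurry g))
    (hg0 : ∀ u u', 0 ≤ g u u') {l l' : ℕ} (h1 : 1 ≤ l) (h2 : l + 2 ≤ l') (h3 : l' + 1 ≤ k) :
    ∫⁻ β, ENNReal.ofReal (X k D P Q g l β * X k D P Q g l' β) ∂nu k =
      (ENNReal.ofReal (ph (k + 1) (Q - P)))⁻¹ *
        dbl (fun u => ENNReal.ofReal (ph l (u - P)))
          (fun u' => dbl (fun v => ENNReal.ofReal (ph (l' - l - 1) (v - u')))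
            (fun v' => ENNReal.ofReal (ph (k - l') (Q - v'))) (kp D g)) (kp D g) := by
  have e := h.two_edge k l l' P Q (kp D g) (kp D g) (measurable_kp D hg) (measurable_kp D hg)
    h1 h2 h3
  have e2 : ∀ β, ENNReal.ofReal (X k D P Q g l β * X k D P Q g l' β) =
      kp D g (bp k P Q β l) (bp k P Q β (l + 1)) * kp D g (bp k P Q β l') (bp k P Q β (l' + 1)) := by
    intro β
    rw [ENNReal.ofReal_mul (X_nonneg hg0 l β)]
    simp only [X, kp]
  simp only [e2]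
  rw [e]
  simp only [dbl]

theorem integrable_XX (h : StmtChain) (P Q : E) {g : E → E → ℝ}
    (hg : Measurable (Function.uncurry g)) {c : ℝ} (hc : 0 ≤ c) (hg0 : ∀ u u', 0 ≤ g u u')
    (hg1 : ∀ u u', g u u' ≤ c) (l l' : ℕ) :
    Integrable (fun β => X k D P Q g l β * X k D P Q g l' β) (nu k) := by
  have := h.nu_prob k
  exact integrable_bdd (C := c * c) ((measurable_X h k D P Q hg l).mul (measurable_X h k D P Q hg l'))
    (fun β => mul_nonneg (X_nonneg hg0 l β) (X_nonneg hg0 l' β))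
    (fun β => mul_le_mul (X_le hc hg1 l β) (X_le hc hg1 l' β) (X_nonneg hg0 l' β) hc)

theorem two_le (h : StmtChain) (H : MomHyp q q0 p k bb D M η) (hA : ‖A‖ ≤ D) (hB : ‖B‖ ≤ D)
    (hz : ‖z‖ + D / M ≤ η) {g : E → E → ℝ} (hg : Measurable (Function.uncurry g)) {c : ℝ}
    (hc : 0 ≤ c) (hg0 : ∀ u u', 0 ≤ g u u') (hg1 : ∀ u u', g u u' ≤ c)
    (hm : mass (kp D g) ≤ ENNReal.ofReal 1) {l l' : ℕ} (hl : l ∈ Ico (q0 * p) ((q - q0) * p))
    (hl' : l' ∈ Ico (q0 * p) ((q - q0) * p)) (hll : l + 2 ≤ l') :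
    ∫ β, X k D (M • (A - z)) (M • (B - z)) g l β * X k D (M • (A - z)) (M • (B - z)) g l' β ∂nu k ≤
      1 / 5 * (2 * ((k - l' : ℕ) : ℝ)⁻¹ + ((l' - l - 1 : ℕ) : ℝ)⁻¹) *
        (((k : ℝ) + 1)⁻¹ * tm q (l / p) A B) := by
  obtain ⟨b1, b2, b3, -⟩ := win_nat H hl
  obtain ⟨-, b2', -⟩ := win_nat H hl'
  obtain ⟨p1, p2⟩ := ph_win H hl A B
  have p3 := ph_pos one_pos (B - A)
  have ht := tm_pos H.hq0 b3 A B
  have hn : (0 : ℝ) < k + 1 := by positivity
  have hpi := Real.pi_gt_three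
  have c1 : ((k - l' : ℕ) : ℝ) = k - l' := Nat.cast_sub (by omega)
  have c2 : ((l' - l - 1 : ℕ) : ℝ) = l' - l - 1 := by
    rw [Nat.cast_sub (by omega), Nat.cast_sub (by omega), Nat.cast_one]
  have c3 : (l' : ℝ) + 1 ≤ k := by exact_mod_cast b2'
  have c4 : (l : ℝ) + 2 ≤ l' := by exact_mod_cast hll
  have c5 : (0 : ℝ) < k - l' := by linarith
  have c6 : (0 : ℝ) < l' - l - 1 := by linarith
  have c7 : (0 : ℝ) < k - l := by linarith
  rw [c1, c2]
  refine int_le (integrable_XX h _ _ hg hc hg0 hg1 l l')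
    (fun β => mul_nonneg (X_nonneg hg0 l β) (X_nonneg hg0 l' β)) (by positivity) ?_
  rw [two_eq h _ _ hg hg0 b1 hll b2', den_eq H]
  have e1 : ∀ u', ‖u'‖ ≤ D → dbl (fun v => ENNReal.ofReal (ph (l' - l - 1) (v - u')))
      (fun v' => ENNReal.ofReal (ph (k - l') (M • (B - z) - v'))) (kp D g) ≤
      ENNReal.ofReal ((2 * Real.pi * (l' - l - 1))⁻¹ * ((k - l) / (k - l') * (((k : ℝ) + 1)⁻¹ *
        (Real.exp (ww q q0 D η) * ph (1 - (l / p : ℕ) / q) B))) * 1) := by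
    intro u' _
    refine dbl_le' (by positivity) (by positivity)
      (fun v _ => ENNReal.ofReal_le_ofReal (ph_le c6 _))
      (fun v hv => ENNReal.ofReal_le_ofReal ?_) hm
    refine (ph_lam c5 (show (k : ℝ) - l' ≤ k - l by linarith) _).trans ?_
    exact mul_le_mul_of_nonneg_left (fac2 H hB hz hl hl le_rfl (by omega) hv).1 (by positivity)
  have e2 := dbl_le' (D := D) (g := g)
    (F1 := fun u => ENNReal.ofReal (ph l (u - M • (A - z)))) (by positivity) (by positivity)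
    (fun u hu => ENNReal.ofReal_le_ofReal (fac1 H hA hz hl hu).1) e1 hm
  refine (inv_mul_le' (by positivity) e2).trans (ENNReal.ofReal_le_ofReal ?_)
  have e3 := ex2_le H
  have e4 : (2 * Real.pi * (l' - l - 1))⁻¹ * ((k - l) / (k - l')) ≤
      1 / 6 * (2 * ((k : ℝ) - l')⁻¹ + ((l' : ℝ) - l - 1)⁻¹) := by
    set i : ℝ := k - l' with hi
    set j : ℝ := l' - l - 1 with hj
    have d1 : (k : ℝ) - l = i + j + 1 := by rw [hi, hj]; ring
    have d2 : 1 ≤ j := by linarith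
    rw [d1]
    calc (2 * Real.pi * j)⁻¹ * ((i + j + 1) / i) = (2 * Real.pi)⁻¹ * ((i + j + 1) / (i * j)) := by
          field_simp
      _ ≤ 1 / 6 * ((i + j + j) / (i * j)) := by
          apply mul_le_mul _ _ (by positivity) (by norm_num)
          · rw [one_div]
            exact inv_anti₀ (by norm_num) (by linarith)
          · exact div_le_div_of_nonneg_right (by linarith) (by positivity)
      _ = _ := by
          field_simp
          ring
  calc _ = (Real.exp (ww q q0 D η) * Real.exp (ww q q0 D η)) *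
        ((2 * Real.pi * (l' - l - 1))⁻¹ * ((k - l) / (k - l'))) *
        (((k : ℝ) + 1)⁻¹ * tm q (l / p) A B) := by
        unfold tm
        field_simp
    _ ≤ 6 / 5 * (1 / 6 * (2 * ((k : ℝ) - l')⁻¹ + ((l' : ℝ) - l - 1)⁻¹)) *
        (((k : ℝ) + 1)⁻¹ * tm q (l / p) A B) := by gcongr
    _ = _ := by ring

theorem two_ge (h : StmtChain) (H : MomHyp q q0 p k bb D M η) (hA : ‖A‖ ≤ D) (hB : ‖B‖ ≤ D)
    (hz : ‖z‖ + D / M ≤ η) {g : E → E → ℝ} (hg : Measurable (Function.uncurry g)) {c : ℝ}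
    (hc : 0 ≤ c) (hg0 : ∀ u u', 0 ≤ g u u') (hg1 : ∀ u u', g u u' ≤ c)
    (hm : ENNReal.ofReal (2 / 5) ≤ mass (kp D g)) {l j : ℕ} (hl : l ∈ Ico (q0 * p) ((q - q0) * p))
    (hl' : l + j + 1 ∈ Ico (q0 * p) ((q - q0) * p)) (hj : 2 * D ^ 2 ≤ j) (hjp : j < p) :
    7 / 1000 * (j : ℝ)⁻¹ * (((k : ℝ) + 1)⁻¹ * tm q (l / p) A B) ≤
      ∫ β, X k D (M • (A - z)) (M • (B - z)) g l β *
        X k D (M • (A - z)) (M • (B - z)) g (l + j + 1) β ∂nu k := by
  obtain ⟨b1, b2, b3, -⟩ := win_nat H hl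
  obtain ⟨-, b2', -⟩ := win_nat H hl'
  obtain ⟨p1, p2⟩ := ph_win H hl A B
  have p3 := ph_pos one_pos (B - A)
  have ht := tm_pos H.hq0 b3 A B
  have hn : (0 : ℝ) < k + 1 := by positivity
  have hpi := Real.pi_pos
  have hD := H.hD
  have c6 : (0 : ℝ) < j := by nlinarith
  have c7 : 1 ≤ j := by exact_mod_cast (show (0 : ℝ) < j from c6)
  have c2 : ((l + j + 1 : ℕ) : ℝ) - l - 1 = j := by
    push_cast
    ring
  refine int_ge (integrable_XX h _ _ hg hc hg0 hg1 l (l + j + 1))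
    (fun β => mul_nonneg (X_nonneg hg0 l β) (X_nonneg hg0 _ β)) ?_
  rw [two_eq h _ _ hg hg0 b1 (by omega) b2', den_eq H, c2]
  have e1 : ∀ u', ‖u'‖ ≤ D →
      ENNReal.ofReal ((Real.exp (-1) * (2 * Real.pi * j)⁻¹) * (((k : ℝ) + 1)⁻¹ *
        (Real.exp (-ww q q0 D η) * ph (1 - (l / p : ℕ) / q) B)) * (2 / 5)) ≤
      dbl (fun v => ENNReal.ofReal (ph j (v - u')))
        (fun v' => ENNReal.ofReal (ph (k - (l + j + 1 : ℕ)) (M • (B - z) - v'))) (kp D g) := by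
    intro u' hu'
    refine dbl_ge' (by positivity) (by positivity)
      (fun v hv => ENNReal.ofReal_le_ofReal (ph_lower c6 ?_))
      (fun v hv => ENNReal.ofReal_le_ofReal
        (fac2 H hB hz hl hl' (by omega) (by omega) hv).2) hm
    have d1 : ‖v - u'‖ ≤ 2 * D := (norm_sub_le _ _).trans (by linarith)
    have d2 : ‖v - u'‖ ^ 2 ≤ (2 * D) ^ 2 := pow_le_pow_left₀ (norm_nonneg _) d1 2
    nlinarith
  have e2 := dbl_ge' (D := D) (g := g)
    (F1 := fun u => ENNReal.ofReal (ph l (u - M • (A - z)))) (by positivity) (by positivity)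
    (fun u hu => ENNReal.ofReal_le_ofReal (fac1 H hA hz hl hu).2) e1 hm
  refine le_trans (ENNReal.ofReal_le_ofReal ?_) (inv_mul_ge' (by positivity) e2)
  have e3 : 5 / 6 ≤ Real.exp (-ww q q0 D η) * Real.exp (-ww q q0 D η) := by
    rw [← Real.exp_add]
    have := Real.add_one_le_exp (-ww q q0 D η + -ww q q0 D η)
    have := (ww_bd H).2
    linarith
  have e4 : (1 / 3 : ℝ) ≤ Real.exp (-1) := by
    rw [Real.exp_neg, one_div]
    apply inv_anti₀ (Real.exp_pos _)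
    have := Real.exp_one_lt_d9
    linarith
  have e5 : (10 / 63 : ℝ) ≤ (2 * Real.pi)⁻¹ := by
    have := Real.pi_lt_d2
    rw [show (10 / 63 : ℝ) = (6.3 : ℝ)⁻¹ by norm_num]
    exact inv_anti₀ (by positivity) (by linarith)
  calc 7 / 1000 * (j : ℝ)⁻¹ * (((k : ℝ) + 1)⁻¹ * tm q (l / p) A B)
      ≤ (5 / 6 * (1 / 3) * (10 / 63) * (4 / 25)) * (j : ℝ)⁻¹ *
        (((k : ℝ) + 1)⁻¹ * tm q (l / p) A B) := by gcongr; norm_num
    _ ≤ ((Real.exp (-ww q q0 D η) * Real.exp (-ww q q0 D η)) * Real.exp (-1) * (2 * Real.pi)⁻¹ *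
        (4 / 25)) * (j : ℝ)⁻¹ * (((k : ℝ) + 1)⁻¹ * tm q (l / p) A B) := by gcongr
    _ = _ := by
        unfold tm
        field_simp
        ring

theorem sum_tm (H : MomHyp q q0 p k bb D M η) (A B : E) {b : ℕ} (hb : q0 ≤ b) :
    ∑ l ∈ Ico (q0 * p) (b * p), ((k : ℝ) + 1)⁻¹ * tm q (l / p) A B =
      (q : ℝ)⁻¹ * ∑ v ∈ Ico q0 b, tm q v A B := by
  obtain ⟨a1, a2, a3, a4⟩ := hyp_q H
  rw [← Finset.mul_sum, sum_div (fun v => tm q v A B) p q0 b hb, a4]
  have : (0 : ℝ) < q := by linarith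
  have : (0 : ℝ) < p := by linarith
  field_simp

theorem sum_tm_gk (H : MomHyp q q0 p k bb D M η) (A B : E) :
    ∑ l ∈ Ico (q0 * p) ((q - q0) * p), ((k : ℝ) + 1)⁻¹ * tm q (l / p) A B = gk q q0 A B := by
  have := H.hq
  rw [sum_tm H A B (by omega), gk_eq]

theorem last_block (H : MomHyp q q0 p k bb D M η) (hA : ‖A‖ ≤ D) (hB : ‖B‖ ≤ D) :
    gk q q0 A B ≤ 11 / 5 * ((q : ℝ)⁻¹ * ∑ v ∈ Ico q0 (q - q0 - 1), tm q v A B) := by
  obtain ⟨a1, a2, a3, a4⟩ := hyp_q H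
  have hq := H.hq
  have hq0 := H.hq0
  have hq1 : (0 : ℝ) < q := by linarith
  obtain ⟨v, hv⟩ : ∃ v, q - q0 = v + 2 := ⟨q - q0 - 2, by omega⟩
  have m1 : v ∈ Ico q0 (q - q0) := by rw [Finset.mem_Ico]; omega
  have m2 : v + 1 ∈ Ico q0 (q - q0) := by rw [Finset.mem_Ico]; omega
  obtain ⟨-, c2, c3, -⟩ := win_facts hq0 m1
  obtain ⟨-, c2', c3', -⟩ := win_facts hq0 m2
  have hs0 : (0 : ℝ) < q0 / q := by positivity
  have hs1 : (q0 : ℝ) / q ≤ 1 / 4 := by
    rw [div_le_iff₀ hq1]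
    linarith
  have hη := eta_pos H
  have hq2 : (q : ℝ)⁻¹ ≤ η := by
    refine le_trans ?_ H.hη1
    rw [div_eq_mul_inv]
    have : (0 : ℝ) < (q : ℝ)⁻¹ := by positivity
    linarith
  have l1 : ∀ w : ℝ, (q0 : ℝ) ≤ w → (q0 : ℝ) / q ≤ w / q := fun w hw =>
    div_le_div_of_nonneg_right hw hq1.le
  have l2 : ∀ w : ℝ, w + 1 ≤ q - q0 → (q0 : ℝ) / q ≤ 1 - w / q := fun w hw => by
    rw [le_sub_iff_add_le, ← add_div, div_le_one hq1]
    linarith
  have e1 : ph ((v + 1 : ℕ) / q) A ≤ Real.exp (ww q q0 D η) * ph (v / q) A := by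
    refine ph_cmp hs0 hs1 H.hD (l1 _ c2) (l1 _ c2') ?_ (by linarith) (by linarith)
      (by simpa using hη.le)
    have : (v : ℝ) / q - (v + 1 : ℕ) / q = -(q : ℝ)⁻¹ := by
      push_cast
      field_simp
      ring
    rw [this, abs_neg, abs_of_pos (by positivity)]
    exact hq2
  have e2 : ph (1 - (v + 1 : ℕ) / q) B ≤ Real.exp (ww q q0 D η) * ph (1 - v / q) B := by
    refine ph_cmp hs0 hs1 H.hD (l2 _ c3) (l2 _ c3') ?_ (by linarith) (by linarith)
      (by simpa using hη.le)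
    have : (1 - (v : ℝ) / q) - (1 - (v + 1 : ℕ) / q) = (q : ℝ)⁻¹ := by
      push_cast
      field_simp
      ring
    rw [this, abs_of_pos (by positivity)]
    exact hq2
  have p1 := ph_pos (lt_of_lt_of_le hs0 (l1 _ c2)) A
  have p2 := ph_pos (lt_of_lt_of_le hs0 (l2 _ c3')) B
  have p3 := ph_pos one_pos (B - A)
  have ht := tm_pos hq0 m1 A B
  have e3 : tm q (v + 1) A B ≤ 6 / 5 * tm q v A B := by
    calc tm q (v + 1) A B ≤ (Real.exp (ww q q0 D η) * ph (v / q) A) *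
          (Real.exp (ww q q0 D η) * ph (1 - v / q) B) / ph 1 (B - A) := by
          unfold tm
          gcongr
      _ = (Real.exp (ww q q0 D η) * Real.exp (ww q q0 D η)) * tm q v A B := by
          unfold tm
          ring
      _ ≤ _ := mul_le_mul_of_nonneg_right (ex2_le H) ht.le
  have e4 : tm q v A B ≤ ∑ w ∈ Ico q0 (v + 1), tm q w A B := by
    refine Finset.single_le_sum (f := fun w => tm q w A B) (fun w hw => (tm_pos hq0 ?_ A B).le) ?_
    · rw [Finset.mem_Ico] at hw ⊢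
      omega
    · rw [Finset.mem_Ico]
      omega
  rw [gk_eq, hv, show v + 2 - 1 = v + 1 by omega, Finset.sum_Ico_succ_top (by omega : q0 ≤ v + 1),
    mul_left_comm]
  apply mul_le_mul_of_nonneg_left _ (by positivity)
  linarith

end

end Pool.Agent.MP_037c5a_pr.Mo
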