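import Pool.Agent.MP_037c5a_pr.Mom4

open MeasureTheory Finset

namespace Pool.Agent.MP_037c5a_pr.Mo

/-- untruncated sum over the window -/
noncomputable def S0 (q q0 p k : ℕ) (D : ℝ) (P Q : E) (g : E → E → ℝ) (β : Fin k → E) : ℝ :=
  ∑ l ∈ Ico (q0 * p) ((q - q0) * p), X k D P Q g l β

theorem sum_cut (q q0 p k : ℕ) (D : ℝ) (P Q : E) (g : E → E → ℝ) (β : Fin k → E) :
    ∑ l ∈ cutSet q q0 p k D P Q β, g (bp k P Q β l) (bp k P Q β (l + 1)) =
      S0 q q0 p k D P Q g β := by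
  unfold cutSet S0
  rw [Finset.sum_filter]
  refine Finset.sum_congr rfl fun l _ => ?_
  by_cases hc : ‖bp k P Q β l‖ ≤ D ∧ ‖bp k P Q β (l + 1)‖ ≤ D
  · simp only [X, kap, hc, and_self, if_true]
  · simp only [X, kap, hc, if_false]

theorem card_cut (q q0 p k : ℕ) (D : ℝ) (P Q : E) (β : Fin k → E) :
    ((cutSet q q0 p k D P Q β).card : ℝ) = S0 q q0 p k D P Q (fun _ _ => 1) β := by
  rw [← sum_cut]
  simp

open Classical in
/-- truncation of a variable -/
noncomputable def tr (q q0 p k bb : ℕ) (D : ℝ) (P Q : E) (f f' : (Fin k → E) → ℝ)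
    (β : Fin k → E) : ℝ :=
  if S0 q q0 p k D P Q (fun _ _ => 1) β ≤ bb then f β else f' β

theorem Sv_eq (q q0 p k bb : ℕ) (D : ℝ) (P Q : E) :
    Sv q q0 p k bb D P Q = tr q q0 p k bb D P Q (S0 q q0 p k D P Q (gk q q0)) 0 := by
  funext β
  unfold Sv keep tr
  rw [← card_cut]
  by_cases hc : (cutSet q q0 p k D P Q β).card ≤ bb
  · rw [if_pos hc, if_pos (by exact_mod_cast hc), sum_cut]
  · rw [if_neg hc, if_neg (by exact_mod_cast hc)]
    simp

theorem Cv_eq (q q0 p k bb : ℕ) (D : ℝ) (P Q : E) :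
    Cv q q0 p k bb D P Q = tr q q0 p k bb D P Q (S0 q q0 p k D P Q fun _ _ => 1) 0 := by
  funext β
  unfold Cv keep tr
  rw [← card_cut]
  by_cases hc : (cutSet q q0 p k D P Q β).card ≤ bb
  · rw [if_pos hc, if_pos (by exact_mod_cast hc)]
  · rw [if_neg hc, if_neg (by exact_mod_cast hc)]
    simp

theorem measurable_one' : Measurable (Function.uncurry fun _ _ : E => (1 : ℝ)) := measurable_const

theorem measurable_S0 (h : StmtChain) (q q0 p k : ℕ) (D : ℝ) (P Q : E) {g : E → E → ℝ}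
    (hg : Measurable (Function.uncurry g)) : Measurable (S0 q q0 p k D P Q g) :=
  Finset.measurable_sum _ fun l _ => measurable_X h k D P Q hg l

theorem measurable_tr (h : StmtChain) (q q0 p k bb : ℕ) (D : ℝ) (P Q : E)
    {f f' : (Fin k → E) → ℝ} (hf : Measurable f) (hf' : Measurable f') :
    Measurable (tr q q0 p k bb D P Q f f') :=
  Measurable.ite (measurableSet_le (measurable_S0 h q q0 p k D P Q measurable_one') measurable_const)
    hf hf'

theorem S0_nonneg {q q0 p k : ℕ} {D : ℝ} {P Q : E} {g : E → E → ℝ} (hg : ∀ u u', 0 ≤ g u u')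
    (β : Fin k → E) : 0 ≤ S0 q q0 p k D P Q g β :=
  Finset.sum_nonneg fun l _ => X_nonneg hg l β

section
variable {q q0 p k bb : ℕ} {D M η : ℝ} {A B z : E}

theorem S0_le (H : MomHyp q q0 p k bb D M η) {P Q : E} {g : E → E → ℝ} {c : ℝ} (hc : 0 ≤ c)
    (hg : ∀ u u', g u u' ≤ c) (β : Fin k → E) : S0 q q0 p k D P Q g β ≤ (k + 1) * c := by
  have h1 := Finset.sum_le_card_nsmul (Ico (q0 * p) ((q - q0) * p)) (fun l => X k D P Q g l β) c
    fun l _ => X_le hc hg l β
  refine h1.trans ?_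
  rw [nsmul_eq_mul, Nat.card_Ico]
  apply mul_le_mul_of_nonneg_right _ hc
  have h2 : (q - q0) * p ≤ k + 1 := by
    rw [H.hk]
    exact Nat.mul_le_mul_right p (Nat.sub_le _ _)
  exact_mod_cast (Nat.sub_le _ _).trans h2

theorem trunc_le (h : StmtChain) (H : MomHyp q q0 p k bb D M η) (hA : ‖A‖ ≤ D) (hB : ‖B‖ ≤ D)
    (z : E) :
    ∫ β, tr q q0 p k bb D (M • (A - z)) (M • (B - z)) 0 1 β ∂nu k ≤
      (1 + Real.exp (2 * D ^ 2) * q / q0) *
        Real.exp (-(bb / (8 * D ^ 2 * (1 + Real.log (k + 1))))) := by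
  have := h.nu_prob k
  obtain ⟨a1, a2, a3, a4⟩ := hyp_q H
  have hq1 : (0 : ℝ) < q := by linarith
  have hD := H.hD
  have hpi := Real.pi_pos
  set P := M • (A - z)
  set Q := M • (B - z)
  set Hh : ℝ := 1 + Real.log (k + 1) with hH
  have hH1 : 1 ≤ Hh := by
    have : 0 ≤ Real.log ((k : ℝ) + 1) := Real.log_nonneg (by linarith [Nat.cast_nonneg (α := ℝ) k])
    linarith
  set c : ℝ := (4 * D ^ 2 * Hh)⁻¹ with hc
  have hDD : 1 ≤ 4 * D ^ 2 * Hh := by nlinarith
  have hc0 : 0 < c := by positivity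
  have hc1 : c ≤ 1 := inv_le_one_of_one_le₀ hDD
  set Φ : ℝ := (2 * Real.pi * (q0 * p))⁻¹ with hΦ
  have t0 : ∀ β, 0 ≤ tr q q0 p k bb D P Q 0 1 β := fun β => by
    unfold tr
    split_ifs <;> simp
  have t1 : ∀ β, tr q q0 p k bb D P Q 0 1 β ≤ 1 := fun β => by
    unfold tr
    split_ifs <;> simp
  refine int_le (integrable_bdd (measurable_tr h _ _ _ _ _ _ _ _ measurable_const measurable_const)
    t0 t1) t0 (by positivity) ?_
  have kh := h.khas k P Q (Ico (q0 * p) ((q - q0) * p)) D c Φ (by linarith) hc0.le (by positivity)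
    (fun l hl => by
      obtain ⟨b1, b2, -⟩ := win_nat H hl
      omega)
    (fun l hl u _ => by
      obtain ⟨-, -, -, -, -, -, b7⟩ := win_nat H hl
      have d7 : (l : ℝ) + 1 + q0 * p ≤ k + 1 := by exact_mod_cast b7
      have d8 : (0 : ℝ) < q0 * p := by positivity
      refine (ph_le (by linarith) _).trans (inv_anti₀ (by positivity) ?_)
      exact mul_le_mul_of_nonneg_left (by linarith) (by positivity))
    (by
      rw [hc, ← hH]
      apply le_of_eq
      field_simp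
      norm_num)
  have pt : ∀ β, ENNReal.ofReal (tr q q0 p k bb D P Q 0 1 β) ≤
      ENNReal.ofReal (Real.exp (-(bb / (8 * D ^ 2 * Hh)))) *
        ∏ l ∈ Ico (q0 * p) ((q - q0) * p),
          ENNReal.ofReal (1 + if ‖bp k P Q β l‖ ≤ D then c else 0) := by
    intro β
    unfold tr
    split_ifs with hb
    · simp
    · rw [← card_cut, not_le] at hb
      have e1 : ∏ l ∈ cutSet q q0 p k D P Q β, ENNReal.ofReal (1 + c) ≤
          ∏ l ∈ Ico (q0 * p) ((q - q0) * p),
            ENNReal.ofReal (1 + if ‖bp k P Q β l‖ ≤ D then c else 0) := by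
        calc _ = ∏ l ∈ cutSet q q0 p k D P Q β,
              ENNReal.ofReal (1 + if ‖bp k P Q β l‖ ≤ D then c else 0) := by
              refine Finset.prod_congr rfl fun l hl => ?_
              unfold cutSet at hl
              rw [Finset.mem_filter] at hl
              rw [if_pos hl.2.1]
          _ ≤ _ := by
              refine Finset.prod_le_prod_of_subset_of_one_le' ?_ fun l _ _ => ?_
              · unfold cutSet
                exact Finset.filter_subset _ _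
              · rw [← ENNReal.ofReal_one]
                apply ENNReal.ofReal_le_ofReal
                split_ifs <;> linarith
      refine le_trans ?_ (mul_le_mul_right e1 _)
      rw [Finset.prod_const, ← ENNReal.ofReal_pow (by linarith),
        ← ENNReal.ofReal_mul (Real.exp_pos _).le]
      apply ENNReal.ofReal_le_ofReal
      have e2 : Real.exp (c / 2) ≤ 1 + c := by
        have b1 := Real.add_one_le_exp (-(c / 2))
        have b2 : Real.exp (c / 2) * Real.exp (-(c / 2)) = 1 := by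
          rw [← Real.exp_add]
          simp
        have b3 := Real.exp_pos (c / 2)
        nlinarith
      have e3 : Real.exp (c / 2) ^ (cutSet q q0 p k D P Q β).card ≤
          (1 + c) ^ (cutSet q q0 p k D P Q β).card := pow_le_pow_left₀ (Real.exp_pos _).le e2 _
      refine le_trans ?_ (mul_le_mul_of_nonneg_left e3 (Real.exp_pos _).le)
      rw [← Real.exp_nat_mul, ← Real.exp_add, Pi.one_apply]
      apply Real.one_le_exp
      have e4 : (bb : ℝ) / (8 * D ^ 2 * Hh) = bb * (c / 2) := by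
        rw [hc]
        field_simp
        ring
      rw [e4]
      nlinarith
  refine (lintegral_mono pt).trans ?_
  rw [lintegral_const_mul' _ _ ENNReal.ofReal_ne_top, mul_comm (1 + _),
    ENNReal.ofReal_mul (Real.exp_pos _).le]
  refine mul_le_mul_right (kh.trans (ENNReal.ofReal_le_ofReal ?_)) _
  rw [den_eq H]
  have e5 : ‖B - A‖ ≤ 2 * D := (norm_sub_le _ _).trans (by linarith)
  have e6 : ‖B - A‖ ^ 2 ≤ (2 * D) ^ 2 := pow_le_pow_left₀ (norm_nonneg _) e5 2
  have e7 := ph_lower (t := 1) (c := 2 * D ^ 2) one_pos (x := B - A) (by nlinarith)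
  have e8 : Φ / (((k : ℝ) + 1)⁻¹ * ph 1 (B - A)) ≤
      Φ / (((k : ℝ) + 1)⁻¹ * (Real.exp (-(2 * D ^ 2)) * (2 * Real.pi * 1)⁻¹)) := by
    apply div_le_div_of_nonneg_left (by positivity) (by positivity)
    exact mul_le_mul_of_nonneg_left e7 (by positivity)
  have e9 : Φ / (((k : ℝ) + 1)⁻¹ * (Real.exp (-(2 * D ^ 2)) * (2 * Real.pi * 1)⁻¹)) =
      Real.exp (2 * D ^ 2) * q / q0 := by
    rw [hΦ, a4, Real.exp_neg]
    have : (0 : ℝ) < p := by linarith
    field_simp
  linarith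

theorem int_S0 (h : StmtChain) (q q0 p k : ℕ) (D : ℝ) (P Q : E) {g : E → E → ℝ}
    (hg : Measurable (Function.uncurry g)) {c : ℝ} (hc : 0 ≤ c) (hg0 : ∀ u u', 0 ≤ g u u')
    (hg1 : ∀ u u', g u u' ≤ c) :
    ∫ β, S0 q q0 p k D P Q g β ∂nu k =
      ∑ l ∈ Ico (q0 * p) ((q - q0) * p), ∫ β, X k D P Q g l β ∂nu k := by
  have := h.nu_prob k
  exact integral_finsetSum _ fun l _ =>
    integrable_bdd (measurable_X h _ _ _ _ hg l) (X_nonneg hg0 l) (X_le hc hg1 l)

theorem int_S0_le (h : StmtChain) (H : MomHyp q q0 p k bb D M η) (hA : ‖A‖ ≤ D) (hB : ‖B‖ ≤ D)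
    (hz : ‖z‖ + D / M ≤ η) {g : E → E → ℝ} (hg : Measurable (Function.uncurry g)) {c m : ℝ}
    (hc : 0 ≤ c) (hg0 : ∀ u u', 0 ≤ g u u') (hg1 : ∀ u u', g u u' ≤ c) (hm0 : 0 ≤ m)
    (hm : mass (kp D g) ≤ ENNReal.ofReal m) :
    ∫ β, S0 q q0 p k D (M • (A - z)) (M • (B - z)) g β ∂nu k ≤ 6 / 5 * m * gk q q0 A B := by
  rw [int_S0 h _ _ _ _ _ _ _ hg hc hg0 hg1, ← sum_tm_gk H, Finset.mul_sum]
  exact Finset.sum_le_sum fun l hl => one_le h H hA hB hz hg hc hg0 hg1 hm0 hm hl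

theorem int_S0_ge (h : StmtChain) (H : MomHyp q q0 p k bb D M η) (hA : ‖A‖ ≤ D) (hB : ‖B‖ ≤ D)
    (hz : ‖z‖ + D / M ≤ η) {g : E → E → ℝ} (hg : Measurable (Function.uncurry g)) {c m : ℝ}
    (hc : 0 ≤ c) (hg0 : ∀ u u', 0 ≤ g u u') (hg1 : ∀ u u', g u u' ≤ c) (hm0 : 0 ≤ m)
    (hm : ENNReal.ofReal m ≤ mass (kp D g)) :
    (1 - 2 * ww q q0 D η) * m * gk q q0 A B ≤
      ∫ β, S0 q q0 p k D (M • (A - z)) (M • (B - z)) g β ∂nu k := by
  rw [int_S0 h _ _ _ _ _ _ _ hg hc hg0 hg1, ← sum_tm_gk H, Finset.mul_sum]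
  exact Finset.sum_le_sum fun l hl => one_ge h H hA hB hz hg hc hg0 hg1 hm0 hm hl

theorem integrable_S0 (h : StmtChain) (H : MomHyp q q0 p k bb D M η) (P Q : E) {g : E → E → ℝ}
    (hg : Measurable (Function.uncurry g)) {c : ℝ} (hc : 0 ≤ c) (hg0 : ∀ u u', 0 ≤ g u u')
    (hg1 : ∀ u u', g u u' ≤ c) : Integrable (S0 q q0 p k D P Q g) (nu k) := by
  have := h.nu_prob k
  exact integrable_bdd (measurable_S0 h _ _ _ _ _ _ _ hg) (S0_nonneg hg0) (S0_le H hc hg1)

theorem integrable_S0_sq (h : StmtChain) (H : MomHyp q q0 p k bb D M η) (P Q : E) {g : E → E → ℝ}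
    (hg : Measurable (Function.uncurry g)) {c : ℝ} (hc : 0 ≤ c) (hg0 : ∀ u u', 0 ≤ g u u')
    (hg1 : ∀ u u', g u u' ≤ c) : Integrable (fun β => S0 q q0 p k D P Q g β ^ 2) (nu k) := by
  have := h.nu_prob k
  exact integrable_bdd (C := ((k + 1) * c) ^ 2) ((measurable_S0 h _ _ _ _ _ _ _ hg).pow_const 2)
    (fun β => sq_nonneg _) fun β => pow_le_pow_left₀ (S0_nonneg hg0 β) (S0_le H hc hg1 β) 2

theorem int_sq_le (h : StmtChain) (H : MomHyp q q0 p k bb D M η) (hA : ‖A‖ ≤ D) (hB : ‖B‖ ≤ D)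
    (hz : ‖z‖ + D / M ≤ η) {g : E → E → ℝ} (hg : Measurable (Function.uncurry g)) {c : ℝ}
    (hc : 0 ≤ c) (hg0 : ∀ u u', 0 ≤ g u u') (hg1 : ∀ u u', g u u' ≤ c)
    (hm : mass (kp D g) ≤ ENNReal.ofReal 1) :
    ∫ β, S0 q q0 p k D (M • (A - z)) (M • (B - z)) g β ^ 2 ∂nu k ≤
      2 * (3 * c + (1 + Real.log (k + 1))) * gk q q0 A B := by
  set P := M • (A - z)
  set Q := M • (B - z)
  set W := Ico (q0 * p) ((q - q0) * p) with hW
  have i1 := integrable_S0 h H P Q hg hc hg0 hg1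
  have i2 : ∀ l, Integrable (fun β => ∑ l' ∈ W.filter (fun l' => l + 2 ≤ l'),
      X k D P Q g l β * X k D P Q g l' β) (nu k) := fun l =>
    integrable_finsetSum _ fun l' _ => integrable_XX h P Q hg hc hg0 hg1 l l'
  have i3 : Integrable (fun β => ∑ l ∈ W, ∑ l' ∈ W.filter (fun l' => l + 2 ≤ l'),
      X k D P Q g l β * X k D P Q g l' β) (nu k) := integrable_finsetSum _ fun l _ => i2 l
  have hg' := gk_nonneg (q := q) H.hq0 A B
  have e0 := int_S0_le h H hA hB hz hg hc hg0 hg1 zero_le_one hm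
  have hlog : Real.log k ≤ Real.log (k + 1) := by
    rcases Nat.eq_zero_or_pos k with h0 | h0
    · simp [h0]
    · exact Real.log_le_log (by exact_mod_cast h0) (by linarith)
  have hlog0 : 0 ≤ Real.log ((k : ℝ) + 1) :=
    Real.log_nonneg (by linarith [Nat.cast_nonneg (α := ℝ) k])
  have e1 : ∀ l ∈ W, ∫ β, ∑ l' ∈ W.filter (fun l' => l + 2 ≤ l'),
      X k D P Q g l β * X k D P Q g l' β ∂nu k ≤
      3 / 5 * (1 + Real.log (k + 1)) * (((k : ℝ) + 1)⁻¹ * tm q (l / p) A B) := by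
    intro l hl
    obtain ⟨-, -, b3, -⟩ := win_nat H hl
    have ht := tm_pos H.hq0 b3 A B
    rw [integral_finsetSum _ fun l' _ => integrable_XX h P Q hg hc hg0 hg1 l l']
    refine (Finset.sum_le_sum fun l' hl' => two_le h H hA hB hz hg hc hg0 hg1 hm hl
      (Finset.mem_filter.mp hl').1 (Finset.mem_filter.mp hl').2).trans ?_
    rw [← Finset.sum_mul, ← Finset.mul_sum, Finset.sum_add_distrib, ← Finset.mul_sum]
    apply mul_le_mul_of_nonneg_right _ (by positivity)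
    have f1 := harm_inj (W.filter (fun l' => l + 2 ≤ l')) (fun l' => k - l') k (by
      intro a ha b hb hab
      have a1 := (win_nat H (Finset.mem_filter.mp ha).1).2.1
      have a2 := (win_nat H (Finset.mem_filter.mp hb).1).2.1
      simp only at hab
      omega) (by
      intro a ha
      have a1 := (win_nat H (Finset.mem_filter.mp ha).1).2.1
      omega)
    have f2 := harm_inj (W.filter (fun l' => l + 2 ≤ l')) (fun l' => l' - l - 1) k (by
      intro a ha b hb hab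
      have a1 := (Finset.mem_filter.mp ha).2
      have a2 := (Finset.mem_filter.mp hb).2
      simp only at hab
      omega) (by
      intro a ha
      have a1 := (win_nat H (Finset.mem_filter.mp ha).1).2.1
      have a2 := (Finset.mem_filter.mp ha).2
      omega)
    linarith
  calc _ ≤ ∫ β, (3 * c * S0 q q0 p k D P Q g β + 2 * ∑ l ∈ W,
          ∑ l' ∈ W.filter (fun l' => l + 2 ≤ l'), X k D P Q g l β * X k D P Q g l' β) ∂nu k :=
        integral_mono (integrable_S0_sq h H P Q hg hc hg0 hg1)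
          ((i1.const_mul _).add (i3.const_mul _))
          fun β => sq_sum_le W (fun l => X k D P Q g l β) hc (fun l => X_nonneg hg0 l β)
            fun l => X_le hc hg1 l β
    _ = 3 * c * ∫ β, S0 q q0 p k D P Q g β ∂nu k + 2 * ∑ l ∈ W, ∫ β,
          ∑ l' ∈ W.filter (fun l' => l + 2 ≤ l'), X k D P Q g l β * X k D P Q g l' β ∂nu k := by
        rw [integral_add (i1.const_mul _) (i3.const_mul _), integral_const_mul, integral_const_mul,
          integral_finsetSum _ fun l _ => i2 l]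
    _ ≤ 3 * c * (6 / 5 * 1 * gk q q0 A B) +
          2 * (3 / 5 * (1 + Real.log (k + 1)) * gk q q0 A B) := by
        refine add_le_add (mul_le_mul_of_nonneg_left e0 (by positivity))
          (mul_le_mul_of_nonneg_left ?_ (by norm_num))
        rw [← sum_tm_gk H, Finset.mul_sum]
        exact Finset.sum_le_sum e1
    _ ≤ _ := by nlinarith [mul_nonneg hc hg', mul_nonneg hlog0 hg']

theorem int_sq_ge (h : StmtChain) (H : MomHyp q q0 p k bb D M η) (hA : ‖A‖ ≤ D) (hB : ‖B‖ ≤ D)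
    (hz : ‖z‖ + D / M ≤ η) {g : E → E → ℝ} (hg : Measurable (Function.uncurry g)) {c : ℝ}
    (hc : 0 ≤ c) (hg0 : ∀ u u', 0 ≤ g u u') (hg1 : ∀ u u', g u u' ≤ c)
    (hm : ENNReal.ofReal (2 / 5) ≤ mass (kp D g)) (hp : 2 * D ^ 2 + 1 ≤ p) :
    Real.log (p / (2 * D ^ 2 + 1)) / 400 * gk q q0 A B ≤
      ∫ β, S0 q q0 p k D (M • (A - z)) (M • (B - z)) g β ^ 2 ∂nu k := by
  set P := M • (A - z)
  set Q := M • (B - z)
  have hD := H.hD
  have hq := H.hq
  have hq0 := H.hq0
  set J0 := ⌈2 * D ^ 2⌉₊ with hJ0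
  have j1 : 2 * D ^ 2 ≤ J0 := Nat.le_ceil _
  have j2 : (J0 : ℝ) < 2 * D ^ 2 + 1 := Nat.ceil_lt_add_one (by positivity)
  have j3 : (0 : ℝ) < J0 := by nlinarith
  have j4 : 1 ≤ J0 := by exact_mod_cast (show (0 : ℝ) < J0 from j3)
  have j5 : J0 ≤ p := by exact_mod_cast (show (J0 : ℝ) ≤ p by linarith)
  have hp0 : (0 : ℝ) < p := by nlinarith
  have hL : Real.log (p / (2 * D ^ 2 + 1)) ≤ ∑ j ∈ Ico J0 p, (j : ℝ)⁻¹ := by
    refine le_trans ?_ (log_le_harm j4 p j5)
    rw [Real.log_div hp0.ne' (by positivity)]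
    have := Real.log_le_log j3 j2.le
    linarith
  have hL0 : 0 ≤ Real.log (p / (2 * D ^ 2 + 1)) :=
    Real.log_nonneg ((one_le_div (by positivity)).mpr hp)
  have hsub : (q - q0 - 1) * p + p = (q - q0) * p := by
    rw [← Nat.succ_mul]
    congr 1
    omega
  have hW : Ico (q0 * p) ((q - q0 - 1) * p) ⊆ Ico (q0 * p) ((q - q0) * p) :=
    Finset.Ico_subset_Ico le_rfl (by omega)
  have hJ : ∀ l ∈ Ico (q0 * p) ((q - q0 - 1) * p), ∀ j ∈ Ico J0 p,
      l + j + 1 ∈ Ico (q0 * p) ((q - q0) * p) := by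
    intro l hl j hj
    rw [Finset.mem_Ico] at hl hj ⊢
    omega
  have i2 : ∀ l, Integrable (fun β => ∑ j ∈ Ico J0 p,
      X k D P Q g l β * X k D P Q g (l + j + 1) β) (nu k) := fun l =>
    integrable_finsetSum _ fun j _ => integrable_XX h P Q hg hc hg0 hg1 l _
  have hg' := gk_nonneg (q := q) H.hq0 A B
  have e1 : ∀ l ∈ Ico (q0 * p) ((q - q0 - 1) * p),
      7 / 1000 * Real.log (p / (2 * D ^ 2 + 1)) * (((k : ℝ) + 1)⁻¹ * tm q (l / p) A B) ≤
        ∫ β, ∑ j ∈ Ico J0 p, X k D P Q g l β * X k D P Q g (l + j + 1) β ∂nu k := by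
    intro l hl
    obtain ⟨-, -, b3, -⟩ := win_nat H (hW hl)
    have ht := tm_pos H.hq0 b3 A B
    rw [integral_finsetSum _ fun j _ => integrable_XX h P Q hg hc hg0 hg1 l _]
    refine le_trans ?_ (Finset.sum_le_sum fun j hj => two_ge h H hA hB hz hg hc hg0 hg1 hm (hW hl)
      (hJ l hl j hj) (j1.trans (by exact_mod_cast (Finset.mem_Ico.mp hj).1))
      (Finset.mem_Ico.mp hj).2)
    rw [← Finset.sum_mul, ← Finset.mul_sum]
    gcongr
  calc _ ≤ 7 / 1000 * Real.log (p / (2 * D ^ 2 + 1)) *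
          ((q : ℝ)⁻¹ * ∑ v ∈ Ico q0 (q - q0 - 1), tm q v A B) := by
        have := last_block H hA hB
        nlinarith [mul_le_mul_of_nonneg_left this hL0, mul_nonneg hL0 hg']
    _ ≤ ∑ l ∈ Ico (q0 * p) ((q - q0 - 1) * p),
          ∫ β, ∑ j ∈ Ico J0 p, X k D P Q g l β * X k D P Q g (l + j + 1) β ∂nu k := by
        rw [← sum_tm H A B (by omega), Finset.mul_sum]
        exact Finset.sum_le_sum e1
    _ = ∫ β, ∑ l ∈ Ico (q0 * p) ((q - q0 - 1) * p),
          ∑ j ∈ Ico J0 p, X k D P Q g l β * X k D P Q g (l + j + 1) β ∂nu k :=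
        (integral_finsetSum _ fun l _ => i2 l).symm
    _ ≤ _ := integral_mono (integrable_finsetSum _ fun l _ => i2 l)
        (integrable_S0_sq h H P Q hg hc hg0 hg1)
        fun β => sq_sum_ge _ _ _ (fun l => X k D P Q g l β) (fun l => X_nonneg hg0 l β) hW hJ

end

end Pool.Agent.MP_037c5a_pr.Mo
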