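import Pool.Agent.MP_037c5a_pr.Induct

open Real

namespace Pool.Agent.MP_037c5a_pr

/-- `x` is large in terms of `k` -/
structure Big (k x : ℕ) : Prop where
  hk : 1 ≤ k
  hB : (10 : ℝ) ^ 24 * (k : ℝ) ^ 6 * (1 + 78 * Real.log x) ≤ x
  hx : 1 ≤ x

noncomputable def gl (x : ℕ) : Glob where
  q := x ^ 3 * (x ^ 25) ^ 3
  q0 := x ^ 3 * (x ^ 25) ^ 2
  bb := x ^ 6
  D := x
  η := 2 / ((x ^ 3 * (x ^ 25) ^ 3 : ℕ) : ℝ)
  W := (x : ℝ) ^ 3 * ((x : ℝ) ^ 25) ^ 2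

theorem gl_gm (x : ℕ) : (gl x).gm = 1 + 78 * Real.log x := by
  have : (((gl x).q : ℕ) : ℝ) = (x : ℝ) ^ 78 := by simp only [gl]; push_cast; ring
  rw [Glob.gm, this, Real.log_pow]
  norm_num

namespace Big

variable {k x : ℕ} (H : Big k x)
include H

theorem k1 : (1 : ℝ) ≤ k := by exact_mod_cast H.hk

theorem x1 : (1 : ℝ) ≤ x := by exact_mod_cast H.hx

theorem gm_le : (10 : ℝ) ^ 24 * (k : ℝ) ^ 6 * (gl x).gm ≤ x := by rw [gl_gm]; exact H.hB

theorem k6 : (10 : ℝ) ^ 24 * (k : ℝ) ^ 6 ≤ x :=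
  le_trans (le_mul_of_one_le_right (by positivity) (gl x).one_le_gm) H.gm_le

theorem gm_le' : (10 : ℝ) ^ 24 * (gl x).gm ≤ x := by
  refine le_trans ?_ H.gm_le
  have := one_le_pow₀ (n := 6) H.k1
  have := (gl x).one_le_gm
  rw [mul_assoc]
  exact mul_le_mul_of_nonneg_left (le_mul_of_one_le_left (by linarith) (by linarith))
    (by positivity)

theorem big : (10 : ℝ) ^ 24 ≤ x := by linarith [H.gm_le', (gl x).one_le_gm]

theorem kpow {m : ℕ} (hm : m ≤ 6) : (10 : ℝ) ^ 24 * (k : ℝ) ^ m ≤ x :=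
  le_trans (mul_le_mul_of_nonneg_left (pow_le_pow_right₀ H.k1 hm) (by positivity)) H.k6

theorem pow_le_exp {m : ℕ} (hm : m ≤ 78) : (x : ℝ) ^ m ≤ exp (gl x).gm := by
  refine (pow_le_pow_right₀ H.x1 hm).trans ?_
  rw [gl_gm, exp_add, show (78 : ℝ) = (78 : ℕ) by norm_num, exp_nat_mul,
    exp_log (by linarith [H.x1])]
  exact le_mul_of_one_le_left (by positivity) (one_le_exp zero_le_one)

theorem zeta_le : (gl x).zeta ≤ 24 / (x * (x : ℝ) ^ 25) := by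
  have := H.x1
  have h0 : (0 : ℝ) < x := by linarith
  simp only [Glob.zeta, gl]
  push_cast
  generalize hn : (x : ℝ) ^ 25 = n
  have hn0 : 0 < n := by rw [← hn]; positivity
  have e : 2 / ((x : ℝ) ^ 3 * n ^ 3) * (3 * ((x : ℝ) + 1) ^ 2 *
      ((x : ℝ) ^ 3 * n ^ 3 / ((x : ℝ) ^ 3 * n ^ 2)) ^ 2) = 6 * ((x + 1) / x) ^ 2 / (x * n) := by
    field_simp
    ring
  rw [e]
  refine div_le_div_of_nonneg_right ?_ (by positivity)
  have : ((x : ℝ) + 1) / x ≤ 2 := by rw [div_le_iff₀ h0]; linarith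
  have := pow_le_pow_left₀ (by positivity) this 2
  linarith

theorem eps_le : (gl x).eps ≤ 7 / (3 * (x : ℝ) ^ 25) := by
  have := H.x1
  have h0 : (0 : ℝ) < x := by linarith
  have h1 := H.pow_le_exp (m := 25) (by norm_num)
  have h2 : (12 : ℝ) ≤ exp 11 := by linarith [add_one_le_exp (11 : ℝ)]
  have h3 : 12 * (x : ℝ) ^ 25 ≤ exp ((x : ℝ) ^ 2 / 4) := by
    refine (mul_le_mul h2 h1 (by positivity) (by positivity)).trans ?_
    rw [← exp_add, exp_le_exp]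
    nlinarith [H.gm_le', H.big, (gl x).one_le_gm]
  simp only [Glob.eps, gl]
  push_cast
  generalize hn : (x : ℝ) ^ 25 = n at h3
  have hn0 : 0 < n := by rw [← hn]; positivity
  have e : 2 * ((x : ℝ) ^ 3 * n ^ 2) / ((x : ℝ) ^ 3 * n ^ 3) = 2 / n := by field_simp
  have h4 : exp (-((x : ℝ) ^ 2 / 4)) ≤ 1 / (12 * n) := by
    rw [exp_neg, one_div]
    exact inv_anti₀ (by positivity) h3
  have e2 : 7 / (3 * n) = 2 / n + 4 * (1 / (12 * n)) := by field_simp; ring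
  rw [e, e2]
  linarith

theorem tail_le {k' : ℕ} (hH : 1 + log ((k' : ℝ) + 1) ≤ 2 * x) :
    (gl x).W * ((((k' : ℝ) + 1) * (gl x).gm) ^ 2 * (gl x).tl k') ≤ 1 := by
  have hx1 := H.x1
  have h0 : (0 : ℝ) < x := by linarith
  have hgm := (gl x).one_le_gm
  have hgm' := H.gm_le'
  have hb := H.big
  have hl : 0 ≤ log ((k' : ℝ) + 1) := log_nonneg (by linarith [Nat.cast_nonneg (α := ℝ) k'])
  have a1 : (gl x).W ≤ exp (gl x).gm := by
    refine le_trans (le_of_eq ?_) (H.pow_le_exp (m := 53) (by norm_num))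
    simp only [gl]; ring
  have a2 : (k' : ℝ) + 1 ≤ exp (2 * x) := by
    rw [← log_le_iff_le_exp (by positivity)]; linarith
  have a3 : (gl x).gm ≤ exp x := by linarith [add_one_le_exp (x : ℝ)]
  have a4 : 1 + exp (2 * (gl x).D ^ 2) * (gl x).q / (gl x).q0 ≤
      exp (2 * (x : ℝ) ^ 2 + (gl x).gm + 1) := by
    have e : exp (2 * (gl x).D ^ 2) * (gl x).q / (gl x).q0 =
        exp (2 * (x : ℝ) ^ 2) * (x : ℝ) ^ 25 := by
      simp only [gl]
      push_cast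
      field_simp
    have b1 := H.pow_le_exp (m := 25) (by norm_num)
    have b2 : 1 ≤ exp (2 * (x : ℝ) ^ 2) * exp (gl x).gm :=
      one_le_mul_of_one_le_of_one_le (one_le_exp (by positivity)) (one_le_exp (by linarith))
    have b3 := mul_le_mul_of_nonneg_left b1 (exp_pos (2 * (x : ℝ) ^ 2)).le
    have b4 : (2 : ℝ) ≤ exp 1 := by linarith [add_one_le_exp (1 : ℝ)]
    rw [e, exp_add, exp_add]
    nlinarith
  have a5 : exp (-((gl x).bb / (8 * (gl x).D ^ 2 * (1 + log ((k' : ℝ) + 1))))) ≤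
      exp (-((x : ℝ) ^ 3 / 16)) := by
    rw [exp_le_exp, neg_le_neg_iff, div_le_div_iff₀ (by norm_num) (by simp only [gl]; positivity)]
    simp only [gl]
    push_cast
    have := mul_le_mul_of_nonneg_left hH (show 0 ≤ 8 * (x : ℝ) ^ 5 by positivity)
    nlinarith
  have a6 : (gl x).tl k' ≤ exp (2 * (x : ℝ) ^ 2 + (gl x).gm + 1) * exp (-((x : ℝ) ^ 3 / 16)) :=
    mul_le_mul a4 a5 (exp_pos _).le (exp_pos _).le
  have a7 : (((k' : ℝ) + 1) * (gl x).gm) ^ 2 ≤ (exp (2 * x) * exp x) ^ 2 :=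
    pow_le_pow_left₀ (by positivity) (mul_le_mul a2 a3 (by positivity) (by positivity)) 2
  refine (mul_le_mul a1 (mul_le_mul a7 a6 ((gl x).tl_nonneg _) (by positivity))
    (mul_nonneg (by positivity) ((gl x).tl_nonneg _)) (by positivity)).trans ?_
  rw [← exp_add, ← exp_add, sq, ← exp_add, ← exp_add, ← exp_add, exp_le_one_iff]
  have c1 : 100 * (x : ℝ) ≤ x ^ 2 := by nlinarith
  have c2 : 100 * (x : ℝ) ^ 2 ≤ x ^ 3 := by nlinarith
  nlinarith

theorem gm_le_nu : (gl x).gm ≤ ((x : ℝ) ^ 25) ^ 2 := by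
  have h1 : (x : ℝ) ≤ ((x : ℝ) ^ 25) ^ 2 := by
    rw [← pow_mul]
    exact le_self_pow₀ H.x1 (by norm_num)
  linarith [H.gm_le', (gl x).one_le_gm]

theorem stOK (a : ℕ) (ha : 1 ≤ a) {Hb V : ℝ}
    (hHb : 1 + log ((((gl x).q * a : ℕ) : ℝ) ^ 2) ≤ Hb) (hH2 : Hb ≤ 2 * x)
    (hV : 2 * (3 * (gl x).gm + Hb) * (3 * ((x : ℝ) ^ 25) ^ 2) ≤ V) :
    StOK (gl x) ((2 * (x ^ 25) ^ 2 : ℕ) : ℝ) (9 * (x : ℝ) ^ 25) V (exp (-(3 * x)))
      ((gl x).q * a ^ 2) ((gl x).q * ((gl x).q * a ^ 2) - 1) (((gl x).q * a : ℕ) : ℝ) := by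
  have hx1 := H.x1
  have h0 : (0 : ℝ) < x := by linarith
  have hx := H.hx
  have hgm := (gl x).one_le_gm
  have hb := H.big
  have hq : 1 ≤ (gl x).q := Nat.one_le_iff_ne_zero.2 (by simp only [gl]; positivity)
  have hk : (gl x).q * ((gl x).q * a ^ 2) - 1 + 1 = (gl x).q * ((gl x).q * a ^ 2) :=
    Nat.sub_add_cancel (Nat.one_le_iff_ne_zero.2 (by positivity))
  have hk' : ((((gl x).q * ((gl x).q * a ^ 2) - 1 : ℕ) : ℝ) + 1) =
      (((gl x).q * a : ℕ) : ℝ) ^ 2 := by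
    rw [← Nat.cast_succ, Nat.succ_eq_add_one, hk]
    push_cast
    ring
  have hn1 : (1 : ℝ) ≤ (x : ℝ) ^ 25 := one_le_pow₀ hx1
  have hN : ((2 * (x ^ 25) ^ 2 : ℕ) : ℝ) + (gl x).gm ≤ 3 * ((x : ℝ) ^ 25) ^ 2 := by
    push_cast
    linarith [H.gm_le_nu]
  have hl : 0 ≤ log ((((gl x).q * a : ℕ) : ℝ) ^ 2) := by
    rw [← hk']
    exact log_nonneg (by linarith [Nat.cast_nonneg (α := ℝ) ((gl x).q * ((gl x).q * a ^ 2) - 1)])
  have hz := H.zeta_le
  have hz' : 24 / (x * (x : ℝ) ^ 25) ≤ 1 / (6 * (x : ℝ) ^ 25) := by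
    rw [div_le_div_iff₀ (by positivity) (by positivity)]
    nlinarith
  have hz0 : 0 ≤ (gl x).zeta := by simp only [Glob.zeta, gl]; positivity
  have he0 : 0 ≤ (gl x).eps := by simp only [Glob.eps]; positivity
  refine ⟨⟨Nat.one_le_iff_ne_zero.2 (by simp only [gl]; positivity), ?_,
    Nat.one_le_iff_ne_zero.2 (by positivity), hk, by positivity, hk'.symm,
    by simp only [gl]; linarith, le_rfl, ?_, ?_⟩,
    Nat.one_le_iff_ne_zero.2 (by simp only [gl]; positivity), ?_, ?_, ?_, ?_⟩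
  · have h4 : 4 ≤ x ^ 25 := by
      have : 4 ≤ x := by
        have : (4 : ℝ) ≤ x := by linarith
        exact_mod_cast this
      exact this.trans (Nat.le_self_pow (by norm_num) x)
    simp only [gl]
    calc 4 * (x ^ 3 * (x ^ 25) ^ 2) ≤ x ^ 25 * (x ^ 3 * (x ^ 25) ^ 2) := Nat.mul_le_mul_right _ h4
      _ = _ := by ring
  · simp only [gl]
    push_cast
    rw [div_le_one (by positivity)]
    have h3 : (x : ℝ) ≤ (x : ℝ) ^ 3 := le_self_pow₀ hx1 (by norm_num)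
    have h4 := one_le_pow₀ (n := 3) hn1
    nlinarith
  · refine hz.trans (hz'.trans ?_)
    rw [div_le_div_iff₀ (by positivity) (by positivity)]
    linarith
  · have t1 := H.tail_le (k' := (gl x).q * ((gl x).q * a ^ 2) - 1) (by rw [hk']; linarith)
    have t2 : 1 ≤ ((((gl x).q * ((gl x).q * a ^ 2) - 1 : ℕ) : ℝ) + 1) * (gl x).gm :=
      one_le_mul_of_one_le_of_one_le
        (by linarith [Nat.cast_nonneg (α := ℝ) ((gl x).q * ((gl x).q * a ^ 2) - 1)]) hgm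
    have t3 : (gl x).W * (((((gl x).q * ((gl x).q * a ^ 2) - 1 : ℕ) : ℝ) + 1) * (gl x).gm *
        (gl x).tl ((gl x).q * ((gl x).q * a ^ 2) - 1)) ≤ 1 := by
      refine le_trans (mul_le_mul_of_nonneg_left (mul_le_mul_of_nonneg_right ?_
        ((gl x).tl_nonneg _)) (by simp only [gl]; positivity)) t1
      exact le_self_pow₀ t2 (by norm_num)
    have t4 : 2 * (gl x).zeta + (gl x).eps ≤ 8 / (3 * (x : ℝ) ^ 25) := by
      have e : 8 / (3 * (x : ℝ) ^ 25) = 2 * (1 / (6 * (x : ℝ) ^ 25)) + 7 / (3 * (x : ℝ) ^ 25) := by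
        field_simp; ring
      rw [e]
      linarith [H.eps_le]
    have t5 := mul_le_mul t4 hN (by positivity) (by positivity)
    have e : 8 / (3 * (x : ℝ) ^ 25) * (3 * ((x : ℝ) ^ 25) ^ 2) = 8 * (x : ℝ) ^ 25 := by
      field_simp
    linarith
  · refine lt_of_lt_of_le ?_ hV
    have : 0 < 3 * (gl x).gm + Hb := by linarith
    positivity
  · refine le_trans ?_ hV
    rw [hk']
    exact mul_le_mul (by linarith) hN (by positivity) (by linarith)
  · rw [exp_le_exp, neg_le_neg_iff, le_div_iff₀ (by simp only [gl]; positivity)]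
    have t1 := mul_le_mul_of_nonneg_left hN (show 0 ≤ 44 * (x : ℝ) ^ 2 by positivity)
    have t2 : 3 * (x : ℝ) ^ 5 ≤ ((x : ℝ) ^ 25) ^ 2 := by
      have : (x : ℝ) ^ 6 ≤ ((x : ℝ) ^ 25) ^ 2 := by
        rw [← pow_mul]; exact pow_le_pow_right₀ hx1 (by norm_num)
      have h5 : 0 ≤ (x : ℝ) ^ 5 := by positivity
      nlinarith
    simp only [gl] at t1 ⊢
    push_cast at t1 ⊢
    generalize ((x : ℝ) ^ 25) ^ 2 = n2 at t1 t2 ⊢
    have t3 := mul_le_mul_of_nonneg_left t2 (show 0 ≤ (x : ℝ) ^ 2 by positivity)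
    have t4 : 0 ≤ (x : ℝ) ^ 2 * n2 * (x - 133) :=
      mul_nonneg (mul_nonneg (by positivity) (by nlinarith [pow_pos h0 5])) (by linarith)
    nlinarith

end Big

end Pool.Agent.MP_037c5a_pr
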