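import Pool.Agent.MP_037c5a_pr.Params1

open Real

namespace Pool.Agent.MP_037c5a_pr

noncomputable def pp (k t x : ℕ) : PP where
  g := gl x
  N1 := 2 * (x ^ 25) ^ 2
  N00 := (x ^ 25) ^ 2
  loss := 9 * (x : ℝ) ^ 25
  y := x * (x : ℝ) ^ 25 / (10 ^ 7 * (k : ℝ) ^ 3)
  hmax := 12 * x * (x : ℝ) ^ 25
  V1 := 36 * (gl x).gm * ((x : ℝ) ^ 25) ^ 2
  V := 18 * x * ((x : ℝ) ^ 25) ^ 2
  Vl := x * ((x : ℝ) ^ 25) ^ 2 / 1000
  πc := exp (-(3 * x))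
  κ := 1 / (400 * k * ((x : ℝ) ^ 25) ^ 2 * x)
  θ := 800000 * (k : ℝ) ^ 2 / (x : ℝ) ^ 25
  e := 3 * (x * (x : ℝ) ^ 25 / (10 ^ 7 * (k : ℝ) ^ 3))
  Δ := x * (x : ℝ) ^ 25 / (200000 * k)
  G := exp (2 * k * x)
  lam := 1 / (24 * k * (x : ℝ) ^ 25)
  δ := exp (-(2 * x))
  p1 := (gl x).q * (12 * x ^ 2) ^ 2
  k1 := (gl x).q * ((gl x).q * (12 * x ^ 2) ^ 2) - 1
  M1 := (((gl x).q * (12 * x ^ 2) : ℕ) : ℝ)
  p2 := (gl x).q * (3 * x * 2 ^ t) ^ 2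
  k2 := (gl x).q * ((gl x).q * (3 * x * 2 ^ t) ^ 2) - 1
  M2 := (((gl x).q * (3 * x * 2 ^ t) : ℕ) : ℝ)
  p3 := (gl x).q * (9 * x * 2 ^ x) ^ 2
  k3 := (gl x).q * ((gl x).q * (9 * x * 2 ^ x) ^ 2) - 1
  M3 := (((gl x).q * (9 * x * 2 ^ x) : ℕ) : ℝ)
  J1 := 4 * x
  J2 := 2 ^ t
  K := 2 ^ x

theorem gl_q (x : ℕ) : (((gl x).q : ℕ) : ℝ) = (x : ℝ) ^ 78 := by
  simp only [gl]; push_cast; ring

theorem two_pow_eq (s : ℕ) : (2 : ℝ) ^ s = exp (s * log 2) := by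
  rw [exp_nat_mul, exp_log (by norm_num)]

namespace Big

variable {k x : ℕ} (H : Big k x)
include H

theorem log_qa (a s : ℕ) (ha0 : 1 ≤ a) (ha : (a : ℝ) ≤ (x : ℝ) ^ 3 * 2 ^ s) :
    1 + log ((((gl x).q * a : ℕ) : ℝ) ^ 2) ≤ 3 * (gl x).gm + 1.4 * s := by
  have hx1 := H.x1
  have ha1 : (1 : ℝ) ≤ a := by exact_mod_cast ha0
  have h1 : (((gl x).q * a : ℕ) : ℝ) ≤ (x : ℝ) ^ 81 * 2 ^ s := by
    push_cast
    rw [gl_q]
    calc _ ≤ (x : ℝ) ^ 78 * ((x : ℝ) ^ 3 * 2 ^ s) := mul_le_mul_of_nonneg_left ha (by positivity)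
      _ = _ := by ring
  have h0 : (0 : ℝ) < (((gl x).q * a : ℕ) : ℝ) := by
    push_cast
    rw [gl_q]
    positivity
  have h2 := log_le_log h0 h1
  rw [log_mul (by positivity) (by positivity), log_pow, log_pow] at h2
  rw [log_pow, gl_gm]
  have h3 := log_nonneg hx1
  have h4 := mul_le_mul_of_nonneg_left log_two_lt_d9.le (Nat.cast_nonneg (α := ℝ) s)
  push_cast at h2 ⊢
  nlinarith [Nat.cast_nonneg (α := ℝ) s]

theorem eta_mul (a : ℕ) : (gl x).η * (((gl x).q * a : ℕ) : ℝ) = 2 * a := by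
  have hx1 := H.x1
  have : (gl x).η = 2 / (gl x).q := rfl
  rw [this]
  push_cast
  rw [gl_q]
  field_simp

theorem b_le : ((gl x).bb : ℝ) * (gl x).gm ≤ (x : ℝ) ^ 7 / 10 ^ 24 := by
  have hx1 := H.x1
  have h := mul_le_mul_of_nonneg_left H.gm_le' (show 0 ≤ (x : ℝ) ^ 6 by positivity)
  have e : ((gl x).bb : ℝ) = (x : ℝ) ^ 6 := by simp only [gl]; push_cast; ring
  rw [e, le_div_iff₀ (by positivity)]
  nlinarith

theorem pow_le_nu {m : ℕ} (hm : m ≤ 25) : (x : ℝ) ^ m ≤ (x : ℝ) ^ 25 :=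
  pow_le_pow_right₀ H.x1 hm

theorem s1 (t : ℕ) : StOK (pp k t x).g (pp k t x).N1 (pp k t x).loss (pp k t x).V1 (pp k t x).πc
    (pp k t x).p1 (pp k t x).k1 (pp k t x).M1 := by
  have hx := H.hx
  have hb := H.big
  have h1 := H.log_qa (12 * x ^ 2) 0 (Nat.one_le_iff_ne_zero.2 (by positivity))
    (by push_cast; nlinarith [pow_pos (show (0 : ℝ) < x by linarith) 2])
  exact H.stOK (12 * x ^ 2) (Nat.one_le_iff_ne_zero.2 (by positivity)) (Hb := 3 * (gl x).gm)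
    (by simpa using h1) (by linarith [H.gm_le', (gl x).one_le_gm])
    (le_of_eq (by simp only [pp]; ring))

theorem log_a3 : 1 + log ((((gl x).q * (9 * x * 2 ^ x) : ℕ) : ℝ) ^ 2) ≤ 2 * x := by
  have hx := H.hx
  have hb := H.big
  have h1 := H.log_qa (9 * x * 2 ^ x) x (Nat.one_le_iff_ne_zero.2 (by positivity))
    (by
      push_cast
      refine mul_le_mul_of_nonneg_right ?_ (by positivity)
      nlinarith [pow_pos (show (0 : ℝ) < x by linarith) 2])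
  linarith [H.gm_le', (gl x).one_le_gm]

theorem hV : 2 * (3 * (gl x).gm + 2 * x) * (3 * ((x : ℝ) ^ 25) ^ 2) ≤
    18 * x * ((x : ℝ) ^ 25) ^ 2 := by
  have h1 : 0 ≤ ((x : ℝ) ^ 25) ^ 2 := by positivity
  have h2 : 3 * (gl x).gm ≤ x := by linarith [H.gm_le', (gl x).one_le_gm]
  nlinarith

theorem s3 (t : ℕ) : StOK (pp k t x).g (pp k t x).N1 (pp k t x).loss (pp k t x).V (pp k t x).πc
    (pp k t x).p3 (pp k t x).k3 (pp k t x).M3 := by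
  have hx := H.hx
  exact H.stOK (9 * x * 2 ^ x) (Nat.one_le_iff_ne_zero.2 (by positivity)) H.log_a3 le_rfl H.hV

theorem s2 (t : ℕ) (ht : t ≤ x) : StOK (pp k t x).g (pp k t x).N1 (pp k t x).loss (pp k t x).V
    (pp k t x).πc (pp k t x).p2 (pp k t x).k2 (pp k t x).M2 := by
  have hx := H.hx
  have hb := H.big
  have ht' : (t : ℝ) ≤ x := by exact_mod_cast ht
  have h1 := H.log_qa (3 * x * 2 ^ t) t (Nat.one_le_iff_ne_zero.2 (by positivity))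
    (by
      push_cast
      refine mul_le_mul_of_nonneg_right ?_ (by positivity)
      nlinarith [pow_pos (show (0 : ℝ) < x by linarith) 2])
  exact H.stOK (3 * x * 2 ^ t) (Nat.one_le_iff_ne_zero.2 (by positivity))
    (Hb := 2 * x) (by linarith [H.gm_le', (gl x).one_le_gm]) le_rfl H.hV

theorem c3_ge : (x : ℝ) / 400 + 4 * (gl x).gm ≤
    log ((((gl x).q * (9 * x * 2 ^ x) ^ 2 : ℕ) : ℝ) / (2 * (x : ℝ) ^ 2 + 1)) / 400 := by
  have hx1 := H.x1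
  have h1 : ((2 : ℝ) ^ x) ^ 2 ≤
      (((gl x).q * (9 * x * 2 ^ x) ^ 2 : ℕ) : ℝ) / (2 * (x : ℝ) ^ 2 + 1) := by
    rw [le_div_iff₀ (by positivity)]
    push_cast
    rw [gl_q]
    have a1 : (1 : ℝ) ≤ (x : ℝ) ^ 78 := one_le_pow₀ hx1
    have a2 : (1 : ℝ) ≤ (x : ℝ) ^ 2 := one_le_pow₀ hx1
    have a3 : (0 : ℝ) ≤ ((2 : ℝ) ^ x) ^ 2 := by positivity
    calc _ ≤ ((2 : ℝ) ^ x) ^ 2 * (81 * (x : ℝ) ^ 2) := mul_le_mul_of_nonneg_left (by linarith) a3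
      _ = 1 * (9 * x * 2 ^ x) ^ 2 := by ring
      _ ≤ _ := mul_le_mul_of_nonneg_right a1 (by positivity)
  have h2 := log_le_log (by positivity) h1
  rw [log_pow, log_pow] at h2
  have h4 := mul_le_mul_of_nonneg_left log_two_gt_d9.le (Nat.cast_nonneg (α := ℝ) x)
  push_cast at h2 ⊢
  linarith [H.gm_le', (gl x).one_le_gm]

theorem y_le : x * (x : ℝ) ^ 25 / (10 ^ 7 * (k : ℝ) ^ 3) ≤ x * (x : ℝ) ^ 25 / 10 ^ 7 := by
  have hx1 := H.x1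
  have := one_le_pow₀ (n := 3) H.k1
  exact div_le_div_of_nonneg_left (by positivity) (by positivity) (by linarith)

theorem y_ge : 28 * (x : ℝ) ^ 25 ≤ x * (x : ℝ) ^ 25 / (10 ^ 7 * (k : ℝ) ^ 3) := by
  have hx1 := H.x1
  have hk := H.k1
  have h := H.kpow (m := 3) (by norm_num)
  rw [le_div_iff₀ (by positivity)]
  have h1 : 0 ≤ (x : ℝ) ^ 25 := by positivity
  have h2 : 0 ≤ (k : ℝ) ^ 3 := by positivity
  nlinarith

theorem x_sq_le : (10 : ℝ) ^ 24 * (k : ℝ) ^ 3 * x ≤ (x : ℝ) ^ 25 := by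
  have hx1 := H.x1
  have h := mul_le_mul_of_nonneg_right (H.kpow (m := 3) (by norm_num)) (show (0 : ℝ) ≤ x by linarith)
  have := H.pow_le_nu (m := 2) (by norm_num)
  nlinarith

theorem x_le : (10 : ℝ) ^ 24 * x ≤ (x : ℝ) ^ 25 := by
  have hx1 := H.x1
  have := one_le_pow₀ (n := 3) H.k1
  have := H.x_sq_le
  nlinarith

end Big

end Pool.Agent.MP_037c5a_pr
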