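import Pool.Agent.MP_037c5a_pr.Params2

open Real

namespace Pool.Agent.MP_037c5a_pr

theorem exp_neg_le {u c : ℝ} (hc : 0 < c) (h : c ≤ u) : exp (-u) ≤ 1 / c := by
  rw [exp_neg, one_div]
  exact inv_anti₀ hc (by linarith [add_one_le_exp u])

namespace Big

variable {k x : ℕ} (H : Big k x)
include H

theorem hl_half : 2 * (9 * (x : ℝ) ^ 25 + x * (x : ℝ) ^ 25 / (10 ^ 7 * (k : ℝ) ^ 3)) ≤
    ((x : ℝ) ^ 25) ^ 2 / 4 := by
  have h1 := H.y_le
  have h2 := H.x_le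
  have h3 := H.big
  have hn : 0 ≤ (x : ℝ) ^ 25 := by positivity
  generalize (x : ℝ) ^ 25 = n at *
  nlinarith

theorem htheta : 800000 * (k : ℝ) ^ 2 / (x : ℝ) ^ 25 ≤ 1 / (400 * k * ((x : ℝ) ^ 25) ^ 2 * x) *
    (((2 * (x ^ 25) ^ 2 : ℕ) : ℝ) - (((x ^ 25) ^ 2 : ℕ) : ℝ) - 12 * x * (x : ℝ) ^ 25 -
      3 * (x * (x : ℝ) ^ 25 / (10 ^ 7 * (k : ℝ) ^ 3))) := by
  have h1 := H.y_le
  have h2 := H.x_le
  have h3 := H.big
  have h4 := H.x_sq_le
  have hk := H.k1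
  have hn : 0 < (x : ℝ) ^ 25 := by positivity
  push_cast
  generalize (x : ℝ) ^ 25 = n at *
  have a1 : n ^ 2 / 2 ≤ 2 * n ^ 2 - n ^ 2 - 12 * x * n - 3 * (x * n / (10 ^ 7 * (k : ℝ) ^ 3)) := by
    nlinarith
  refine le_trans ?_ (mul_le_mul_of_nonneg_left a1 (by positivity))
  have e : 1 / (400 * k * n ^ 2 * x) * (n ^ 2 / 2) = 1 / (800 * k * x) := by
    field_simp
    ring
  rw [e, div_le_div_iff₀ hn (by positivity)]
  have : 0 ≤ (k : ℝ) ^ 3 * x := by positivity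
  nlinarith

theorem b_le_nu : ((gl x).bb : ℝ) * (gl x).gm ≤ (x : ℝ) ^ 25 := by
  have h1 := H.b_le
  have h2 := H.pow_le_nu (m := 7) (by norm_num)
  have h3 : 0 ≤ (x : ℝ) ^ 7 := by positivity
  linarith

theorem thb_le : 800000 * (k : ℝ) ^ 2 / (x : ℝ) ^ 25 * (((gl x).bb : ℝ) * (gl x).gm) ≤
    (k : ℝ) ^ 2 * (x : ℝ) ^ 7 / (10 ^ 18 * (x : ℝ) ^ 25) := by
  have hx1 := H.x1
  refine (mul_le_mul_of_nonneg_left H.b_le (by positivity)).trans ?_
  rw [div_mul_div_comm, div_le_div_iff₀ (by positivity) (by positivity)]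
  have : 0 ≤ (k : ℝ) ^ 2 * (x : ℝ) ^ 7 * (x : ℝ) ^ 25 := by positivity
  nlinarith

theorem hthb : 800000 * (k : ℝ) ^ 2 / (x : ℝ) ^ 25 * (((gl x).bb : ℝ) * (gl x).gm) ≤ 1 / 10 := by
  have hx1 := H.x1
  refine H.thb_le.trans ?_
  rw [div_le_div_iff₀ (by positivity) (by positivity)]
  have h1 := mul_le_mul_of_nonneg_right (H.kpow (m := 2) (by norm_num))
    (show 0 ≤ (x : ℝ) ^ 7 by positivity)
  have h2 := H.pow_le_nu (m := 8) (by norm_num)
  have h3 : 0 ≤ (k : ℝ) ^ 2 * (x : ℝ) ^ 7 := by positivity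
  nlinarith

theorem hL : (gl x).W *
    (800000 * (k : ℝ) ^ 2 / (x : ℝ) ^ 25 * (((gl x).bb : ℝ) * (gl x).gm)) ^ 3 ≤ 1 / 100000 := by
  have hx1 := H.x1
  have hgm := (gl x).one_le_gm
  refine (mul_le_mul_of_nonneg_left (pow_le_pow_left₀ (by positivity) H.thb_le 3)
    (by simp only [gl]; positivity)).trans ?_
  have e : (gl x).W * ((k : ℝ) ^ 2 * (x : ℝ) ^ 7 / (10 ^ 18 * (x : ℝ) ^ 25)) ^ 3 =
      (k : ℝ) ^ 6 / (10 ^ 54 * x) := by
    simp only [gl]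
    field_simp
  rw [e, div_le_div_iff₀ (by positivity) (by positivity)]
  have := H.k6
  have h3 : 0 ≤ (k : ℝ) ^ 6 := by positivity
  linarith

theorem hgain : x * (x : ℝ) ^ 25 / (200000 * k) + 3 * (x * (x : ℝ) ^ 25 / (10 ^ 7 * (k : ℝ) ^ 3)) ≤
    1 / (24 * k * (x : ℝ) ^ 25) * (x * ((x : ℝ) ^ 25) ^ 2 / 1000) / 4 -
      1 / (1 / (24 * k * (x : ℝ) ^ 25)) := by
  have hx1 := H.x1
  have hk := H.k1
  have h2 := H.kpow (m := 2) (by norm_num)
  have hn : 0 < (x : ℝ) ^ 25 := by positivity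
  generalize (x : ℝ) ^ 25 = n at *
  have e1 : 1 / (24 * k * n) * (x * n ^ 2 / 1000) / 4 = x * n / k / 96000 := by
    field_simp
    ring
  have e2 : x * n / (200000 * k) = x * n / k / 200000 := by field_simp
  have a1 : x * n / (10 ^ 7 * (k : ℝ) ^ 3) ≤ x * n / k / 10 ^ 7 := by
    rw [div_div, mul_comm (k : ℝ)]
    exact div_le_div_of_nonneg_left (by positivity) (by positivity)
      (mul_le_mul_of_nonneg_left (le_self_pow₀ hk (by norm_num)) (by positivity))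
  have a2 : 24 * k * n ≤ x * n / k / 10 ^ 6 := by
    rw [div_div, le_div_iff₀ (by positivity)]
    have := mul_le_mul_of_nonneg_right h2 hn.le
    have : 0 ≤ (k : ℝ) ^ 2 * n := by positivity
    nlinarith
  have a3 : 0 ≤ x * n / k := by positivity
  rw [e1, e2, one_div_one_div]
  linarith

theorem lamV : 4 * (1 / (24 * k * (x : ℝ) ^ 25)) ^ 2 * (18 * x * ((x : ℝ) ^ 25) ^ 2) =
    x / (8 * (k : ℝ) ^ 2) := by
  have hx1 := H.x1
  have hk := H.k1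
  field_simp
  ring

theorem f3a : exp (-(3 * (x : ℝ))) + exp (-(2 * (x : ℝ))) ≤ exp (-(x / (8 * (k : ℝ) ^ 2))) / 8 := by
  have hb := H.big
  have hk := one_le_pow₀ (n := 2) H.k1
  have a1 : exp (-(3 * (x : ℝ))) ≤ exp (-(2 * (x : ℝ))) := exp_le_exp.2 (by linarith)
  have a2 : exp (-(x : ℝ)) ≤ exp (-(x / (8 * (k : ℝ) ^ 2))) :=
    exp_le_exp.2 (neg_le_neg (div_le_self (by linarith) (by linarith)))
  have a3 : exp (-(2 * (x : ℝ))) = exp (-(x : ℝ)) * exp (-(x : ℝ)) := by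
    rw [← exp_add]; ring_nf
  have a4 : exp (-(x : ℝ)) ≤ 1 / 16 := exp_neg_le (by norm_num) (by linarith)
  have a5 := exp_pos (-(x : ℝ))
  nlinarith

theorem f3b : (((2 ^ x + 1) ^ 2 : ℕ) : ℝ) *
    (2 * exp (-((12 * x * (x : ℝ) ^ 25) ^ 2 / (4 * (18 * x * ((x : ℝ) ^ 25) ^ 2)))) +
      exp (-(3 * (x : ℝ)))) + (((2 ^ x + 1) ^ 2 : ℕ) : ℝ) * exp (-(2 * (x : ℝ))) ≤ 5 / 24 := by
  have hb := H.big
  have e : (12 * x * (x : ℝ) ^ 25) ^ 2 / (4 * (18 * x * ((x : ℝ) ^ 25) ^ 2)) = 2 * x := by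
    field_simp
    ring
  have a1 : exp (-(3 * (x : ℝ))) ≤ exp (-(2 * (x : ℝ))) := exp_le_exp.2 (by linarith)
  have a2 : (((2 ^ x + 1) ^ 2 : ℕ) : ℝ) ≤ 4 * exp (1.4 * x) := by
    push_cast
    have b1 : (1 : ℝ) ≤ 2 ^ x := one_le_pow₀ (by norm_num)
    have b2 : ((2 : ℝ) ^ x) ^ 2 ≤ exp (1.4 * x) := by
      rw [two_pow_eq, sq, ← exp_add, exp_le_exp]
      nlinarith [log_two_lt_d9]
    nlinarith
  have a3 : exp (1.4 * x) * exp (-(2 * (x : ℝ))) ≤ 1 / 100 := by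
    rw [← exp_add, show 1.4 * (x : ℝ) + -(2 * x) = -(0.6 * x) by ring]
    exact exp_neg_le (by norm_num) (by linarith)
  have a4 := exp_pos (-(2 * (x : ℝ)))
  have a5 := exp_pos (-(3 * (x : ℝ)))
  rw [e, ← mul_add]
  refine (mul_le_mul a2 (show _ ≤ 4 * exp (-(2 * (x : ℝ))) by linarith) (by positivity)
    (by positivity)).trans ?_
  nlinarith

theorem t_big {t : ℕ} (hx : x = 2 * k * t) : (10 : ℝ) ^ 23 * (gl x).gm ≤ t := by
  have hk := H.k1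
  have h1 := H.gm_le
  have hgm := (gl x).one_le_gm
  have hx' : (x : ℝ) = 2 * k * t := by exact_mod_cast hx
  have h2 : (k : ℝ) ≤ (k : ℝ) ^ 6 := le_self_pow₀ hk (by norm_num)
  have h3 := mul_le_mul_of_nonneg_right h2 (show 0 ≤ (gl x).gm by linarith)
  refine le_of_mul_le_mul_left ?_ (show (0 : ℝ) < k by linarith)
  nlinarith

theorem f2 {t : ℕ} (hx : x = 2 * k * t) :
    2 * (exp (-((x * (x : ℝ) ^ 25 / (10 ^ 7 * (k : ℝ) ^ 3)) ^ 2 /
      (2 * (18 * x * ((x : ℝ) ^ 25) ^ 2)))) + exp (-(3 * (x : ℝ)))) +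
    (1 - exp (-(x / (8 * (k : ℝ) ^ 2))) / 8) ^ (2 ^ t) ≤ 1 / 2 := by
  have hb := H.big
  have hk := H.k1
  have e : (x * (x : ℝ) ^ 25 / (10 ^ 7 * (k : ℝ) ^ 3)) ^ 2 / (2 * (18 * x * ((x : ℝ) ^ 25) ^ 2)) =
      x / (36 * 10 ^ 14 * (k : ℝ) ^ 6) := by
    field_simp
    ring
  have a1 : exp (-(x / (36 * 10 ^ 14 * (k : ℝ) ^ 6))) ≤ 1 / 100 := by
    refine exp_neg_le (by norm_num) ?_
    rw [le_div_iff₀ (by positivity)]
    have := H.k6
    have : 0 ≤ (k : ℝ) ^ 6 := by positivity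
    linarith
  have a2 : exp (-(3 * (x : ℝ))) ≤ 1 / 100 := exp_neg_le (by norm_num) (by linarith)
  have ht : (10 : ℝ) ^ 23 ≤ t := by linarith [H.t_big hx, (gl x).one_le_gm]
  have hx' : (x : ℝ) = 2 * k * t := by exact_mod_cast hx
  have a3 : exp (-((t : ℝ) / 4)) ≤ exp (-(x / (8 * (k : ℝ) ^ 2))) := by
    rw [exp_le_exp, neg_le_neg_iff, div_le_div_iff₀ (by positivity) (by norm_num), hx']
    have : 0 ≤ (k : ℝ) * t * (k - 1) := mul_nonneg (by positivity) (by linarith)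
    nlinarith
  have a4 : exp (-(x / (8 * (k : ℝ) ^ 2))) ≤ 1 := exp_le_one_iff.2 (neg_nonpos.2 (by positivity))
  generalize exp (-(x / (8 * (k : ℝ) ^ 2))) = p at a3 a4 ⊢
  have a5 : (1 - p / 8) ^ (2 ^ t) ≤ exp (-(p / 8)) ^ (2 ^ t) :=
    pow_le_pow_left₀ (by linarith) (by linarith [add_one_le_exp (-(p / 8))]) _
  have a6 : exp (-(p / 8)) ^ (2 ^ t) ≤ 1 / 4 := by
    rw [← exp_nat_mul, mul_neg]
    refine exp_neg_le (by norm_num) ?_
    push_cast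
    have b1 : 32 ≤ (2 : ℝ) ^ t * exp (-((t : ℝ) / 4)) := by
      rw [two_pow_eq, ← exp_add]
      refine le_trans ?_ (add_one_le_exp _)
      nlinarith [log_two_gt_d9]
    have b2 := mul_le_mul_of_nonneg_left a3 (show (0 : ℝ) ≤ 2 ^ t by positivity)
    linarith
  rw [e]
  linarith

theorem f1 : 2 * (exp (-((x * (x : ℝ) ^ 25 / (10 ^ 7 * (k : ℝ) ^ 3)) ^ 2 /
      (2 * (36 * (gl x).gm * ((x : ℝ) ^ 25) ^ 2)))) + exp (-(3 * (x : ℝ)))) +
    (1 / 2) ^ (4 * x) ≤ exp (-(2 * (x : ℝ))) := by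
  have hb := H.big
  have hk := H.k1
  have hgm := (gl x).one_le_gm
  have e : (x * (x : ℝ) ^ 25 / (10 ^ 7 * (k : ℝ) ^ 3)) ^ 2 /
      (2 * (36 * (gl x).gm * ((x : ℝ) ^ 25) ^ 2)) =
      x * x / (72 * 10 ^ 14 * (k : ℝ) ^ 6 * (gl x).gm) := by
    field_simp
    ring
  have a1 : exp (-(x * x / (72 * 10 ^ 14 * (k : ℝ) ^ 6 * (gl x).gm))) ≤ exp (-(2.7 * (x : ℝ))) := by
    rw [exp_le_exp, neg_le_neg_iff, le_div_iff₀ (by positivity)]
    have h1 := mul_le_mul_of_nonneg_left H.gm_le (show (0 : ℝ) ≤ x by linarith)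
    have : 0 ≤ x * ((k : ℝ) ^ 6 * (gl x).gm) := by positivity
    nlinarith
  have a2 : exp (-(3 * (x : ℝ))) ≤ exp (-(2.7 * (x : ℝ))) := exp_le_exp.2 (by linarith)
  have a3 : ((1 : ℝ) / 2) ^ (4 * x) ≤ exp (-(2.7 * (x : ℝ))) := by
    rw [one_div, inv_pow, two_pow_eq, ← exp_neg, exp_le_exp, neg_le_neg_iff]
    push_cast
    nlinarith [log_two_gt_d9]
  have a4 : exp (-(2.7 * (x : ℝ))) = exp (-(2 * (x : ℝ))) * exp (-(0.7 * (x : ℝ))) := by
    rw [← exp_add]; ring_nf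
  have a5 : exp (-(0.7 * (x : ℝ))) ≤ 1 / 5 := exp_neg_le (by norm_num) (by linarith)
  have a6 := mul_le_mul_of_nonneg_left a5 (exp_pos (-(2 * (x : ℝ)))).le
  rw [e]
  linarith

theorem ppOK {t : ℕ} (hx : x = 2 * k * t) : PPOK (pp k t x) := by
  have hb := H.big
  have hk := H.k1
  have hx1 := H.hx
  have hgm := (gl x).one_le_gm
  have htx : t ≤ x := by
    rw [hx]
    exact Nat.le_mul_of_pos_left _ (by have := H.hk; omega)
  have hn : (1 : ℝ) ≤ (x : ℝ) ^ 25 := one_le_pow₀ H.x1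
  have hD : (gl x).D = x := rfl
  have hp : 2 * (x : ℝ) ^ 2 + 1 ≤ (((gl x).q * (9 * x * 2 ^ x) ^ 2 : ℕ) : ℝ) := by
    push_cast
    rw [gl_q]
    have a1 : (1 : ℝ) ≤ (x : ℝ) ^ 78 := one_le_pow₀ H.x1
    have a2 : (1 : ℝ) ≤ (x : ℝ) ^ 2 := one_le_pow₀ H.x1
    have a3 : (1 : ℝ) ≤ ((2 : ℝ) ^ x) ^ 2 := one_le_pow₀ (one_le_pow₀ (by norm_num))
    calc _ ≤ 81 * (x : ℝ) ^ 2 * 1 := by linarith
      _ ≤ 81 * (x : ℝ) ^ 2 * ((2 : ℝ) ^ x) ^ 2 := mul_le_mul_of_nonneg_left a3 (by positivity)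
      _ = 1 * (9 * x * 2 ^ x) ^ 2 := by ring
      _ ≤ _ := mul_le_mul_of_nonneg_right a1 (by positivity)
  refine
    { s1 := H.s1 t, s2 := H.s2 t htx, s3 := H.s3 t
      J1 := by simp only [pp]; omega
      J2 := by simp only [pp]; positivity
      K1 := Nat.one_le_two_pow
      r1 := ?_, r2 := ?_, r3 := ?_, η4 := ?_
      y0 := by simp only [pp]; positivity
      loss0 := by simp only [pp]; positivity
      N0 := by simp only [pp]; positivity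
      N01 := by simp only [pp]; omega
      hl0 := ?_, he := ?_
      κ0 := by simp only [pp]; positivity
      hθ := H.htheta
      hm0 := by simp only [pp]; positivity
      hmb := ?_, hθb := H.hthb, hL := H.hL
      Δ0 := by simp only [pp]; positivity
      hκΔ := ?_, hG := ?_
      lam0 := by simp only [pp]; positivity
      hlb := ?_, hp := hp, hc3 := ?_, hVl := ?_, hgain := H.hgain
      δ0 := (exp_pos _).le
      δ2 := exp_neg_le (by norm_num) (by linarith)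
      f3a := ?_, f3b := H.f3b, f2 := ?_, f1 := H.f1, hW := ?_ }
  · simp only [pp]
    rw [H.eta_mul, hD]
    push_cast
    linarith
  · simp only [pp]
    rw [H.eta_mul, hD]
    push_cast
    linarith
  · simp only [pp]
    rw [H.eta_mul, hD]
    push_cast
    have a3 : (1 : ℝ) ≤ (2 : ℝ) ^ x := one_le_pow₀ (by norm_num)
    nlinarith
  · show 2 / (((gl x).q : ℕ) : ℝ) ≤ 1 / 4
    rw [gl_q, div_le_div_iff₀ (by positivity) (by norm_num)]
    linarith [le_self_pow₀ H.x1 (show 78 ≠ 0 by norm_num)]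
  · simp only [pp]
    push_cast
    linarith [H.hl_half, sq_nonneg ((x : ℝ) ^ 25)]
  · simp only [pp]
    linarith [H.y_ge]
  · simp only [pp]
    have := mul_le_mul_of_nonneg_left H.b_le_nu (show 0 ≤ 12 * x * (x : ℝ) ^ 25 by positivity)
    have h2 : 0 ≤ x * ((x : ℝ) ^ 25) ^ 2 := by positivity
    linarith
  · simp only [pp]
    have e : 1 / (400 * k * ((x : ℝ) ^ 25) ^ 2 * x) * (x * (x : ℝ) ^ 25 / (200000 * k)) =
        1 / (80000000 * (k : ℝ) ^ 2) / (x : ℝ) ^ 25 := by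
      field_simp
      ring
    rw [e]
    refine div_le_div_of_nonneg_right ?_ (by positivity)
    have := one_le_pow₀ (n := 2) hk
    refine le_trans (div_le_one_of_le₀ (by linarith) (by positivity)) (by linarith)
  · simp only [pp]
    refine le_of_eq (congrArg _ ?_)
    field_simp
    ring
  · simp only [pp]
    refine (mul_le_mul_of_nonneg_left H.b_le_nu (by positivity)).trans ?_
    rw [one_div_mul_eq_div, div_le_div_iff₀ (by positivity) (by norm_num)]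
    nlinarith
  · simp only [pp]
    rw [hD]
    linarith [H.c3_ge]
  · simp only [pp]
    rw [hD]
    have hk' : ((((gl x).q * ((gl x).q * (9 * x * 2 ^ x) ^ 2) - 1 : ℕ) : ℝ) + 1) =
        (((gl x).q * (9 * x * 2 ^ x) : ℕ) : ℝ) ^ 2 := (H.s3 t).mom.hM2.symm
    have a1 := H.tail_le (k' := (gl x).q * ((gl x).q * (9 * x * 2 ^ x) ^ 2) - 1)
      (by rw [hk']; exact H.log_a3)
    have a2 : ((x : ℝ) ^ 25) ^ 2 / 2 ≤ (((x ^ 25) ^ 2 : ℕ) : ℝ) -
        2 * (9 * (x : ℝ) ^ 25 + x * (x : ℝ) ^ 25 / (10 ^ 7 * (k : ℝ) ^ 3)) := by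
      push_cast
      linarith [H.hl_half, sq_nonneg ((x : ℝ) ^ 25)]
    have a3 := mul_le_mul (le_sub_iff_add_le.2 H.c3_ge) a2 (by positivity)
      (by linarith [H.c3_ge])
    have a4 : (x : ℝ) * 1 ≤ x * ((x : ℝ) ^ 25) ^ 2 :=
      mul_le_mul_of_nonneg_left (one_le_pow₀ hn) (by positivity)
    linarith
  · simp only [pp]
    rw [H.lamV]
    exact H.f3a
  · simp only [pp]
    rw [H.lamV]
    exact H.f2 hx
  · simp only [pp, gl]
    push_cast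
    have a1 : (x : ℝ) ≤ (x : ℝ) ^ 3 := le_self_pow₀ H.x1 (by norm_num)
    have a2 : 0 ≤ ((x : ℝ) ^ 25) ^ 2 := by positivity
    nlinarith

end Big

end Pool.Agent.MP_037c5a_pr
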