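import Pool.Agent.MP_037c5a_pr.Beta

open MeasureTheory Finset ProbabilityTheory

namespace Pool.Agent.MP_037c5a_pr

theorem markov_count {Ω : Type} [MeasurableSpace Ω] (μ : Measure Ω) (J : ℕ) (hJ : 0 < J)
    (bad : Fin (2 * J) → Set Ω) [∀ β, DecidablePred fun j => β ∈ bad j] (hb : ∀ j, MeasurableSet (bad j)) (π : ENNReal)
    (hπ : ∀ j, μ (bad j) ≤ π) :
    μ {β | J ≤ (univ.filter fun j => β ∈ bad j).card} ≤ 2 * π := by
  have h1 := mul_meas_ge_le_lintegral₀ (μ := μ)
    (f := fun β => ∑ j, (bad j).indicator (1 : Ω → ENNReal) β)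
    (Finset.measurable_sum _ fun j _ => measurable_one.indicator (hb j)).aemeasurable (J : ENNReal)
  rw [lintegral_finsetSum _ fun j _ => measurable_one.indicator (hb j)] at h1
  have h2 : ∑ j, ∫⁻ β, (bad j).indicator (1 : Ω → ENNReal) β ∂μ ≤ (J : ENNReal) * (2 * π) := by
    refine (sum_le_card_nsmul _ _ π fun j _ => ?_).trans (le_of_eq ?_)
    · rw [lintegral_indicator_one (hb j)]
      exact hπ j
    · simp only [card_univ, Fintype.card_fin, nsmul_eq_mul]
      push_cast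
      ring
  have h3 : {β | J ≤ (univ.filter fun j => β ∈ bad j).card} =
      {β | (J : ENNReal) ≤ ∑ j, (bad j).indicator (1 : Ω → ENNReal) β} := by
    ext β
    simp only [Set.mem_ofPred_eq, Set.indicator_apply, Pi.one_apply, sum_boole, Nat.cast_le]
  rw [h3]
  exact (ENNReal.mul_le_mul_iff_right (by exact_mod_cast hJ.ne') (by simp)).1 (h1.trans h2)

theorem spread (hC : StmtChain) (hM : StmtMom) (hc : StmtConc) {g : Glob}
    {Hm loss V πc : ℝ} {p k : ℕ} {M : ℝ} (H : StOK g Hm loss V πc p k M) (𝓜 : Model)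
    {Φ : Set E → Prop} (hΦ : MeasPred Φ) (hΦ' : MonoPred Φ) {h h' y : ℝ} (h0 : 0 ≤ h)
    (hH : h ≤ Hm) (hy : 0 ≤ y) (hh : h' ≤ h - loss - y) {f : ENNReal} (hf : f ≤ 1)
    (hw : Win g 𝓜 Φ h' f) (J : ℕ) (hJ : 0 < J) (z : Fin (2 * J) → E)
    (hz : ∀ j, ‖z j‖ + g.D / M ≤ g.η) (hsep : ∀ j j', j ≠ j' → 2 * g.D < M * ‖z j - z j'‖) :
    Win g (refine hC k M 𝓜) (fun T => ∃ j, Φ (zoom T (z j) M⁻¹)) h
      (2 * ENNReal.ofReal (Real.exp (-(y ^ 2 / (2 * V))) + πc) + f ^ J) := by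
  classical
  have hM0 := H.mom.hM
  refine win_of_thin hM H.mom.hq0 (fun T T' hT ⟨j, hj⟩ => ⟨j, hΦ'.zoom _ _ T T' hT hj⟩) h0 ?_
  intro ι _ s A B hok hup
  have bf := fun j => beta_facts hC hM hc H hok (hup.trans (add_le_add_left hH _)) (hz j)
  let bad : Fin (2 * J) → Set (ι → Fin k → E) := fun j =>
    {β | Sz g p k M s A B (z j) β ≤ mz g p k M s A B (z j) - y} ∪
      {β | g.W ≤ Cz g p k M s A B (z j) β}
  have hb : ∀ j, MeasurableSet (bad j) := fun j =>
    (measurableSet_le (meas_Sz hM _ _ _ _ _ _ _ _) measurable_const).union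
      (measurableSet_le measurable_const (meas_Cz hM _ _ _ _ _ _ _ _))
  have hπ : ∀ j, (Measure.pi fun _ : ι => nu k) (bad j) ≤
      ENNReal.ofReal (Real.exp (-(y ^ 2 / (2 * V))) + πc) := fun j => by
    refine (measure_union_le _ _).trans ?_
    rw [ENNReal.ofReal_add (Real.exp_pos _).le ((Real.exp_pos _).le.trans H.hπ)]
    exact add_le_add ((bf j).2.1 y hy) (bf j).2.2.2.1
  refine (refine_le hC k M 𝓜 (MeasPred.ex fun j => hΦ.zoom (z j) (inv_pos.2 hM0)) s A B
    {β | J ≤ (univ.filter fun j => β ∈ bad j).card} (f ^ J) fun β hβ => ?_).trans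
    (add_le_add_left (markov_count _ J hJ bad hb _ hπ) _)
  let G := univ.filter fun j => β ∉ bad j
  have hG : J ≤ G.card := by
    have h1 := card_filter_add_card_filter_not (s := (univ : Finset (Fin (2 * J))))
      fun j => β ∈ bad j
    simp only [Set.mem_ofPred_eq, not_le] at hβ
    simp only [card_univ, Fintype.card_fin] at h1
    simp only [G]
    omega
  refine le_trans (measure_mono ?_) ((pi_inter_le 𝓜 (fun j => chS g p k M s A B (z j) β)
    (fun j => chA k M A B (z j) β) (fun j => chB k M A B (z j) β) hΦ f G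
    (fun j _ j' _ hj => chS_disjoint g H.mom.hk hM0 s A B (hsep j j' hj) β) fun j hj => ?_).trans
      (pow_le_pow_right_of_le_one' hf hG))
  · intro ω hω
    simp only [Set.mem_iInter, Set.mem_ofPred_eq]
    intro j _ hj
    exact hω ⟨j, hΦ' _ _ (child_subset hC g p k hM0 𝓜 s A B (z j) β ω) hj⟩
  · have hj' : β ∉ bad j := (mem_filter.1 hj).2
    simp only [bad, Set.mem_union, Set.mem_ofPred_eq, not_or, not_le] at hj'
    refine hw _ _ _ _ (ok_child g H.mom.hk M s A B (z j) β ?_ hj'.2.le)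
    linarith [(bf j).1, hj'.1]

end Pool.Agent.MP_037c5a_pr
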