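import Pool.Agent.MP_037c5a_pr.Spread

open MeasureTheory Finset ProbabilityTheory

namespace Pool.Agent.MP_037c5a_pr

noncomputable def potF (N1 : ℕ) (κ : ℝ) (N : ℕ) : ℝ := Real.exp (-(κ * ((N1 : ℝ) - N) ^ 2 / 2))

theorem sq_min_floor (N1 : ℕ) {S t : ℝ} (ht : t + 1 ≤ S) :
    ((N1 : ℝ) - (min N1 ⌊S⌋₊ : ℕ)) ^ 2 ≤ ((N1 : ℝ) - t) ^ 2 := by
  rcases le_total N1 ⌊S⌋₊ with h | h
  · rw [min_eq_left h, sub_self]
    nlinarith [sq_nonneg ((N1 : ℝ) - t)]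
  · rw [min_eq_right h]
    have h1 : ((⌊S⌋₊ : ℕ) : ℝ) ≤ N1 := by exact_mod_cast h
    have h2 := Nat.lt_floor_add_one S
    exact pow_le_pow_left₀ (by linarith) (by linarith) 2

theorem pot_cond {N1 N : ℕ} {κ θ e hmax S x : ℝ} (hκ : 0 ≤ κ)
    (hθ : κ * ((N1 : ℝ) - N) ≤ θ) (he : 0 ≤ e) (hx : |x| ≤ hmax) (hS : N + x - e + 1 ≤ S) :
    Real.exp (-(θ * e + κ * (hmax + e) ^ 2 / 2)) * potF N1 κ N *
      Real.exp (κ * ((N1 : ℝ) - N) * x) ≤ potF N1 κ (min N1 ⌊S⌋₊) := by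
  unfold potF
  rw [← Real.exp_add, ← Real.exp_add, Real.exp_le_exp]
  have h1 := mul_le_mul_of_nonneg_left (sq_min_floor N1 hS) hκ
  have h2 : (x - e) ^ 2 ≤ (hmax + e) ^ 2 := by
    rw [abs_le] at hx
    exact sq_le_sq' (by linarith) (by linarith)
  have h3 := mul_le_mul_of_nonneg_left h2 hκ
  have h4 := mul_le_mul_of_nonneg_right hθ he
  nlinarith

theorem pot_tele {N1 N : ℕ} {κ θ Δ S G : ℝ} (hκ : 0 ≤ κ) (hθ : θ ≤ κ * ((N1 : ℝ) - N))
    (hΔ : 0 ≤ Δ) (hκΔ : κ * Δ ≤ θ) (hG : G ≤ Real.exp (θ * Δ / 2)) (hS : N + Δ + 1 ≤ S) :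
    G * potF N1 κ N ≤ potF N1 κ (min N1 ⌊S⌋₊) := by
  unfold potF
  refine (mul_le_mul_of_nonneg_right hG (Real.exp_pos _).le).trans ?_
  rw [← Real.exp_add, Real.exp_le_exp]
  have h1 := mul_le_mul_of_nonneg_left (sq_min_floor N1 hS) hκ
  have h2 := mul_le_mul_of_nonneg_right hθ hΔ
  have h3 := mul_le_mul_of_nonneg_right hκΔ hΔ
  nlinarith

theorem win_child {g : Glob} {p k : ℕ} (hk : k + 1 = g.q * p) (M : ℝ) {𝓜 : Model}
    {Φ : ℕ → Set E → Prop} {N00 N1 : ℕ} {δ : ENNReal} (h01 : N00 ≤ N1)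
    (hw : ∀ n, N00 ≤ n → n ≤ N1 → Win g 𝓜 (Φ n) n δ) {ι : Type} [Fintype ι] (s : Finset ι)
    (A B : ι → E) (z : E) (β : ι → Fin k → E) (hS : (N00 : ℝ) ≤ Sz g p k M s A B z β)
    (hW : Cz g p k M s A B z β ≤ g.W) :
    (Measure.pi fun _ : ι × Fin (k + 1) => 𝓜.μ) {ω | ¬ Φ (min N1 ⌊Sz g p k M s A B z β⌋₊)
      (famT 𝓜 (chS g p k M s A B z β) (chA k M A B z β) (chB k M A B z β) ω)} ≤ δ := by
  have h0 : 0 ≤ Sz g p k M s A B z β := (Nat.cast_nonneg _).trans hS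
  refine hw _ (le_min h01 (Nat.le_floor hS)) (min_le_left _ _) _ _ _ _
    (ok_child g hk M s A B z β ?_ hW)
  exact le_trans (by exact_mod_cast min_le_right _ _) (Nat.floor_le h0)

theorem stage_tele (hC : StmtChain) (hM : StmtMom) (hc : StmtConc) {g : Glob}
    {Hm loss V πc : ℝ} {p k : ℕ} {M : ℝ} (H : StOK g Hm loss V πc p k M) (𝓜 : Model)
    {Φ : ℕ → Set E → Prop} (hΦ : ∀ n, MeasPred (Φ n)) (hΦ' : ∀ n, MonoPred (Φ n))
    {N N00 N1 : ℕ} {δ : ENNReal} (hw : ∀ n, N00 ≤ n → n ≤ N1 → Win g 𝓜 (Φ n) n δ)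
    {κ θ e h Δ G lam V₁ hl : ℝ} (h0 : 0 ≤ h) (hH : h ≤ Hm) (hκ : 0 ≤ κ) (hN0 : N00 ≤ N)
    (hN : N ≤ N1) (hθ : θ ≤ κ * ((N1 : ℝ) - N)) (he : N - h + loss + 1 ≤ e) (hΔ : 0 ≤ Δ)
    (hκΔ : κ * Δ ≤ θ) (hG : G ≤ Real.exp (θ * Δ / 2)) (hz : g.D / M ≤ g.η) (hlam : 0 < lam)
    (hlb : lam * (g.bb * g.gm) ≤ 1 / 2) (hp : 2 * g.D ^ 2 + 1 ≤ p) (hhl : hl ≤ h)
    (hc3 : 4 * g.gm ≤ Real.log (p / (2 * g.D ^ 2 + 1)) / 400)
    (hV₁ : V₁ ≤ (Real.log (p / (2 * g.D ^ 2 + 1)) / 400 - 4 * g.gm) * hl -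
        g.W * (((k + 1) * g.gm) ^ 2 * g.tl k))
    (hgain : Δ + e ≤ lam * V₁ / 4 - 1 / lam) :
    Win g (refine hC k M 𝓜)
      (fun T => ∃ N', Φ N' (zoom T 0 M⁻¹) ∧ G * potF N1 κ N ≤ potF N1 κ N') h
      (ENNReal.ofReal (1 - Real.exp (-(4 * lam ^ 2 * V)) / 4) + ENNReal.ofReal πc + δ) := by
  have hM0 := H.mom.hM
  refine win_of_thin hM H.mom.hq0
    (fun T T' hT ⟨n, hn, hn'⟩ => ⟨n, (hΦ' n).zoom _ _ T T' hT hn, hn'⟩) h0 ?_
  intro ι _ s A B hok hup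
  have bf := beta_facts hC hM hc H hok (hup.trans (add_le_add_left hH _)) (z := 0)
    (by simpa using hz)
  refine (refine_le hC k M 𝓜 (MeasPred.ex fun n => ((hΦ n).zoom 0 (inv_pos.2 hM0)).and
    (MeasPred.const _)) s A B
    ({β | Sz g p k M s A B 0 β < mz g p k M s A B 0 + (lam * V₁ / 4 - 1 / lam)} ∪
      {β | g.W ≤ Cz g p k M s A B 0 β}) δ fun β hβ => ?_).trans
    (add_le_add_left ((measure_union_le _ _).trans
      (add_le_add (bf.2.2.2.2 lam V₁ hl hlam hlb hp hhl hc3 hV₁) bf.2.2.2.1)) _)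
  simp only [Set.mem_union, Set.mem_ofPred_eq, not_or, not_le, not_lt] at hβ
  have hS : N + Δ + 1 ≤ Sz g p k M s A B 0 β := by linarith [bf.1, hβ.1]
  have hN0' : (N00 : ℝ) ≤ N := by exact_mod_cast hN0
  refine le_trans (measure_mono ?_)
    (win_child H.mom.hk M (hN0.trans hN) hw s A B 0 β (by linarith) hβ.2.le)
  intro ω hω hω'
  exact hω ⟨_, hΦ' _ _ _ (child_subset hC g p k hM0 𝓜 s A B 0 β ω) hω',
    pot_tele hκ hθ hΔ hκΔ hG hS⟩

theorem stage_cond (hC : StmtChain) (hM : StmtMom) (hc : StmtConc) (hE : StmtEnergy) {g : Glob}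
    {Hm loss V πc : ℝ} {p k : ℕ} {M : ℝ} (H : StOK g Hm loss V πc p k M) (𝓜 : Model)
    {Φ : ℕ → Set E → Prop} (hΦ : ∀ n, MeasPred (Φ n)) (hΦ' : ∀ n, MonoPred (Φ n))
    {N N00 N1 K : ℕ} {δ : ENNReal} (hw : ∀ n, N00 ≤ n → n ≤ N1 → Win g 𝓜 (Φ n) n δ)
    {κ θ e h hmax d : ℝ} (hK : 1 ≤ K) (h0 : 0 ≤ h) (hH : h ≤ Hm) (hκ : 0 ≤ κ)
    (hN : N ≤ N1) (hθ : κ * ((N1 : ℝ) - N) ≤ θ) (he : N - h + loss + 1 ≤ e) (he0 : 0 ≤ e)
    (hN0 : N00 + hmax + e ≤ N) (hm0 : 0 ≤ hmax) (hmb : hmax * (g.bb * g.gm) ≤ 2 * V)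
    (hθb : θ * (g.bb * g.gm) ≤ 1 / 10) (hL : g.W * (θ * (g.bb * g.gm)) ^ 3 ≤ 1 / 100000)
    (hz : ∀ i ≤ K, ∀ j ≤ K, ‖d • gridPt i j‖ + g.D / M ≤ g.η) :
    Win g (refine hC k M 𝓜)
      (GridP K Φ (potF N1 κ)
        (Real.exp (-(θ * e + κ * (hmax + e) ^ 2 / 2)) / 7 * potF N1 κ N) 0 d M⁻¹) h
      (ENNReal.ofReal (2 / 3) + ((K + 1) ^ 2 : ℕ) *
        ENNReal.ofReal (2 * Real.exp (-(hmax ^ 2 / (4 * V))) + πc) + ((K + 1) ^ 2 : ℕ) * δ) := by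
  classical
  have := hC.nu_prob k
  have hM0 := H.mom.hM
  have hq0 := H.mom.hq0
  have hgm := g.one_le_gm
  have hN' : (N : ℝ) ≤ N1 := by exact_mod_cast hN
  have hθ0 : 0 ≤ κ * ((N1 : ℝ) - N) := mul_nonneg hκ (sub_nonneg.2 hN')
  have hb0 : 0 ≤ g.bb * g.gm := by positivity
  refine win_of_thin hM hq0 (monoPred_grid K hΦ' _ _ _ _ _) h0 ?_
  intro ι _ s A B hok hup
  let z : ℕ → ℕ → E := fun i j => d • gridPt i j
  have bf := fun i hi j hj => beta_facts hC hM hc H hok (hup.trans (add_le_add_left hH _))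
    (hz i hi j hj)
  let ξ : ι → (Fin k → E) → ℕ → ℕ → ℝ := fun i β a b =>
    κ * ((N1 : ℝ) - N) * (Si g p k M A B (z a b) i β - ∫ x, Si g p k M A B (z a b) i x ∂nu k)
  have hSm : ∀ i a b, Measurable (Si g p k M A B (z a b) i) := fun i a b =>
    hM.meas_S _ _ _ _ _ _ _ _
  have hSb := fun i a b => Si_bd hM g hq0 p k M A B (z a b) i
  have hSi : ∀ i a b, Integrable (Si g p k M A B (z a b) i) (nu k) := fun i a b =>
    Integrable.of_bound (hSm i a b).aestronglyMeasurable (g.bb * g.gm)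
      (Filter.Eventually.of_forall fun β => by
        rw [Real.norm_of_nonneg (hSb i a b β).1]; exact (hSb i a b β).2)
  have hen := energy_finset hE (nu k) s K hK ξ (θ * (g.bb * g.gm))
    (fun i a b => ((hSm i a b).sub measurable_const).const_mul _)
    (mul_nonneg (hθ0.trans hθ) hb0) hθb
    (fun i β a b => by
      have a1 : 0 ≤ ∫ x, Si g p k M A B (z a b) i x ∂nu k :=
        integral_nonneg fun β => (hSb i a b β).1
      have a2 : ∫ x, Si g p k M A B (z a b) i x ∂nu k ≤ g.bb * g.gm := by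
        refine (integral_mono (hSi i a b) (integrable_const _) fun β => (hSb i a b β).2).trans ?_
        simp
      simp only [ξ]
      rw [abs_mul, abs_of_nonneg hθ0]
      refine mul_le_mul hθ (abs_le.2 ⟨?_, ?_⟩) (abs_nonneg _) (hθ0.trans hθ)
      · linarith [(hSb i a b β).1]
      · linarith [(hSb i a b β).2])
    (fun i a b => by
      simp only [ξ]
      rw [integral_const_mul, integral_sub (hSi i a b) (integrable_const _)]
      simp)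
    (le_trans (mul_le_mul_of_nonneg_right hok.card
      (pow_nonneg (mul_nonneg (hθ0.trans hθ) hb0) 3)) hL)
  have hξ : ∀ (β : ι → Fin k → E) a b, ∑ i ∈ s, ξ i (β i) a b =
      κ * ((N1 : ℝ) - N) * (Sz g p k M s A B (z a b) β - mz g p k M s A B (z a b)) := by
    intro β a b
    simp only [ξ, Sz, mz, ← mul_sum, sum_sub_distrib]
  let I := range (K + 1) ×ˢ range (K + 1)
  have hI : ∀ x ∈ I, x.1 ≤ K ∧ x.2 ≤ K := fun x hx => by
    simp only [I, mem_product, mem_range] at hx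
    omega
  have hIc : I.card = (K + 1) ^ 2 := by simp [I, sq]
  let bad : ℕ × ℕ → Set (ι → Fin k → E) := fun x =>
    {β | Sz g p k M s A B (z x.1 x.2) β ≤ mz g p k M s A B (z x.1 x.2) - hmax} ∪
      {β | mz g p k M s A B (z x.1 x.2) + hmax ≤ Sz g p k M s A B (z x.1 x.2) β} ∪
      {β | g.W ≤ Cz g p k M s A B (z x.1 x.2) β}
  have hbad : ∀ x ∈ I, (Measure.pi fun _ : ι => nu k) (bad x) ≤
      ENNReal.ofReal (2 * Real.exp (-(hmax ^ 2 / (4 * V))) + πc) := by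
    intro x hx
    have b := bf x.1 (hI x hx).1 x.2 (hI x hx).2
    refine (measure_union_le _ _).trans ?_
    rw [ENNReal.ofReal_add (by positivity) ((Real.exp_pos _).le.trans H.hπ), two_mul,
      ENNReal.ofReal_add (by positivity) (by positivity)]
    refine add_le_add ((measure_union_le _ _).trans (add_le_add ((b.2.1 hmax hm0).trans
      (ENNReal.ofReal_le_ofReal ?_)) (b.2.2.1 hmax hm0 hmb))) b.2.2.2.1
    rw [Real.exp_le_exp, neg_le_neg_iff]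
    have := H.V0
    exact div_le_div_of_nonneg_left (by positivity) (by positivity) (by linarith)
  refine (refine_le hC k M 𝓜 (measPred_grid K hΦ _ _ _ _ (inv_pos.2 hM0)) s A B
    ({β | ¬ (EnGe K (fun a b => Real.exp (∑ i ∈ s, ξ i (β i) a b)) (1 / 7) ∨
      EnGe K (fun a b => Real.exp (∑ i ∈ s, ξ i (β i) b a)) (1 / 7))} ∪ ⋃ x ∈ I, bad x)
    (((K + 1) ^ 2 : ℕ) * δ) fun β hβ => ?_).trans
    (add_le_add_left ((measure_union_le _ _).trans (add_le_add hen ?_)) _)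
  swap
  · refine (measure_biUnion_finset_le _ _).trans ((sum_le_card_nsmul _ _ _ hbad).trans ?_)
    rw [hIc, nsmul_eq_mul]
  simp only [Set.mem_union, Set.mem_ofPred_eq, not_or, not_not, Set.mem_iUnion, not_exists,
    bad, not_le, not_and_or] at hβ
  obtain ⟨hβ1, hβ2⟩ := hβ
  let n : ℕ → ℕ → ℕ := fun a b => min N1 ⌊Sz g p k M s A B (z a b) β⌋₊
  have hmem : ∀ a ≤ K, ∀ b ≤ K, (a, b) ∈ I := fun a ha b hb => by
    simp only [I, mem_product, mem_range]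
    omega
  have hS : ∀ a ≤ K, ∀ b ≤ K, N + (Sz g p k M s A B (z a b) β - mz g p k M s A B (z a b)) - e + 1
      ≤ Sz g p k M s A B (z a b) β := fun a ha b hb => by linarith [(bf a ha b hb).1]
  have hpot : ∀ a ≤ K, ∀ b ≤ K, Real.exp (-(θ * e + κ * (hmax + e) ^ 2 / 2)) * potF N1 κ N *
      Real.exp (∑ i ∈ s, ξ i (β i) a b) ≤ potF N1 κ (n a b) := fun a ha b hb => by
    rw [hξ]
    have := hβ2 (a, b) (hmem a ha b hb)
    exact pot_cond hκ hθ he0 (abs_le.2 ⟨by linarith [this.1.1], by linarith [this.1.2]⟩)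
      (hS a ha b hb)
  have hτ : Real.exp (-(θ * e + κ * (hmax + e) ^ 2 / 2)) / 7 * potF N1 κ N =
      Real.exp (-(θ * e + κ * (hmax + e) ^ 2 / 2)) * potF N1 κ N * (1 / 7) := by ring
  have hl0 : 0 ≤ Real.exp (-(θ * e + κ * (hmax + e) ^ 2 / 2)) * potF N1 κ N := by
    unfold potF; positivity
  have hEn : EnGe K (fun i j => potF N1 κ (n i j))
        (Real.exp (-(θ * e + κ * (hmax + e) ^ 2 / 2)) / 7 * potF N1 κ N) ∨
      EnGe K (fun i j => potF N1 κ (n j i))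
        (Real.exp (-(θ * e + κ * (hmax + e) ^ 2 / 2)) / 7 * potF N1 κ N) := by
    rw [hτ]
    rcases hβ1 with h1 | h1
    · exact Or.inl (EnGe_scale hl0 (fun i hi j hj => hpot i hi.le j hj.le) h1)
    · exact Or.inr (EnGe_scale hl0 (fun i hi j hj => hpot j hj.le i hi.le) h1)
  have hsub : {ω : ι × Fin (k + 1) → 𝓜.X | ¬ GridP K Φ (potF N1 κ)
      (Real.exp (-(θ * e + κ * (hmax + e) ^ 2 / 2)) / 7 * potF N1 κ N) 0 d M⁻¹
      (famT (refine hC k M 𝓜) s A B fun i => (β i, fun l => ω (i, l)))} ⊆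
      ⋃ x ∈ I, {ω | ¬ Φ (n x.1 x.2) (famT 𝓜 (chS g p k M s A B (z x.1 x.2) β)
        (chA k M A B (z x.1 x.2) β) (chB k M A B (z x.1 x.2) β) ω)} := by
    intro ω hω
    by_contra hcon
    simp only [Set.mem_iUnion, Set.mem_ofPred_eq, not_exists, not_not] at hcon
    refine hω ⟨n, fun a ha b hb => ?_, hEn⟩
    rw [zero_add]
    exact hΦ' _ _ _ (child_subset hC g p k hM0 𝓜 s A B (z a b) β ω) (hcon (a, b) (hmem a ha b hb))
  refine (measure_mono hsub).trans ((measure_biUnion_finset_le _ _).trans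
    ((sum_le_card_nsmul _ _ δ fun x hx => ?_).trans (by rw [hIc, nsmul_eq_mul])))
  have h1 := hβ2 x hx
  have h2 := hS x.1 (hI x hx).1 x.2 (hI x hx).2
  have h01 : N00 ≤ N1 := by
    have : (N00 : ℝ) ≤ N1 := by linarith
    exact_mod_cast this
  exact win_child H.mom.hk M h01 hw s A B _ β (by linarith [h1.1.1]) h1.2.le

end Pool.Agent.MP_037c5a_pr
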