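import Pool.Agent.MP_037c5a_pr.Defs

open MeasureTheory Finset

namespace Pool.Agent.MP_037c5a_pr

/-- job Energy: duality + Lindeberg symmetrisation -/
def StmtEnergy : Prop :=
  ∀ (ι : Type) [Fintype ι] (Ω : Type) [MeasurableSpace Ω] (μ : Measure Ω) [IsProbabilityMeasure μ]
    (K : ℕ), 1 ≤ K → ∀ (ξ : ι → Ω → ℕ → ℕ → ℝ) (δ : ℝ),
    (∀ i a b, Measurable fun ω => ξ i ω a b) → 0 ≤ δ → δ ≤ 1 / 10 →
    (∀ i ω a b, |ξ i ω a b| ≤ δ) → (∀ i a b, ∫ ω, ξ i ω a b ∂μ = 0) →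
    (Fintype.card ι : ℝ) * δ ^ 3 ≤ 1 / 100000 →
    (Measure.pi fun _ : ι => μ)
      {ω | ¬ (EnGe K (fun a b => Real.exp (∑ i, ξ i (ω i) a b)) (1 / 7) ∨
              EnGe K (fun a b => Real.exp (∑ i, ξ i (ω i) b a)) (1 / 7))} ≤
      ENNReal.ofReal (2 / 3)

/-- job Conc: four tail bounds for sums of independent variables with values in `[0,b]` -/
def StmtConc : Prop :=
  ∀ (ι : Type) [Fintype ι] (Ω : Type) [MeasurableSpace Ω] (μ : Measure Ω) [IsProbabilityMeasure μ]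
    (S : ι → Ω → ℝ) (b : ℝ), 0 < b → (∀ i, Measurable (S i)) → (∀ i ω, 0 ≤ S i ω ∧ S i ω ≤ b) →
    (∀ V y : ℝ, 0 < V → 0 ≤ y → ∑ i, ∫ ω, S i ω ^ 2 ∂μ ≤ V →
      (Measure.pi fun _ : ι => μ) {ω | ∑ i, S i (ω i) ≤ ∑ i, ∫ x, S i x ∂μ - y} ≤
        ENNReal.ofReal (Real.exp (-(y ^ 2 / (2 * V))))) ∧
    (∀ V y : ℝ, 0 < V → 0 ≤ y → y * b ≤ 2 * V → ∑ i, ∫ ω, S i ω ^ 2 ∂μ ≤ V →
      (Measure.pi fun _ : ι => μ) {ω | ∑ i, ∫ x, S i x ∂μ + y ≤ ∑ i, S i (ω i)} ≤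
        ENNReal.ofReal (Real.exp (-(y ^ 2 / (4 * V))))) ∧
    (∀ m W : ℝ, ∑ i, ∫ ω, S i ω ∂μ ≤ m →
      (Measure.pi fun _ : ι => μ) {ω | W ≤ ∑ i, S i (ω i)} ≤
        ENNReal.ofReal (Real.exp (-((W - 2 * m) / b)))) ∧
    (∀ lam V₁ V₂ : ℝ, 0 < lam → lam * b ≤ 1 / 2 →
      V₁ ≤ ∑ i, (∫ ω, S i ω ^ 2 ∂μ - (∫ ω, S i ω ∂μ) ^ 2) → ∑ i, ∫ ω, S i ω ^ 2 ∂μ ≤ V₂ →
      (Measure.pi fun _ : ι => μ)
        {ω | ∑ i, S i (ω i) < ∑ i, ∫ x, S i x ∂μ + (lam * V₁ / 4 - 1 / lam)} ≤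
        ENNReal.ofReal (1 - Real.exp (-(4 * lam ^ 2 * V₂)) / 4))

/-- job Chain, part 1: marginals of the discrete Gaussian bridge -/
structure StmtChain : Prop where
  gam_prob : IsProbabilityMeasure gam
  nu_prob : ∀ k, IsProbabilityMeasure (nu k)
  ph_int : ∀ t : ℝ, 0 < t → ∀ a : E, ∫⁻ y, ENNReal.ofReal (ph t (y - a)) = 1
  meas_bp : ∀ k l, Measurable fun x : E × E × (Fin k → E) => bp k x.1 x.2.1 x.2.2 l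
  one_edge : ∀ (k l : ℕ) (P Q : E) (κ : E → E → ENNReal), Measurable (Function.uncurry κ) →
    1 ≤ l → l + 1 ≤ k →
    ∫⁻ β, κ (bp k P Q β l) (bp k P Q β (l + 1)) ∂nu k =
      (ENNReal.ofReal (ph (k + 1) (Q - P)))⁻¹ *
        ∫⁻ u, ∫⁻ u', ENNReal.ofReal (ph l (u - P)) * ENNReal.ofReal (ph 1 (u' - u)) * κ u u' *
          ENNReal.ofReal (ph (k - l) (Q - u'))
  two_edge : ∀ (k l l' : ℕ) (P Q : E) (κ κ' : E → E → ENNReal), Measurable (Function.uncurry κ) →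
    Measurable (Function.uncurry κ') → 1 ≤ l → l + 2 ≤ l' → l' + 1 ≤ k →
    ∫⁻ β, κ (bp k P Q β l) (bp k P Q β (l + 1)) * κ' (bp k P Q β l') (bp k P Q β (l' + 1)) ∂nu k =
      (ENNReal.ofReal (ph (k + 1) (Q - P)))⁻¹ *
        ∫⁻ u, ∫⁻ u', ENNReal.ofReal (ph l (u - P)) * ENNReal.ofReal (ph 1 (u' - u)) * κ u u' *
          ∫⁻ v, ∫⁻ v', ENNReal.ofReal (ph (l' - l - 1) (v - u')) * ENNReal.ofReal (ph 1 (v' - v)) *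
            κ' v v' * ENNReal.ofReal (ph (k - l') (Q - v'))
  khas : ∀ (k : ℕ) (P Q : E) (w : Finset ℕ) (D c Φ : ℝ), 0 < D → 0 ≤ c → 0 ≤ Φ →
    (∀ l ∈ w, 1 ≤ l ∧ l ≤ k) →
    (∀ l ∈ w, ∀ u : E, ‖u‖ ≤ D → ph (k + 1 - l) (Q - u) ≤ Φ) →
    c * (2 * D ^ 2 * (1 + Real.log (k + 1))) ≤ 1 / 2 →
    ∫⁻ β, ∏ l ∈ w, ENNReal.ofReal (1 + if ‖bp k P Q β l‖ ≤ D then c else 0) ∂nu k ≤
      ENNReal.ofReal (1 + Φ / ph (k + 1) (Q - P))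

/-- job Chain, part 2: a free Gaussian walk splits into its end point and an independent bridge -/
def StmtSplit : Prop :=
  ∀ (k : ℕ) (M : ℝ), 0 < M → M ^ 2 = k + 1 →
    MeasurePreserving
      (fun c : Fin (k + 1) → E =>
        (M⁻¹ • ∑ i, c i,
          fun l : Fin k => (∑ i ∈ univ.filter (fun i : Fin (k + 1) => i.val ≤ l.val), c i) - (((l : ℝ) + 1) / (k + 1)) • ∑ i, c i))
      (Measure.pi fun _ : Fin (k + 1) => gam) (gam.prod (nu k))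

/-- hypotheses of the one-segment moment bounds -/
structure MomHyp (q q0 p k bb : ℕ) (D M η : ℝ) : Prop where
  hq0 : 1 ≤ q0
  hq : 4 * q0 ≤ q
  hp : 1 ≤ p
  hk : k + 1 = q * p
  hM : 0 < M
  hM2 : M ^ 2 = k + 1
  hD : 4 ≤ D
  hη1 : 2 / (q : ℝ) ≤ η
  hη2 : η ≤ 1
  hζ : η * (3 * (D + 1) ^ 2 * ((q : ℝ) / q0) ^ 2) ≤ 1 / 4

/-- job Moments -/
structure StmtMom : Prop where
  gk_bd : ∀ (q q0 : ℕ) (A B : E), 1 ≤ q0 → 0 ≤ gk q q0 A B ∧ gk q q0 A B ≤ 1 + Real.log q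
  gk_lb : ∀ (q q0 : ℕ) (A B : E), 1 ≤ q0 → 4 * q0 ≤ q → ‖A‖ ^ 2 ≤ (q0 : ℝ) / q →
    ‖B‖ ^ 2 ≤ (q0 : ℝ) / q → 1 / 20 ≤ gk q q0 A B
  meas_S : ∀ (q q0 p k bb : ℕ) (D : ℝ) (P Q : E), Measurable (Sv q q0 p k bb D P Q)
  meas_C : ∀ (q q0 p k bb : ℕ) (D : ℝ) (P Q : E), Measurable (Cv q q0 p k bb D P Q)
  mom : ∀ (q q0 p k bb : ℕ) (D M η : ℝ), MomHyp q q0 p k bb D M η →
    ∀ A B z : E, ‖A‖ ≤ D → ‖B‖ ≤ D → ‖z‖ + D / M ≤ η →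
    ∀ ζ H gm tl : ℝ, ζ = η * (3 * (D + 1) ^ 2 * ((q : ℝ) / q0) ^ 2) → H = 1 + Real.log (k + 1) →
      gm = 1 + Real.log q →
      tl = (1 + Real.exp (2 * D ^ 2) * q / q0) * Real.exp (-(bb / (8 * D ^ 2 * H))) →
      ((1 - 2 * ζ) * (1 - 2 * q0 / q - 4 * Real.exp (-(D ^ 2 / 4))) * gk q q0 A B - (k + 1) * gm * tl
          ≤ ∫ β, Sv q q0 p k bb D (M • (A - z)) (M • (B - z)) β ∂nu k) ∧
      (∫ β, Sv q q0 p k bb D (M • (A - z)) (M • (B - z)) β ∂nu k ≤ 2 * gk q q0 A B) ∧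
      (∫ β, Cv q q0 p k bb D (M • (A - z)) (M • (B - z)) β ∂nu k ≤ 22 * D ^ 2 * gk q q0 A B) ∧
      (∫ β, Sv q q0 p k bb D (M • (A - z)) (M • (B - z)) β ^ 2 ∂nu k ≤
          2 * (3 * gm + H) * gk q q0 A B) ∧
      (2 * D ^ 2 + 1 ≤ p →
        Real.log (p / (2 * D ^ 2 + 1)) / 400 * gk q q0 A B - ((k + 1) * gm) ^ 2 * tl ≤
          ∫ β, Sv q q0 p k bb D (M • (A - z)) (M • (B - z)) β ^ 2 ∂nu k)

end Pool.Agent.MP_037c5a_pr
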